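import Pool.Agent.Lib.MP_c9b009_ag.B5.Spec

section
/-!
# MP_c9b009_ag, row B5, module BIG
-/
set_option autoImplicit false

namespace Pool.Agent.Lib.MPc9b009.B5

open MvPolynomial

namespace BIGM

theorem trdeg_top {N : ℕ} (q : Ideal (MvPolynomial (Fin N) ℂ)) (hq : q.IsPrime)
    (h : ∀ i, (X i : MvPolynomial (Fin N) ℂ) ∈ q) :
    Algebra.trdeg ℂ (MvPolynomial (Fin N) ℂ ⧸ q) = 0 := by
  have hsurj : Function.Surjective (algebraMap ℂ (MvPolynomial (Fin N) ℂ ⧸ q)) := by
    intro z
    obtain ⟨g, rfl⟩ := Ideal.Quotient.mk_surjective z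
    induction g using MvPolynomial.induction_on with
    | C a => exact ⟨a, rfl⟩
    | add p r hp hr =>
      obtain ⟨a, ha⟩ := hp
      obtain ⟨b, hb⟩ := hr
      exact ⟨a + b, by rw [map_add, map_add, ha, hb]⟩
    | mul_X p i hp =>
      refine ⟨0, ?_⟩
      rw [map_zero, map_mul, Ideal.Quotient.eq_zero_iff_mem.2 (h i), mul_zero]
  have : Nontrivial (MvPolynomial (Fin N) ℂ ⧸ q) := Ideal.Quotient.nontrivial_iff.2 hq.ne_top
  have : Algebra.IsIntegral ℂ (MvPolynomial (Fin N) ℂ ⧸ q) := Algebra.IsIntegral.of_surjective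
    (Algebra.ofId ℂ (MvPolynomial (Fin N) ℂ ⧸ q)) hsurj
  exact trdeg_eq_zero

end BIGM

theorem specBIG : SpecBIG := by
  intro N s f q hq hhom hz hd
  have := hq
  have hx : ∃ i, (X i : MvPolynomial (Fin N) ℂ) ∉ q := by
    by_contra hcon
    push Not at hcon
    rw [BIGM.trdeg_top q hq hcon] at hd
    have h2 : s + 2 ≤ 0 := by exact_mod_cast hd
    omega
  obtain ⟨i, hi⟩ := hx
  have hle : van f s ≤ q := by
    intro g hg
    have h1 : X i * g ∈ vanishingIdeal ℂ (zeroLocus ℂ q) := by
      rw [mem_vanishingIdeal_iff]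
      intro x hxz
      rw [mem_zeroLocus_iff] at hxz
      have hxz' : ∀ g ∈ q, eval x g = 0 := by
        intro g hg
        have := hxz g hg
        simpa [aeval_eq_eval] using this
      rw [map_mul]
      rcases eq_or_ne x 0 with rfl | hx0
      · simp
      · have h2 : eval x g = 0 := hg x hx0 (hz x hx0 hxz')
        have h3 : (aeval x) g = (0 : ℂ) := by simpa [aeval_eq_eval] using h2
        rw [h3, mul_zero]
    rw [IsPrime.vanishingIdeal_zeroLocus] at h1
    exact (hq.mem_or_mem h1).resolve_left hi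
  obtain ⟨P, hP, hPq⟩ := Ideal.exists_minimalPrimes_le hle
  refine ⟨P, hP, hd.trans ?_⟩
  exact trdeg_le_of_surjective (Ideal.Quotient.factorₐ ℂ hPq)
    (Ideal.Quotient.factor_surjective hPq)

end Pool.Agent.Lib.MPc9b009.B5
end

section
/-!
# MP_c9b009_ag, row B5: preparations for Theorem B* (chain rule, cofactors, fraction fields)
-/
set_option autoImplicit false

namespace Pool.Agent.Lib.MPc9b009.B5

open MvPolynomial

namespace BSTM

/-- Chain rule for derivations. -/
theorem der_poly {N : ℕ} {L : Type} [CommRing L] [Algebra ℂ L]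
    (φ : MvPolynomial (Fin N) ℂ →ₐ[ℂ] L) (D : Derivation ℂ L L) (g : MvPolynomial (Fin N) ℂ) :
    D (φ g) = ∑ k, φ (pderiv k g) * D (φ (X k)) := by
  induction g using MvPolynomial.induction_on with
  | C a =>
    have h1 : φ (C a) = algebraMap ℂ L a := φ.commutes a
    rw [h1, Derivation.map_algebraMap]
    symm
    apply Finset.sum_eq_zero
    intro k _
    rw [pderiv_C, map_zero, zero_mul]
  | add p q hp hq =>
    rw [map_add, map_add, hp, hq, ← Finset.sum_add_distrib]
    refine Finset.sum_congr rfl fun k _ => ?_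
    rw [map_add, map_add, add_mul]
  | mul_X p n hp =>
    rw [map_mul, Derivation.leibniz, hp, smul_eq_mul, smul_eq_mul]
    have h2 : ∀ k : Fin N, φ (pderiv k (p * X n)) * D (φ (X k)) =
        φ p * (φ (pderiv k (X n)) * D (φ (X k))) + φ (X n) * (φ (pderiv k p) * D (φ (X k))) := by
      intro k
      rw [Derivation.leibniz, smul_eq_mul, smul_eq_mul, map_add, map_mul, map_mul]
      ring
    simp only [h2]
    rw [Finset.sum_add_distrib, ← Finset.mul_sum, ← Finset.mul_sum]
    congr 1
    congr 1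
    rw [Finset.sum_eq_single n]
    · rw [pderiv_X_self, map_one, one_mul]
    · intro k _ hk
      rw [pderiv_X_of_ne (Ne.symm hk), map_zero, zero_mul]
    · intro h
      exact absurd (Finset.mem_univ n) h

/-- Cofactors of the first column. -/
noncomputable def cof {N r ρ : ℕ} (π : Fin N → Fin r → MvPolynomial (Fin N) ℂ)
    (I : Fin (ρ + 1) → Fin N) (J : Fin ρ → Fin r) (a : Fin (ρ + 1)) : MvPolynomial (Fin N) ℂ :=
  (-1) ^ (a : ℕ) * (Matrix.of fun (a' : Fin ρ) (b : Fin ρ) => π (I (a.succAbove a')) (J b)).det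

theorem cof_sum {N r ρ : ℕ} (π : Fin N → Fin r → MvPolynomial (Fin N) ℂ)
    (I : Fin (ρ + 1) → Fin N) (J : Fin ρ → Fin r) (w : Fin N → MvPolynomial (Fin N) ℂ) :
    ∑ a, cof π I J a * w (I a) = (Matrix.of fun (a : Fin (ρ + 1)) (b : Fin (ρ + 1)) =>
      (Fin.cons (w (I a)) (fun b' => π (I a) (J b')) : Fin (ρ + 1) → MvPolynomial (Fin N) ℂ) b).det
    := by
  rw [Matrix.det_succ_column_zero]
  refine Finset.sum_congr rfl fun a _ => ?_
  have h1 : (Matrix.of fun (a : Fin (ρ + 1)) (b : Fin (ρ + 1)) =>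
      (Fin.cons (w (I a)) (fun b' => π (I a) (J b')) : Fin (ρ + 1) → MvPolynomial (Fin N) ℂ) b)
        a 0 = w (I a) := rfl
  have h2 : (Matrix.of fun (a : Fin (ρ + 1)) (b : Fin (ρ + 1)) =>
      (Fin.cons (w (I a)) (fun b' => π (I a) (J b')) : Fin (ρ + 1) → MvPolynomial (Fin N) ℂ)
        b).submatrix a.succAbove Fin.succ =
      Matrix.of fun (a' : Fin ρ) (b : Fin ρ) => π (I (a.succAbove a')) (J b) := by
    ext i j
    rfl
  rw [h1, h2]
  unfold cof
  ring

theorem cof_x {N r ρ : ℕ} (π : Fin N → Fin r → MvPolynomial (Fin N) ℂ)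
    (I : Fin (ρ + 1) → Fin N) (J : Fin ρ → Fin r) :
    ∑ a, cof π I J a * X (I a) = xmnr π I J := cof_sum π I J X

theorem cof_pi {N r ρ : ℕ} (π : Fin N → Fin r → MvPolynomial (Fin N) ℂ)
    (I : Fin (ρ + 1) → Fin N) (J : Fin ρ → Fin r) (j : Fin r) :
    ∑ a, cof π I J a * π (I a) j = mnr π I (Fin.cons j J) := by
  rw [cof_sum π I J fun i => π i j]
  unfold mnr
  congr 1
  ext a b
  refine Fin.cases ?_ (fun b' => ?_) b
  · rfl
  · rfl

/-- Extension of a derivation to the fraction field. -/
theorem ext_frac {A K : Type} [CommRing A] [IsDomain A] [Field K] [Algebra A K]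
    [IsFractionRing A K] [Algebra ℂ A] [Algebra ℂ K] [IsScalarTower ℂ A K]
    (d : Derivation ℂ A A) :
    ∃ D : Derivation ℂ K K, ∀ f : A, D (algebraMap A K f) = algebraMap A K (d f) := by
  let d' : Derivation ℂ A K := (Algebra.linearMap A K).compDer d
  let l : Ω[A⁄ℂ] →ₗ[A] K := d'.liftKaehlerDifferential
  let L0 : Ω[K⁄ℂ] →ₗ[A] K := IsLocalizedModule.lift (nonZeroDivisors A)
    (KaehlerDifferential.map ℂ ℂ A K) l (by
      intro x
      rw [Module.End.isUnit_iff]
      have hx : algebraMap A K x ≠ 0 := by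
        intro h
        exact nonZeroDivisors.ne_zero x.2 ((IsFractionRing.injective A K) (by rw [h, map_zero]))
      constructor
      · intro a b hab
        simp only [Module.algebraMap_end_apply, Algebra.smul_def] at hab
        exact mul_left_cancel₀ hx hab
      · intro b
        refine ⟨(algebraMap A K x)⁻¹ * b, ?_⟩
        simp only [Module.algebraMap_end_apply, Algebra.smul_def]
        exact mul_inv_cancel_left₀ hx b)
  let L1 : Ω[K⁄ℂ] →ₗ[K] K := L0.extendScalarsOfIsLocalization (nonZeroDivisors A) K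
  refine ⟨L1.compDer (KaehlerDifferential.D ℂ K), ?_⟩
  intro f
  have h1 : L1 (KaehlerDifferential.D ℂ K (algebraMap A K f)) =
      L0 (KaehlerDifferential.map ℂ ℂ A K (KaehlerDifferential.D ℂ A f)) := by
    rw [KaehlerDifferential.map_D]
    rfl
  change L1 (KaehlerDifferential.D ℂ K (algebraMap A K f)) = _
  rw [h1, IsLocalizedModule.lift_apply]
  simp only [l, Derivation.liftKaehlerDifferential_comp_D]
  rfl

/-- A vector field which preserves a prime ideal induces a derivation of the fraction field. -/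
theorem ext_vf {N : ℕ} (p : Ideal (MvPolynomial (Fin N) ℂ)) [p.IsPrime]
    (w : Fin N → MvPolynomial (Fin N) ℂ) (hw : ∀ g ∈ p, ∑ i, w i * pderiv i g ∈ p) :
    ∃ D : Derivation ℂ (FractionRing (MvPolynomial (Fin N) ℂ ⧸ p))
        (FractionRing (MvPolynomial (Fin N) ℂ ⧸ p)),
      ∀ k, D (algebraMap _ _ (Ideal.Quotient.mk p (X k)))
        = algebraMap _ _ (Ideal.Quotient.mk p (w k)) := by
  let d0 : Derivation ℂ (MvPolynomial (Fin N) ℂ) (MvPolynomial (Fin N) ℂ) := mkDerivation ℂ w
  have h0 : ∀ g, d0 g = ∑ i, w i * pderiv i g := by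
    intro g
    have h := der_poly (AlgHom.id ℂ (MvPolynomial (Fin N) ℂ)) d0 g
    simp only [AlgHom.id_apply] at h
    rw [h]
    refine Finset.sum_congr rfl fun k _ => ?_
    rw [mkDerivation_X, mul_comm]
  let d1 : Derivation ℂ (MvPolynomial (Fin N) ℂ ⧸ p) (MvPolynomial (Fin N) ℂ ⧸ p) :=
    Derivation.liftOfSurjective (f := Ideal.Quotient.mkₐ ℂ p) (Ideal.Quotient.mkₐ_surjective ℂ p)
      (d := d0) (by
        intro x hx
        rw [Ideal.Quotient.mkₐ_eq_mk, Ideal.Quotient.eq_zero_iff_mem] at hx ⊢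
        rw [h0]
        exact hw x hx)
  obtain ⟨D, hD⟩ := ext_frac (K := FractionRing (MvPolynomial (Fin N) ℂ ⧸ p)) d1
  refine ⟨D, fun k => ?_⟩
  rw [hD]
  congr 1
  change d1 (Ideal.Quotient.mkₐ ℂ p (X k)) = _
  rw [Derivation.liftOfSurjective_apply, mkDerivation_X, Ideal.Quotient.mkₐ_eq_mk]

/-- Determinants with all rows in the span of a finite family. -/
theorem det_span {A L σ : Type} [CommRing A] [Field L] [Algebra A L] [Fintype σ] [DecidableEq σ]
    {N : ℕ} (dx : Fin N → σ → L) (R : σ → σ → L)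
    (hR : ∀ s, R s ∈ Submodule.span A (Set.range dx)) :
    (Matrix.of R).det ∈ Submodule.span A
      (Set.range fun K : σ → Fin N => (Matrix.of fun s => dx (K s)).det) := by
  have h1 : ∀ s, ∃ c : Fin N → A, ∑ k, c k • dx k = R s := by
    intro s
    exact (Submodule.mem_span_range_iff_exists_fun A).1 (hR s)
  choose c hc using h1
  have h2 : R = fun s => ∑ k, (algebraMap A L (c s k)) • dx k := by
    funext s
    rw [← hc s]
    refine Finset.sum_congr rfl fun k _ => ?_
    rw [algebraMap_smul]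
  have h3 : (Matrix.of R).det = ∑ K : σ → Fin N, (∏ s, algebraMap A L (c s (K s))) *
      (Matrix.of fun s => dx (K s)).det := by
    have h4 := (Matrix.detRowAlternating (R := L) (n := σ)).toMultilinearMap.map_sum
      (fun s k => (algebraMap A L (c s k)) • dx k)
    have h5 : (Matrix.of R).det = (Matrix.detRowAlternating (R := L) (n := σ)).toMultilinearMap
        (fun s => ∑ k, (algebraMap A L (c s k)) • dx k) := by
      rw [h2]
      rfl
    rw [h5, h4]
    refine Finset.sum_congr rfl fun K _ => ?_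
    have h6 := (Matrix.detRowAlternating (R := L) (n := σ)).toMultilinearMap.map_smul_univ
      (fun s => algebraMap A L (c s (K s))) (fun s => dx (K s))
    exact h6
  rw [h3]
  refine Submodule.sum_mem _ fun K _ => ?_
  rw [← map_prod, ← Algebra.smul_def]
  exact Submodule.smul_mem _ _ (Submodule.subset_span ⟨K, rfl⟩)

end BSTM

end Pool.Agent.Lib.MPc9b009.B5
end

section
/-!
# MP_c9b009_ag, row B5: the core of Theorem B* for abstract domains
-/
set_option autoImplicit false

namespace Pool.Agent.Lib.MPc9b009.B5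

open MvPolynomial

namespace BSTM

theorem fin_dim {N : ℕ} {σ A L : Type} [Fintype σ] [CommRing A] [IsDomain A] [Algebra ℂ A]
    [Field L] [Algebra A L] [IsFractionRing A L] [Algebra ℂ L] [IsScalarTower ℂ A L]
    [Algebra (MvPolynomial σ ℂ) L] [Algebra (FractionRing (MvPolynomial σ ℂ)) L]
    [IsScalarTower (MvPolynomial σ ℂ) (FractionRing (MvPolynomial σ ℂ)) L]
    [IsScalarTower ℂ (MvPolynomial σ ℂ) L]
    (φ₀ : MvPolynomial (Fin N) ℂ →ₐ[ℂ] A) (hφ₀ : Function.Surjective φ₀)
    (hint : ∀ z : A, IsIntegral (MvPolynomial σ ℂ) (algebraMap A L z)) :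
    FiniteDimensional (FractionRing (MvPolynomial σ ℂ)) L := by
  set F := FractionRing (MvPolynomial σ ℂ)
  set T : Set L := Set.range fun k : Fin N => algebraMap A L (φ₀ (X k)) with hT
  have h1 : FiniteDimensional F (IntermediateField.adjoin F T) := by
    apply IntermediateField.finiteDimensional_adjoin
    rintro x ⟨k, rfl⟩
    exact (hint _).tower_top
  have h2 : ∀ G : MvPolynomial (Fin N) ℂ, algebraMap A L (φ₀ G) ∈ IntermediateField.adjoin F T := by
    intro G
    induction G using MvPolynomial.induction_on with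
    | C a =>
      have h3 : algebraMap A L (φ₀ (C a)) = algebraMap F L (algebraMap (MvPolynomial σ ℂ) F
          (algebraMap ℂ (MvPolynomial σ ℂ) a)) := by
        rw [← IsScalarTower.algebraMap_apply (MvPolynomial σ ℂ) F L,
          ← IsScalarTower.algebraMap_apply ℂ (MvPolynomial σ ℂ) L]
        have h4 : φ₀ (C a) = algebraMap ℂ A a := φ₀.commutes a
        rw [h4, ← IsScalarTower.algebraMap_apply ℂ A L]
      rw [h3]
      exact IntermediateField.algebraMap_mem _ _
    | add p q hp hq =>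
      rw [map_add, map_add]
      exact add_mem hp hq
    | mul_X p n hp =>
      rw [map_mul, map_mul]
      exact mul_mem hp (IntermediateField.subset_adjoin F T ⟨n, rfl⟩)
  have h3 : IntermediateField.adjoin F T = ⊤ := by
    rw [eq_top_iff]
    intro z _
    obtain ⟨a, b, -, rfl⟩ := IsFractionRing.div_surjective (A := A) z
    obtain ⟨a', rfl⟩ := hφ₀ a
    obtain ⟨b', rfl⟩ := hφ₀ b
    exact div_mem (h2 a') (h2 b')
  rw [h3] at h1
  exact (IntermediateField.topEquiv (F := F) (E := L)).toLinearEquiv.finiteDimensional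

/-- (1d): the determinant vanishes. -/
theorem det_zero {σ L : Type} [Field L] [Fintype σ] [DecidableEq σ] {M m : ℕ}
    (V : Fin (M + 1) → σ → L) (W : Fin m → σ → L) (e : Fin (M + 1) ⊕ Fin m ≃ σ)
    (u : Fin (m + 2) → σ → L) (q : Fin (M + 1) → L)
    (hind : ∀ α : Fin (m + 2) → L, (∑ b, α b • u b) = 0 → α = 0)
    (hV0 : ∀ i, ∑ s, V i s * u 0 s = q i) (hV1 : ∀ i (b : Fin (m + 1)), ∑ s, V i s * u b.succ s = 0)
    (hq : q 0 ≠ 0) :
    (Matrix.of fun s => Sum.elim V W (e.symm s)).det = 0 := by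
  classical
  -- linear equations for α
  let T : (Fin (m + 2) → L) →ₗ[L] (Fin (m + 1) → L) :=
    LinearMap.pi (Fin.cons (∑ b, (∑ s, V 0 s * u b s) • LinearMap.proj b)
      (fun j => ∑ b, (∑ s, W j s * u b s) • LinearMap.proj b))
  have hT : LinearMap.ker T ≠ ⊥ := by
    apply LinearMap.ker_ne_bot_of_finrank_lt
    rw [Module.finrank_fin_fun, Module.finrank_fin_fun]
    omega
  obtain ⟨α, hα, hα0⟩ := Submodule.exists_mem_ne_zero_of_ne_bot hT
  rw [LinearMap.mem_ker] at hα
  have ha0 : ∑ b, (∑ s, V 0 s * u b s) * α b = 0 := by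
    have := congrFun hα 0
    simpa [T] using this
  have haj : ∀ j, ∑ b, (∑ s, W j s * u b s) * α b = 0 := by
    intro j
    have := congrFun hα j.succ
    simpa [T] using this
  let v : σ → L := ∑ b, α b • u b
  have hv : v ≠ 0 := fun h => hα0 (hind α h)
  have hsum : ∀ w : σ → L, ∑ s, w s * v s = ∑ b, (∑ s, w s * u b s) * α b := by
    intro w
    simp only [v, Finset.sum_apply, Pi.smul_apply, smul_eq_mul, Finset.mul_sum, Finset.sum_mul]
    rw [Finset.sum_comm]
    refine Finset.sum_congr rfl fun b _ => Finset.sum_congr rfl fun s _ => ?_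
    ring
  have hVi : ∀ i, ∑ s, V i s * v s = q i * α 0 := by
    intro i
    rw [hsum, Fin.sum_univ_succ, hV0]
    rw [Finset.sum_eq_zero, add_zero]
    intro b _
    rw [hV1, zero_mul]
  have hα00 : α 0 = 0 := by
    have h1 := hVi 0
    rw [hsum, ha0] at h1
    exact (mul_eq_zero.1 h1.symm).resolve_left hq
  have hmv : (Matrix.of fun s => Sum.elim V W (e.symm s)).mulVec v = 0 := by
    funext s
    simp only [Matrix.mulVec, dotProduct, Matrix.of_apply, Pi.zero_apply]
    rcases h : e.symm s with i | j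
    · change ∑ t, V i t * v t = 0
      rw [hVi, hα00, mul_zero]
    · change ∑ t, W j t * v t = 0
      rw [hsum, haj]
  by_contra hdet
  exact hv (Matrix.eq_zero_of_mulVec_eq_zero hdet hmv)

/-- The contradiction in the polynomial ring: `∏ X_i` is not in `(X_i², X_j)`. -/
theorem mono {M m : ℕ} (c : ℂ) (hc : c ≠ 0) (r : Fin M → MvPolynomial (Fin M ⊕ Fin m) ℂ)
    (t : Fin m → MvPolynomial (Fin M ⊕ Fin m) ℂ)
    (h : C c * ∏ i, X (Sum.inl i) = ∑ i, X (Sum.inl i) ^ 2 * r i + ∑ j, X (Sum.inr j) * t j) :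
    False := by
  classical
  let s0 : (Fin M ⊕ Fin m) →₀ ℕ := ∑ i : Fin M, Finsupp.single (Sum.inl i) 1
  have hs1 : ∀ i : Fin M, s0 (Sum.inl i) = 1 := by
    intro i
    simp only [s0, Finsupp.finsetSum_apply]
    rw [Finset.sum_eq_single i]
    · simp
    · intro j _ hj
      rw [Finsupp.single_apply, if_neg]
      intro h'
      exact hj (Sum.inl_injective h')
    · intro h'
      exact absurd (Finset.mem_univ i) h'
  have hs2 : ∀ j : Fin m, s0 (Sum.inr j) = 0 := by
    intro j
    simp only [s0, Finsupp.finsetSum_apply]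
    apply Finset.sum_eq_zero
    intro i _
    rw [Finsupp.single_apply, if_neg]
    intro h'
    cases h'
  have h1 : (∏ i : Fin M, X (Sum.inl i) : MvPolynomial (Fin M ⊕ Fin m) ℂ) = monomial s0 1 := by
    simp only [s0, X]
    rw [monomial_sum_one]
  have h2 := congrArg (coeff s0) h
  rw [h1, C_mul_monomial, mul_one, coeff_monomial, if_pos rfl, coeff_add, coeff_sum, coeff_sum] at h2
  rw [Finset.sum_eq_zero, Finset.sum_eq_zero, add_zero] at h2
  · exact hc h2
  · intro j _
    rw [coeff_X_mul', if_neg]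
    rw [Finsupp.mem_support_iff, hs2]
    exact fun h' => h' rfl
  · intro i _
    rw [pow_two, mul_assoc, coeff_X_mul']
    split_ifs with h'
    · rw [coeff_X_mul', if_neg]
      rw [Finsupp.mem_support_iff, Finsupp.tsub_apply, hs1]
      simp
    · rfl

end BSTM

end Pool.Agent.Lib.MPc9b009.B5
end

section
/-!
# MP_c9b009_ag, row B5: the core of Theorem B* for abstract domains, II
-/
set_option autoImplicit false

namespace Pool.Agent.Lib.MPc9b009.B5

open MvPolynomial

namespace BSTM

/-- The core, with the algebra structures given. -/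
theorem core_str (hTRA : SpecTRA) (hDEX : SpecDEX) (hCRA : SpecCRA)
    {N M m d r : ℕ} {A L : Type} [CommRing A] [IsDomain A] [Algebra ℂ A]
    [Field L] [Algebra A L] [IsFractionRing A L] [Algebra ℂ L] [IsScalarTower ℂ A L]
    [iRL : Algebra (MvPolynomial (Fin (M + 1) ⊕ Fin m) ℂ) L]
    [iFL : Algebra (FractionRing (MvPolynomial (Fin (M + 1) ⊕ Fin m) ℂ)) L]
    [iT : IsScalarTower (MvPolynomial (Fin (M + 1) ⊕ Fin m) ℂ)
      (FractionRing (MvPolynomial (Fin (M + 1) ⊕ Fin m) ℂ)) L]
    [iC : IsScalarTower ℂ (MvPolynomial (Fin (M + 1) ⊕ Fin m) ℂ) L]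
    (φ₀ : MvPolynomial (Fin N) ℂ →ₐ[ℂ] A) (hφ₀ : Function.Surjective φ₀)
    (Q : Fin (M + 1) → MvPolynomial (Fin N) ℂ) (Λ : Fin m → MvPolynomial (Fin N) ℂ)
    (hd : 1 ≤ d) (hQ : ∀ i, (Q i).IsHomogeneous d) (hΛ : ∀ j, (Λ j).IsHomogeneous 1)
    (hXQ : ∀ i, algebraMap (MvPolynomial (Fin (M + 1) ⊕ Fin m) ℂ) L (X (Sum.inl i))
      = algebraMap A L (φ₀ (Q i)))
    (hXΛ : ∀ j, algebraMap (MvPolynomial (Fin (M + 1) ⊕ Fin m) ℂ) L (X (Sum.inr j))
      = algebraMap A L (φ₀ (Λ j)))
    (hinj : Function.Injective (algebraMap (MvPolynomial (Fin (M + 1) ⊕ Fin m) ℂ) L))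
    (hint : ∀ z : A, IsIntegral (MvPolynomial (Fin (M + 1) ⊕ Fin m) ℂ) (algebraMap A L z))
    (δE : Derivation ℂ L L)
    (hE : ∀ k, δE (algebraMap A L (φ₀ (X k))) = algebraMap A L (φ₀ (X k)))
    (δ : Fin r → Derivation ℂ L L) (V : Fin (M + 1) → Fin N → A)
    (hVE : ∀ i, ∑ k, V i k * φ₀ (X k) = φ₀ (Q i))
    (hVδ : ∀ i j, ∑ k, algebraMap A L (V i k) * δ j (algebraMap A L (φ₀ (X k))) = 0)
    (J : Fin (m + 1) → Fin r)
    (hJ : ∀ α : Fin (m + 2) → L, (∀ k, α 0 * algebraMap A L (φ₀ (X k)) +
      ∑ b : Fin (m + 1), α b.succ * δ (J b) (algebraMap A L (φ₀ (X k))) = 0) → α = 0) :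
    False := by
  classical
  have iFD : FiniteDimensional (FractionRing (MvPolynomial (Fin (M + 1) ⊕ Fin m) ℂ)) L :=
    fin_dim φ₀ hφ₀ hint
  obtain ⟨dd, hdd, hdec⟩ := hDEX (Fin (M + 1) ⊕ Fin m) inferInstance inferInstance L inferInstance
    iRL iFL iT inferInstance iC iFD
  -- notation
  set x : Fin N → L := fun k => algebraMap A L (φ₀ (X k)) with hx
  set dx : Fin N → (Fin (M + 1) ⊕ Fin m) → L := fun k b => dd b (x k) with hdx
  -- chain rule for polynomials in x
  have hchain : ∀ (G : MvPolynomial (Fin N) ℂ) (D : Derivation ℂ L L),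
      D (algebraMap A L (φ₀ G)) = ∑ k, algebraMap A L (φ₀ (pderiv k G)) * D (x k) := by
    intro G D
    have h := der_poly ((IsScalarTower.toAlgHom ℂ A L).comp φ₀) D G
    simpa using h
  -- the vectors of derivations
  let vec : Derivation ℂ L L → (Fin (M + 1) ⊕ Fin m) → L := fun D b =>
    D (algebraMap (MvPolynomial (Fin (M + 1) ⊕ Fin m) ℂ) L (X b))
  have hvec : ∀ (D : Derivation ℂ L L) (k : Fin N), ∑ b, dx k b * vec D b = D (x k) := by
    intro D k
    rw [hdec D (x k)]
    refine Finset.sum_congr rfl fun b _ => ?_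
    rw [mul_comm]
  -- the functional E
  let Ef : ((Fin (M + 1) ⊕ Fin m) → L) →ₗ[L] L :=
    ∑ b, vec δE b • LinearMap.proj b
  have hEf : ∀ w, Ef w = ∑ b, w b * vec δE b := by
    intro w
    simp only [Ef, LinearMap.sum_apply, LinearMap.smul_apply, LinearMap.proj_apply, smul_eq_mul]
    refine Finset.sum_congr rfl fun b _ => ?_
    rw [mul_comm]
  -- P
  let P : Submodule A ((Fin (M + 1) ⊕ Fin m) → L) := Submodule.span A (Set.range dx)
  have hPsum : ∀ g : Fin N → A, (fun b => ∑ k, algebraMap A L (g k) * dx k b) ∈ P := by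
    intro g
    have h1 : (fun b => ∑ k, algebraMap A L (g k) * dx k b) = ∑ k, g k • dx k := by
      funext b
      rw [Finset.sum_apply]
      refine Finset.sum_congr rfl fun k _ => ?_
      rw [Pi.smul_apply, Algebra.smul_def]
    rw [h1]
    exact Submodule.sum_mem _ fun k _ =>
      Submodule.smul_mem _ _ (Submodule.subset_span ⟨k, rfl⟩)
  have hsumvec : ∀ (g : Fin N → A) (D : Derivation ℂ L L),
      ∑ b, (∑ k, algebraMap A L (g k) * dx k b) * vec D b = ∑ k, algebraMap A L (g k) * D (x k) := by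
    intro g D
    simp only [Finset.sum_mul]
    rw [Finset.sum_comm]
    refine Finset.sum_congr rfl fun k _ => ?_
    rw [← hvec D k, Finset.mul_sum]
    refine Finset.sum_congr rfl fun b _ => ?_
    ring
  have hd0 : (d : ℂ) ≠ 0 := by exact_mod_cast (by omega : d ≠ 0)
  -- rows
  let ci : A := algebraMap ℂ A ((d : ℂ)⁻¹)
  let Ug : Fin (M + 1) → Fin N → A := fun i k => ci * φ₀ (pderiv k (Q i))
  let Wg : Fin m → Fin N → A := fun j k => φ₀ (pderiv k (Λ j))
  let U : Fin (M + 1) → (Fin (M + 1) ⊕ Fin m) → L := fun i b =>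
    ∑ k, algebraMap A L (Ug i k) * dx k b
  let V' : Fin (M + 1) → (Fin (M + 1) ⊕ Fin m) → L := fun i b =>
    ∑ k, algebraMap A L (V i k) * dx k b
  let W : Fin m → (Fin (M + 1) ⊕ Fin m) → L := fun j b =>
    ∑ k, algebraMap A L (Wg j k) * dx k b
  have hci : algebraMap A L ci = algebraMap ℂ L ((d : ℂ)⁻¹) :=
    (IsScalarTower.algebraMap_apply ℂ A L _).symm
  have hUval : ∀ i b, U i b = algebraMap ℂ L ((d : ℂ)⁻¹) * (if b = Sum.inl i then 1 else 0) := by
    intro i b
    have h1 : U i b = algebraMap A L ci * dd b (algebraMap A L (φ₀ (Q i))) := by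
      rw [hchain, Finset.mul_sum]
      refine Finset.sum_congr rfl fun k _ => ?_
      simp only [Ug, map_mul]
      ring
    rw [h1, ← hXQ, hdd, hci]
  have hWval : ∀ j b, W j b = (if b = Sum.inr j then 1 else 0) := by
    intro j b
    have h1 : W j b = dd b (algebraMap A L (φ₀ (Λ j))) := by
      rw [hchain]
    rw [h1, ← hXΛ, hdd]
  -- Euler
  have hEul : ∀ (G : MvPolynomial (Fin N) ℂ) (n : ℕ), G.IsHomogeneous n →
      δE (algebraMap A L (φ₀ G)) = algebraMap ℂ L (n : ℂ) * algebraMap A L (φ₀ G) := by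
    intro G n hG
    rw [hchain]
    have h1 := hG.sum_X_mul_pderiv
    have h2 := congrArg (fun z => algebraMap A L (φ₀ z)) h1
    simp only [map_sum, map_mul] at h2
    have h3 : ∑ k, algebraMap A L (φ₀ (pderiv k G)) * δE (x k)
        = ∑ k, algebraMap A L (φ₀ (X k)) * algebraMap A L (φ₀ (pderiv k G)) := by
      refine Finset.sum_congr rfl fun k _ => ?_
      rw [hE k, mul_comm]
    rw [h3, h2]
    simp
  have hEU : ∀ i, Ef (U i) = algebraMap A L (φ₀ (Q i)) := by
    intro i
    rw [hEf, hsumvec]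
    have h1 : ∑ k, algebraMap A L (Ug i k) * δE (x k) =
        algebraMap A L ci * δE (algebraMap A L (φ₀ (Q i))) := by
      rw [hchain, Finset.mul_sum]
      refine Finset.sum_congr rfl fun k _ => ?_
      simp only [Ug, map_mul]
      ring
    rw [h1, hEul _ _ (hQ i), hci, ← mul_assoc, ← map_mul, inv_mul_cancel₀ hd0, map_one, one_mul]
  have hEV : ∀ i, Ef (V' i) = algebraMap A L (φ₀ (Q i)) := by
    intro i
    rw [hEf, hsumvec, ← hVE i, map_sum]
    refine Finset.sum_congr rfl fun k _ => ?_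
    rw [map_mul, hE k]
  have hEW : ∀ j, Ef (W j) = algebraMap A L (φ₀ (Λ j)) := by
    intro j
    rw [hEf, hsumvec]
    have h1 : ∑ k, algebraMap A L (Wg j k) * δE (x k) = δE (algebraMap A L (φ₀ (Λ j))) := by
      rw [hchain]
    rw [h1, hEul _ _ (hΛ j)]
    simp
  -- nonvanishing
  have hq0 : ∀ i, algebraMap A L (φ₀ (Q i)) ≠ 0 := by
    intro i h
    rw [← hXQ] at h
    have h1 : (X (Sum.inl i) : MvPolynomial (Fin (M + 1) ⊕ Fin m) ℂ) = 0 :=
      hinj (by rw [h, map_zero])
    exact X_ne_zero _ h1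
  -- the determinant of V', W
  have hdet : (Matrix.of (Sum.elim V' W)).det = 0 := by
    let u : Fin (m + 2) → (Fin (M + 1) ⊕ Fin m) → L :=
      Fin.cons (vec δE) (fun b => vec (δ (J b)))
    have h := det_zero V' W (Equiv.refl _) u (fun i => algebraMap A L (φ₀ (Q i))) ?_ ?_ ?_ (hq0 0)
    · exact h
    · intro α hα
      apply hJ
      intro k
      have h1 : ∑ s, dx k s * (∑ b, α b • u b) s = 0 := by
        rw [hα]
        simp
      have h2 : ∑ s, dx k s * (∑ b, α b • u b) s = ∑ b, α b * ∑ s, dx k s * u b s := by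
        simp only [Finset.sum_apply, Pi.smul_apply, smul_eq_mul, Finset.mul_sum]
        rw [Finset.sum_comm]
        refine Finset.sum_congr rfl fun b _ => Finset.sum_congr rfl fun s _ => ?_
        ring
      rw [h2, Fin.sum_univ_succ] at h1
      have h3 : ∑ s, dx k s * u 0 s = x k := by
        have := hvec δE k
        rw [hE k] at this
        exact this
      have h4 : ∀ b : Fin (m + 1), ∑ s, dx k s * u b.succ s = δ (J b) (x k) := by
        intro b
        exact hvec (δ (J b)) k
      rw [h3] at h1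
      simp only [h4] at h1
      exact h1
    · intro i
      have h1 := hEV i
      rw [hEf] at h1
      exact h1
    · intro i b
      have h1 := hsumvec (V i) (δ (J b))
      have h2 := hVδ i (J b)
      rw [← hx] at *
      change ∑ s, (∑ k, algebraMap A L (V i k) * dx k s) * vec (δ (J b)) s = 0
      rw [h1]
      exact h2
  obtain ⟨uu, ww, huu, hww, hid⟩ := hCRA A L inferInstance inferInstance inferInstance (M + 1) m P Ef
    (fun i => φ₀ (Q i)) (fun j => φ₀ (Λ j)) U V' W hq0 (fun i => hPsum _) (fun i => hPsum _)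
    (fun j => hPsum _) hEU hEV hEW hdet
  -- integrality of traces
  let Tz : L → Prop := fun z => ∃ f : MvPolynomial (Fin (M + 1) ⊕ Fin m) ℂ,
    Algebra.trace (FractionRing (MvPolynomial (Fin (M + 1) ⊕ Fin m) ℂ)) L z = algebraMap _ _ f
  have hT1 : ∀ (a : A) (K : (Fin (M + 1) ⊕ Fin m) → Fin N),
      Tz (a • (Matrix.of fun s => dx (K s)).det) := by
    intro a K
    obtain ⟨f, hf⟩ := hTRA (Fin (M + 1) ⊕ Fin m) inferInstance inferInstance L inferInstance
      iRL iFL iT inferInstance iC iFD dd (algebraMap A L a) (fun s => x (K s)) hdd (hint a)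
      (fun s => hint _)
    refine ⟨f, ?_⟩
    rw [Algebra.smul_def]
    exact hf
  have hT2 : ∀ z ∈ Submodule.span A (Set.range fun K : (Fin (M + 1) ⊕ Fin m) → Fin N =>
      (Matrix.of fun s => dx (K s)).det), Tz z := by
    intro z hz
    obtain ⟨cK, hcK⟩ := (Submodule.mem_span_range_iff_exists_fun A).1 hz
    choose f hf using fun K => hT1 (cK K) K
    refine ⟨∑ K, f K, ?_⟩
    rw [← hcK, map_sum, map_sum]
    exact Finset.sum_congr rfl fun K _ => hf K
  have hT3 : ∀ z ∈ Submodule.span A {z : L | ∃ R : Fin (M + 1) ⊕ Fin m →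
      (Fin (M + 1) ⊕ Fin m → L), (∀ s, R s ∈ P) ∧ z = (Matrix.of R).det}, Tz z := by
    intro z hz
    apply hT2
    refine (Submodule.span_le.2 ?_ : Submodule.span A _ ≤ _) hz
    rintro z ⟨R, hR, rfl⟩
    exact det_span dx R hR
  choose fu hfu using fun i => hT3 _ (huu i)
  choose fw hfw using fun j => hT3 _ (hww j)
  -- the determinant of U, W
  have hdetU : (Matrix.of (Sum.elim U W)).det = algebraMap ℂ L (((d : ℂ)⁻¹) ^ (M + 1)) := by
    have h1 : Matrix.of (Sum.elim U W) = Matrix.diagonal (Sum.elim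
        (fun _ : Fin (M + 1) => algebraMap ℂ L ((d : ℂ)⁻¹)) (fun _ : Fin m => (1 : L))) := by
      ext s b
      rcases s with i | j
      · rw [Matrix.of_apply, Sum.elim_inl, hUval, Matrix.diagonal_apply]
        by_cases hb : b = Sum.inl i
        · rw [if_pos hb, if_pos hb.symm, Sum.elim_inl, mul_one]
        · rw [if_neg hb, if_neg (Ne.symm hb), mul_zero]
      · rw [Matrix.of_apply, Sum.elim_inr, hWval, Matrix.diagonal_apply]
        by_cases hb : b = Sum.inr j
        · rw [if_pos hb, if_pos hb.symm, Sum.elim_inr]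
        · rw [if_neg hb, if_neg (Ne.symm hb)]
    rw [h1, Matrix.det_diagonal, Fintype.prod_sum_type]
    simp
  rw [hdetU] at hid
  -- take the trace
  have htr : ∀ (g : MvPolynomial (Fin (M + 1) ⊕ Fin m) ℂ) (z : L),
      Algebra.trace (FractionRing (MvPolynomial (Fin (M + 1) ⊕ Fin m) ℂ)) L
        (algebraMap (MvPolynomial (Fin (M + 1) ⊕ Fin m) ℂ) L g * z)
      = algebraMap _ _ g * Algebra.trace (FractionRing (MvPolynomial (Fin (M + 1) ⊕ Fin m) ℂ)) L z
      := by
    intro g z
    rw [IsScalarTower.algebraMap_apply (MvPolynomial (Fin (M + 1) ⊕ Fin m) ℂ)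
      (FractionRing (MvPolynomial (Fin (M + 1) ⊕ Fin m) ℂ)) L, ← Algebra.smul_def, map_smul,
      smul_eq_mul]
  have hlhs : (∏ i, algebraMap A L (φ₀ (Q i))) * algebraMap ℂ L (((d : ℂ)⁻¹) ^ (M + 1))
      = algebraMap (MvPolynomial (Fin (M + 1) ⊕ Fin m) ℂ) L
        (C (((d : ℂ)⁻¹) ^ (M + 1)) * ∏ i : Fin (M + 1), X (Sum.inl i)) * 1 := by
    rw [mul_one, map_mul, map_prod, mul_comm]
    congr 1
    · rw [IsScalarTower.algebraMap_apply ℂ (MvPolynomial (Fin (M + 1) ⊕ Fin m) ℂ) L]
      rfl
    · exact Finset.prod_congr rfl fun i _ => (hXQ i).symm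
  have hrhs : ∑ i, algebraMap A L (φ₀ (Q i)) ^ 2 * uu i + ∑ j, algebraMap A L (φ₀ (Λ j)) * ww j
      = ∑ i, algebraMap (MvPolynomial (Fin (M + 1) ⊕ Fin m) ℂ) L (X (Sum.inl i) ^ 2) * uu i
        + ∑ j, algebraMap (MvPolynomial (Fin (M + 1) ⊕ Fin m) ℂ) L (X (Sum.inr j)) * ww j := by
    congr 1
    · refine Finset.sum_congr rfl fun i _ => ?_
      rw [map_pow, hXQ]
    · refine Finset.sum_congr rfl fun j _ => ?_
      rw [hXΛ]
  rw [hlhs, hrhs] at hid
  have hfin := congrArg
    (Algebra.trace (FractionRing (MvPolynomial (Fin (M + 1) ⊕ Fin m) ℂ)) L) hid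
  rw [htr, map_add, map_sum, map_sum] at hfin
  simp only [htr] at hfin
  have h1tr : Algebra.trace (FractionRing (MvPolynomial (Fin (M + 1) ⊕ Fin m) ℂ)) L 1
      = algebraMap (MvPolynomial (Fin (M + 1) ⊕ Fin m) ℂ) _
        (C ((Module.finrank (FractionRing (MvPolynomial (Fin (M + 1) ⊕ Fin m) ℂ)) L : ℕ) : ℂ)) := by
    have h := Algebra.trace_algebraMap (R := FractionRing (MvPolynomial (Fin (M + 1) ⊕ Fin m) ℂ))
      (S := L) 1
    rw [map_one] at h
    rw [h]
    simp
  rw [h1tr] at hfin
  simp only [hfu, hfw, ← map_mul, ← map_sum, ← map_add] at hfin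
  have hfin2 := IsFractionRing.injective (MvPolynomial (Fin (M + 1) ⊕ Fin m) ℂ)
    (FractionRing (MvPolynomial (Fin (M + 1) ⊕ Fin m) ℂ)) hfin
  refine mono (((d : ℂ)⁻¹) ^ (M + 1) *
    ((Module.finrank (FractionRing (MvPolynomial (Fin (M + 1) ⊕ Fin m) ℂ)) L : ℕ) : ℂ)) ?_ fu fw ?_
  · refine mul_ne_zero (pow_ne_zero _ (inv_ne_zero hd0)) ?_
    exact_mod_cast (Module.finrank_pos (R := FractionRing
      (MvPolynomial (Fin (M + 1) ⊕ Fin m) ℂ)) (M := L)).ne'
  · rw [← hfin2, map_mul]
    ring

end BSTM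

end Pool.Agent.Lib.MPc9b009.B5
end

section
/-!
# MP_c9b009_ag, row B5: Theorem B*
-/
set_option autoImplicit false

namespace Pool.Agent.Lib.MPc9b009.B5

open MvPolynomial

namespace BSTM

theorem xmnr_hom {N r ρ e : ℕ} {π : Fin N → Fin r → MvPolynomial (Fin N) ℂ}
    (hdeg : ∀ i j, (π i j).IsHomogeneous e) (I : Fin (ρ + 1) → Fin N) (J : Fin ρ → Fin r) :
    (xmnr π I J).IsHomogeneous (1 + ρ * e) := by
  unfold xmnr
  rw [Matrix.det_apply]
  apply IsHomogeneous.sum
  intro τ _
  have h1 : (∏ i : Fin (ρ + 1), (Matrix.of fun (a : Fin (ρ + 1)) (b : Fin (ρ + 1)) =>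
      (Fin.cons (X (I a)) (fun b' => π (I a) (J b')) : Fin (ρ + 1) → MvPolynomial (Fin N) ℂ) b)
        (τ i) i).IsHomogeneous (1 + ρ * e) := by
    rw [Fin.prod_univ_succ]
    refine IsHomogeneous.mul (isHomogeneous_X ℂ _) ?_
    have h2 := IsHomogeneous.prod (Finset.univ : Finset (Fin ρ))
      (fun i : Fin ρ => π (I (τ i.succ)) (J i)) (fun _ => e) (fun i _ => hdeg _ _)
    rw [Finset.sum_const, Finset.card_univ, Fintype.card_fin, smul_eq_mul] at h2
    exact h2
  rcases Int.units_eq_one_or (Equiv.Perm.sign τ) with hs | hs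
  · rw [hs, one_smul]
    exact h1
  · rw [hs, Units.neg_smul, one_smul]
    exact h1.neg

theorem nat_trdeg {N : ℕ} (p : Ideal (MvPolynomial (Fin N) ℂ)) :
    ∃ D : ℕ, Algebra.trdeg ℂ (MvPolynomial (Fin N) ℂ ⧸ p) = (D : Cardinal) := by
  have h1 : Algebra.trdeg ℂ (MvPolynomial (Fin N) ℂ ⧸ p) ≤
      Algebra.trdeg ℂ (MvPolynomial (Fin N) ℂ) :=
    trdeg_le_of_surjective (Ideal.Quotient.mkₐ ℂ p) (Ideal.Quotient.mkₐ_surjective ℂ p)
  rw [MvPolynomial.trdeg_of_isDomain] at h1
  have h2 : Algebra.trdeg ℂ (MvPolynomial (Fin N) ℂ ⧸ p) < Cardinal.aleph0 := by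
    refine lt_of_le_of_lt h1 ?_
    simp
  obtain ⟨D, hD⟩ := Cardinal.lt_aleph0.1 h2
  exact ⟨D, hD⟩

/-- The core for abstract domains. -/
theorem core_abs (hTRA : SpecTRA) (hDEX : SpecDEX) (hCRA : SpecCRA)
    {N M m d r : ℕ} {A L : Type} [CommRing A] [IsDomain A] [Algebra ℂ A]
    [Field L] [Algebra A L] [IsFractionRing A L] [Algebra ℂ L] [IsScalarTower ℂ A L]
    (φ₀ : MvPolynomial (Fin N) ℂ →ₐ[ℂ] A) (hφ₀ : Function.Surjective φ₀)
    (Q : Fin (M + 1) → MvPolynomial (Fin N) ℂ) (Λ : Fin m → MvPolynomial (Fin N) ℂ)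
    (hd : 1 ≤ d) (hQ : ∀ i, (Q i).IsHomogeneous d) (hΛ : ∀ j, (Λ j).IsHomogeneous 1)
    (y : Fin (M + 1) ⊕ Fin m → A) (hy1 : ∀ i, y (Sum.inl i) = φ₀ (Q i))
    (hy2 : ∀ j, y (Sum.inr j) = φ₀ (Λ j))
    (hai : AlgebraicIndependent ℂ y)
    (hint : ∀ z : A, IsIntegral (Algebra.adjoin ℂ (Set.range y)) z)
    (δE : Derivation ℂ L L)
    (hE : ∀ k, δE (algebraMap A L (φ₀ (X k))) = algebraMap A L (φ₀ (X k)))
    (δ : Fin r → Derivation ℂ L L) (V : Fin (M + 1) → Fin N → A)
    (hVE : ∀ i, ∑ k, V i k * φ₀ (X k) = φ₀ (Q i))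
    (hVδ : ∀ i j, ∑ k, algebraMap A L (V i k) * δ j (algebraMap A L (φ₀ (X k))) = 0)
    (J : Fin (m + 1) → Fin r)
    (hJ : ∀ α : Fin (m + 2) → L, (∀ k, α 0 * algebraMap A L (φ₀ (X k)) +
      ∑ b : Fin (m + 1), α b.succ * δ (J b) (algebraMap A L (φ₀ (X k))) = 0) → α = 0) :
    False := by
  let φ : MvPolynomial (Fin (M + 1) ⊕ Fin m) ℂ →ₐ[ℂ] A := aeval y
  have hφ : Function.Injective φ := hai
  let iRL : Algebra (MvPolynomial (Fin (M + 1) ⊕ Fin m) ℂ) L :=
    ((algebraMap A L).comp φ.toRingHom).toAlgebra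
  have hRL : ∀ f, algebraMap (MvPolynomial (Fin (M + 1) ⊕ Fin m) ℂ) L f
      = algebraMap A L (φ f) := fun _ => rfl
  have hinj : Function.Injective (algebraMap (MvPolynomial (Fin (M + 1) ⊕ Fin m) ℂ) L) :=
    (IsFractionRing.injective A L).comp hφ
  have iFs : FaithfulSMul (MvPolynomial (Fin (M + 1) ⊕ Fin m) ℂ) L :=
    (faithfulSMul_iff_algebraMap_injective _ _).2 hinj
  let iFL : Algebra (FractionRing (MvPolynomial (Fin (M + 1) ⊕ Fin m) ℂ)) L :=
    FractionRing.liftAlgebra (MvPolynomial (Fin (M + 1) ⊕ Fin m) ℂ) L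
  have iT : IsScalarTower (MvPolynomial (Fin (M + 1) ⊕ Fin m) ℂ)
      (FractionRing (MvPolynomial (Fin (M + 1) ⊕ Fin m) ℂ)) L :=
    FractionRing.isScalarTower_liftAlgebra _ L
  have iC : IsScalarTower ℂ (MvPolynomial (Fin (M + 1) ⊕ Fin m) ℂ) L := by
    apply IsScalarTower.of_algebraMap_eq
    intro a
    rw [hRL]
    have h1 : φ (algebraMap ℂ (MvPolynomial (Fin (M + 1) ⊕ Fin m) ℂ) a) = algebraMap ℂ A a :=
      φ.commutes a
    rw [h1, ← IsScalarTower.algebraMap_apply ℂ A L]
  have hX1 : ∀ i, algebraMap (MvPolynomial (Fin (M + 1) ⊕ Fin m) ℂ) L (X (Sum.inl i))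
      = algebraMap A L (φ₀ (Q i)) := by
    intro i
    rw [hRL, ← hy1]
    congr 1
    exact aeval_X y _
  have hX2 : ∀ j, algebraMap (MvPolynomial (Fin (M + 1) ⊕ Fin m) ℂ) L (X (Sum.inr j))
      = algebraMap A L (φ₀ (Λ j)) := by
    intro j
    rw [hRL, ← hy2]
    congr 1
    exact aeval_X y _
  -- integrality
  have hint' : ∀ z : A, IsIntegral (MvPolynomial (Fin (M + 1) ⊕ Fin m) ℂ) (algebraMap A L z) := by
    intro z
    obtain ⟨P, hPm, hP⟩ := hint z
    -- lift the coefficients
    have hrange : ∀ b : Algebra.adjoin ℂ (Set.range y), ∃ f : MvPolynomial (Fin (M + 1) ⊕ Fin m) ℂ,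
        φ f = b := by
      rintro ⟨b, hb⟩
      rw [Algebra.adjoin_range_eq_range_aeval] at hb
      exact hb
    have h2 : φ.toRingHom.IsIntegralElem z := by
      choose g hg using hrange
      refine ⟨?_, ?_, ?_⟩
      · exact (Polynomial.X ^ P.natDegree + ∑ i ∈ Finset.range P.natDegree,
          Polynomial.C (g (P.coeff i)) * Polynomial.X ^ i)
      · apply Polynomial.monic_X_pow_add
        apply (Polynomial.degree_sum_le _ _).trans_lt
        rw [Finset.sup_lt_iff]
        · intro i hi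
          refine lt_of_le_of_lt (Polynomial.degree_C_mul_X_pow_le _ _) ?_
          exact_mod_cast Finset.mem_range.1 hi
        · exact WithBot.bot_lt_coe _
      · have h4 : Polynomial.eval₂ (algebraMap (Algebra.adjoin ℂ (Set.range y)) A) z P = 0 := hP
        rw [Polynomial.eval₂_eq_sum_range, Finset.sum_range_succ, Polynomial.Monic.coeff_natDegree hPm,
          map_one, one_mul] at h4
        rw [Polynomial.eval₂_add, Polynomial.eval₂_X_pow, Polynomial.eval₂_finsetSum, ← h4, add_comm]
        congr 1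
        refine Finset.sum_congr rfl fun i _ => ?_
        rw [Polynomial.eval₂_mul, Polynomial.eval₂_C, Polynomial.eval₂_X_pow]
        congr 1
        exact hg (P.coeff i)
    obtain ⟨P', hP'm, hP'⟩ := h2
    refine ⟨P', hP'm, ?_⟩
    have h5 : algebraMap (MvPolynomial (Fin (M + 1) ⊕ Fin m) ℂ) L =
        (algebraMap A L).comp φ.toRingHom := rfl
    rw [h5, ← Polynomial.hom_eval₂, hP', map_zero]
  exact core_str hTRA hDEX hCRA φ₀ hφ₀ Q Λ hd hQ hΛ hX1 hX2 hinj hint' δE hE δ V hVE hVδ J hJ

end BSTM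

open BSTM in
theorem specBST (hSOP : SpecSOP) (hTRA : SpecTRA) (hDEX : SpecDEX) (hCRA : SpecCRA) : SpecBST := by
  intro N r ρ e π p hp hh hdeg hstab hmin hρ hρD
  by_contra hcon
  push Not at hcon
  obtain ⟨D, hD⟩ := nat_trdeg p
  rw [hD] at hρD
  have hρD' : ρ ≤ D := by exact_mod_cast hρD
  obtain ⟨m, rfl⟩ : ∃ m, ρ = m + 1 := ⟨ρ - 1, by omega⟩
  obtain ⟨M, rfl⟩ : ∃ M, D = (M + 1) + m := ⟨D - (m + 1), by omega⟩
  obtain ⟨c, l, hai, hint⟩ := hSOP N (M + 1) m p hp hh hD
    ((Fin (m + 1 + 1) → Fin N) × (Fin (m + 1) → Fin r)) inferInstance (1 + (m + 1) * e)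
    (fun IJ => xmnr π IJ.1 IJ.2) (by omega) (fun IJ => xmnr_hom hdeg IJ.1 IJ.2) (by
      intro q hq hhq hpq hg
      obtain ⟨D', hD'⟩ := nat_trdeg q
      have h1 := hcon q hq hhq hpq (fun I J => hg (I, J))
      rw [hD'] at h1 ⊢
      have h2 : D' < m + 1 := by exact_mod_cast h1
      exact_mod_cast (by omega : D' ≤ m))
  -- notation
  let Q : Fin (M + 1) → MvPolynomial (Fin N) ℂ := fun i =>
    ∑ IJ : (Fin (m + 1 + 1) → Fin N) × (Fin (m + 1) → Fin r), C (c i IJ) * xmnr π IJ.1 IJ.2
  let Λ : Fin m → MvPolynomial (Fin N) ℂ := fun j => ∑ k, C (l j k) * X k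
  have hQh : ∀ i, (Q i).IsHomogeneous (1 + (m + 1) * e) := by
    intro i
    apply IsHomogeneous.sum
    intro IJ _
    have := (isHomogeneous_C (Fin N) (c i IJ)).mul (xmnr_hom hdeg IJ.1 IJ.2)
    rwa [zero_add] at this
  have hΛh : ∀ j, (Λ j).IsHomogeneous 1 := by
    intro j
    apply IsHomogeneous.sum
    intro k _
    have := (isHomogeneous_C (Fin N) (l j k)).mul (isHomogeneous_X ℂ k)
    rwa [zero_add] at this
  -- the domain and its fraction field
  let A := MvPolynomial (Fin N) ℂ ⧸ p
  have : IsDomain A := Ideal.Quotient.isDomain p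
  let L := FractionRing A
  let y : Fin (M + 1) ⊕ Fin m → A :=
    Sum.elim (fun j => Ideal.Quotient.mk p (Q j)) (fun j => Ideal.Quotient.mk p (Λ j))
  -- derivations
  obtain ⟨δE, hδE⟩ := ext_vf p (fun i => X i) (by
    intro g hg
    have h1 : ∑ i, X i * pderiv i g = ∑ n ∈ Finset.range (g.totalDegree + 1),
        C (n : ℂ) * homogeneousComponent n g := by
      conv_lhs => rw [← sum_homogeneousComponent g]
      simp only [map_sum, Finset.mul_sum]
      rw [Finset.sum_comm]
      refine Finset.sum_congr rfl fun n _ => ?_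
      rw [(homogeneousComponent_isHomogeneous n g).sum_X_mul_pderiv]
      simp
    rw [h1]
    exact Submodule.sum_mem _ fun n _ => Ideal.mul_mem_left _ _ (hh g hg n))
  have hδ : ∀ j : Fin r, ∃ D : Derivation ℂ L L,
      ∀ k, D (algebraMap A L (Ideal.Quotient.mk p (X k)))
        = algebraMap A L (Ideal.Quotient.mk p (π k j)) := by
    intro j
    exact ext_vf p (fun i => π i j) (fun g hg => hstab g hg j)
  choose δ hδ using hδ
  -- a nonzero minor
  have hq0 : Ideal.Quotient.mk p (Q 0) ≠ 0 := by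
    intro h
    exact hai.ne_zero (Sum.inl 0) h
  obtain ⟨I, J, hIJ⟩ : ∃ (I : Fin (m + 1 + 1) → Fin N) (J : Fin (m + 1) → Fin r),
      xmnr π I J ∉ p := by
    by_contra hno
    push Not at hno
    apply hq0
    rw [Ideal.Quotient.eq_zero_iff_mem]
    exact Submodule.sum_mem _ fun IJ _ => Ideal.mul_mem_left _ _ (hno IJ.1 IJ.2)
  -- the cofactor covectors
  let V : Fin (M + 1) → Fin N → A := fun i k =>
    ∑ IJ : (Fin (m + 1 + 1) → Fin N) × (Fin (m + 1) → Fin r),
      Ideal.Quotient.mk p (C (c i IJ)) * ∑ a : Fin (m + 1 + 1),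
        if IJ.1 a = k then Ideal.Quotient.mk p (cof π IJ.1 IJ.2 a) else 0
  have hVsum : ∀ (i : Fin (M + 1)) (B : Type) (_ : CommRing B) (ψ : A →+* B) (w : Fin N → B),
      ∑ k, ψ (V i k) * w k =
      ∑ IJ : (Fin (m + 1 + 1) → Fin N) × (Fin (m + 1) → Fin r),
      ψ (Ideal.Quotient.mk p (C (c i IJ))) * ∑ a : Fin (m + 1 + 1),
        ψ (Ideal.Quotient.mk p (cof π IJ.1 IJ.2 a)) * w (IJ.1 a) := by
    intro i B _ ψ w
    simp only [V, map_sum, map_mul, Finset.sum_mul]
    rw [Finset.sum_comm]
    refine Finset.sum_congr rfl fun IJ _ => ?_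
    simp only [mul_assoc, ← Finset.mul_sum]
    congr 1
    simp only [Finset.sum_mul]
    rw [Finset.sum_comm]
    refine Finset.sum_congr rfl fun a _ => ?_
    rw [Finset.sum_eq_single (IJ.1 a)]
    · rw [if_pos rfl]
    · intro k _ hk
      rw [if_neg (Ne.symm hk), map_zero, zero_mul]
    · intro h
      exact absurd (Finset.mem_univ _) h
  refine core_abs hTRA hDEX hCRA (N := N) (M := M) (m := m) (d := 1 + (m + 1) * e) (r := r)
    (A := A) (L := L) (Ideal.Quotient.mkₐ ℂ p) (Ideal.Quotient.mkₐ_surjective ℂ p) Q Λ (by omega)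
    hQh hΛh y (fun _ => rfl) (fun _ => rfl) hai hint δE hδE δ V ?_ ?_ J ?_
  · intro i
    have h1 := hVsum i A inferInstance (RingHom.id A) (fun k => Ideal.Quotient.mk p (X k))
    simp only [RingHom.id_apply] at h1
    change ∑ k, V i k * Ideal.Quotient.mk p (X k) = Ideal.Quotient.mk p (Q i)
    rw [h1]
    simp only [Q, map_sum, map_mul]
    refine Finset.sum_congr rfl fun IJ _ => ?_
    congr 1
    rw [← cof_x, map_sum]
    refine Finset.sum_congr rfl fun a _ => ?_
    rw [map_mul]
  · intro i j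
    have h1 := hVsum i L inferInstance (algebraMap A L)
      (fun k => δ j (algebraMap A L (Ideal.Quotient.mk p (X k))))
    change ∑ k, algebraMap A L (V i k) * δ j (algebraMap A L (Ideal.Quotient.mk p (X k))) = 0
    rw [h1]
    apply Finset.sum_eq_zero
    intro IJ _
    have h2 : ∑ a : Fin (m + 1 + 1), (algebraMap A L) (Ideal.Quotient.mk p (cof π IJ.1 IJ.2 a)) *
        δ j (algebraMap A L (Ideal.Quotient.mk p (X (IJ.1 a)))) =
        algebraMap A L (Ideal.Quotient.mk p (mnr π IJ.1 (Fin.cons j IJ.2))) := by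
      rw [← cof_pi, map_sum, map_sum]
      refine Finset.sum_congr rfl fun a _ => ?_
      rw [hδ, map_mul, map_mul]
    rw [h2, (Ideal.Quotient.eq_zero_iff_mem).2 (hmin _ _), map_zero, mul_zero]
  · intro α hα
    let B : Matrix (Fin (m + 2)) (Fin (m + 2)) L := Matrix.of fun a b =>
      algebraMap A L (Ideal.Quotient.mk p
        ((Fin.cons (X (I a)) (fun b' => π (I a) (J b')) : Fin (m + 2) → MvPolynomial (Fin N) ℂ) b))
    have hB : B.det ≠ 0 := by
      have h1 : B.det = algebraMap A L (Ideal.Quotient.mk p (xmnr π I J)) := by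
        unfold xmnr
        rw [RingHom.map_det, RingHom.map_det]
        rfl
      rw [h1]
      intro h2
      rw [← map_zero (algebraMap A L)] at h2
      exact hIJ ((Ideal.Quotient.eq_zero_iff_mem).1 (IsFractionRing.injective A L h2))
    refine Matrix.eq_zero_of_mulVec_eq_zero hB ?_
    funext a
    have h1 := hα (I a)
    simp only [Matrix.mulVec, dotProduct, Pi.zero_apply]
    rw [Fin.sum_univ_succ]
    rw [← h1]
    congr 1
    · change algebraMap A L (Ideal.Quotient.mk p (X (I a))) * α 0 = _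
      rw [mul_comm]
      rfl
    · refine Finset.sum_congr rfl fun b _ => ?_
      change algebraMap A L (Ideal.Quotient.mk p (π (I a) (J b))) * α b.succ = _
      rw [mul_comm, ← hδ]
      rfl

end Pool.Agent.Lib.MPc9b009.B5
end

section
/-!
# MP_c9b009_ag, module CNT: the recursion for the Hilbert function
-/
set_option autoImplicit false

namespace Pool.Agent.Lib.MPc9b009.B5

open MvPolynomial

namespace CNTM

open Module

theorem finrank_hom (n : ℕ) :
    finrank ℂ (homogeneousSubmodule (Fin 4) ℂ n) = (n + 3).choose 3 := by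
  classical
  have hset : {d : Fin 4 →₀ ℕ | d.degree = n} =
      ((Finset.univ.finsuppAntidiag n : Finset (Fin 4 →₀ ℕ)) : Set (Fin 4 →₀ ℕ)) := by
    ext d
    simp only [Set.mem_ofPred_eq, Finset.mem_coe, Finset.mem_finsuppAntidiag, Finset.subset_univ,
      and_true]
    rw [Finsupp.degree_eq_sum]
  rw [homogeneousSubmodule_eq_finsupp_supported]
  have e := AddMonoidAlgebra.supportedEquivFinsupp (R := ℂ) (S := ℂ) {d : Fin 4 →₀ ℕ | d.degree = n}
  refine e.finrank_eq.trans ?_
  rw [hset]
  have h1 : finrank ℂ (((Finset.univ.finsuppAntidiag n : Finset (Fin 4 →₀ ℕ)) :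
      Set (Fin 4 →₀ ℕ)) →₀ ℂ) = (Finset.univ.finsuppAntidiag n : Finset (Fin 4 →₀ ℕ)).card := by
    rw [finrank_finsupp_self]
    exact Fintype.card_coe _
  rw [h1, Finset.card_finsuppAntidiag_nat_eq_choose, Finset.card_univ, Fintype.card_fin]
  have h2 : 4 + n - 1 = n + 3 := by omega
  rw [h2, ← Nat.choose_symm_add]

/-- vectors of homogeneous forms -/
def hvEquiv (v N a : ℕ) : hv v N a ≃ₗ[ℂ] (Fin N → homogeneousSubmodule (Fin v) ℂ a) where
  toFun w i := ⟨w.1 i, w.2 i (Set.mem_univ i)⟩
  invFun w := ⟨fun i => (w i : MvPolynomial (Fin v) ℂ), fun i _ => (w i).2⟩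
  left_inv w := rfl
  right_inv w := rfl
  map_add' w w' := rfl
  map_smul' c w := rfl

instance fin_hom (v a : ℕ) : Module.Finite ℂ (homogeneousSubmodule (Fin v) ℂ a) :=
  Module.Finite.iff_fg.2 (homogeneousSubmodule_fg (Fin v) ℂ a)

instance fin_hv (v N a : ℕ) : Module.Finite ℂ (hv v N a) :=
  Module.Finite.equiv (hvEquiv v N a).symm

theorem finrank_hv (N a : ℕ) : finrank ℂ (hv 4 N a) = N * (a + 3).choose 3 := by
  rw [(hvEquiv 4 N a).finrank_eq, finrank_pi_fintype]
  simp [finrank_hom]

/-- rank-nullity for a restricted map -/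
theorem rn {V W : Type*} [AddCommGroup V] [Module ℂ V] [AddCommGroup W] [Module ℂ W]
    (f : V →ₗ[ℂ] W) (K : Submodule ℂ V) [Module.Finite ℂ K] :
    finrank ℂ (Submodule.map f K) + finrank ℂ (K ⊓ LinearMap.ker f : Submodule ℂ V) =
      finrank ℂ K := by
  have h := LinearMap.finrank_range_add_finrank_ker (f.domRestrict K)
  rw [LinearMap.range_domRestrict] at h
  have h2 : finrank ℂ (LinearMap.ker (f.domRestrict K)) =
      finrank ℂ (K ⊓ LinearMap.ker f : Submodule ℂ V) := by
    have e : Submodule.map K.subtype (LinearMap.ker (f.domRestrict K)) = K ⊓ LinearMap.ker f := by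
      ext z
      constructor
      · rintro ⟨y, hy, rfl⟩
        exact ⟨y.2, hy⟩
      · rintro ⟨h1, h2⟩
        exact ⟨⟨z, h1⟩, h2, rfl⟩
    rw [← e]
    exact (LinearEquiv.finrank_eq (Submodule.equivMapOfInjective _ K.injective_subtype _))
  rw [← h2]
  exact h

theorem mulVec_mem {N a b c : ℕ} {T : Matrix (Fin N) (Fin N) (MvPolynomial (Fin 4) ℂ)}
    (hT : ∀ i j, (T i j).IsHomogeneous b) {z : Fin N → MvPolynomial (Fin 4) ℂ}
    (hz : z ∈ hv 4 N a) (hc : c = b + a) : T.mulVec z ∈ hv 4 N c := by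
  intro i _
  show (∑ j, T i j * z j).IsHomogeneous c
  refine IsHomogeneous.sum _ _ _ fun j _ => ?_
  rw [hc]
  exact (hT i j).mul (hz j (Set.mem_univ j))

theorem choose_aux (m : ℕ) : (m + 2).choose 2 + (m + 1).choose 2 = (m + 1) ^ 2 := by
  induction m with
  | zero => decide
  | succ k ih =>
    have h1 : (k + 1 + 2).choose 2 = (k + 2) + (k + 2).choose 2 := by
      rw [show k + 1 + 2 = (k + 2) + 1 from rfl, Nat.choose_succ_succ' (k + 2) 1, Nat.choose_one_right]
    have h2 : (k + 2).choose 2 = (k + 1) + (k + 1).choose 2 := by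
      rw [show k + 2 = (k + 1) + 1 from rfl, Nat.choose_succ_succ' (k + 1) 1, Nat.choose_one_right]
    have h3 : k + 1 + 1 = k + 2 := rfl
    rw [h3, h1]
    nlinarith

theorem choose_three (a : ℕ) : (a + 5).choose 3 = (a + 3).choose 3 + (a + 3) ^ 2 := by
  have h1 : (a + 5).choose 3 = (a + 4).choose 2 + (a + 4).choose 3 := Nat.choose_succ_succ' (a + 4) 2
  have h2 : (a + 4).choose 3 = (a + 3).choose 2 + (a + 3).choose 3 := Nat.choose_succ_succ' (a + 3) 2
  have h3 := choose_aux (a + 2)
  have h4 : a + 2 + 2 = a + 4 := rfl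
  have h5 : a + 2 + 1 = a + 3 := rfl
  rw [h4, h5] at h3
  omega

end CNTM

open Module CNTM in
theorem specCNT (hTHE : SpecTHE) (hEXA : SpecEXA) : SpecCNT := by
  intro N A hN hsk hq hdet hrk
  obtain ⟨th, T, hTsk, hTh, hAT, hT0, hTg, hTp⟩ := hTHE N A hN hsk hq hdet hrk
  obtain ⟨a₀, ha₀⟩ := hEXA N th A T hN hsk hq hdet hrk hTsk hTh hAT hT0 hTg hTp
  have hTA : T * A = 0 := by
    have hAt : A.transpose = -A := by
      ext1 i j
      exact hsk i j
    have hTt : T.transpose = -T := by
      ext1 i j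
      exact hTsk i j
    have h := congrArg Matrix.transpose hAT
    rw [Matrix.transpose_mul, hAt, hTt, Matrix.transpose_zero, neg_mul_neg] at h
    exact h
  refine ⟨th, a₀, fun a ha => ?_⟩
  obtain ⟨h1, h2⟩ := ha₀ a ha
  have e1 := rn (T.mulVecLin.restrictScalars ℂ) (hv 4 N (a + 2))
  have m1 : Submodule.map (T.mulVecLin.restrictScalars ℂ) (hv 4 N (a + 2)) = hk A (a + 2 + th) := by
    ext w
    constructor
    · rintro ⟨z, hz, rfl⟩
      refine ⟨?_, ?_⟩
      · exact mulVec_mem hTh hz (by omega)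
      · show A.mulVec (T.mulVec z) = 0
        rw [Matrix.mulVec_mulVec, hAT, Matrix.zero_mulVec]
    · intro hw
      obtain ⟨z, hz, hzw⟩ := h1 w hw
      exact ⟨z, hz, hzw⟩
  have e2 := rn (A.mulVecLin.restrictScalars ℂ) (hv 4 N a)
  have m2 : Submodule.map (A.mulVecLin.restrictScalars ℂ) (hv 4 N a) = hk T (a + 2) := by
    ext w
    constructor
    · rintro ⟨z, hz, rfl⟩
      refine ⟨?_, ?_⟩
      · exact mulVec_mem hq hz (by omega)
      · show T.mulVec (A.mulVec z) = 0
        rw [Matrix.mulVec_mulVec, hTA, Matrix.zero_mulVec]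
    · intro hw
      obtain ⟨z, hz, hzw⟩ := h2 w hw
      exact ⟨z, hz, hzw⟩
  rw [m1, finrank_hv] at e1
  rw [m2, finrank_hv] at e2
  have e3 : finrank ℂ (hk A (a + 2 + th)) + finrank ℂ (hk T (a + 2)) = N * (a + 5).choose 3 := e1
  have e4 : finrank ℂ (hk T (a + 2)) + finrank ℂ (hk A a) = N * (a + 3).choose 3 := e2
  rw [choose_three, mul_add] at e3
  omega

end Pool.Agent.Lib.MPc9b009.B5
end

section
/-!
# MP_c9b009_ag, row B5, module CRA: the determinant identity
-/
set_option autoImplicit false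

namespace Pool.Agent.Lib.MPc9b009.B5

namespace CRAM

open Finset

/-- Cramer's relation with a linear functional -/
theorem cramerE {σ L : Type} [Fintype σ] [DecidableEq σ] [Field L] (R : Matrix σ σ L) (z : σ → L)
    (E : (σ → L) →ₗ[L] L) : E z * R.det = ∑ s, E (R s) * (R.updateRow s z).det := by
  have h1 : R.det • z = ∑ s, (R.updateRow s z).det • R s := by
    have h := Matrix.mulVec_cramer R.transpose z
    rw [Matrix.det_transpose] at h
    rw [← h]
    funext j
    rw [Finset.sum_apply]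
    simp only [Matrix.mulVec, dotProduct, Matrix.transpose_apply, Matrix.cramer_transpose_apply,
      Pi.smul_apply, smul_eq_mul]
    exact Finset.sum_congr rfl fun s _ => mul_comm _ _
  have h2 := congrArg E h1
  rw [map_smul, map_sum, smul_eq_mul] at h2
  rw [mul_comm, h2]
  apply Finset.sum_congr rfl
  intro s _
  rw [map_smul, smul_eq_mul, mul_comm]

section Main

variable {A L : Type} [CommRing A] [Field L] [Algebra A L] {M m : ℕ}

/-- hybrid rows -/
def Hyb (U V : Fin M → (Fin M ⊕ Fin m → L)) (W : Fin m → (Fin M ⊕ Fin m → L)) (k : ℕ) :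
    Matrix (Fin M ⊕ Fin m) (Fin M ⊕ Fin m) L :=
  Matrix.of (Sum.elim (fun i => if i.val < k then V i else U i) W)

omit [Field L] in
theorem Hyb_zero (U V : Fin M → (Fin M ⊕ Fin m → L)) (W : Fin m → (Fin M ⊕ Fin m → L)) :
    Hyb U V W 0 = Matrix.of (Sum.elim U W) := by
  unfold Hyb
  congr 1

omit [Field L] in
theorem Hyb_last (U V : Fin M → (Fin M ⊕ Fin m → L)) (W : Fin m → (Fin M ⊕ Fin m → L)) :
    Hyb U V W M = Matrix.of (Sum.elim V W) := by
  unfold Hyb
  congr 2
  funext i
  rw [if_pos i.2]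

omit [Field L] in
theorem Hyb_succ (U V : Fin M → (Fin M ⊕ Fin m → L)) (W : Fin m → (Fin M ⊕ Fin m → L)) (k : Fin M) :
    Hyb U V W (k.val + 1) = (Hyb U V W k.val).updateRow (Sum.inl k) (V k) := by
  ext s t
  rcases s with i | j
  · by_cases h : i = k
    · subst h
      rw [Matrix.updateRow_self]
      simp [Hyb]
    · rw [Matrix.updateRow_ne (by simpa using h)]
      have h' : i.val ≠ k.val := fun h0 => h (Fin.ext h0)
      simp only [Hyb, Matrix.of_apply, Sum.elim_inl]
      have : (i.val < k.val + 1) ↔ (i.val < k.val) := by omega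
      simp only [this]
  · rw [Matrix.updateRow_ne (by simp)]
    simp [Hyb]

theorem Hyb_row (U V : Fin M → (Fin M ⊕ Fin m → L)) (W : Fin m → (Fin M ⊕ Fin m → L)) (k : Fin M) :
    (Hyb U V W k.val).updateRow (Sum.inl k) (U k) = Hyb U V W k.val := by
  have : Hyb U V W k.val (Sum.inl k) = U k := by
    change (if k.val < k.val then V k else U k) = U k
    rw [if_neg (lt_irrefl _)]
  rw [← this, Matrix.updateRow_eq_self]

/-- the matrices with row `k` equal to `V k - U k` -/
def G (U V : Fin M → (Fin M ⊕ Fin m → L)) (W : Fin m → (Fin M ⊕ Fin m → L)) (k : Fin M) :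
    Matrix (Fin M ⊕ Fin m) (Fin M ⊕ Fin m) L :=
  (Hyb U V W k.val).updateRow (Sum.inl k) (V k - U k)

theorem det_G (U V : Fin M → (Fin M ⊕ Fin m → L)) (W : Fin m → (Fin M ⊕ Fin m → L)) (k : Fin M) :
    (G U V W k).det = (Hyb U V W (k.val + 1)).det - (Hyb U V W k.val).det := by
  have h := Matrix.det_updateRow_add (Hyb U V W k.val) (Sum.inl k) (V k - U k) (U k)
  rw [sub_add_cancel, ← Hyb_succ, Hyb_row] at h
  rw [h]
  unfold G
  ring

theorem det_U (U V : Fin M → (Fin M ⊕ Fin m → L)) (W : Fin m → (Fin M ⊕ Fin m → L))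
    (h0 : (Matrix.of (Sum.elim V W)).det = 0) :
    (Matrix.of (Sum.elim U W)).det = - ∑ k, (G U V W k).det := by
  have h1 : ∑ k : Fin M, (G U V W k).det = (Hyb U V W M).det - (Hyb U V W 0).det := by
    rw [← Finset.sum_range_sub (fun k => (Hyb U V W k).det) M, ← Fin.sum_univ_eq_sum_range
      (fun k => (Hyb U V W (k + 1)).det - (Hyb U V W k).det) M]
    exact Finset.sum_congr rfl fun k _ => det_G U V W k
  rw [h1, Hyb_last, Hyb_zero, h0]
  ring

theorem G_mem (P : Submodule A (Fin M ⊕ Fin m → L)) (U V : Fin M → (Fin M ⊕ Fin m → L))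
    (W : Fin m → (Fin M ⊕ Fin m → L)) (hU : ∀ i, U i ∈ P) (hV : ∀ i, V i ∈ P) (hW : ∀ j, W j ∈ P)
    (k : Fin M) (s : Fin M ⊕ Fin m) : G U V W k s ∈ P := by
  unfold G
  by_cases h : s = Sum.inl k
  · subst h
    have : (Hyb U V W k.val).updateRow (Sum.inl k) (V k - U k) (Sum.inl k) = V k - U k := by
      funext t; rw [Matrix.updateRow_self]
    rw [this]
    exact P.sub_mem (hV k) (hU k)
  · have : (Hyb U V W k.val).updateRow (Sum.inl k) (V k - U k) s = Hyb U V W k.val s := by
      funext t; rw [Matrix.updateRow_ne h]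
    rw [this]
    rcases s with i | j
    · have : Hyb U V W k.val (Sum.inl i) = if i.val < k.val then V i else U i := rfl
      rw [this]
      split_ifs
      · exact hV i
      · exact hU i
    · exact hW j

end Main

end CRAM

open CRAM in
/-- CRA -/
theorem specCRA : SpecCRA := by
  intro A L _ _ _ M m P E q l U V W hq hU hV hW hEU hEV hEW hdet
  obtain ⟨J, hJ⟩ : ∃ J : Submodule A L, J = Submodule.span A
      {z : L | ∃ R : Fin M ⊕ Fin m → (Fin M ⊕ Fin m → L), (∀ s, R s ∈ P) ∧ z = (Matrix.of R).det} :=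
    ⟨_, rfl⟩
  rw [← hJ]
  have hmem : ∀ (k : Fin M) (s : Fin M ⊕ Fin m), ((G U V W k).updateRow s (U k)).det ∈ J := by
    intro k s
    rw [hJ]
    apply Submodule.subset_span
    refine ⟨(G U V W k).updateRow s (U k), fun t => ?_, rfl⟩
    by_cases h : t = s
    · subst h
      have : (G U V W k).updateRow t (U k) t = U k := by
        funext r; rw [Matrix.updateRow_self]
      rw [this]
      exact hU k
    · have : (G U V W k).updateRow s (U k) t = G U V W k t := by
        funext r; rw [Matrix.updateRow_ne h]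
      rw [this]
      exact G_mem P U V W hU hV hW k t
  have hmul : ∀ (a : A) (z : L), z ∈ J → algebraMap A L a * z ∈ J := by
    intro a z hz
    rw [← Algebra.smul_def]
    exact J.smul_mem a hz
  -- Cramer
  have hcr : ∀ k : Fin M, algebraMap A L (q k) * (G U V W k).det =
      (∑ i ∈ Finset.univ.erase k, algebraMap A L (q i) * ((G U V W k).updateRow (Sum.inl i) (U k)).det) +
      ∑ j, algebraMap A L (l j) * ((G U V W k).updateRow (Sum.inr j) (U k)).det := by
    intro k
    have h1 := cramerE (G U V W k) (U k) E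
    rw [hEU, Fintype.sum_sum_type] at h1
    rw [h1]
    congr 1
    · rw [← Finset.add_sum_erase Finset.univ _ (Finset.mem_univ k)]
      have h2 : G U V W k (Sum.inl k) = V k - U k := by
        funext t; unfold G; rw [Matrix.updateRow_self]
      rw [h2, map_sub, hEU, hEV, sub_self, zero_mul, zero_add]
      apply Finset.sum_congr rfl
      intro i hi
      have hik : i ≠ k := Finset.ne_of_mem_erase hi
      have h3 : G U V W k (Sum.inl i) = if i.val < k.val then V i else U i := by
        funext t; unfold G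
        rw [Matrix.updateRow_ne (by simpa using hik)]
        simp [Hyb]
      rw [h3]
      split_ifs
      · rw [hEV]
      · rw [hEU]
    · apply Finset.sum_congr rfl
      intro j _
      have h3 : G U V W k (Sum.inr j) = W j := by
        funext t; unfold G
        rw [Matrix.updateRow_ne (by simp)]
        simp [Hyb]
      rw [h3, hEW]
  refine ⟨fun i => -∑ k ∈ Finset.univ.erase i, algebraMap A L (∏ i' ∈ (Finset.univ.erase k).erase i, q i') *
      ((G U V W k).updateRow (Sum.inl i) (U k)).det,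
    fun j => -∑ k, algebraMap A L (∏ i' ∈ Finset.univ.erase k, q i') *
      ((G U V W k).updateRow (Sum.inr j) (U k)).det, ?_, ?_, ?_⟩
  · intro i
    apply J.neg_mem
    exact J.sum_mem fun k _ => hmul _ _ (hmem _ _)
  · intro j
    apply J.neg_mem
    exact J.sum_mem fun k _ => hmul _ _ (hmem _ _)
  · rw [det_U U V W hdet, mul_neg, Finset.mul_sum]
    have h5 : ∀ k : Fin M, (∏ i, algebraMap A L (q i)) * (G U V W k).det =
        (∑ i ∈ Finset.univ.erase k, algebraMap A L (q i) ^ 2 *
          (algebraMap A L (∏ i' ∈ (Finset.univ.erase k).erase i, q i') *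
            ((G U V W k).updateRow (Sum.inl i) (U k)).det)) +
        ∑ j, algebraMap A L (l j) * (algebraMap A L (∏ i' ∈ Finset.univ.erase k, q i') *
          ((G U V W k).updateRow (Sum.inr j) (U k)).det) := by
      intro k
      rw [← Finset.mul_prod_erase Finset.univ _ (Finset.mem_univ k), mul_comm (algebraMap A L (q k)),
        mul_assoc, hcr k, mul_add, Finset.mul_sum, Finset.mul_sum]
      congr 1
      · apply Finset.sum_congr rfl
        intro i hi
        rw [← Finset.mul_prod_erase (Finset.univ.erase k) _ hi, map_prod]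
        ring
      · apply Finset.sum_congr rfl
        intro j _
        rw [map_prod]
        ring
    rw [Finset.sum_congr rfl (fun k _ => h5 k), Finset.sum_add_distrib, neg_add]
    congr 1
    · rw [Finset.sum_comm' (t' := Finset.univ) (s' := fun i => Finset.univ.erase i) (by
        intro x y
        simp only [Finset.mem_univ, Finset.mem_erase, true_and, and_true]
        exact ne_comm), ← Finset.sum_neg_distrib]
      apply Finset.sum_congr rfl
      intro i _
      rw [mul_neg, Finset.mul_sum]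
    · rw [Finset.sum_comm, ← Finset.sum_neg_distrib]
      apply Finset.sum_congr rfl
      intro j _
      rw [mul_neg, Finset.mul_sum]

end Pool.Agent.Lib.MPc9b009.B5
end

section
/-!
# MP_c9b009_ag, row B5, module CRIT
-/
namespace Pool.Agent.Lib.MPc9b009.B5

open MvPolynomial

theorem specCRIT (hBST : SpecBST) (hRKT : SpecRKT) (hBIG : SpecBIG) : SpecCRIT := by
  intro N s f g p hs hfg hp hhom hst hmin hdim
  obtain ⟨q, hq, hqh, hpq, hx, hd⟩ := hBST N N (s + 2) 2 g.f p hp hhom g.quad hst hmin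
    (by omega) hdim
  refine hBIG N s f q hq hqh (fun x hx0 hz => ?_) hd
  refine hRKT N s f g x hs hfg hx0 (fun I J => hz _ (hpq (hmin I J))) (fun I J => hz _ (hx I J))

end Pool.Agent.Lib.MPc9b009.B5
end

section
/-!
# MP_c9b009_ag, row B5, module CUT: Proposition C
-/
set_option autoImplicit false

namespace Pool.Agent.Lib.MPc9b009.B5.CUTM

open MvPolynomial

/-- Restriction of a polynomial to the line `ℂ x`. -/
noncomputable def psi {N : ℕ} (x : Fin N → ℂ) : MvPolynomial (Fin N) ℂ →ₐ[ℂ] Polynomial ℂ :=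
  aeval fun k => Polynomial.C (x k) * Polynomial.X

theorem psi_hom {N : ℕ} (x : Fin N → ℂ) {φ : MvPolynomial (Fin N) ℂ} {d : ℕ}
    (h : φ.IsHomogeneous d) : psi x φ = Polynomial.C (eval x φ) * Polynomial.X ^ d := by
  have e1 : psi x φ = ∑ m ∈ φ.support, Polynomial.C (coeff m φ) *
      ∏ i, (Polynomial.C (x i) * Polynomial.X) ^ m i := by
    rw [psi, aeval_def, eval₂_eq']
    rfl
  rw [e1, eval_eq', map_sum, Finset.sum_mul]
  refine Finset.sum_congr rfl fun m hm => ?_
  have hd : ∑ i, m i = d := by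
    have := h (mem_support_iff.1 hm)
    rw [Finsupp.weight_apply, Finsupp.sum_fintype _ _ (by simp)] at this
    simpa using this
  simp only [mul_pow, Finset.prod_mul_distrib, map_mul, map_prod, map_pow]
  rw [Finset.prod_pow_eq_pow_sum, hd]
  ring

theorem psi_comp {N : ℕ} (x : Fin N → ℂ) (φ : MvPolynomial (Fin N) ℂ) (d : ℕ) :
    (psi x φ).coeff d = eval x (homogeneousComponent d φ) := by
  have e : φ = ∑ i ∈ Finset.range (φ.totalDegree + 1), homogeneousComponent i φ :=
    (sum_homogeneousComponent φ).symm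
  conv_lhs => rw [e]
  rw [map_sum, Polynomial.finsetSum_coeff]
  rw [Finset.sum_congr rfl fun i _ => by
    rw [psi_hom x (homogeneousComponent_isHomogeneous i φ), Polynomial.coeff_C_mul_X_pow]]
  rw [Finset.sum_ite_eq]
  split_ifs with hd
  · rfl
  · rw [Finset.mem_range, not_lt] at hd
    rw [homogeneousComponent_eq_zero _ _ (by omega), map_zero]

/-- The ideal of a line is homogeneous. -/
theorem line_hom {N : ℕ} (x : Fin N → ℂ) : Hom (RingHom.ker (psi x)) := by
  intro g hg d
  have h0 : psi x g = 0 := hg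
  have h1 : eval x (homogeneousComponent d g) = 0 := by
    rw [← psi_comp, h0, Polynomial.coeff_zero]
  show psi x (homogeneousComponent d g) = 0
  rw [psi_hom x (homogeneousComponent_isHomogeneous d g), h1, map_zero, zero_mul]

theorem mem_line {N : ℕ} (x : Fin N → ℂ) {φ : MvPolynomial (Fin N) ℂ} {d : ℕ}
    (h : φ.IsHomogeneous d) (h0 : eval x φ = 0) : φ ∈ RingHom.ker (psi x) := by
  show psi x φ = 0
  rw [psi_hom x h, h0, map_zero, zero_mul]

attribute [local instance] MvPolynomial.gradedAlgebra in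
/-- An ideal generated by forms is homogeneous. -/
theorem hom_span {N : ℕ} (s : Set (MvPolynomial (Fin N) ℂ))
    (h : ∀ x ∈ s, ∃ d, x.IsHomogeneous d) : Hom (Ideal.span s) := by
  have h1 := Ideal.homogeneous_span (homogeneousSubmodule (Fin N) ℂ) s (fun x hx => by
    obtain ⟨d, hd⟩ := h x hx
    exact ⟨d, hd⟩)
  intro g hg d
  have h2 := h1 d hg
  rwa [← decomposition.decompose'_apply]

theorem det_hom {N k : ℕ} (M : Matrix (Fin k) (Fin k) (MvPolynomial (Fin N) ℂ))
    (h : ∀ i j, (M i j).IsHomogeneous 2) : M.det.IsHomogeneous (∑ _i : Fin k, 2) := by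
  rw [Matrix.det_apply]
  refine IsHomogeneous.sum _ _ _ fun σ _ => ?_
  have hp : (∏ i, M (σ i) i).IsHomogeneous (∑ _i : Fin k, 2) :=
    IsHomogeneous.prod _ _ _ fun i _ => h _ _
  rcases Int.units_eq_one_or (Equiv.Perm.sign σ) with e | e
  · rw [e, one_smul]; exact hp
  · rw [e, Units.neg_smul, one_smul]; exact hp.neg

/-- The quotient by the irrelevant ideal. -/
theorem trdeg_top {N : ℕ} (q : Ideal (MvPolynomial (Fin N) ℂ)) (h : ∀ k, X k ∈ q) :
    Algebra.trdeg ℂ (MvPolynomial (Fin N) ℂ ⧸ q) ≤ 0 := by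
  have hs : ∀ g : MvPolynomial (Fin N) ℂ, ∃ c : ℂ,
      algebraMap ℂ (MvPolynomial (Fin N) ℂ ⧸ q) c = Ideal.Quotient.mk q g := by
    intro g
    induction g using MvPolynomial.induction_on with
    | C a => exact ⟨a, rfl⟩
    | add a b ha hb =>
      obtain ⟨c, hc⟩ := ha
      obtain ⟨d, hd⟩ := hb
      exact ⟨c + d, by rw [map_add, map_add, hc, hd]⟩
    | mul_X a i ha =>
      refine ⟨0, ?_⟩
      rw [map_zero, map_mul, Ideal.Quotient.eq_zero_iff_mem.2 (h i), mul_zero]
  have ha : Algebra.IsAlgebraic ℂ (MvPolynomial (Fin N) ℂ ⧸ q) := by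
    refine ⟨fun z => ?_⟩
    obtain ⟨g, rfl⟩ := Ideal.Quotient.mk_surjective z
    obtain ⟨c, hc⟩ := hs g
    rw [← hc]
    exact isAlgebraic_algebraMap c
  exact le_of_eq trdeg_eq_zero

theorem psi_X {N : ℕ} (x : Fin N → ℂ) (k : Fin N) :
    psi x (X k) = Polynomial.C (x k) * Polynomial.X := by
  rw [psi, aeval_X]

/-- The quotient by the ideal of a line is not algebraic. -/
theorem trdeg_line {N : ℕ} (x : Fin N → ℂ) (hx : x ≠ 0)
    (h : Algebra.trdeg ℂ (MvPolynomial (Fin N) ℂ ⧸ RingHom.ker (psi x)) ≤ 0) : False := by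
  obtain ⟨k, hk⟩ := Function.ne_iff.1 hx
  have hpr : (RingHom.ker (psi x)).IsPrime := RingHom.ker_isPrime _
  have ha : Algebra.IsAlgebraic ℂ (MvPolynomial (Fin N) ℂ ⧸ RingHom.ker (psi x)) :=
    trdeg_eq_zero_iff.1 (le_antisymm h (zero_le))
  obtain ⟨p, hp0, hp⟩ := ha.isAlgebraic (Ideal.Quotient.mk _ (X k))
  apply hp0
  have h1 : Polynomial.aeval (X k : MvPolynomial (Fin N) ℂ) p ∈ RingHom.ker (psi x) := by
    rw [← Ideal.Quotient.eq_zero_iff_mem, ← hp]
    exact (Polynomial.aeval_algHom_apply (Ideal.Quotient.mkₐ ℂ (RingHom.ker (psi x))) (X k) p).symm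
  have h2 : Polynomial.aeval (psi x (X k)) p = 0 := by
    rw [Polynomial.aeval_algHom_apply]
    exact h1
  rw [psi_X] at h2
  have h3 : p.comp (Polynomial.C (x k) * Polynomial.X) = 0 := h2
  rw [Polynomial.comp_eq_zero_iff] at h3
  rcases h3 with h3 | ⟨-, h3⟩
  · exact h3
  · exfalso
    have h4 := congrArg Polynomial.natDegree h3
    rw [Polynomial.natDegree_C_mul_X _ hk, Polynomial.natDegree_C] at h4
    exact one_ne_zero h4

/-- All homogeneous primes over `I` have small dimension if the minimal ones do. -/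
theorem bound {N K : ℕ} (I : Ideal (MvPolynomial (Fin N) ℂ))
    (h : ∀ p ∈ I.minimalPrimes,
      Algebra.trdeg ℂ (MvPolynomial (Fin N) ℂ ⧸ p) < ((K + 1 : ℕ) : Cardinal))
    (q : Ideal (MvPolynomial (Fin N) ℂ)) (hq : q.IsPrime) (hI : I ≤ q) :
    Algebra.trdeg ℂ (MvPolynomial (Fin N) ℂ ⧸ q) ≤ ((K : ℕ) : Cardinal) := by
  obtain ⟨p, hp, hpq⟩ := Ideal.exists_minimalPrimes_le hI
  have h1 : Algebra.trdeg ℂ (MvPolynomial (Fin N) ℂ ⧸ q) ≤
      Algebra.trdeg ℂ (MvPolynomial (Fin N) ℂ ⧸ p) :=
    trdeg_le_of_surjective (Ideal.Quotient.factorₐ ℂ hpq)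
      (Ideal.Quotient.factor_surjective hpq)
  have h2 := h p hp
  obtain ⟨n, hn⟩ := Cardinal.lt_aleph0.1 (h2.trans Cardinal.natCast_lt_aleph0)
  rw [hn] at h1 h2
  refine h1.trans ?_
  norm_cast at h2 ⊢
  omega

/-- A `4`-dimensional space of zeros of `N - 4` linear forms. -/
theorem plane {N M : ℕ} (hNM : M + 4 ≤ N) (c : Fin M → Fin N → ℂ) :
    ∃ u : Fin 4 → Fin N → ℂ, LinearIndependent ℂ u ∧ ∀ b j, ∑ k, c j k * u b k = 0 := by
  set L : (Fin N → ℂ) →ₗ[ℂ] (Fin M → ℂ) := (Matrix.of c).mulVecLin with hL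
  have h1 := L.finrank_range_add_finrank_ker
  have h2 : Module.finrank ℂ (LinearMap.range L) ≤ M := by
    refine (Submodule.finrank_le _).trans ?_
    rw [Module.finrank_fin_fun]
  rw [Module.finrank_fin_fun] at h1
  obtain ⟨u, hu⟩ := exists_linearIndependent_of_le_finrank
    (show 4 ≤ Module.finrank ℂ (LinearMap.ker L) by omega)
  refine ⟨fun b => (u b : Fin N → ℂ), ?_, fun b j => ?_⟩
  · exact hu.map' (LinearMap.ker L).subtype (Submodule.ker_subtype _)
  · exact congrFun (u b).2 j

/-- Restriction to the subspace spanned by the `u b`. -/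
noncomputable def Phi {N : ℕ} (u : Fin 4 → Fin N → ℂ) :
    MvPolynomial (Fin N) ℂ →ₐ[ℂ] MvPolynomial (Fin 4) ℂ :=
  aeval fun k => ∑ b, C (u b k) * X b

theorem Phi_hom {N : ℕ} (u : Fin 4 → Fin N → ℂ) {φ : MvPolynomial (Fin N) ℂ} {d : ℕ}
    (h : φ.IsHomogeneous d) : (Phi u φ).IsHomogeneous d := by
  have h1 := h.aeval (fun k => ∑ b, C (u b k) * X b) (n := 1) (fun k => by
    refine IsHomogeneous.sum _ _ _ fun b _ => ?_
    have := (isHomogeneous_C (Fin 4) (u b k)).mul (isHomogeneous_X ℂ b)
    rwa [zero_add] at this)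
  rwa [one_mul] at h1

theorem eval_Phi {N : ℕ} (u : Fin 4 → Fin N → ℂ) (y : Fin 4 → ℂ) (φ : MvPolynomial (Fin N) ℂ) :
    eval y (Phi u φ) = eval (fun k => ∑ b, u b k * y b) φ := by
  induction φ using MvPolynomial.induction_on with
  | C a => simp [Phi]
  | add a b ha hb => rw [map_add, map_add, map_add, ha, hb]
  | mul_X a i ha =>
    rw [map_mul, map_mul, map_mul, ha, eval_X]
    simp [Phi]

end Pool.Agent.Lib.MPc9b009.B5.CUTM

namespace Pool.Agent.Lib.MPc9b009.B5

open MvPolynomial

/-- **CUT**: Proposition C. -/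
theorem specCUT (hSEL : SpecSEL) (hPRN : SpecPRN) (hSKE : SpecSKE) (hRKM : SpecRKM) :
    SpecCUT := by
  intro N g h6 hN hdet
  obtain ⟨m, rfl⟩ : ∃ m, N = 2 * m + 4 + 2 := ⟨(N - 6) / 2, by omega⟩
  by_contra hcon
  push Not at hcon
  set I := Ideal.span {z | ∃ I J : Fin (2 * m + 4 + 2 - 3) → Fin (2 * m + 4 + 2),
    z = mnr g.f I J} with hI
  have hHom : Hom I := CUTM.hom_span _ (by
    rintro _ ⟨a, b, rfl⟩
    exact ⟨_, CUTM.det_hom _ (fun _ _ => g.quad _ _)⟩)
  have hb : ∀ q : Ideal (MvPolynomial (Fin (2 * m + 4 + 2)) ℂ), q.IsPrime → I ≤ q →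
      Algebra.trdeg ℂ (MvPolynomial (Fin (2 * m + 4 + 2)) ℂ ⧸ q) ≤
        ((2 * m + 2 : ℕ) : Cardinal) := fun q hq hIq => CUTM.bound (K := 2 * m + 2) I hcon q hq hIq
  obtain ⟨c, hc⟩ := hSEL (2 * m + 4 + 2) (2 * m + 2) 1 (fun _ => I) (fun _ => 0)
    (Fin (2 * m + 4 + 2)) inferInstance 1 (fun k => X k) le_rfl (fun k => isHomogeneous_X ℂ k)
    (fun _ => hHom) (fun _ q hq _ hIq => hb q hq hIq)
    (fun _ q _ _ _ hX => by
      have := CUTM.trdeg_top q hX
      simpa using this)
  obtain ⟨u, hu, hcu⟩ := CUTM.plane (N := 2 * m + 4 + 2) (M := 2 * m + 2) (by omega) c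
  set A : Matrix (Fin (2 * m + 4 + 2)) (Fin (2 * m + 4 + 2)) (MvPolynomial (Fin 4) ℂ) :=
    Matrix.of fun i j => CUTM.Phi u (g.f i j) with hA
  have hAdet : A.det = 0 := by
    have e : A = (CUTM.Phi u).mapMatrix (Matrix.of g.f) := by
      ext i j; rfl
    rw [e, ← AlgHom.map_det, hdet, map_zero]
  obtain ⟨y, hy, hrk⟩ := hPRN (2 * m + 4 + 2) A h6
    (fun i j => by
      show CUTM.Phi u (g.f j i) = - CUTM.Phi u (g.f i j)
      rw [g.skew i j, map_neg])
    (fun i j => CUTM.Phi_hom u (g.quad i j)) hAdet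
  set x : Fin (2 * m + 4 + 2) → ℂ := fun k => ∑ b, u b k * y b with hx
  have hx0 : x ≠ 0 := by
    intro h0
    apply hy
    have h1 : ∑ b, y b • u b = 0 := by
      ext k
      rw [Finset.sum_apply]
      have := congrFun h0 k
      simp only [hx, Pi.zero_apply] at this
      rw [Pi.zero_apply, ← this]
      refine Finset.sum_congr rfl fun b _ => ?_
      rw [Pi.smul_apply, smul_eq_mul, mul_comm]
    have h2 := Fintype.linearIndependent_iff.1 hu y h1
    exact funext h2
  have hmat : (Matrix.of fun i j => eval y (A i j)) = mat g.f x := by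
    ext i j
    show eval y (CUTM.Phi u (g.f i j)) = eval x (g.f i j)
    rw [CUTM.eval_Phi]
  rw [hmat] at hrk
  have hrk2 : (mat g.f x).rank ≤ 2 * (m + 1) := by
    refine hSKE ℂ inferInstance inferInstance (2 * m + 4 + 2) (m + 1) (mat g.f x) ?_ (by omega)
    ext i j
    show eval x (g.f j i) = - eval x (g.f i j)
    rw [g.skew i j, map_neg]
  have hmin := (hRKM ℂ inferInstance (2 * m + 4 + 2) (2 * m + 4 + 2) (2 * (m + 1))
    (mat g.f x)).2 hrk2
  have hpr : (RingHom.ker (CUTM.psi x)).IsPrime := RingHom.ker_isPrime _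
  refine CUTM.trdeg_line x hx0 ?_
  have hfin := hc 0 (RingHom.ker (CUTM.psi x)) hpr (CUTM.line_hom x) ?_ ?_
  · simpa using hfin
  · rw [hI, Ideal.span_le]
    rintro _ ⟨a, b, rfl⟩
    refine CUTM.mem_line x (CUTM.det_hom _ (fun _ _ => g.quad _ _)) ?_
    have h1 := hmin a b
    rw [mnr, RingHom.map_det]
    exact h1
  · intro j
    refine CUTM.mem_line x (d := 1) ?_ ?_
    · refine IsHomogeneous.sum _ _ _ fun k _ => ?_
      have := (isHomogeneous_C (Fin (2 * m + 4 + 2)) (c j k)).mul (isHomogeneous_X ℂ k)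
      rwa [zero_add] at this
    · rw [map_sum]
      have e : ∀ k, eval x (C (c j k) * X k) = ∑ b, y b * (c j k * u b k) := by
        intro k
        rw [map_mul, eval_C, eval_X, hx, Finset.mul_sum]
        refine Finset.sum_congr rfl fun b _ => ?_
        ring
      rw [Finset.sum_congr rfl fun k _ => e k, Finset.sum_comm]
      refine Finset.sum_eq_zero fun b _ => ?_
      rw [← Finset.mul_sum, hcu b j, mul_zero]

end Pool.Agent.Lib.MPc9b009.B5
end

section
/-!
# MP_c9b009_ag, module DET0: the determinant of a unimodular quadratic Poisson structure vanishes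
-/
set_option autoImplicit false

namespace Pool.Agent.Lib.MPc9b009.B5

open MvPolynomial

namespace DET0M

open TrivSqZeroExt DualNumber

/-- the homomorphism `r ↦ r + ε D r` -/
noncomputable def phi {S R : Type*} [CommRing S] [CommRing R] [Algebra S R] (D : Derivation S R R) :
    R →+* DualNumber R where
  toFun r := inl r + inr (D r)
  map_one' := by simp
  map_mul' a b := by
    ext
    · simp
    · simp [mul_comm]
  map_zero' := by simp
  map_add' a b := by
    ext
    · simp
    · simp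

theorem phi_apply {S R : Type*} [CommRing S] [CommRing R] [Algebra S R] (D : Derivation S R R)
    (r : R) : phi D r = inl r + inr (D r) := rfl

theorem det_one_eps {R : Type*} [CommRing R] {n : Type*} [Fintype n] [DecidableEq n]
    (C : Matrix n n R) (h : C.trace = 0) :
    (1 + (ε : DualNumber R) • (inlHom R R).mapMatrix C).det = 1 := by
  rw [Matrix.det_one_add_smul, eps_pow_two, mul_zero, add_zero]
  have : ((inlHom R R).mapMatrix C).trace = 0 := by
    have h1 : ((inlHom R R).mapMatrix C).trace = inlHom R R C.trace := by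
      simp [Matrix.trace]
    rw [h1, h, map_zero]
  rw [this, zero_mul, add_zero]

theorem der_det {S R : Type*} [CommRing S] [CommRing R] [Algebra S R] (D : Derivation S R R)
    {n : Type*} [Fintype n] [DecidableEq n] (A C : Matrix n n R)
    (hA : ∀ i j, D (A i j) = (C * A + A * C.transpose) i j) (htr : C.trace = 0) :
    D A.det = 0 := by
  have h1 : phi D A.det = ((phi D).mapMatrix A).det := RingHom.map_det _ _
  have h2 : (phi D).mapMatrix A = (1 + (ε : DualNumber R) • (inlHom R R).mapMatrix C) *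
      (inlHom R R).mapMatrix A * (1 + (ε : DualNumber R) • (inlHom R R).mapMatrix C.transpose) := by
    have h3 : (phi D).mapMatrix A = (inlHom R R).mapMatrix A +
        (ε : DualNumber R) • (inlHom R R).mapMatrix (C * A + A * C.transpose) := by
      ext i j
      · simp [phi_apply]
      · have := hA i j
        simp [phi_apply, this]
    rw [h3, map_add, map_mul, map_mul]
    have e2 : (ε : DualNumber R) * ε = 0 := eps_mul_eps
    simp only [add_mul, mul_add, one_mul, mul_one, Matrix.smul_mul, Matrix.mul_smul, smul_smul, e2,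
      zero_smul, add_zero, smul_add]
    abel
  have h4 : phi D A.det = inl A.det := by
    rw [h1, h2, Matrix.det_mul, Matrix.det_mul, det_one_eps C htr,
      det_one_eps C.transpose (by rw [Matrix.trace_transpose]; exact htr), one_mul, mul_one]
    exact (RingHom.map_det (inlHom R R) A).symm
  have h5 := congrArg snd h4
  rw [phi_apply] at h5
  simpa using h5

end DET0M

theorem specDET0 : SpecDET0 := by
  intro N g hN hjac hdiv
  set A : Matrix (Fin N) (Fin N) (MvPolynomial (Fin N) ℂ) := Matrix.of g.f with hA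
  -- the Hamiltonian vector fields
  let D : Fin N → Derivation ℂ (MvPolynomial (Fin N) ℂ) (MvPolynomial (Fin N) ℂ) :=
    fun a => ∑ l, g.f a l • pderiv l
  have hD : ∀ a x, D a x = ∑ l, g.f a l * pderiv l x := by
    intro a x
    have h := map_sum (Derivation.coeFnAddMonoidHom (R := ℂ) (A := MvPolynomial (Fin N) ℂ)
      (M := MvPolynomial (Fin N) ℂ)) (fun l => g.f a l • pderiv l) Finset.univ
    have h2 := congrFun h x
    rw [Finset.sum_apply] at h2
    exact h2
  have hX : ∀ a, D a A.det = 0 := by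
    intro a
    refine DET0M.der_det (D a) A (Matrix.of fun i l => pderiv l (g.f a i)) ?_ ?_
    · intro i j
      rw [hD, Matrix.add_apply, Matrix.mul_apply, Matrix.mul_apply]
      simp only [hA, Matrix.of_apply, Matrix.transpose_apply]
      have h := hjac a i j
      unfold jac at h
      rw [Finset.sum_add_distrib, Finset.sum_add_distrib] at h
      have e1 : ∑ l, g.f i l * pderiv l (g.f j a) = - ∑ l, g.f i l * pderiv l (g.f a j) := by
        rw [← Finset.sum_neg_distrib]
        refine Finset.sum_congr rfl fun l _ => ?_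
        rw [g.skew a j, map_neg]
        ring
      have e2 : ∑ l, g.f j l * pderiv l (g.f a i) = - ∑ l, pderiv l (g.f a i) * g.f l j := by
        rw [← Finset.sum_neg_distrib]
        refine Finset.sum_congr rfl fun l _ => ?_
        rw [g.skew l j]
        ring
      rw [e1, e2] at h
      linear_combination h
    · have h : Matrix.trace (Matrix.of fun i l => pderiv l (g.f a i)) = - ∑ i, pderiv i (g.f i a) := by
        rw [Matrix.trace, ← Finset.sum_neg_distrib]
        refine Finset.sum_congr rfl fun l _ => ?_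
        rw [Matrix.diag_apply, Matrix.of_apply, g.skew l a, map_neg]
      rw [h, hdiv, neg_zero]
  by_contra hdet
  have hgrad : (fun l => pderiv l A.det) = 0 := by
    refine Matrix.eq_zero_of_mulVec_eq_zero hdet ?_
    funext a
    have h := hX a
    rw [hD] at h
    exact h
  have hhom : A.det.IsHomogeneous (N * 2) := by
    rw [Matrix.det_apply]
    refine IsHomogeneous.sum _ _ _ fun σ _ => ?_
    have h1 : (∏ i, A (σ i) i).IsHomogeneous (N * 2) := by
      have := IsHomogeneous.prod Finset.univ (fun i => A (σ i) i) (fun _ => 2)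
        (fun i _ => g.quad (σ i) i)
      simpa using this
    rcases Int.units_eq_one_or (Equiv.Perm.sign σ) with h | h
    · rw [h, one_smul]; exact h1
    · rw [h, Units.neg_smul, one_smul]; exact h1.neg
  have heul := hhom.sum_X_mul_pderiv
  have hz : ∑ i, X i * pderiv i A.det = 0 := by
    refine Finset.sum_eq_zero fun i _ => ?_
    have := congrFun hgrad i
    simp only [Pi.zero_apply] at this
    rw [this, mul_zero]
  rw [hz] at heul
  have hN2 : (N * 2 : ℕ) ≠ 0 := by omega
  rw [eq_comm, smul_eq_zero] at heul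
  rcases heul with h | h
  · exact hN2 h
  · exact hdet h

end Pool.Agent.Lib.MPc9b009.B5
end

section
/-!
# MP_c9b009_ag, row B5, module DEX: derivations of finite extensions of rational function fields
-/
namespace Pool.Agent.Lib.MPc9b009.B5.DEXM

open MvPolynomial KaehlerDifferential

section

variable (R S T : Type) [CommRing R] [CommRing S] [CommRing T] [Algebra R S] [Algebra R T]
  [Algebra S T] [IsScalarTower R S T] [Algebra.FormallyEtale S T]

/-- evaluation of a sum of derivations -/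
theorem sum_apply' {A B : Type} [CommRing A] [CommRing B] [Algebra A B] {σ : Type} [Fintype σ]
    (E : σ → Derivation A B B) (x : B) : (∑ b, E b) x = ∑ b, E b x := by
  have h := map_sum (Derivation.coeFnAddMonoidHom : Derivation A B B →+ (B → B)) E Finset.univ
  have h2 := congrFun h x
  rw [Finset.sum_apply] at h2
  exact h2

/-- derivations with values in a formally etale extension extend -/
theorem exists_ext (d : Derivation R S T) :
    ∃ D : Derivation R T T, ∀ s, D (algebraMap S T s) = d s := by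
  have hbc := isBaseChange_of_formallyEtale R S T
  refine ⟨(hbc.lift d.liftKaehlerDifferential).compDer (KaehlerDifferential.D R T), fun s => ?_⟩
  have h1 : (KaehlerDifferential.D R T) (algebraMap S T s)
      = KaehlerDifferential.map R R S T (KaehlerDifferential.D R S s) :=
    (KaehlerDifferential.map_D R R S T s).symm
  change (hbc.lift d.liftKaehlerDifferential) ((KaehlerDifferential.D R T) (algebraMap S T s)) = d s
  rw [h1, hbc.lift_eq, Derivation.liftKaehlerDifferential_comp_D]

/-- and the extension is unique -/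
theorem ext_unique (D₁ D₂ : Derivation R T T)
    (h : ∀ s : S, D₁ (algebraMap S T s) = D₂ (algebraMap S T s)) : D₁ = D₂ := by
  have hbc := isBaseChange_of_formallyEtale R S T
  have h1 : D₁.liftKaehlerDifferential = D₂.liftKaehlerDifferential := by
    refine hbc.algHom_ext _ _ fun x => ?_
    have hx : x ∈ Submodule.span S (Set.range (KaehlerDifferential.D R S)) := by
      rw [KaehlerDifferential.span_range_derivation]
      trivial
    induction hx using Submodule.span_induction with
    | mem x hx =>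
      obtain ⟨s, rfl⟩ := hx
      rw [KaehlerDifferential.map_D, Derivation.liftKaehlerDifferential_comp_D,
        Derivation.liftKaehlerDifferential_comp_D, h s]
    | zero => simp
    | add x y _ _ hx hy => rw [map_add, map_add, map_add, hx, hy]
    | smul a x _ hx =>
      rw [map_smul]
      have e : ∀ D : Derivation R T T, D.liftKaehlerDifferential (a • map R R S T x)
          = a • D.liftKaehlerDifferential (map R R S T x) := fun D =>
        (D.liftKaehlerDifferential.restrictScalars S).map_smul a _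
      rw [e, e, hx]
  rw [← D₁.liftKaehlerDifferential_comp, ← D₂.liftKaehlerDifferential_comp, h1]

end

end Pool.Agent.Lib.MPc9b009.B5.DEXM

namespace Pool.Agent.Lib.MPc9b009.B5

open MvPolynomial DEXM

theorem specDEX : SpecDEX := by
  intro σ _ _ L _ _ _ _ _ _ _
  have h1 : Algebra.FormallyEtale (MvPolynomial σ ℂ) (FractionRing (MvPolynomial σ ℂ)) :=
    Algebra.FormallyEtale.of_isLocalization (nonZeroDivisors _)
  have h2 : Algebra.FormallyEtale (FractionRing (MvPolynomial σ ℂ)) L :=
    Algebra.FormallyEtale.of_isSeparable _ _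
  have h3 : Algebra.FormallyEtale (MvPolynomial σ ℂ) L :=
    Algebra.FormallyEtale.comp (MvPolynomial σ ℂ) (FractionRing (MvPolynomial σ ℂ)) L
  choose dd hdd using fun b : σ => exists_ext ℂ (MvPolynomial σ ℂ) L
    (mkDerivation ℂ (fun c : σ => if b = c then (1 : L) else 0))
  have hX : ∀ b c, dd b (algebraMap (MvPolynomial σ ℂ) L (X c)) = if b = c then 1 else 0 := by
    intro b c
    rw [hdd, mkDerivation_X]
  refine ⟨dd, hX, fun D x => ?_⟩
  have key : D = ∑ b, D (algebraMap (MvPolynomial σ ℂ) L (X b)) • dd b := by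
    refine ext_unique ℂ (MvPolynomial σ ℂ) L _ _ fun s => ?_
    have h4 : D.compAlgebraMap (MvPolynomial σ ℂ)
        = (∑ b, D (algebraMap (MvPolynomial σ ℂ) L (X b)) • dd b).compAlgebraMap
          (MvPolynomial σ ℂ) := by
      refine derivation_ext fun c => ?_
      rw [Derivation.compAlgebraMap_apply, Derivation.compAlgebraMap_apply]
      rw [sum_apply']
      simp [hX]
    exact congrArg (fun E => E s) h4
  conv_lhs => rw [key]
  rw [sum_apply']
  rfl

end Pool.Agent.Lib.MPc9b009.B5
end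

section
/-!
# MP_c9b009_ag, module DIM: independent derivations and the transcendence degree
-/
namespace Pool.Agent.Lib.MPc9b009.B5

open MvPolynomial

namespace DIMM

/-- a derivation to a field which vanishes on `B` vanishes on everything algebraic over `B` -/
theorem der_zero {A K : Type} [CommRing A] [IsDomain A] [Algebra ℂ A] [Field K] [Algebra ℂ K]
    [Algebra A K] [IsScalarTower ℂ A K] (hinj : Function.Injective (algebraMap A K))
    (B : Subalgebra ℂ A) [Algebra.IsAlgebraic B A] (D : Derivation ℂ A K)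
    (hB : ∀ b ∈ B, D b = 0) (a : A) : D a = 0 := by
  classical
  -- `D` commutes with multiplication by elements of `B`
  have hmap : ∀ P : Polynomial B, D (Polynomial.aeval a P) =
      algebraMap A K (Polynomial.aeval a (Polynomial.derivative P)) * D a := by
    intro P
    induction P using Polynomial.induction_on with
    | C b =>
      rw [Polynomial.aeval_C, Polynomial.derivative_C, map_zero, map_zero, zero_mul]
      exact hB _ b.2
    | add p q hp hq =>
      rw [map_add, map_add, hp, hq, Polynomial.derivative_add, map_add, map_add, add_mul]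
    | monomial n b _ =>
      have hb : D (algebraMap B A b) = 0 := hB _ b.2
      rw [Polynomial.derivative_C_mul_X_pow]
      simp only [map_mul, Polynomial.aeval_C, map_pow, Polynomial.aeval_X, Derivation.leibniz,
        hb, smul_zero, add_zero, Derivation.leibniz_pow, Nat.add_sub_cancel, map_natCast]
      rw [nsmul_eq_mul, Algebra.smul_def, Algebra.smul_def, map_pow]
      ring
  have hchar : CharZero B := by
    have h1 : CharZero A := charZero_of_injective_algebraMap (algebraMap ℂ A).injective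
    exact ⟨fun m n h => by
      have h2 := congrArg (fun b : B => (b : A)) h
      simpa using h2⟩
  have hex : ∃ n : ℕ, ∃ P : Polynomial B, P ≠ 0 ∧ Polynomial.aeval a P = 0 ∧ P.natDegree = n := by
    obtain ⟨P, hP, hP0⟩ := Algebra.IsAlgebraic.isAlgebraic (R := B) a
    exact ⟨_, P, hP, hP0, rfl⟩
  obtain ⟨P, hP, hP0, hPn⟩ := Nat.find_spec hex
  have hd : Polynomial.derivative P ≠ 0 := by
    intro h
    have h1 := Polynomial.derivative_eq_zero.1 h
    rw [Polynomial.eq_C_of_natDegree_eq_zero h1, Polynomial.aeval_C] at hP0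
    apply hP
    rw [Polynomial.eq_C_of_natDegree_eq_zero h1]
    have h2 : P.coeff 0 = 0 := Subtype.ext hP0
    rw [h2, Polynomial.C_0]
  have hdeg : (Polynomial.derivative P).natDegree < Nat.find hex := by
    rw [← hPn]
    apply Polynomial.natDegree_derivative_lt
    intro h
    apply hd
    rw [Polynomial.eq_C_of_natDegree_eq_zero h, Polynomial.derivative_C]
  have hne : Polynomial.aeval a (Polynomial.derivative P) ≠ 0 := by
    intro h
    exact Nat.find_min hex hdeg ⟨_, hd, h, rfl⟩
  have h3 := hmap P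
  rw [hP0, map_zero] at h3
  rcases mul_eq_zero.1 h3.symm with h | h
  · exact absurd (hinj (h.trans (map_zero _).symm)) hne
  · exact h

theorem sum_der {ι A M : Type} [Fintype ι] [CommRing A] [Algebra ℂ A] [AddCommGroup M]
    [Module A M] [Module ℂ M] (D : ι → Derivation ℂ A M) (a : A) :
    (∑ b, D b) a = ∑ b, D b a := by
  have h := map_sum (Derivation.coeFnAddMonoidHom (R := ℂ) (A := A) (M := M)) D Finset.univ
  have h1 := congrFun h a
  rw [Finset.sum_apply] at h1
  exact h1

end DIMM

open DIMM in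
theorem specDIM : SpecDIM := by
  classical
  intro N r k π p hp hst ⟨I, J, hIJ⟩
  by_contra hlt
  rw [not_le] at hlt
  have : IsDomain (MvPolynomial (Fin N) ℂ ⧸ p) := Ideal.Quotient.isDomain p
  let A := MvPolynomial (Fin N) ℂ ⧸ p
  let K := FractionRing A
  have hinj : Function.Injective (algebraMap A K) := IsFractionRing.injective A K
  -- the derivations
  let D0 : Fin k → Derivation ℂ (MvPolynomial (Fin N) ℂ) (MvPolynomial (Fin N) ℂ) :=
    fun b => ∑ i, π i (J b) • pderiv i
  have hD0 : ∀ b g, D0 b g = ∑ i, π i (J b) * pderiv i g := by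
    intro b g
    simp only [D0]
    rw [sum_der]
    rfl
  have hker : ∀ b, ∀ g, Ideal.Quotient.mkₐ ℂ p g = 0 → Ideal.Quotient.mkₐ ℂ p (D0 b g) = 0 := by
    intro b g hg
    have hg' : g ∈ p := Ideal.Quotient.eq_zero_iff_mem.1 hg
    rw [hD0]
    exact Ideal.Quotient.eq_zero_iff_mem.2 (hst g hg' (J b))
  let D1 : Fin k → Derivation ℂ A A := fun b =>
    Derivation.liftOfSurjective (Ideal.Quotient.mkₐ_surjective ℂ p) (hker b)
  have hD1 : ∀ b g, D1 b (Ideal.Quotient.mk p g) = Ideal.Quotient.mk p (D0 b g) := fun b g =>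
    Derivation.liftOfSurjective_apply (Ideal.Quotient.mkₐ_surjective ℂ p) (hker b) g
  let D2 : Fin k → Derivation ℂ A K := fun b => (Algebra.linearMap A K).compDer (D1 b)
  have hD2 : ∀ b a, D2 b a = algebraMap A K (D1 b a) := fun _ _ => rfl
  -- a transcendence basis
  obtain ⟨ι, x, hx⟩ := exists_isTranscendenceBasis' ℂ A
  have hcard : Cardinal.mk ι < (k : Cardinal) := by
    rw [hx.cardinalMk_eq_trdeg]
    exact hlt
  have hfin : Finite ι := Cardinal.lt_aleph0_iff_finite.1 (hcard.trans (Cardinal.natCast_lt_aleph0))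
  have : Fintype ι := Fintype.ofFinite ι
  rw [Cardinal.mk_fintype, Nat.cast_lt] at hcard
  -- a relation
  let L : (Fin k → K) →ₗ[K] (ι → K) :=
    { toFun := fun c j => ∑ b, c b * D2 b (x j)
      map_add' := by
        intro c c'
        funext j
        simp [add_mul, Finset.sum_add_distrib]
      map_smul' := by
        intro t c
        funext j
        simp only [Pi.smul_apply, smul_eq_mul, RingHom.id_apply, mul_assoc]
        rw [Finset.mul_sum] }
  have hk : LinearMap.ker L ≠ ⊥ := by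
    apply LinearMap.ker_ne_bot_of_finrank_lt
    rw [Module.finrank_fintype_fun_eq_card, Module.finrank_fintype_fun_eq_card, Fintype.card_fin]
    exact hcard
  obtain ⟨c, hc, hc0⟩ := (Submodule.ne_bot_iff _).1 hk
  have hcL : ∀ j, ∑ b, c b * D2 b (x j) = 0 := fun j => congrFun hc j
  let D : Derivation ℂ A K := ∑ b, c b • D2 b
  have hD : ∀ a, D a = ∑ b, c b * D2 b a := by
    intro a
    simp only [D]
    rw [sum_der]
    rfl
  have hBz : ∀ b ∈ Algebra.adjoin ℂ (Set.range x), D b = 0 := by
    intro b hb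
    induction hb using Algebra.adjoin_induction with
    | mem y hy =>
      obtain ⟨j, rfl⟩ := hy
      rw [hD]
      exact hcL j
    | algebraMap r => exact D.map_algebraMap r
    | add y z _ _ hy hz => rw [map_add, hy, hz, add_zero]
    | mul y z _ _ hy hz => rw [D.leibniz, hy, hz, smul_zero, smul_zero, add_zero]
  have halg : Algebra.IsAlgebraic (Algebra.adjoin ℂ (Set.range x)) A := hx.isAlgebraic
  have hDz : ∀ a, D a = 0 := der_zero hinj (Algebra.adjoin ℂ (Set.range x)) D hBz
  -- the minor vanishes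
  have hmv : (Matrix.of fun a b => algebraMap A K (Ideal.Quotient.mk p (π (I a) (J b)))).mulVec c
      = 0 := by
    funext a
    have h1 := hDz (Ideal.Quotient.mk p (X (I a)))
    rw [hD] at h1
    have h2 : ∀ b, D2 b (Ideal.Quotient.mk p (X (I a))) =
        algebraMap A K (Ideal.Quotient.mk p (π (I a) (J b))) := by
      intro b
      rw [hD2, hD1, hD0]
      congr 2
      rw [Finset.sum_eq_single (I a)]
      · rw [pderiv_X_self, mul_one]
      · intro i _ hi
        rw [pderiv_X_of_ne (Ne.symm hi), mul_zero]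
      · intro h
        exact absurd (Finset.mem_univ _) h
    simp only [h2] at h1
    rw [Matrix.mulVec, dotProduct]
    simp only [Matrix.of_apply, Pi.zero_apply]
    rw [← h1]
    exact Finset.sum_congr rfl fun b _ => mul_comm _ _
  have hdet := Matrix.exists_mulVec_eq_zero_iff.1 ⟨c, hc0, hmv⟩
  apply hIJ
  rw [← Ideal.Quotient.eq_zero_iff_mem]
  apply hinj
  rw [map_zero, ← hdet, mnr, RingHom.map_det, RingHom.map_det]
  rfl

end Pool.Agent.Lib.MPc9b009.B5
end

section
/-!
# MP_c9b009_ag, row B5, module DMIN: minimal primes of stable ideals are stable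
-/
namespace Pool.Agent.Lib.MPc9b009.B5

open MvPolynomial

namespace DMINM

/-- Elements of a minimal prime are nilpotent modulo `I` after localisation. -/
theorem exists_pow {R : Type} [CommRing R] {I p : Ideal R} (hp : p ∈ I.minimalPrimes) {g : R}
    (hg : g ∈ p) : ∃ (n : ℕ) (s : R), s ∉ p ∧ s * g ^ n ∈ I := by
  by_contra hcon
  push Not at hcon
  have hpp : p.IsPrime := hp.1.1
  let M : Submonoid R :=
    { carrier := {z | ∃ (n : ℕ) (s : R), s ∉ p ∧ z = s * g ^ n}
      one_mem' := ⟨0, 1, fun h => hpp.ne_top ((Ideal.eq_top_iff_one _).2 h), by simp⟩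
      mul_mem' := by
        rintro _ _ ⟨n, s, hs, rfl⟩ ⟨m, t, ht, rfl⟩
        refine ⟨n + m, s * t, fun h => ?_, by ring⟩
        rcases hpp.mem_or_mem h with h1 | h1
        · exact hs h1
        · exact ht h1 }
  have hdis : Disjoint (I : Set R) (M : Set R) := by
    rw [Set.disjoint_left]
    rintro z hz ⟨n, s, hs, rfl⟩
    exact hcon n s hs hz
  obtain ⟨q, hq, hIq, hqM⟩ := Ideal.exists_le_prime_disjoint I M hdis
  have hqp : q ≤ p := by
    intro z hz
    by_contra hzp
    exact Set.disjoint_left.1 hqM hz ⟨0, z, hzp, by simp⟩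
  have hpq : p ≤ q := hp.2 ⟨hq, hIq⟩ hqp
  exact Set.disjoint_left.1 hqM (hpq hg)
    ⟨1, 1, fun h => hpp.ne_top ((Ideal.eq_top_iff_one _).2 h), by simp⟩

theorem stable {R : Type} [CommRing R] [Algebra ℂ R] (D : Derivation ℂ R R) {I p : Ideal R}
    (hI : ∀ g ∈ I, D g ∈ I) (hp : p ∈ I.minimalPrimes) : ∀ g ∈ p, D g ∈ p := by
  intro g hg
  by_contra hcon
  have hpp : p.IsPrime := hp.1.1
  have hex : ∃ n : ℕ, ∃ s : R, s ∉ p ∧ s * g ^ n ∈ I := exists_pow hp hg
  classical
  obtain ⟨s, hs, hsn⟩ := Nat.find_spec hex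
  set n := Nat.find hex with hn
  rcases Nat.eq_zero_or_pos n with h0 | h0
  · rw [h0, pow_zero, mul_one] at hsn
    exact hs (hp.1.2 hsn)
  · have h1 : D (s * g ^ n) ∈ I := hI _ hsn
    have h2 : D (s * g ^ n) = s * ((n : R) * g ^ (n - 1) * D g) + g ^ n * D s := by
      rw [D.leibniz, D.leibniz_pow]
      simp only [smul_eq_mul, nsmul_eq_mul]
      ring
    have h3 : s * s * ((n : R) * g ^ (n - 1) * D g) ∈ I := by
      have h4 : s * s * ((n : R) * g ^ (n - 1) * D g) = s * D (s * g ^ n) - D s * (s * g ^ n) := by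
        rw [h2]; ring
      rw [h4]
      exact I.sub_mem (I.mul_mem_left _ h1) (I.mul_mem_left _ hsn)
    have h5 : (s * s * D g) * g ^ (n - 1) ∈ I := by
      have h6 : (s * s * D g) * g ^ (n - 1) =
          algebraMap ℂ R (1 / (n : ℂ)) * (s * s * ((n : R) * g ^ (n - 1) * D g)) := by
        have h7 : algebraMap ℂ R (1 / (n : ℂ)) * (n : R) = 1 := by
          rw [← map_natCast (algebraMap ℂ R) n, ← map_mul, one_div,
            inv_mul_cancel₀ (Nat.cast_ne_zero.2 h0.ne'), map_one]
        linear_combination (-(s * s * g ^ (n - 1) * D g)) * h7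
      rw [h6]
      exact I.mul_mem_left _ h3
    have h8 : s * s * D g ∉ p := by
      intro h
      rcases hpp.mem_or_mem h with h9 | h9
      · rcases hpp.mem_or_mem h9 with h10 | h10 <;> exact hs h10
      · exact hcon h9
    exact Nat.find_min hex (m := n - 1) (by omega) ⟨_, h8, h5⟩

end DMINM

theorem specDMIN : SpecDMIN := by
  intro N r π I hI p hp g hg j
  let D : Derivation ℂ (MvPolynomial (Fin N) ℂ) (MvPolynomial (Fin N) ℂ) :=
    ∑ i, π i j • pderiv i
  have hD : ∀ g, D g = ∑ i, π i j * pderiv i g := by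
    intro g
    simp only [D]
    rw [← Derivation.coeFnAddMonoidHom_apply, map_sum, Finset.sum_apply]
    rfl
  have h1 := DMINM.stable D (I := I) (p := p) (fun z hz => by rw [hD]; exact hI z hz j) hp g hg
  rw [hD] at h1
  exact h1

end Pool.Agent.Lib.MPc9b009.B5
end

section
/-!
# MP_c9b009_ag, row B5, module HS: the Hilbert function of a kernel is eventually polynomial
-/
set_option autoImplicit false

namespace Pool.Agent.Lib.MPc9b009.B5

open MvPolynomial

namespace HSM

variable {v N : ℕ}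

/-- The component of degree `d` of a vector. -/
noncomputable def cmp (d : ℕ) (w : Fin N → MvPolynomial (Fin v) ℂ) : Fin N → MvPolynomial (Fin v) ℂ :=
  fun i => homogeneousComponent d (w i)

theorem cmp_add (d : ℕ) (w w' : Fin N → MvPolynomial (Fin v) ℂ) : cmp d (w + w') = cmp d w + cmp d w' := by
  ext1 i
  simp [cmp]

theorem cmp_sum {ι : Type} (s : Finset ι) (d : ℕ) (w : ι → Fin N → MvPolynomial (Fin v) ℂ) :
    cmp d (∑ i ∈ s, w i) = ∑ i ∈ s, cmp d (w i) := by
  ext1 i
  simp [cmp]

theorem cmp_mem (d : ℕ) (w : Fin N → MvPolynomial (Fin v) ℂ) : cmp d w ∈ hv v N d := by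
  intro i _
  exact homogeneousComponent_mem d (w i)

theorem cmp_of_mem {d : ℕ} {w : Fin N → MvPolynomial (Fin v) ℂ} (h : w ∈ hv v N d) : cmp d w = w := by
  ext1 i
  exact homogeneousComponent_eq_self (h i (Set.mem_univ i))

theorem cmp_of_mem_ne {d e : ℕ} {w : Fin N → MvPolynomial (Fin v) ℂ} (h : w ∈ hv v N e) (hd : d ≠ e) :
    cmp d w = 0 := by
  ext1 i
  have := homogeneousComponent_of_mem (m := d) (h i (Set.mem_univ i))
  rw [if_neg hd] at this
  exact this

theorem homComp_X_mul (k : Fin v) (d : ℕ) (p : MvPolynomial (Fin v) ℂ) :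
    homogeneousComponent (d + 1) (X k * p) = X k * homogeneousComponent d p := by
  ext m
  rw [coeff_homogeneousComponent, coeff_X_mul', coeff_X_mul']
  by_cases hm : k ∈ m.support
  · rw [if_pos hm, if_pos hm, coeff_homogeneousComponent]
    have hle : Finsupp.single k 1 ≤ m := by
      rw [Finsupp.single_le_iff]
      exact Nat.one_le_iff_ne_zero.2 (Finsupp.mem_support_iff.1 hm)
    have hdeg : m.degree = (m - Finsupp.single k 1).degree + 1 := by
      conv_lhs => rw [← tsub_add_cancel_of_le hle]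
      rw [map_add, Finsupp.degree_single]
    by_cases h : (m - Finsupp.single k 1).degree = d
    · rw [if_pos h, if_pos (by omega)]
    · rw [if_neg h, if_neg (by omega)]
  · rw [if_neg hm, if_neg hm, ite_self]

theorem homComp_zero_X_mul (k : Fin v) (p : MvPolynomial (Fin v) ℂ) :
    homogeneousComponent 0 (X k * p) = 0 := by
  rw [homogeneousComponent_zero, coeff_X_mul', if_neg (by simp), C_0]

/-- Multiplication by `X k`. -/
noncomputable def mulX (v N : ℕ) (k : Fin v) :
    (Fin N → MvPolynomial (Fin v) ℂ) →ₗ[MvPolynomial (Fin v) ℂ] (Fin N → MvPolynomial (Fin v) ℂ) :=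
  (X k : MvPolynomial (Fin v) ℂ) • LinearMap.id

theorem mulX_apply (k : Fin v) (w : Fin N → MvPolynomial (Fin v) ℂ) : mulX v N k w = (X k : MvPolynomial (Fin v) ℂ) • w :=
  rfl

theorem mulX_inj (k : Fin v) : Function.Injective (mulX v N k) := by
  intro w w' h
  ext1 i
  have h1 : (X k : MvPolynomial (Fin v) ℂ) * w i = X k * w' i := by
    have := congrFun h i
    simpa [mulX_apply] using this
  exact mul_left_cancel₀ (X_ne_zero k) h1

theorem cmp_mulX (k : Fin v) (d : ℕ) (w : Fin N → MvPolynomial (Fin v) ℂ) :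
    cmp (d + 1) (mulX v N k w) = mulX v N k (cmp d w) := by
  ext1 i
  simp only [cmp, mulX_apply, Pi.smul_apply, smul_eq_mul]
  exact homComp_X_mul k d (w i)

theorem cmp_zero_mulX (k : Fin v) (w : Fin N → MvPolynomial (Fin v) ℂ) :
    cmp 0 (mulX v N k w) = 0 := by
  ext1 i
  simp only [cmp, mulX_apply, Pi.smul_apply, smul_eq_mul]
  exact homComp_zero_X_mul k (w i)

theorem mulX_mem_hv (k : Fin v) {d : ℕ} {w : Fin N → MvPolynomial (Fin v) ℂ} (h : w ∈ hv v N d) :
    mulX v N k w ∈ hv v N (d + 1) := by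
  rw [← cmp_of_mem h, ← cmp_mulX]
  exact cmp_mem _ _

/-- Homogeneous submodules. -/
def HomS (M : Submodule (MvPolynomial (Fin v) ℂ) (Fin N → MvPolynomial (Fin v) ℂ)) : Prop :=
  ∀ w ∈ M, ∀ d, cmp d w ∈ M

/-- The part of degree `a`. -/
noncomputable def gr (M : Submodule (MvPolynomial (Fin v) ℂ) (Fin N → MvPolynomial (Fin v) ℂ)) (a : ℕ) :
    Submodule ℂ (Fin N → MvPolynomial (Fin v) ℂ) :=
  hv v N a ⊓ M.restrictScalars ℂ

theorem mem_gr {M : Submodule (MvPolynomial (Fin v) ℂ) (Fin N → MvPolynomial (Fin v) ℂ)} {a : ℕ}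
    {w : Fin N → MvPolynomial (Fin v) ℂ} : w ∈ gr M a ↔ w ∈ hv v N a ∧ w ∈ M := by
  unfold gr
  rw [Submodule.mem_inf, Submodule.restrictScalars_mem]

instance fin_hv (a : ℕ) : FiniteDimensional ℂ (hv v N a) := by
  have : Module.Finite ℂ (homogeneousSubmodule (Fin v) ℂ a) :=
    Module.Finite.iff_fg.2 (homogeneousSubmodule_fg (Fin v) ℂ a)
  let f : hv v N a →ₗ[ℂ] (Fin N → homogeneousSubmodule (Fin v) ℂ a) :=
    LinearMap.pi fun i => LinearMap.codRestrict _ ((LinearMap.proj i).comp (hv v N a).subtype)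
      (fun w => w.2 i (Set.mem_univ i))
  have hf : Function.Injective f := by
    intro w w' h
    apply Subtype.ext
    ext1 i
    have := congrArg Subtype.val (congrFun h i)
    exact this
  exact Module.Finite.of_injective f hf

instance fin_gr (M : Submodule (MvPolynomial (Fin v) ℂ) (Fin N → MvPolynomial (Fin v) ℂ)) (a : ℕ) :
    FiniteDimensional ℂ (gr M a) :=
  Submodule.finiteDimensional_of_le (S₂ := hv v N a) inf_le_left

/-- Antidifferences. -/
theorem antidiff (Q : Polynomial ℚ) : ∃ P : Polynomial ℚ, ∀ x : ℚ, P.eval (1 + x) = P.eval x + Q.eval x := by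
  induction Q using Polynomial.induction_on' with
  | add p q hp hq =>
    obtain ⟨P, hP⟩ := hp
    obtain ⟨Q, hQ⟩ := hq
    refine ⟨P + Q, fun x => ?_⟩
    rw [Polynomial.eval_add, Polynomial.eval_add, Polynomial.eval_add, hP, hQ]
    ring
  | monomial n a =>
    refine ⟨Polynomial.C (a / (n + 1)) * Polynomial.bernoulli (n + 1), fun x => ?_⟩
    rw [Polynomial.eval_mul, Polynomial.eval_mul, Polynomial.eval_C, Polynomial.eval_C,
      Polynomial.bernoulli_eval_one_add, Polynomial.eval_monomial, Nat.add_sub_cancel]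
    have : ((n : ℚ) + 1) ≠ 0 := by positivity
    push_cast
    field_simp

theorem sum_poly (h : ℕ → ℚ) (Q : Polynomial ℚ) (a₀ : ℕ) (hh : ∀ a, a₀ ≤ a → h (a + 1) - h a = Q.eval (a : ℚ)) :
    ∃ P : Polynomial ℚ, ∀ a, a₀ ≤ a → h a = P.eval (a : ℚ) := by
  obtain ⟨P, hP⟩ := antidiff Q
  refine ⟨P + Polynomial.C (h a₀ - P.eval (a₀ : ℚ)), fun a ha => ?_⟩
  induction a, ha using Nat.le_induction with
  | base => simp
  | succ a ha ih =>
    have h1 := hh a ha
    have h2 := hP (a : ℚ)
    rw [Polynomial.eval_add, Polynomial.eval_C] at ih ⊢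
    push_cast
    rw [add_comm (a : ℚ) 1]
    linarith

/-- Elements of large degree: base case. -/
theorem large (L M : Submodule (MvPolynomial (Fin v) ℂ) (Fin N → MvPolynomial (Fin v) ℂ)) (hL : HomS L)
    (hX : ∀ j : Fin v, ∀ w ∈ M, mulX v N j w ∈ L) : ∃ a₀, ∀ a, a₀ ≤ a → ∀ w, w ∈ gr M a → w ∈ gr L a := by
  have hfg : M.FG := IsNoetherian.noetherian M
  obtain ⟨G, hG⟩ := hfg
  -- bound of the degrees
  have hb : ∃ D : ℕ, ∀ g ∈ G, ∀ i, (g i).totalDegree < D := by
    refine ⟨(G.sup fun g => Finset.univ.sup fun i => (g i).totalDegree) + 1, fun g hg i => ?_⟩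
    have h1 : (g i).totalDegree ≤ Finset.univ.sup fun i => (g i).totalDegree :=
      Finset.le_sup (f := fun i => (g i).totalDegree) (Finset.mem_univ i)
    have h2 : (Finset.univ.sup fun i => (g i).totalDegree) ≤
        G.sup fun g => Finset.univ.sup fun i => (g i).totalDegree :=
      Finset.le_sup (f := fun g => Finset.univ.sup fun i : Fin N => (g i).totalDegree) hg
    omega
  obtain ⟨D, hD⟩ := hb
  -- polynomials without constant term
  have hc : ∀ p : MvPolynomial (Fin v) ℂ, ∀ w ∈ M, (p - C (coeff 0 p)) • w ∈ L := by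
    intro p w hw
    have h1 : (p - C (coeff 0 p)) ∈ Ideal.span (Set.range (X : Fin v → MvPolynomial (Fin v) ℂ)) := by
      have := (mem_pow_idealOfVars_iff' 1 (p - C (coeff 0 p))).2 (by
        intro x hx
        have hx0 : x = 0 := by
          have : x.degree = 0 := by omega
          exact (Finsupp.degree_eq_zero_iff x).1 this
        subst hx0
        simp)
      rw [pow_one] at this
      exact this
    refine Submodule.span_induction (p := fun (x : MvPolynomial (Fin v) ℂ) _ => x • w ∈ L) ?_ ?_ ?_ ?_ h1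
    · rintro _ ⟨j, rfl⟩
      exact hX j w hw
    · rw [zero_smul]; exact L.zero_mem
    · intro x y _ _ hx hy
      rw [add_smul]; exact L.add_mem hx hy
    · intro r x _ hx
      rw [smul_eq_mul, mul_smul]; exact L.smul_mem r hx
  refine ⟨D + 1, fun a ha' w hw => ?_⟩
  have ha0 : 0 < a := by omega
  have ha : D ≤ a := by omega
  rw [mem_gr] at hw ⊢
  refine ⟨hw.1, ?_⟩
  have hwM := hw.2
  rw [← hG, Submodule.mem_span_finset] at hwM
  obtain ⟨f, _, hf⟩ := hwM
  have hGM : ∀ g ∈ G, g ∈ M := fun g hg => by rw [← hG]; exact Submodule.subset_span hg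
  have e1 : w = ∑ g ∈ G, (C (coeff 0 (f g)) : MvPolynomial (Fin v) ℂ) • g + ∑ g ∈ G, (f g - C (coeff 0 (f g))) • g := by
    rw [← Finset.sum_add_distrib, ← hf]
    refine Finset.sum_congr rfl fun g _ => ?_
    rw [← add_smul, add_sub_cancel]
  have e2 : ∑ g ∈ G, (f g - C (coeff 0 (f g))) • g ∈ L := L.sum_mem fun g hg => hc (f g) g (hGM g hg)
  have e3 : cmp a (∑ g ∈ G, (C (coeff 0 (f g)) : MvPolynomial (Fin v) ℂ) • g) = 0 := by
    ext1 i
    simp only [cmp, Pi.zero_apply]
    apply homogeneousComponent_eq_zero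
    rw [Finset.sum_apply]
    refine lt_of_le_of_lt (totalDegree_finsetSum _ _) ?_
    rw [Finset.sup_lt_iff (show (⊥ : ℕ) < a from ha0)]
    intro g hg
    refine lt_of_le_of_lt ?_ (lt_of_lt_of_le (hD g hg i) ha)
    rw [Pi.smul_apply, smul_eq_mul]
    refine (totalDegree_mul _ _).trans ?_
    rw [totalDegree_C, zero_add]
  have e4 : cmp a w = cmp a (∑ g ∈ G, (f g - C (coeff 0 (f g))) • g) := by
    conv_lhs => rw [e1]
    rw [cmp_add, e3, zero_add]
  rw [← cmp_of_mem hw.1, e4]
  exact hL _ e2 a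

/-- The induction. -/
theorem main : ∀ k : ℕ, k ≤ v → ∀ L M : Submodule (MvPolynomial (Fin v) ℂ) (Fin N → MvPolynomial (Fin v) ℂ),
    L ≤ M → HomS L → HomS M → (∀ j : Fin v, k ≤ (j : ℕ) → ∀ w ∈ M, mulX v N j w ∈ L) →
    ∃ (P : Polynomial ℚ) (a₀ : ℕ), ∀ a, a₀ ≤ a →
      (Module.finrank ℂ (gr M a) : ℚ) - (Module.finrank ℂ (gr L a) : ℚ) = P.eval (a : ℚ) := by
  intro k
  induction k with
  | zero =>
    intro _ L M hLM hL hM hX
    obtain ⟨a₀, h⟩ := large L M hL (fun j w hw => hX j (Nat.zero_le _) w hw)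
    refine ⟨0, a₀, fun a ha => ?_⟩
    have : gr M a = gr L a := by
      apply le_antisymm (fun w hw => h a ha w hw)
      intro w hw
      rw [mem_gr] at hw ⊢
      exact ⟨hw.1, hLM hw.2⟩
    rw [this, sub_self, Polynomial.eval_zero]
  | succ k ih =>
    intro hk L M hLM hL hM hX
    set κ : Fin v := ⟨k, by omega⟩ with hκ
    set L' : Submodule (MvPolynomial (Fin v) ℂ) (Fin N → MvPolynomial (Fin v) ℂ) := L ⊔ M.map (mulX v N κ) with hL'
    set M' : Submodule (MvPolynomial (Fin v) ℂ) (Fin N → MvPolynomial (Fin v) ℂ) := M ⊓ L.comap (mulX v N κ) with hM'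
    have hXM : ∀ w ∈ M, ∀ j : Fin v, mulX v N j w ∈ M := fun w hw j => M.smul_mem _ hw
    have hL'M : L' ≤ M := by
      rw [hL']
      refine sup_le hLM ?_
      rintro _ ⟨w, hw, rfl⟩
      exact hXM w hw κ
    have hLM' : L ≤ M' := by
      rw [hM']
      refine le_inf hLM ?_
      intro w hw
      rw [Submodule.mem_comap]
      exact L.smul_mem _ hw
    have hL'h : HomS L' := by
      intro w hw d
      rw [hL', Submodule.mem_sup] at hw
      obtain ⟨l, hl, _, ⟨m, hm, rfl⟩, rfl⟩ := hw
      rw [cmp_add]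
      refine L'.add_mem (Submodule.mem_sup_left (hL l hl d)) ?_
      rcases d with _ | d
      · rw [cmp_zero_mulX]; exact L'.zero_mem
      · rw [cmp_mulX]
        exact Submodule.mem_sup_right ⟨_, hM m hm d, rfl⟩
    have hM'h : HomS M' := by
      intro w hw d
      rw [hM', Submodule.mem_inf, Submodule.mem_comap] at hw ⊢
      refine ⟨hM w hw.1 d, ?_⟩
      rw [← cmp_mulX]
      exact hL _ hw.2 (d + 1)
    obtain ⟨P1, a1, h1⟩ := ih (by omega) L' M hL'M hL'h hM (by
      intro j hj w hw
      rcases Nat.eq_or_lt_of_le hj with h | h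
      · have : j = κ := Fin.ext h.symm
        rw [this]
        exact Submodule.mem_sup_right ⟨w, hw, rfl⟩
      · exact Submodule.mem_sup_left (hX j h w hw))
    obtain ⟨P2, a2, h2⟩ := ih (by omega) L M' hLM' hL hM'h (by
      intro j hj w hw
      rw [hM', Submodule.mem_inf, Submodule.mem_comap] at hw
      rcases Nat.eq_or_lt_of_le hj with h | h
      · have : j = κ := Fin.ext h.symm
        rw [this]
        exact hw.2
      · exact hX j h w hw.1)
    -- the dimension count
    have hdim : ∀ a, Module.finrank ℂ (gr L' (a + 1)) + Module.finrank ℂ (gr M' a) =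
        Module.finrank ℂ (gr L (a + 1)) + Module.finrank ℂ (gr M a) := by
      intro a
      set φ : (Fin N → MvPolynomial (Fin v) ℂ) →ₗ[ℂ] (Fin N → MvPolynomial (Fin v) ℂ) :=
        (mulX v N κ).restrictScalars ℂ with hφ
      have hφi : Function.Injective φ := mulX_inj κ
      have e1 : gr L' (a + 1) = gr L (a + 1) ⊔ (gr M a).map φ := by
        apply le_antisymm
        · intro w hw
          rw [mem_gr, hL', Submodule.mem_sup] at hw
          obtain ⟨hw1, l, hl, _, ⟨m, hm, rfl⟩, hlm⟩ := hw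
          have : w = cmp (a + 1) l + φ (cmp a m) := by
            rw [← cmp_of_mem hw1, ← hlm, cmp_add, cmp_mulX]
            rfl
          rw [this]
          refine Submodule.add_mem_sup ?_ ⟨_, ?_, rfl⟩
          · rw [mem_gr]; exact ⟨cmp_mem _ _, hL l hl _⟩
          · exact mem_gr.2 ⟨cmp_mem _ _, hM m hm _⟩
        · refine sup_le ?_ ?_
          · intro w hw
            rw [mem_gr] at hw ⊢
            exact ⟨hw.1, Submodule.mem_sup_left hw.2⟩
          · rintro _ ⟨w, hw, rfl⟩
            have hw' := mem_gr.1 hw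
            rw [mem_gr]
            exact ⟨mulX_mem_hv κ hw'.1, Submodule.mem_sup_right ⟨w, hw'.2, rfl⟩⟩
      have e2 : gr L (a + 1) ⊓ (gr M a).map φ = (gr M' a).map φ := by
        apply le_antisymm
        · rintro _ ⟨hw, ⟨m, hm, rfl⟩⟩
          refine ⟨m, ?_, rfl⟩
          have hm' := mem_gr.1 hm
          have hw' := mem_gr.1 hw
          exact mem_gr.2 ⟨hm'.1, hm'.2, hw'.2⟩
        · rintro _ ⟨m, hm, rfl⟩
          have hm' := mem_gr.1 hm
          refine ⟨mem_gr.2 ⟨mulX_mem_hv κ hm'.1, hm'.2.2⟩, m, mem_gr.2 ⟨hm'.1, hm'.2.1⟩, rfl⟩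
      have e3 := Submodule.finrank_sup_add_finrank_inf_eq (gr L (a + 1)) ((gr M a).map φ)
      rw [← e1, e2, ← (Submodule.equivMapOfInjective φ hφi (gr M' a)).finrank_eq,
        ← (Submodule.equivMapOfInjective φ hφi (gr M a)).finrank_eq] at e3
      exact e3
    obtain ⟨P, hP⟩ := sum_poly (fun a => (Module.finrank ℂ (gr M a) : ℚ) - (Module.finrank ℂ (gr L a) : ℚ))
      (P1.comp (Polynomial.X + 1) - P2) (a1 + a2) (by
        intro a ha
        have g1 := h1 (a + 1) (by omega)
        have g2 := h2 a (by omega)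
        have g3 : (Module.finrank ℂ (gr L' (a + 1)) : ℚ) + Module.finrank ℂ (gr M' a) =
          Module.finrank ℂ (gr L (a + 1)) + Module.finrank ℂ (gr M a) := by exact_mod_cast hdim a
        simp only [Polynomial.eval_sub, Polynomial.eval_comp, Polynomial.eval_add, Polynomial.eval_X, Polynomial.eval_one]
        push_cast at g1
        rw [← g1, ← g2]
        linarith)
    exact ⟨P, a1 + a2, hP⟩

end HSM

attribute [local instance] MvPolynomial.gradedAlgebra in
open HSM in
theorem specHS : SpecHS := by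
  intro v N e A hA
  -- the kernel is homogeneous
  have hK : HomS (LinearMap.ker A.mulVecLin) := by
    intro w hw d
    rw [LinearMap.mem_ker, Matrix.mulVecLin_apply] at hw ⊢
    ext1 i
    have h1 : ∑ j, A i j * w j = 0 := by
      have := congrFun hw i
      simpa [Matrix.mulVec, dotProduct] using this
    have h2 : homogeneousComponent (e + d) (∑ j, A i j * w j) = 0 := by rw [h1, map_zero]
    rw [map_sum] at h2
    have h3 : ∀ j, homogeneousComponent (e + d) (A i j * w j) = A i j * homogeneousComponent d (w j) := by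
      intro j
      have := DirectSum.coe_decompose_mul_add_of_left_mem (homogeneousSubmodule (Fin v) ℂ) (i := e) (j := d)
        (b := w j) ((mem_homogeneousSubmodule e (A i j)).2 (hA i j))
      rw [← decomposition.decompose'_apply, ← decomposition.decompose'_apply]
      exact this
    simp only [h3] at h2
    simpa [Matrix.mulVec, dotProduct, HSM.cmp] using h2
  obtain ⟨P, a₀, h⟩ := main v le_rfl ⊥ (LinearMap.ker A.mulVecLin) bot_le
    (by intro w hw d; rw [Submodule.mem_bot] at hw ⊢; subst hw; ext1 i; simp [HSM.cmp]) hK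
    (by intro j hj; exact absurd j.2 (by omega))
  refine ⟨P, a₀, fun a ha => ?_⟩
  rw [← h a ha]
  have e1 : gr (⊥ : Submodule (MvPolynomial (Fin v) ℂ) (Fin N → MvPolynomial (Fin v) ℂ)) a = ⊥ := by
    rw [eq_bot_iff]
    intro w hw
    rw [mem_gr] at hw
    exact hw.2
  have e2 : hk A a = gr (LinearMap.ker A.mulVecLin) a := rfl
  rw [e1, e2, finrank_bot]
  simp

end Pool.Agent.Lib.MPc9b009.B5
end

section
/-!
# MP_c9b009_ag, row B5, module EXA: exactness in large degrees
-/
set_option autoImplicit false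

namespace Pool.Agent.Lib.MPc9b009.B5

open MvPolynomial

namespace EXAM

/-! ### Linear algebra -/

/-- The principal minor without `i`, `j`. -/
noncomputable def mij {N : ℕ} {R : Type} [CommRing R] (A : Matrix (Fin N) (Fin N) R) (i j : Fin N) :
    Matrix {l : Fin N // l ≠ i ∧ l ≠ j} {l : Fin N // l ≠ i ∧ l ≠ j} R :=
  A.submatrix Subtype.val Subtype.val

theorem sum_split {N : ℕ} {R : Type} [AddCommMonoid R] (i j : Fin N) (hij : i ≠ j) (f : Fin N → R) :
    ∑ l, f l = f i + (f j + ∑ l : {l : Fin N // l ≠ i ∧ l ≠ j}, f l.1) := by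
  rw [← Finset.add_sum_erase Finset.univ f (Finset.mem_univ i),
    ← Finset.add_sum_erase (Finset.univ.erase i) f (Finset.mem_erase.2 ⟨hij.symm, Finset.mem_univ j⟩)]
  congr 2
  apply Finset.sum_subtype
  intro x
  simp only [Finset.mem_erase, Finset.mem_univ, and_true]
  exact and_comm

theorem card_ij {N : ℕ} (i j : Fin N) (hij : i ≠ j) :
    Fintype.card {l : Fin N // l ≠ i ∧ l ≠ j} + 2 = N := by
  have := sum_split i j hij (fun _ => 1)
  simp only [Finset.sum_const, Finset.card_univ, Fintype.card_fin, smul_eq_mul, mul_one] at this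
  omega

theorem adj_skew {ι : Type} [Fintype ι] [DecidableEq ι] {R : Type} [CommRing R] (B : Matrix ι ι R)
    (hB : B.transpose = -B) (hc : Even (Fintype.card ι)) (hne : Nonempty ι) :
    B.adjugate.transpose = - B.adjugate := by
  have h1 : B.adjugate.transpose = (-B).adjugate := by
    rw [← hB, Matrix.adjugate_transpose]
  have h2 : (-B).adjugate = (-1 : R) ^ (Fintype.card ι - 1) • B.adjugate := by
    rw [← neg_one_smul R B, Matrix.adjugate_smul]
  rw [h1, h2]
  have h3 : Odd (Fintype.card ι - 1) := by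
    have : 0 < Fintype.card ι := Fintype.card_pos
    obtain ⟨m, hm⟩ := hc
    exact ⟨m - 1, by omega⟩
  rw [h3.neg_one_pow, neg_one_smul]

theorem core {N : ℕ} {R : Type} [CommRing R] (A : Matrix (Fin N) (Fin N) R) (hN : Even N)
    (hA : ∀ i j, A j i = - A i j) (i j : Fin N) (hij : i ≠ j) :
    ∃ ki kj : Fin N → R,
      (∀ v : Fin N → R, A.mulVec v = 0 → ∀ l, (mij A i j).det * v l = ki l * v i + kj l * v j) ∧
      (∀ w : Fin N → R, ∑ l, ki l * w l = 0 → ∑ l, kj l * w l = 0 →
        ∃ z : Fin N → R, A.mulVec z = (mij A i j).det • w) := by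
  classical
  set B := mij A i j with hB
  set p : {l : Fin N // l ≠ i ∧ l ≠ j} → R := B.adjugate.mulVec (fun l => A l.1 i) with hp
  set q : {l : Fin N // l ≠ i ∧ l ≠ j} → R := B.adjugate.mulVec (fun l => A l.1 j) with hq
  refine ⟨fun l => if h : l ≠ i ∧ l ≠ j then - p ⟨l, h⟩ else if l = i then B.det else 0,
    fun l => if h : l ≠ i ∧ l ≠ j then - q ⟨l, h⟩ else if l = j then B.det else 0, ?_, ?_⟩
  · intro v hv l
    have hrow : ∀ m : {l : Fin N // l ≠ i ∧ l ≠ j},
        B.mulVec (fun m => v m.1) m = -(A m.1 i * v i + A m.1 j * v j) := by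
      intro m
      have h1 : ∑ k, A m.1 k * v k = 0 := by
        have := congrFun hv m.1
        simpa [Matrix.mulVec, dotProduct] using this
      rw [sum_split i j hij] at h1
      have h2 : B.mulVec (fun m => v m.1) m = ∑ k : {l : Fin N // l ≠ i ∧ l ≠ j}, A m.1 k.1 * v k.1 := by
        simp [Matrix.mulVec, dotProduct, hB, mij]
      rw [h2]
      linear_combination h1
    have hmul : ∀ m : {l : Fin N // l ≠ i ∧ l ≠ j}, B.det * v m.1 = -(p m * v i + q m * v j) := by
      intro m
      have h1 : B.adjugate.mulVec (B.mulVec (fun m => v m.1)) = B.det • (fun m => v m.1) := by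
        rw [Matrix.mulVec_mulVec, Matrix.adjugate_mul, Matrix.smul_mulVec, Matrix.one_mulVec]
      have h2 : B.mulVec (fun m => v m.1) = -((v i) • (fun l => A l.1 i) + (v j) • fun l => A l.1 j) := by
        ext m
        rw [hrow m]
        simp only [Pi.neg_apply, Pi.add_apply, Pi.smul_apply, smul_eq_mul]
        ring
      rw [h2, Matrix.mulVec_neg, Matrix.mulVec_add, Matrix.mulVec_smul, Matrix.mulVec_smul] at h1
      have h3 := congrFun h1 m
      simp only [Pi.neg_apply, Pi.add_apply, Pi.smul_apply, smul_eq_mul] at h3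
      rw [← h3, hp, hq]
      ring
    beta_reduce
    by_cases hl : l ≠ i ∧ l ≠ j
    · rw [dif_pos hl, dif_pos hl, hmul ⟨l, hl⟩]
      ring
    · rw [dif_neg hl, dif_neg hl]
      by_cases hli : l = i
      · subst hli
        rw [if_pos rfl, if_neg hij]
        ring
      · have hlj : l = j := by
          by_contra h
          exact hl ⟨hli, h⟩
        subst hlj
        rw [if_neg hli, if_pos rfl]
        ring
  · intro w h1 h2
    beta_reduce at h1 h2
    set y : {l : Fin N // l ≠ i ∧ l ≠ j} → R := B.adjugate.mulVec (fun l => w l.1) with hy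
    -- empty index set: N = 2
    refine ⟨fun l => if h : l ≠ i ∧ l ≠ j then y ⟨l, h⟩ else 0, ?_⟩
    have hz : ∀ m : Fin N, A.mulVec (fun l => if h : l ≠ i ∧ l ≠ j then y ⟨l, h⟩ else 0) m =
        ∑ k : {l : Fin N // l ≠ i ∧ l ≠ j}, A m k.1 * y k := by
      intro m
      have : A.mulVec (fun l => if h : l ≠ i ∧ l ≠ j then y ⟨l, h⟩ else 0) m =
          ∑ k, A m k * (if h : k ≠ i ∧ k ≠ j then y ⟨k, h⟩ else 0) := by
        simp [Matrix.mulVec, dotProduct]
      rw [this, sum_split i j hij]
      have e1 : (if h : i ≠ i ∧ i ≠ j then y ⟨i, h⟩ else 0) = 0 := dif_neg (fun h => h.1 rfl)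
      have e2 : (if h : j ≠ i ∧ j ≠ j then y ⟨j, h⟩ else 0) = 0 := dif_neg (fun h => h.2 rfl)
      rw [e1, e2, mul_zero, mul_zero, zero_add, zero_add]
      refine Finset.sum_congr rfl fun k _ => ?_
      rw [dif_pos k.2]
    -- the two special rows
    have hspec : ∀ r : Fin N, ∑ k : {l : Fin N // l ≠ i ∧ l ≠ j}, A r k.1 * y k =
        ∑ k : {l : Fin N // l ≠ i ∧ l ≠ j}, (B.adjugate.mulVec (fun l => A l.1 r)) k * w k.1 := by
      intro r
      rcases isEmpty_or_nonempty {l : Fin N // l ≠ i ∧ l ≠ j} with he | hne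
      · simp
      have hsk := adj_skew B (by
        ext a b
        simp only [Matrix.transpose_apply, Matrix.neg_apply, hB, mij, Matrix.submatrix_apply]
        exact hA a.1 b.1) (by
        have := card_ij i j hij
        obtain ⟨m, hm⟩ := hN
        exact ⟨m - 1, by omega⟩) hne
      have hadj : ∀ a b, B.adjugate a b = - B.adjugate b a := by
        intro a b
        have := congrFun (congrFun hsk b) a
        simpa [Matrix.transpose_apply, Matrix.neg_apply] using this
      simp only [hy, Matrix.mulVec, dotProduct, Finset.mul_sum, Finset.sum_mul]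
      rw [Finset.sum_comm]
      refine Finset.sum_congr rfl fun a _ => Finset.sum_congr rfl fun b _ => ?_
      rw [hA b.1 r, hadj b a]
      ring
    ext m
    rw [hz m, Pi.smul_apply, smul_eq_mul]
    by_cases hm : m ≠ i ∧ m ≠ j
    · have e1 : B.mulVec (B.adjugate.mulVec (fun l => w l.1)) = B.det • (fun l => w l.1) := by
        rw [Matrix.mulVec_mulVec, Matrix.mul_adjugate, Matrix.smul_mulVec, Matrix.one_mulVec]
      have e2 := congrFun e1 ⟨m, hm⟩
      rw [Pi.smul_apply, smul_eq_mul] at e2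
      rw [← e2]
      simp [Matrix.mulVec, dotProduct, hB, mij, hy]
    · by_cases hmi : m = i
      · subst hmi
        rw [hspec m]
        rw [sum_split m j hij] at h1
        have e1 : (if h : m ≠ m ∧ m ≠ j then -p ⟨m, h⟩ else if m = m then B.det else 0) = B.det := by
          rw [dif_neg (fun h => h.1 rfl), if_pos rfl]
        have e2 : (if h : j ≠ m ∧ j ≠ j then -p ⟨j, h⟩ else if j = m then B.det else 0) = 0 := by
          rw [dif_neg (fun h => h.2 rfl), if_neg hij.symm]
        have e3 : ∑ l : {l : Fin N // l ≠ m ∧ l ≠ j},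
            (if h : l.1 ≠ m ∧ l.1 ≠ j then -p ⟨l.1, h⟩ else if l.1 = m then B.det else 0) * w l.1 =
            - ∑ l : {l : Fin N // l ≠ m ∧ l ≠ j}, p l * w l.1 := by
          rw [← Finset.sum_neg_distrib]
          refine Finset.sum_congr rfl fun l _ => ?_
          rw [dif_pos l.2]
          ring
        rw [e1, e2, e3] at h1
        rw [hp] at h1
        linear_combination (-1 : R) * h1
      · have hmj : m = j := by
          by_contra h
          exact hm ⟨hmi, h⟩
        subst hmj
        rw [hspec m]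
        rw [sum_split i m hij] at h2
        have e1 : (if h : i ≠ i ∧ i ≠ m then -q ⟨i, h⟩ else if i = m then B.det else 0) = 0 := by
          rw [dif_neg (fun h => h.1 rfl), if_neg hij]
        have e2 : (if h : m ≠ i ∧ m ≠ m then -q ⟨m, h⟩ else if m = m then B.det else 0) = B.det := by
          rw [dif_neg (fun h => h.2 rfl), if_pos rfl]
        have e3 : ∑ l : {l : Fin N // l ≠ i ∧ l ≠ m},
            (if h : l.1 ≠ i ∧ l.1 ≠ m then -q ⟨l.1, h⟩ else if l.1 = m then B.det else 0) * w l.1 =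
            - ∑ l : {l : Fin N // l ≠ i ∧ l ≠ m}, q l * w l.1 := by
          rw [← Finset.sum_neg_distrib]
          refine Finset.sum_congr rfl fun l _ => ?_
          rw [dif_pos l.2]
          ring
        rw [e1, e2, e3] at h2
        rw [hq] at h2
        linear_combination (-1 : R) * h2

theorem gcd_lem {ι R : Type} [Fintype ι] [CommRing R] [IsDomain R] [NormalizedGCDMonoid R] (d t : R) (f : ι → R)
    (h : ∀ x, t ∣ d * f x) (hg : ∀ z, (∀ x, z ∣ f x) → IsUnit z) : t ∣ d := by
  have hu : IsUnit ((Finset.univ : Finset ι).gcd f) := hg _ (fun x => Finset.gcd_dvd (Finset.mem_univ x))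
  have h3 : t ∣ (Finset.univ : Finset ι).gcd (fun x => d * f x) := Finset.dvd_gcd (fun x _ => h x)
  exact (hu.dvd_mul_right).1 (h3.trans (Finset.gcd_mul_left' Finset.univ f d).dvd)

/-- Powers of the minor kill the homology. -/
theorem kill {N : ℕ} {R : Type} [CommRing R] [IsDomain R] [CharZero R] [UniqueFactorizationMonoid R]
    (A T : Matrix (Fin N) (Fin N) R) (hN : Even N)
    (hA : ∀ i j, A j i = - A i j) (hT : ∀ i j, T j i = - T i j) (hAT : A * T = 0)
    (hg : ∀ z, (∀ i j, z ∣ T i j) → IsUnit z) (i j : Fin N) (hij : i ≠ j) :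
    (∀ v : Fin N → R, A.mulVec v = 0 → ∃ z, T.mulVec z = (mij A i j).det ^ 2 • v) ∧
    (∀ w : Fin N → R, T.mulVec w = 0 → ∃ z, A.mulVec z = (mij A i j).det • w) := by
  classical
  obtain ⟨ki, kj, h1, h2⟩ := core A hN hA i j hij
  set D := (mij A i j).det with hD
  rcases eq_or_ne D 0 with hD0 | hD0
  · refine ⟨fun v _ => ⟨0, ?_⟩, fun w _ => ⟨0, ?_⟩⟩
    · rw [hD0, Matrix.mulVec_zero]; simp
    · rw [hD0, Matrix.mulVec_zero]; simp
  have hTd : ∀ a, T a a = 0 := by
    intro a
    have := hT a a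
    exact self_eq_neg.1 this
  have hcol : ∀ k l, D * T k l = ki k * T i l + kj k * T j l := by
    intro k l
    have : A.mulVec (fun k => T k l) = 0 := by
      ext m
      have := congrFun (congrFun hAT m) l
      simpa [Matrix.mulVec, dotProduct, Matrix.mul_apply] using this
    exact h1 _ this k
  have ci : ∀ l, D * T l i = - kj l * T i j := by
    intro l
    rw [hcol l i, hTd i, hT i j]
    ring
  have cj : ∀ l, D * T l j = ki l * T i j := by
    intro l
    rw [hcol l j, hTd j]
    ring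
  have hdiv : ∀ k l, T i j ∣ D ^ 2 * T k l := by
    intro k l
    refine ⟨ki k * kj l - kj k * ki l, ?_⟩
    have e1 := ci l
    have e2 := cj l
    have e3 := hcol k l
    rw [hT i l] at e1
    rw [hT j l] at e2
    linear_combination D * e3 - ki k * e1 - kj k * e2
  -- the gcd
  have hdvd : T i j ∣ D ^ 2 := by
    obtain ⟨inst⟩ := (inferInstance : Nonempty (NormalizedGCDMonoid R))
    exact gcd_lem (D ^ 2) (T i j) (fun x : Fin N × Fin N => T x.1 x.2) (fun x => hdiv x.1 x.2)
      (fun z hz => hg z (fun a b => hz (a, b)))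
  obtain ⟨e, he⟩ := hdvd
  have hTij : T i j ≠ 0 := by
    intro h
    rw [h, zero_mul] at he
    exact hD0 (pow_eq_zero_iff (two_ne_zero) |>.1 he)
  constructor
  · intro v hv
    have h5 : ∀ l, T i j * v l = T l j * v i - T l i * v j := by
      intro l
      apply mul_left_cancel₀ hD0
      have e1 := h1 v hv l
      have e2 := ci l
      have e3 := cj l
      linear_combination T i j * e1 - v i * e3 + v j * e2
    refine ⟨(e * v i) • Pi.single j 1 - (e * v j) • Pi.single i 1, ?_⟩
    ext l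
    rw [Matrix.mulVec_sub, Matrix.mulVec_smul, Matrix.mulVec_smul]
    simp only [Pi.sub_apply, Pi.smul_apply, smul_eq_mul, Matrix.mulVec_single_one, Matrix.col_apply]
    rw [he]
    linear_combination (- e) * h5 l
  · intro w hw
    have hr : ∀ k, ∑ l, T k l * w l = 0 := by
      intro k
      have := congrFun hw k
      simpa [Matrix.mulVec, dotProduct] using this
    apply h2 w
    · apply (mul_eq_zero.1 (?_ : T i j * _ = 0)).resolve_left hTij
      have h6 : D * ∑ l, T j l * w l = 0 := by rw [hr j, mul_zero]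
      rw [Finset.mul_sum] at h6 ⊢
      rw [← neg_eq_zero, ← Finset.sum_neg_distrib] at h6
      rw [← h6]
      refine Finset.sum_congr rfl fun l _ => ?_
      have e2 := cj l
      rw [hT j l] at e2
      linear_combination (-w l) * e2
    · apply (mul_eq_zero.1 (?_ : T i j * _ = 0)).resolve_left hTij
      have h6 : D * ∑ l, T i l * w l = 0 := by rw [hr i, mul_zero]
      rw [Finset.mul_sum] at h6 ⊢
      rw [← h6]
      refine Finset.sum_congr rfl fun l _ => ?_
      have e2 := ci l
      rw [hT i l] at e2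
      linear_combination (w l) * e2

/-! ### A nonvanishing principal minor -/

theorem odd_skew {ι : Type} [Fintype ι] [DecidableEq ι] (M : Matrix ι ι ℂ) (hM : M.transpose = -M)
    (hc : Odd (Fintype.card ι)) : M.det = 0 := by
  have h1 : M.det = (-M).det := by rw [← hM, Matrix.det_transpose]
  rw [Matrix.det_neg, hc.neg_one_pow] at h1
  have : M.det + M.det = 0 := by linear_combination h1
  simpa using this

theorem minor_ne {N : ℕ} (M : Matrix (Fin N) (Fin N) ℂ) (hN : Even N) (hM : ∀ i j, M j i = - M i j)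
    (hdet : M.det = 0) (hrk : N ≤ M.rank + 2) : ∃ i j : Fin N, i ≠ j ∧ (mij M i j).det ≠ 0 := by
  classical
  obtain ⟨u, hu0, hu⟩ := Matrix.exists_mulVec_eq_zero_iff.2 hdet
  obtain ⟨i, hi⟩ := Function.ne_iff.1 hu0
  rw [Pi.zero_apply] at hi
  have horth : ∀ x y : Fin N → ℂ, M.mulVec y = 0 → ∑ l, (M.mulVec x) l * y l = 0 := by
    intro x y hy
    have h1 : ∑ l, (M.mulVec x) l * y l = - ∑ m, x m * (M.mulVec y) m := by
      simp only [Matrix.mulVec, dotProduct, Finset.sum_mul, Finset.mul_sum]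
      rw [Finset.sum_comm, ← Finset.sum_neg_distrib]
      refine Finset.sum_congr rfl fun a _ => ?_
      rw [← Finset.sum_neg_distrib]
      refine Finset.sum_congr rfl fun b _ => ?_
      rw [hM a b]
      ring
    rw [h1, hy]
    simp
  -- the second kernel vector
  have hNpos : 0 < N := i.pos
  have hodd : Odd (Fintype.card {l : Fin N // l ≠ i}) := by
    have : Fintype.card {l : Fin N // l ≠ i} = N - 1 := by
      rw [Fintype.card_subtype_compl]
      simp
    rw [this]
    obtain ⟨m, hm⟩ := hN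
    exact ⟨m - 1, by omega⟩
  have hdet1 : (M.submatrix (Subtype.val : {l : Fin N // l ≠ i} → Fin N) Subtype.val).det = 0 := by
    apply odd_skew _ _ hodd
    ext a b
    simp only [Matrix.transpose_apply, Matrix.neg_apply, Matrix.submatrix_apply]
    exact hM a.1 b.1
  obtain ⟨x', hx'0, hx'⟩ := Matrix.exists_mulVec_eq_zero_iff.2 hdet1
  set x : Fin N → ℂ := fun l => if h : l ≠ i then x' ⟨l, h⟩ else 0 with hx
  have hxi : x i = 0 := by simp [hx]
  have hxv : ∀ l : {l : Fin N // l ≠ i}, x l.1 = x' l := by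
    intro l
    simp only [hx]
    rw [dif_pos l.2]
  obtain ⟨⟨j, hji⟩, hj⟩ := Function.ne_iff.1 hx'0
  rw [Pi.zero_apply] at hj
  have hxj : x j ≠ 0 := by rw [hxv ⟨j, hji⟩]; exact hj
  have hMx : M.mulVec x = 0 := by
    have hl : ∀ l, l ≠ i → M.mulVec x l = 0 := by
      intro l hl
      have h1 := congrFun hx' ⟨l, hl⟩
      have h2 : M.mulVec x l = ∑ m : {l : Fin N // l ≠ i}, M l m.1 * x' m := by
        have : M.mulVec x l = ∑ m, M l m * x m := by simp [Matrix.mulVec, dotProduct]
        rw [this, ← Finset.add_sum_erase Finset.univ _ (Finset.mem_univ i), hxi, mul_zero, zero_add,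
          Finset.sum_subtype (p := fun l => l ≠ i) (Finset.univ.erase i) (by intro y; simp)]
        exact Finset.sum_congr rfl fun m _ => by rw [hxv m]
      rw [h2]
      simpa [Matrix.mulVec, dotProduct] using h1
    have hi0 : M.mulVec x i = 0 := by
      have h1 := horth x u hu
      rw [← Finset.add_sum_erase Finset.univ _ (Finset.mem_univ i), Finset.sum_eq_zero (s := Finset.univ.erase i)
        (fun l hl' => by rw [hl l (Finset.ne_of_mem_erase hl'), zero_mul]), add_zero] at h1
      exact (mul_eq_zero.1 h1).resolve_right hi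
    ext l
    by_cases h : l = i
    · rw [h]; exact hi0
    · exact hl l h
  refine ⟨i, j, Ne.symm hji, ?_⟩
  intro hdet2
  obtain ⟨z', hz'0, hz'⟩ := Matrix.exists_mulVec_eq_zero_iff.2 hdet2
  set z : Fin N → ℂ := fun l => if h : l ≠ i ∧ l ≠ j then z' ⟨l, h⟩ else 0 with hz
  have hzi : z i = 0 := by simp [hz]
  have hzj : z j = 0 := by simp [hz]
  have hzv : ∀ l : {l : Fin N // l ≠ i ∧ l ≠ j}, z l.1 = z' l := by
    intro l
    simp only [hz]
    rw [dif_pos l.2]
  obtain ⟨⟨k, hk⟩, hzk'⟩ := Function.ne_iff.1 hz'0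
  rw [Pi.zero_apply] at hzk'
  have hzk : z k ≠ 0 := by rw [hzv ⟨k, hk⟩]; exact hzk'
  have hMz : M.mulVec z = 0 := by
    have hl : ∀ l, l ≠ i ∧ l ≠ j → M.mulVec z l = 0 := by
      intro l hl
      have h1 := congrFun hz' ⟨l, hl⟩
      have h2 : M.mulVec z l = ∑ m : {l : Fin N // l ≠ i ∧ l ≠ j}, M l m.1 * z' m := by
        have : M.mulVec z l = ∑ m, M l m * z m := by simp [Matrix.mulVec, dotProduct]
        rw [this, sum_split i j (Ne.symm hji), hzi, hzj, mul_zero, mul_zero, zero_add, zero_add]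
        exact Finset.sum_congr rfl fun m _ => by rw [hzv m]
      rw [h2]
      simpa [Matrix.mulVec, dotProduct, mij] using h1
    have hj0 : M.mulVec z j = 0 := by
      have h1 := horth z x hMx
      rw [sum_split i j (Ne.symm hji), Finset.sum_eq_zero (fun l _ => by rw [hl l.1 l.2, zero_mul]), hxi, mul_zero,
        zero_add, add_zero] at h1
      exact (mul_eq_zero.1 h1).resolve_right hxj
    have hi0 : M.mulVec z i = 0 := by
      have h1 := horth z u hu
      rw [sum_split i j (Ne.symm hji), Finset.sum_eq_zero (fun l _ => by rw [hl l.1 l.2, zero_mul]), hj0, zero_mul,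
        add_zero, add_zero] at h1
      exact (mul_eq_zero.1 h1).resolve_right hi
    ext l
    by_cases h : l = i
    · rw [h]; exact hi0
    · by_cases h' : l = j
      · rw [h']; exact hj0
      · exact hl l ⟨h, h'⟩
  -- three independent kernel vectors
  have hind : LinearIndependent ℂ ![u, x, z] := by
    rw [Fintype.linearIndependent_iff]
    intro g hg
    have hg' : ∀ l, g 0 * u l + g 1 * x l + g 2 * z l = 0 := by
      intro l
      have := congrFun hg l
      simpa [Fin.sum_univ_three] using this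
    have g0 : g 0 = 0 := by
      have := hg' i
      rw [hxi, hzi, mul_zero, mul_zero, add_zero, add_zero] at this
      exact (mul_eq_zero.1 this).resolve_right hi
    have g1 : g 1 = 0 := by
      have := hg' j
      rw [g0, hzj, mul_zero, zero_mul, zero_add, add_zero] at this
      exact (mul_eq_zero.1 this).resolve_right hxj
    have g2 : g 2 = 0 := by
      have := hg' k
      rw [g0, g1, zero_mul, zero_mul, zero_add, zero_add] at this
      exact (mul_eq_zero.1 this).resolve_right hzk
    intro l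
    fin_cases l
    · exact g0
    · exact g1
    · exact g2
  have h3 : 3 ≤ Module.finrank ℂ (LinearMap.ker M.mulVecLin) := by
    have e1 : Module.finrank ℂ (Submodule.span ℂ (Set.range ![u, x, z])) = 3 := by
      rw [finrank_span_eq_card hind]
      rfl
    rw [← e1]
    apply Submodule.finrank_mono
    rw [Submodule.span_le]
    rintro _ ⟨l, rfl⟩
    fin_cases l
    · exact hu
    · exact hMx
    · exact hMz
  have h4 := LinearMap.finrank_range_add_finrank_ker M.mulVecLin
  rw [Module.finrank_fin_fun] at h4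
  have h5 : M.rank = Module.finrank ℂ (LinearMap.range M.mulVecLin) := rfl
  omega

/-! ### Large degrees -/

theorem homComp_mul {v : ℕ} {e d : ℕ} (p q : MvPolynomial (Fin v) ℂ) (hp : p.IsHomogeneous e) :
    homogeneousComponent (e + d) (p * q) = p * homogeneousComponent d q := by
  let _ := MvPolynomial.gradedAlgebra (σ := Fin v) (R := ℂ)
  have := DirectSum.coe_decompose_mul_add_of_left_mem (homogeneousSubmodule (Fin v) ℂ) (i := e) (j := d)
    (b := q) ((mem_homogeneousSubmodule e p).2 hp)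
  rw [← decomposition.decompose'_apply, ← decomposition.decompose'_apply]
  exact this

theorem homComp_mul_lt {v : ℕ} {e d : ℕ} (p q : MvPolynomial (Fin v) ℂ) (hp : p.IsHomogeneous e) (hd : d < e) :
    homogeneousComponent d (p * q) = 0 := by
  let _ := MvPolynomial.gradedAlgebra (σ := Fin v) (R := ℂ)
  have := DirectSum.coe_decompose_mul_of_left_mem_of_not_le (homogeneousSubmodule (Fin v) ℂ) (i := e) (n := d)
    (b := q) ((mem_homogeneousSubmodule e p).2 hp) (by omega)
  rw [← decomposition.decompose'_apply]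
  exact this

theorem cmp_mulVec {v N e : ℕ} (T : Matrix (Fin N) (Fin N) (MvPolynomial (Fin v) ℂ))
    (hT : ∀ i j, (T i j).IsHomogeneous e) (d : ℕ) (z : Fin N → MvPolynomial (Fin v) ℂ) :
    HSM.cmp (e + d) (T.mulVec z) = T.mulVec (HSM.cmp d z) := by
  ext1 i
  simp only [HSM.cmp, Matrix.mulVec, dotProduct, map_sum]
  exact Finset.sum_congr rfl fun j _ => homComp_mul _ _ (hT i j)

theorem cmp_mulVec_lt {v N e : ℕ} (T : Matrix (Fin N) (Fin N) (MvPolynomial (Fin v) ℂ))
    (hT : ∀ i j, (T i j).IsHomogeneous e) (d : ℕ) (hd : d < e) (z : Fin N → MvPolynomial (Fin v) ℂ) :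
    HSM.cmp d (T.mulVec z) = 0 := by
  ext1 i
  simp only [HSM.cmp, Matrix.mulVec, dotProduct, map_sum, Pi.zero_apply]
  exact Finset.sum_eq_zero fun j _ => homComp_mul_lt _ _ (hT i j) hd

theorem homS_range {v N e : ℕ} (T : Matrix (Fin N) (Fin N) (MvPolynomial (Fin v) ℂ))
    (hT : ∀ i j, (T i j).IsHomogeneous e) : HSM.HomS (LinearMap.range T.mulVecLin) := by
  rintro _ ⟨z, rfl⟩ d
  rw [Matrix.mulVecLin_apply]
  rcases Nat.lt_or_ge d e with h | h
  · rw [cmp_mulVec_lt T hT d h]
    exact Submodule.zero_mem _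
  · obtain ⟨c, rfl⟩ := Nat.exists_eq_add_of_le h
    rw [cmp_mulVec T hT]
    exact ⟨_, rfl⟩

theorem largeN {v N : ℕ} (n : ℕ) (L M : Submodule (MvPolynomial (Fin v) ℂ) (Fin N → MvPolynomial (Fin v) ℂ))
    (hL : HSM.HomS L) (hX : ∀ p ∈ idealOfVars (Fin v) ℂ ^ n, ∀ w ∈ M, p • w ∈ L) :
    ∃ a₀, ∀ a, a₀ ≤ a → ∀ w, w ∈ hv v N a → w ∈ M → w ∈ L := by
  have hfg : M.FG := IsNoetherian.noetherian M
  obtain ⟨G, hG⟩ := hfg
  have hb : ∃ D : ℕ, ∀ g ∈ G, ∀ i, (g i).totalDegree < D := by
    refine ⟨(G.sup fun g => Finset.univ.sup fun i => (g i).totalDegree) + 1, fun g hg i => ?_⟩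
    have h1 : (g i).totalDegree ≤ Finset.univ.sup fun i => (g i).totalDegree :=
      Finset.le_sup (f := fun i => (g i).totalDegree) (Finset.mem_univ i)
    have h2 : (Finset.univ.sup fun i => (g i).totalDegree) ≤
        G.sup fun g => Finset.univ.sup fun i => (g i).totalDegree :=
      Finset.le_sup (f := fun g => Finset.univ.sup fun i : Fin N => (g i).totalDegree) hg
    omega
  obtain ⟨D, hD⟩ := hb
  -- truncation
  set tr : MvPolynomial (Fin v) ℂ → MvPolynomial (Fin v) ℂ := fun p => ∑ d ∈ Finset.range n, homogeneousComponent d p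
    with htr
  have htd : ∀ p, (tr p).totalDegree ≤ n := by
    intro p
    refine (totalDegree_finsetSum _ _).trans ?_
    rw [Finset.sup_le_iff]
    intro d hd
    exact ((homogeneousComponent_isHomogeneous d p).totalDegree_le).trans (Finset.mem_range.1 hd).le
  have htm : ∀ p, p - tr p ∈ idealOfVars (Fin v) ℂ ^ n := by
    intro p
    rw [mem_pow_idealOfVars_iff']
    intro x hx
    rw [coeff_sub, htr, coeff_sum]
    simp only [coeff_homogeneousComponent]
    rw [Finset.sum_ite_eq (Finset.range n) x.degree (fun _ => coeff x p), if_pos (Finset.mem_range.2 hx), sub_self]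
  refine ⟨n + D + 1, fun a ha' w hw hwM => ?_⟩
  have hwM' := hwM
  rw [← hG, Submodule.mem_span_finset] at hwM'
  obtain ⟨f, _, hf⟩ := hwM'
  have hGM : ∀ g ∈ G, g ∈ M := fun g hg => by rw [← hG]; exact Submodule.subset_span hg
  have e1 : w = ∑ g ∈ G, tr (f g) • g + ∑ g ∈ G, (f g - tr (f g)) • g := by
    rw [← Finset.sum_add_distrib, ← hf]
    refine Finset.sum_congr rfl fun g _ => ?_
    rw [← add_smul, add_sub_cancel]
  have e2 : ∑ g ∈ G, (f g - tr (f g)) • g ∈ L := L.sum_mem fun g hg => hX _ (htm (f g)) g (hGM g hg)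
  have e3 : HSM.cmp a (∑ g ∈ G, tr (f g) • g) = 0 := by
    ext1 i
    simp only [HSM.cmp, Pi.zero_apply]
    apply homogeneousComponent_eq_zero
    rw [Finset.sum_apply]
    refine lt_of_le_of_lt (totalDegree_finsetSum _ _) ?_
    rw [Finset.sup_lt_iff (show (⊥ : ℕ) < a from (by
      have : 0 < a := by omega
      exact this))]
    intro g hg
    rw [Pi.smul_apply, smul_eq_mul]
    refine lt_of_le_of_lt (totalDegree_mul _ _) ?_
    have h1 := htd (f g)
    have h2 := hD g hg i
    omega
  have e4 : HSM.cmp a w = HSM.cmp a (∑ g ∈ G, (f g - tr (f g)) • g) := by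
    conv_lhs => rw [e1]
    rw [HSM.cmp_add, e3, zero_add]
  rw [← HSM.cmp_of_mem hw, e4]
  exact hL _ e2 a

/-- From powers of the minors to powers of the maximal ideal. -/
theorem powers {v N : ℕ} (A : Matrix (Fin N) (Fin N) (MvPolynomial (Fin v) ℂ))
    (hne : ∀ y : Fin v → ℂ, y ≠ 0 → ∃ i j : Fin N, i ≠ j ∧ eval y (mij A i j).det ≠ 0)
    (L M : Submodule (MvPolynomial (Fin v) ℂ) (Fin N → MvPolynomial (Fin v) ℂ)) (c : ℕ)
    (h : ∀ i j : Fin N, i ≠ j → ∀ w ∈ M, (mij A i j).det ^ c • w ∈ L) :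
    ∃ n : ℕ, ∀ p ∈ idealOfVars (Fin v) ℂ ^ n, ∀ w ∈ M, p • w ∈ L := by
  set J : Ideal (MvPolynomial (Fin v) ℂ) := Ideal.span {z | ∃ i j : Fin N, i ≠ j ∧ z = (mij A i j).det} with hJ
  set K : Ideal (MvPolynomial (Fin v) ℂ) := L.colon M with hK
  have hJK : J ≤ K.radical := by
    rw [hJ, Ideal.span_le]
    rintro _ ⟨i, j, hij, rfl⟩
    refine ⟨c, ?_⟩
    rw [hK, Submodule.mem_colon]
    exact fun w hw => h i j hij w hw
  have hX : idealOfVars (Fin v) ℂ ≤ K.radical := by
    rw [idealOfVars, Ideal.span_le]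
    rintro _ ⟨k, rfl⟩
    have h1 : (X k : MvPolynomial (Fin v) ℂ) ∈ J.radical := by
      rw [← vanishingIdeal_zeroLocus_eq_radical (K := ℂ) J]
      intro y hy
      by_contra hyk
      have hy0 : y ≠ 0 := by
        intro h0
        apply hyk
        rw [h0]
        simp
      obtain ⟨i, j, hij, hne'⟩ := hne y hy0
      apply hne'
      have h2 := hy _ (Ideal.subset_span (⟨i, j, hij, rfl⟩ : (mij A i j).det ∈ {z | ∃ i j : Fin N, i ≠ j ∧ z = (mij A i j).det}))
      rw [← coe_aeval_eq_eval]
      exact h2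
    have h2 : J.radical ≤ K.radical := by
      have := Ideal.radical_mono hJK
      rwa [Ideal.radical_idem] at this
    exact h2 h1
  obtain ⟨n, hn⟩ := Ideal.exists_radical_pow_le_of_fg K (IsNoetherian.noetherian _)
  refine ⟨n, fun p hp w hw => ?_⟩
  have h3 : p ∈ K := hn (Ideal.pow_right_mono hX n hp)
  rw [hK, Submodule.mem_colon] at h3
  exact h3 w hw

end EXAM

open EXAM in
theorem specEXA : SpecEXA := by
  intro N th A T hN hA hA2 hdet hrk hT hTh hAT hT0 hg hpl
  have hne : ∀ y : Fin 4 → ℂ, y ≠ 0 → ∃ i j : Fin N, i ≠ j ∧ eval y (mij A i j).det ≠ 0 := by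
    intro y hy
    have h1 : (Matrix.of fun i j => eval y (A i j)) = (eval y).mapMatrix A := rfl
    have h2 : (Matrix.of fun i j => eval y (A i j)).det = 0 := by
      rw [h1, ← RingHom.map_det, hdet, map_zero]
    obtain ⟨i, j, hij, h3⟩ := minor_ne (Matrix.of fun i j => eval y (A i j)) hN
      (fun i j => by simp only [Matrix.of_apply]; rw [hA i j, map_neg]) h2 (hrk y hy)
    refine ⟨i, j, hij, ?_⟩
    rw [RingHom.map_det]
    exact h3
  -- first homology
  obtain ⟨n1, hn1⟩ := powers A hne (LinearMap.range T.mulVecLin) (LinearMap.ker A.mulVecLin) 2 (by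
    intro i j hij w hw
    obtain ⟨z, hz⟩ := (kill A T hN hA hT hAT hg i j hij).1 w hw
    exact ⟨z, hz⟩)
  obtain ⟨n2, hn2⟩ := powers A hne (LinearMap.range A.mulVecLin) (LinearMap.ker T.mulVecLin) 1 (by
    intro i j hij w hw
    obtain ⟨z, hz⟩ := (kill A T hN hA hT hAT hg i j hij).2 w hw
    rw [pow_one]
    exact ⟨z, hz⟩)
  obtain ⟨a1, h1⟩ := largeN n1 _ _ (homS_range T hTh) hn1
  obtain ⟨a2, h2⟩ := largeN n2 _ _ (homS_range A hA2) hn2
  refine ⟨a1 + a2, fun a ha => ⟨?_, ?_⟩⟩
  · intro w hw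
    obtain ⟨z, hz⟩ := h1 (a + 2 + th) (by omega) w hw.1 hw.2
    refine ⟨HSM.cmp (a + 2) z, HSM.cmp_mem _ _, ?_⟩
    rw [← cmp_mulVec T hTh, ← Matrix.mulVecLin_apply, hz, add_comm th (a + 2)]
    exact HSM.cmp_of_mem hw.1
  · intro w hw
    obtain ⟨z, hz⟩ := h2 (a + 2) (by omega) w hw.1 hw.2
    refine ⟨HSM.cmp a z, HSM.cmp_mem _ _, ?_⟩
    rw [← cmp_mulVec A hA2, ← Matrix.mulVecLin_apply, hz, add_comm 2 a]
    exact HSM.cmp_of_mem hw.1

end Pool.Agent.Lib.MPc9b009.B5
end

section
/-!
# MP_c9b009_ag, row B5: FINI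
-/
namespace Pool.Agent.Lib.MPc9b009.B5

open MvPolynomial

attribute [local instance] MvPolynomial.gradedAlgebra

namespace FINIM

/-- `Hom` is homogeneity for the grading by degree. -/
theorem hom_iff {N : ℕ} (p : Ideal (MvPolynomial (Fin N) ℂ)) :
    Hom p ↔ p.IsHomogeneous (homogeneousSubmodule (Fin N) ℂ) := by
  constructor
  · intro h i g hg
    have h1 := h g hg i
    rw [← decomposition.decompose'_apply] at h1
    exact h1
  · intro h g hg d
    rw [← decomposition.decompose'_apply]
    exact h d hg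

/-- A homogeneous prime of transcendence degree `0` contains the variables. -/
theorem X_mem {N : ℕ} (q : Ideal (MvPolynomial (Fin N) ℂ)) (hq : q.IsPrime) (hh : Hom q)
    (ht : Algebra.trdeg ℂ (MvPolynomial (Fin N) ℂ ⧸ q) ≤ 0) (i : Fin N) : X i ∈ q := by
  have h0 : Algebra.trdeg ℂ (MvPolynomial (Fin N) ℂ ⧸ q) = 0 := le_antisymm ht zero_le
  have halg : Algebra.IsAlgebraic ℂ (MvPolynomial (Fin N) ℂ ⧸ q) := by
    have := trdeg_eq_zero_iff.mp h0
    exact this
  obtain ⟨f, hf0, hf⟩ := halg.isAlgebraic (Ideal.Quotient.mk q (X i))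
  have h1 : Polynomial.aeval (X i : MvPolynomial (Fin N) ℂ) f ∈ q := by
    rw [← Ideal.Quotient.eq_zero_iff_mem]
    have h2 := Polynomial.aeval_algHom_apply (Ideal.Quotient.mkₐ ℂ q)
      (X i : MvPolynomial (Fin N) ℂ) f
    rw [← Ideal.Quotient.mkₐ_eq_mk ℂ, ← h2, Ideal.Quotient.mkₐ_eq_mk]
    exact hf
  have h3 := hh _ h1 f.natDegree
  have h4 : homogeneousComponent f.natDegree (Polynomial.aeval (X i : MvPolynomial (Fin N) ℂ) f)
      = C (f.leadingCoeff) * X i ^ f.natDegree := by
    rw [Polynomial.aeval_eq_sum_range, map_sum]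
    rw [Finset.sum_eq_single f.natDegree]
    · rw [map_smul]
      have h5 : (X i ^ f.natDegree : MvPolynomial (Fin N) ℂ).IsHomogeneous f.natDegree :=
        isHomogeneous_X_pow i f.natDegree
      rw [homogeneousComponent_of_mem h5, if_pos rfl, smul_eq_C_mul]
      rfl
    · intro b _ hb
      rw [map_smul]
      have h5 : (X i ^ b : MvPolynomial (Fin N) ℂ).IsHomogeneous b := isHomogeneous_X_pow i b
      rw [homogeneousComponent_of_mem h5, if_neg (fun h => hb h.symm), smul_zero]
    · intro h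
      exact absurd (Finset.mem_range.mpr (Nat.lt_succ_self _)) h
  rw [h4] at h3
  rcases hq.mem_or_mem h3 with h5 | h5
  · exfalso
    have h6 : (C f.leadingCoeff⁻¹ : MvPolynomial (Fin N) ℂ) * C f.leadingCoeff ∈ q :=
      q.mul_mem_left _ h5
    rw [← C_mul, inv_mul_cancel₀ (Polynomial.leadingCoeff_ne_zero.mpr hf0), C_1] at h6
    exact hq.ne_top ((Ideal.eq_top_iff_one q).mpr h6)
  · exact hq.mem_of_pow_mem _ h5

/-- Homogeneous component of a product with a homogeneous element. -/
theorem comp_mul {N : ℕ} (c y : MvPolynomial (Fin N) ℂ) (d n : ℕ) (hy : y.IsHomogeneous d) :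
    homogeneousComponent n (c * y) =
      if d ≤ n then homogeneousComponent (n - d) c * y else 0 := by
  have h := DirectSum.coe_decompose_mul_of_right_mem (homogeneousSubmodule (Fin N) ℂ) n
    (a := c) (b := y) (i := d) hy
  have h1 : ∀ (m : ℕ) (x : MvPolynomial (Fin N) ℂ),
      ((DirectSum.decompose (homogeneousSubmodule (Fin N) ℂ) x m :
        homogeneousSubmodule (Fin N) ℂ m) : MvPolynomial (Fin N) ℂ) = homogeneousComponent m x := by
    intro m x
    rw [← decomposition.decompose'_apply]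
    rfl
  rw [h1, h1] at h
  exact h

end FINIM

theorem specFINI : SpecFINI := by
  intro N p hp hh σ _ y d hd hy hq z
  classical
  set J : Ideal (MvPolynomial (Fin N) ℂ) := p ⊔ Ideal.span (Set.range y) with hJ
  have hJhom : J.IsHomogeneous (homogeneousSubmodule (Fin N) ℂ) := by
    refine Ideal.IsHomogeneous.sup ((FINIM.hom_iff p).mp hh) ?_
    refine Ideal.homogeneous_span _ _ ?_
    rintro x ⟨b, rfl⟩
    exact ⟨d b, hy b⟩
  have hrad : ∀ i : Fin N, X i ∈ J.radical := by
    intro i
    rw [hJhom.radical_eq, Ideal.mem_sInf]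
    rintro q ⟨hq1, hq2, hq3⟩
    have hq4 : Hom q := (FINIM.hom_iff q).mpr hq1
    have hpq : p ≤ q := le_trans le_sup_left hq2
    have hyq : ∀ b, y b ∈ q := fun b => hq2 (Ideal.mem_sup_right (Ideal.subset_span ⟨b, rfl⟩))
    exact FINIM.X_mem q hq3 hq4 (hq q hq3 hq4 hpq hyq) i
  choose n hn using fun i => hrad i
  set e : ℕ := (∑ i, n i) + 1 with he
  have hXe : ∀ i : Fin N, (X i : MvPolynomial (Fin N) ℂ) ^ e ∈ J := by
    intro i
    have h1 : n i ≤ e := le_trans (Finset.single_le_sum (fun j _ => Nat.zero_le (n j))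
      (Finset.mem_univ i)) (Nat.le_succ _)
    obtain ⟨k, hk⟩ := Nat.exists_eq_add_of_le h1
    rw [hk, pow_add]
    exact J.mul_mem_right _ (hn i)
  set A := Algebra.adjoin ℂ (Set.range fun b => Ideal.Quotient.mk p (y b)) with hA
  let mon : (Fin N → Fin e) → MvPolynomial (Fin N) ℂ ⧸ p := fun a =>
    Ideal.Quotient.mk p (monomial (Finsupp.equivFunOnFinite.symm (fun i => (a i : ℕ))) 1)
  let M : Submodule A (MvPolynomial (Fin N) ℂ ⧸ p) := Submodule.span A (Set.range mon)
  have hsmulC : ∀ (c : ℂ) (x : MvPolynomial (Fin N) ℂ ⧸ p), x ∈ M → c • x ∈ M := by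
    intro c x hx
    have h1 : c • x = (algebraMap ℂ A c) • x := by
      obtain ⟨f, rfl⟩ := Ideal.Quotient.mk_surjective x
      rw [Subalgebra.smul_def, smul_eq_mul]
      change Ideal.Quotient.mk p (c • f) = Ideal.Quotient.mk p (C c) * Ideal.Quotient.mk p f
      rw [← map_mul, smul_eq_C_mul]
    rw [h1]
    exact M.smul_mem _ hx
  have hysmul : ∀ (b : σ) (x : MvPolynomial (Fin N) ℂ ⧸ p), x ∈ M →
      x * Ideal.Quotient.mk p (y b) ∈ M := by
    intro b x hx
    have h1 : x * Ideal.Quotient.mk p (y b) =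
        (⟨Ideal.Quotient.mk p (y b), Algebra.subset_adjoin ⟨b, rfl⟩⟩ : A) • x := by
      rw [Subalgebra.smul_def, smul_eq_mul, mul_comm]
    rw [h1]
    exact M.smul_mem _ hx
  have key : ∀ (m : ℕ) (f : MvPolynomial (Fin N) ℂ), f.IsHomogeneous m →
      Ideal.Quotient.mk p f ∈ M := by
    intro m
    induction m using Nat.strong_induction_on with
    | _ m ih =>
    intro f hf
    -- elements of `J` of degree `m`
    have hJm : ∀ g : MvPolynomial (Fin N) ℂ, g.IsHomogeneous m → g ∈ J →
        Ideal.Quotient.mk p g ∈ M := by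
      intro g hg hgJ
      rw [hJ, Submodule.mem_sup] at hgJ
      obtain ⟨a, ha, s, hs, has⟩ := hgJ
      obtain ⟨c, hc⟩ := Ideal.mem_span_range_iff_exists_fun.mp hs
      have h1 : g = homogeneousComponent m a + ∑ b, homogeneousComponent m (c b * y b) := by
        have h2 : homogeneousComponent m g = g := by
          rw [homogeneousComponent_of_mem hg, if_pos rfl]
        rw [← map_sum, hc, ← map_add, has, h2]
      rw [h1, map_add, map_sum]
      refine M.add_mem ?_ (M.sum_mem fun b _ => ?_)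
      · rw [Ideal.Quotient.eq_zero_iff_mem.mpr (hh a ha m)]
        exact M.zero_mem
      · rw [FINIM.comp_mul _ _ (d b) m (hy b)]
        split_ifs with hdm
        · rw [map_mul]
          refine hysmul b _ (ih (m - d b) ?_ _ (homogeneousComponent_isHomogeneous _ _))
          have := hd b
          omega
        · rw [map_zero]
          exact M.zero_mem
    -- monomials
    have hmon : ∀ s ∈ f.support, Ideal.Quotient.mk p (monomial s (f.coeff s)) ∈ M := by
      intro s hs
      have hdeg : s.degree = m := by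
        have := hf (mem_support_iff.mp hs)
        rw [Finsupp.degree_eq_weight_one]
        exact this
      have h1 : (monomial s (f.coeff s) : MvPolynomial (Fin N) ℂ) =
          f.coeff s • monomial s (1 : ℂ) := by
        rw [smul_monomial, smul_eq_mul, mul_one]
      have h2 : Ideal.Quotient.mk p (monomial s (f.coeff s)) =
          f.coeff s • Ideal.Quotient.mk p (monomial s (1 : ℂ)) := by
        rw [h1]
        rfl
      rw [h2]
      refine hsmulC _ _ ?_
      by_cases hsm : ∀ i, s i < e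
      · refine Submodule.subset_span ⟨fun i => ⟨s i, hsm i⟩, ?_⟩
        have h3 : (Finsupp.equivFunOnFinite.symm (fun i => s i) : Fin N →₀ ℕ) = s := by
          ext i
          simp
        change Ideal.Quotient.mk p (monomial (Finsupp.equivFunOnFinite.symm (fun i => s i)) 1) = _
        rw [h3]
      · push Not at hsm
        obtain ⟨i, hi⟩ := hsm
        refine hJm _ (isHomogeneous_monomial _ hdeg) ?_
        have h3 : (monomial s (1 : ℂ) : MvPolynomial (Fin N) ℂ) =
            monomial (s - Finsupp.single i e) 1 * X i ^ e := by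
          rw [X_pow_eq_monomial, monomial_mul, mul_one, tsub_add_cancel_of_le]
          rw [Finsupp.single_le_iff]
          exact hi
        rw [h3]
        exact J.mul_mem_left _ (hXe i)
    rw [f.as_sum, map_sum]
    exact M.sum_mem hmon
  have htop : M = ⊤ := by
    rw [eq_top_iff]
    rintro x -
    obtain ⟨f, rfl⟩ := Ideal.Quotient.mk_surjective x
    rw [← sum_homogeneousComponent f, map_sum]
    exact M.sum_mem fun j _ => key j _ (homogeneousComponent_isHomogeneous _ _)
  have hfin : Module.Finite A (MvPolynomial (Fin N) ℂ ⧸ p) := by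
    refine ⟨⟨(Set.finite_range mon).toFinset, ?_⟩⟩
    rw [Set.Finite.coe_toFinset]
    exact htop
  exact IsIntegral.of_finite A z

end Pool.Agent.Lib.MPc9b009.B5
end
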