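import Pool.Agent.Lib.MP_c9b009_ag.B5.Spec

/-!
# MP_c9b009_ag, row B5: the final statement
-/

namespace Pool.Agent.Lib.MPc9b009.B5

open MvPolynomial

/-- The final statement. -/
def Final : Prop :=
  (∀ n : ℕ, n % 6 = 5 → ∀ τ : Pois (n + 1), ∀ s : ℕ, Even s → n ≤ s + 5 → s < n → Big τ.f s) ∧
  (∀ n : ℕ, ∀ τ : Pois (n + 1), ∀ g : Biv (n + 1), IsLift τ.f g → ∀ s : ℕ, Even s →
    ((∃ x : Fin (n + 1) → ℂ, (mat g.f x).rank = s + 2) ∨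
    (∃ p : Ideal (MvPolynomial (Fin (n + 1)) ℂ), p.IsPrime ∧ Hom p ∧ Stab g.f p ∧
      ((s + 2 : ℕ) : Cardinal) ≤ Algebra.trdeg ℂ (MvPolynomial (Fin (n + 1)) ℂ ⧸ p) ∧
      Algebra.trdeg ℂ (MvPolynomial (Fin (n + 1)) ℂ ⧸ p) ≤ ((s + 3 : ℕ) : Cardinal))) →
    Big τ.f s)

theorem final (hA : SpecTHA) (hB : SpecTHB) : Final := by
  refine ⟨?_, ?_⟩
  · intro n hn τ s hs h1 h2
    exact hA (n + 1) s τ (by omega) hs (by omega) (by omega)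
  · intro n τ g hg s hs h
    exact hB (n + 1) s τ.f g hs hg h

end Pool.Agent.Lib.MPc9b009.B5
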