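import Pool.Agent.Lib.MP_c9b009_ag.B5.Spec

section
/-!
# MP_c9b009_ag, row B5, module MST (3c): the ideals of minors are stable and homogeneous
-/
namespace Pool.Agent.Lib.MPc9b009.B5

open MvPolynomial

namespace MSTM

variable {R S : Type} [CommRing R] [CommRing S] [Algebra R S]

/-- The ideal of the dual numbers over `S` given by an ideal of `S`. -/
def dI (I : Ideal S) : Ideal (DualNumber S) where
  carrier := {t | t.fst ∈ I ∧ t.snd ∈ I}
  add_mem' := by
    rintro a b ⟨ha1, ha2⟩ ⟨hb1, hb2⟩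
    refine ⟨?_, ?_⟩
    · rw [TrivSqZeroExt.fst_add]
      exact I.add_mem ha1 hb1
    · rw [TrivSqZeroExt.snd_add]
      exact I.add_mem ha2 hb2
  zero_mem' := by
    refine ⟨?_, ?_⟩
    · rw [TrivSqZeroExt.fst_zero]
      exact I.zero_mem
    · rw [TrivSqZeroExt.snd_zero]
      exact I.zero_mem
  smul_mem' := by
    rintro c x ⟨hx1, hx2⟩
    refine ⟨?_, ?_⟩
    · rw [smul_eq_mul, TrivSqZeroExt.fst_mul]
      exact I.mul_mem_left _ hx1
    · rw [smul_eq_mul, TrivSqZeroExt.snd_mul]
      refine I.add_mem ?_ ?_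
      · exact I.smul_mem _ hx2
      · rw [MulOpposite.smul_eq_mul_unop, MulOpposite.unop_op]
        exact I.mul_mem_left _ hx1

lemma mem_dI {I : Ideal S} {t : DualNumber S} : t ∈ dI I ↔ t.fst ∈ I ∧ t.snd ∈ I := Iff.rfl

/-- The ring homomorphism to the dual numbers given by a derivation. -/
def dhom (D : Derivation R S S) : S →+* DualNumber S where
  toFun x := TrivSqZeroExt.inl x + TrivSqZeroExt.inr (D x)
  map_one' := by
    ext <;> simp
  map_mul' x y := by
    refine TrivSqZeroExt.ext ?_ ?_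
    · simp
    · simp only [Derivation.leibniz, TrivSqZeroExt.snd_add, TrivSqZeroExt.snd_inl,
        TrivSqZeroExt.snd_inr, TrivSqZeroExt.snd_mul, TrivSqZeroExt.fst_add,
        TrivSqZeroExt.fst_inl, TrivSqZeroExt.fst_inr, zero_add, add_zero, smul_eq_mul,
        MulOpposite.smul_eq_mul_unop, MulOpposite.unop_op]
      ring
  map_zero' := by
    ext <;> simp
  map_add' x y := by
    refine TrivSqZeroExt.ext ?_ ?_
    · simp
    · simp

lemma dhom_fst (D : Derivation R S S) (x : S) : (dhom D x).fst = x := by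
  show (TrivSqZeroExt.inl x + TrivSqZeroExt.inr (D x)).fst = x
  simp

lemma dhom_snd (D : Derivation R S S) (x : S) : (dhom D x).snd = D x := by
  show (TrivSqZeroExt.inl x + TrivSqZeroExt.inr (D x)).snd = D x
  simp

lemma det_mul_mem {k n : Type} [Fintype k] [DecidableEq k] [Fintype n] [DecidableEq n]
    (I : Ideal S) (A : Matrix k n S)
    (B : Matrix n k S) (h : ∀ p : k → n, (B.submatrix p id).det ∈ I) :
    (A * B).det ∈ I := by
  have h1 : (A * B) = Matrix.of (fun a => ∑ l, A a l • B l) := by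
    ext a b
    simp [Matrix.mul_apply, Finset.sum_apply]
  rw [h1]
  change Matrix.detRowAlternating (fun a => ∑ l, A a l • B l) ∈ I
  rw [← AlternatingMap.coe_multilinearMap, MultilinearMap.map_sum]
  apply Ideal.sum_mem
  intro p _
  rw [MultilinearMap.map_smul_univ]
  exact I.smul_mem _ (h p)

lemma det_mul_mul_mem {k n : Type} [Fintype k] [DecidableEq k] [Fintype n] [DecidableEq n]
    (I : Ideal S) (A : Matrix k n S) (B : Matrix n n S) (C : Matrix n k S)
    (h : ∀ p q : k → n, (B.submatrix p q).det ∈ I) : (A * B * C).det ∈ I := by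
  rw [Matrix.mul_assoc]
  apply det_mul_mem
  intro p
  have h1 : (B * C).submatrix p id = B.submatrix p id * C := by
    ext a b
    simp [Matrix.mul_apply]
  rw [h1, ← Matrix.det_transpose, Matrix.transpose_mul]
  apply det_mul_mem
  intro q
  have h2 : ((B.submatrix p id).transpose).submatrix q id = (B.submatrix p q).transpose := by
    ext a b
    simp
  rw [h2, Matrix.det_transpose]
  exact h p q

/-- A derivation with `D M = H M + M G` preserves the ideal of minors. -/
lemma minor_stable {k n : Type} [Fintype k] [DecidableEq k] [Fintype n] [DecidableEq n]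
    (D : Derivation R S S) (M H G : Matrix n n S)
    (hD : ∀ a b, D (M a b) = ∑ l, H a l * M l b + ∑ l, M a l * G l b)
    (Q : Ideal S) (hQ : ∀ p q : k → n, (M.submatrix p q).det ∈ Q) (I J : k → n) :
    D ((M.submatrix I J).det) ∈ Q := by
  have h1 : (M.submatrix I J).map (dhom D)
      = ((1 + H.map (TrivSqZeroExt.inr (R := S) (M := S))).submatrix I id)
        * (M.map (TrivSqZeroExt.inlHom S S))
        * ((1 + G.map (TrivSqZeroExt.inr (R := S) (M := S))).submatrix id J) := by
    have h2 : M.map (dhom D) = (1 + H.map (TrivSqZeroExt.inr (R := S) (M := S)))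
        * (M.map (TrivSqZeroExt.inlHom S S))
        * (1 + G.map (TrivSqZeroExt.inr (R := S) (M := S))) := by
      rw [Matrix.add_mul, Matrix.mul_add, Matrix.one_mul, Matrix.mul_one, Matrix.add_mul]
      ext a b
      · simp only [Matrix.map_apply, Matrix.add_apply, Matrix.mul_apply, dhom_fst,
          TrivSqZeroExt.fst_add, TrivSqZeroExt.fst_sum, TrivSqZeroExt.fst_mul,
          TrivSqZeroExt.fst_inr, TrivSqZeroExt.inlHom_apply, TrivSqZeroExt.fst_inl, zero_mul,
          mul_zero, Finset.sum_const_zero, add_zero]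
      · simp only [Matrix.map_apply, Matrix.add_apply, Matrix.mul_apply, dhom_snd,
          TrivSqZeroExt.snd_add, TrivSqZeroExt.snd_sum, TrivSqZeroExt.snd_mul,
          TrivSqZeroExt.fst_sum, TrivSqZeroExt.fst_mul,
          TrivSqZeroExt.fst_inr, TrivSqZeroExt.inlHom_apply, TrivSqZeroExt.fst_inl,
          TrivSqZeroExt.snd_inl, TrivSqZeroExt.snd_inr, smul_eq_mul, zero_mul, mul_zero,
          MulOpposite.smul_eq_mul_unop, MulOpposite.unop_op, Finset.sum_const_zero, add_zero,
          zero_add, hD]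
    have h3 : (M.submatrix I J).map (dhom D) = (M.map (dhom D)).submatrix I J := rfl
    rw [h3, h2]
    ext a b
    · simp only [Matrix.submatrix_apply, Matrix.mul_apply, id]
    · simp only [Matrix.submatrix_apply, Matrix.mul_apply, id]
  have h4 : dhom D ((M.submatrix I J).det) ∈ dI Q := by
    rw [RingHom.map_det]
    change ((M.submatrix I J).map (dhom D)).det ∈ dI Q
    rw [h1]
    apply det_mul_mul_mem
    intro p q
    have h5 : ((M.map (TrivSqZeroExt.inlHom S S)).submatrix p q).det
        = TrivSqZeroExt.inlHom S S ((M.submatrix p q).det) := by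
      rw [RingHom.map_det]
      rfl
    rw [h5]
    refine ⟨?_, ?_⟩
    · simp only [TrivSqZeroExt.inlHom_apply, TrivSqZeroExt.fst_inl]
      exact hQ p q
    · simp only [TrivSqZeroExt.inlHom_apply, TrivSqZeroExt.snd_inl]
      exact Q.zero_mem
  have h6 := (mem_dI.1 h4).2
  rwa [dhom_snd] at h6

lemma det_homog {N κ d : ℕ} (M : Matrix (Fin κ) (Fin κ) (MvPolynomial (Fin N) ℂ))
    (h : ∀ a b, (M a b).IsHomogeneous d) : M.det.IsHomogeneous (d * κ) := by
  rw [Matrix.det_apply]
  apply IsHomogeneous.sum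
  intro σ _
  have h1 : (∏ i, M (σ i) i).IsHomogeneous (∑ _i : Fin κ, d) :=
    IsHomogeneous.prod _ _ _ fun i _ => h _ _
  have h2 : ∑ _i : Fin κ, d = d * κ := by
    simp [mul_comm]
  rw [h2] at h1
  rcases Int.units_eq_one_or (Equiv.Perm.sign σ) with h3 | h3
  · rw [h3, one_smul]
    exact h1
  · rw [h3, Units.neg_smul, one_smul]
    exact h1.neg

attribute [local instance] MvPolynomial.gradedAlgebra in
lemma hom_span {N : ℕ} (s : Set (MvPolynomial (Fin N) ℂ))
    (h : ∀ z ∈ s, ∃ d, z.IsHomogeneous d) : Hom (Ideal.span s) := by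
  have h1 : (Ideal.span s).IsHomogeneous (homogeneousSubmodule (Fin N) ℂ) := by
    apply Ideal.homogeneous_span
    intro z hz
    exact h z hz
  intro z hz d
  exact homogeneousComponent_mem_of_mem h1 hz d

end MSTM

open MSTM

theorem specMST : SpecMST := by
  intro N k g hjac
  set Q : Ideal (MvPolynomial (Fin N) ℂ) :=
    Ideal.span {z | ∃ I J : Fin k → Fin N, z = mnr g.f I J} with hQ
  refine ⟨?_, ?_⟩
  · -- stability
    intro z hz j
    set D : Derivation ℂ (MvPolynomial (Fin N) ℂ) (MvPolynomial (Fin N) ℂ) :=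
      ∑ i, g.f i j • pderiv i with hD
    have hDa : ∀ x, D x = ∑ i, g.f i j * pderiv i x := by
      intro x
      rw [hD]
      have h0 : ∀ s : Finset (Fin N), (∑ i ∈ s, g.f i j • pderiv i :
          Derivation ℂ (MvPolynomial (Fin N) ℂ) (MvPolynomial (Fin N) ℂ)) x
          = ∑ i ∈ s, g.f i j * pderiv i x := by
        classical
        intro s
        induction s using Finset.induction_on with
        | empty => simp
        | insert a s ha ih =>
          rw [Finset.sum_insert ha, Finset.sum_insert ha, Derivation.add_apply, ih,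
            Derivation.smul_apply, smul_eq_mul]
      exact h0 Finset.univ
    rw [← hDa]
    refine Submodule.span_induction (p := fun z _ => D z ∈ Q) ?_ ?_ ?_ ?_ hz
    · rintro z ⟨I, J, rfl⟩
      have h1 : mnr g.f I J = ((Matrix.of g.f).submatrix I J).det := rfl
      rw [h1]
      apply minor_stable D (Matrix.of g.f) (Matrix.of fun a l => pderiv l (g.f a j))
        (Matrix.of fun l b => pderiv l (g.f b j))
      · intro a b
        simp only [Matrix.of_apply]
        rw [hDa]
        have h2 := hjac j a b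
        unfold jac at h2
        rw [Finset.sum_add_distrib, Finset.sum_add_distrib] at h2
        have h3 : ∑ l, g.f l j * pderiv l (g.f a b) = - ∑ l, g.f j l * pderiv l (g.f a b) := by
          rw [← Finset.sum_neg_distrib]
          apply Finset.sum_congr rfl
          intro l _
          rw [g.skew j l]
          ring
        have h4 : ∑ l, pderiv l (g.f a j) * g.f l b = ∑ l, g.f b l * pderiv l (g.f j a) := by
          apply Finset.sum_congr rfl
          intro l _
          rw [g.skew b l, g.skew j a, map_neg]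
          ring
        rw [h3, h4]
        linear_combination - h2
      · intro p q
        exact Ideal.subset_span ⟨p, q, rfl⟩
    · rw [map_zero]
      exact Q.zero_mem
    · intro x y _ _ hx hy
      rw [map_add]
      exact Q.add_mem hx hy
    · intro a x hx hDx
      rw [smul_eq_mul, Derivation.leibniz, smul_eq_mul, smul_eq_mul]
      exact Q.add_mem (Q.mul_mem_left _ hDx) (Q.mul_mem_right _ hx)
  · -- homogeneity
    exact hom_span _ (by
      rintro z ⟨I, J, rfl⟩
      exact ⟨2 * k, det_homog _ fun a b => g.quad _ _⟩)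

end Pool.Agent.Lib.MPc9b009.B5
end

section
/-!
# MP_c9b009_ag, row B5, module GRO (5e): growth of the Hilbert function of a kernel of rank two
-/
namespace Pool.Agent.Lib.MPc9b009.B5

open MvPolynomial

namespace GROM

/-- The dimension of the space of forms of degree `a` in four variables. -/
lemma finrank_homog (a : ℕ) :
    Module.finrank ℂ (homogeneousSubmodule (Fin 4) ℂ a) = (a + 3).choose 3 := by
  classical
  set s : Finset (Fin 4 →₀ ℕ) := (Finset.univ : Finset (Fin 4)).finsuppAntidiag a with hs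
  have hmem : ∀ d : Fin 4 →₀ ℕ, d ∈ s ↔ d.degree = a := by
    intro d
    rw [hs, Finset.mem_finsuppAntidiag]
    simp only [Finset.subset_univ, and_true, Finsupp.degree_eq_sum]
  let Φ : homogeneousSubmodule (Fin 4) ℂ a →ₗ[ℂ] (s → ℂ) :=
    { toFun := fun p d => coeff d.1 p.1
      map_add' := fun p q => by
        funext d
        simp
      map_smul' := fun c p => by
        funext d
        simp }
  have hinj : Function.Injective Φ := by
    rw [injective_iff_map_eq_zero]
    intro p hp
    apply Subtype.ext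
    ext d
    by_cases hd : d.degree = a
    · have := congrFun hp ⟨d, (hmem d).2 hd⟩
      exact this
    · exact IsHomogeneous.coeff_eq_zero p.2 hd
  have hsurj : Function.Surjective Φ := by
    intro c
    refine ⟨⟨∑ d : s, monomial d.1 (c d), ?_⟩, ?_⟩
    · apply Submodule.sum_mem
      intro d _
      exact isHomogeneous_monomial _ ((hmem _).1 d.2)
    · funext e
      change coeff e.1 (∑ d : s, monomial d.1 (c d)) = c e
      rw [coeff_sum, Finset.sum_eq_single e]
      · rw [coeff_monomial, if_pos rfl]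
      · intro d _ hde
        rw [coeff_monomial, if_neg (fun h => hde (Subtype.ext h))]
      · intro h
        exact absurd (Finset.mem_univ e) h
  rw [(LinearEquiv.ofBijective Φ ⟨hinj, hsurj⟩).finrank_eq, Module.finrank_fintype_fun_eq_card,
    Fintype.card_coe, hs, Finset.card_finsuppAntidiag_nat_eq_choose]
  simp only [Finset.card_univ, Fintype.card_fin]
  rw [show 4 + a - 1 = a + 3 by omega]
  exact Nat.choose_symm_of_eq_add (by omega)

instance (a : ℕ) : Module.Finite ℂ (homogeneousSubmodule (Fin 4) ℂ a) :=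
  Module.Finite.iff_fg.2 (homogeneousSubmodule_fg _ _ _)

/-- Rows of a matrix of rank `≤ κ` are combinations of the rows of a nonzero `κ`-minor. -/
lemma row_comb {F : Type} [Field F] {N κ : ℕ} (A : Matrix (Fin N) (Fin N) F)
    (I J : Fin κ → Fin N) (hD : (A.submatrix I J).det ≠ 0) (hr : A.rank ≤ κ) (i : Fin N) :
    ∃ c : Fin κ → F, ∀ l, A i l = ∑ a, c a * A (I a) l := by
  have hli : LinearIndependent F (fun a => A (I a)) := by
    rw [Fintype.linearIndependent_iff]
    intro g hg
    have h1 : Matrix.vecMul g (A.submatrix I J) = 0 := by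
      funext b
      have := congrFun hg (J b)
      simpa [Matrix.vecMul, dotProduct, Finset.sum_apply] using this
    have h2 := Matrix.eq_zero_of_vecMul_eq_zero hD h1
    intro a
    exact congrFun h2 a
  have hle : Submodule.span F (Set.range fun a => A (I a))
      ≤ Submodule.span F (Set.range A.row) := by
    apply Submodule.span_mono
    rintro _ ⟨a, rfl⟩
    exact ⟨I a, rfl⟩
  have hfr : Module.finrank F (Submodule.span F (Set.range A.row))
      ≤ Module.finrank F (Submodule.span F (Set.range fun a => A (I a))) := by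
    rw [finrank_span_eq_card hli, Fintype.card_fin, ← Matrix.rank_eq_finrank_span_row]
    exact hr
  have heq := Submodule.eq_of_le_of_finrank_le hle hfr
  have hi : A i ∈ Submodule.span F (Set.range fun a => A (I a)) := by
    rw [heq]
    exact Submodule.subset_span ⟨i, rfl⟩
  rw [Submodule.mem_span_range_iff_exists_fun] at hi
  obtain ⟨c, hc⟩ := hi
  refine ⟨c, fun l => ?_⟩
  rw [← hc]
  simp [Finset.sum_apply]

lemma rank_lt {F : Type} [Field F] {N : ℕ} (A : Matrix (Fin N) (Fin N) F) (hd : A.det = 0) :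
    A.rank < N := by
  obtain ⟨v, hv, hAv⟩ := Matrix.exists_mulVec_eq_zero_iff.2 hd
  have h1 := LinearMap.finrank_range_add_finrank_ker A.mulVecLin
  rw [Module.finrank_fin_fun] at h1
  have h2 : 0 < Module.finrank F (LinearMap.ker A.mulVecLin) := by
    rw [Module.finrank_pos_iff_exists_ne_zero]
    refine ⟨⟨v, ?_⟩, ?_⟩
    · rw [LinearMap.mem_ker, Matrix.mulVecLin_apply]
      exact hAv
    · intro h
      exact hv (congrArg Subtype.val h)
  unfold Matrix.rank
  omega

/-- The matrix has a nonzero `κ`-minor and all rows are combinations of its rows. -/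
lemma setup (hSKE : SpecSKE) (hRKM : SpecRKM) {κ : ℕ}
    (A : Matrix (Fin (κ + 2)) (Fin (κ + 2)) (MvPolynomial (Fin 4) ℂ))
    (hev : Even (κ + 2)) (hskew : ∀ i j, A j i = - A i j) (hdet : A.det = 0)
    (hrk : ∀ y : Fin 4 → ℂ, y ≠ 0 → κ + 2 ≤ (Matrix.of fun i j => eval y (A i j)).rank + 2) :
    ∃ I J : Fin κ → Fin (κ + 2), (A.submatrix I J).det ≠ 0 ∧
      ∀ i, ∃ c : Fin κ → FractionRing (MvPolynomial (Fin 4) ℂ), ∀ l,
        algebraMap _ (FractionRing (MvPolynomial (Fin 4) ℂ)) (A i l)
          = ∑ a, c a * algebraMap _ (FractionRing (MvPolynomial (Fin 4) ℂ)) (A (I a) l) := by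
  classical
  obtain ⟨I, J, hD⟩ : ∃ I J : Fin κ → Fin (κ + 2), (A.submatrix I J).det ≠ 0 := by
    rcases Nat.eq_zero_or_pos κ with h0 | h0
    · subst h0
      refine ⟨fun a => a.elim0, fun a => a.elim0, ?_⟩
      rw [Matrix.det_isEmpty]
      exact one_ne_zero
    · obtain ⟨k, rfl⟩ : ∃ k, κ = k + 1 := ⟨κ - 1, by omega⟩
      have hy : (fun i : Fin 4 => if i = 0 then (1:ℂ) else 0) ≠ 0 := by
        intro h
        have := congrFun h 0
        simp at this
      have h1 := hrk _ hy
      have h2 := hRKM ℂ inferInstance (k + 1 + 2) (k + 1 + 2) k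
        (Matrix.of fun i j => eval (fun i : Fin 4 => if i = 0 then (1:ℂ) else 0) (A i j))
      have h3 : ¬ (Matrix.of fun i j =>
          eval (fun i : Fin 4 => if i = 0 then (1:ℂ) else 0) (A i j)).rank ≤ k := by omega
      rw [← h2] at h3
      push Not at h3
      obtain ⟨I, J, hIJ⟩ := h3
      refine ⟨I, J, fun h => hIJ ?_⟩
      have h4 : (Matrix.of fun s t => (Matrix.of fun i j =>
          eval (fun i : Fin 4 => if i = 0 then (1:ℂ) else 0) (A i j)) (I s) (J t)).det
          = eval (fun i : Fin 4 => if i = 0 then (1:ℂ) else 0) ((A.submatrix I J).det) := by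
        rw [RingHom.map_det]
        rfl
      rw [h4, h, map_zero]
  refine ⟨I, J, hD, ?_⟩
  set F := FractionRing (MvPolynomial (Fin 4) ℂ) with hF
  set φ : MvPolynomial (Fin 4) ℂ →+* F := algebraMap _ F with hφ
  set AF : Matrix (Fin (κ + 2)) (Fin (κ + 2)) F := A.map φ with hAF
  have hdF : AF.det = 0 := by
    have : AF.det = φ A.det := by
      rw [RingHom.map_det]
      rfl
    rw [this, hdet, map_zero]
  have hr1 := rank_lt AF hdF
  have hr2 : AF.rank ≤ κ := by
    obtain ⟨m, hm⟩ := hev
    obtain ⟨k, rfl⟩ : ∃ k, κ = 2 * k := ⟨m - 1, by omega⟩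
    have : CharZero F := inferInstance
    apply hSKE F inferInstance this (2 * k + 2) k AF _ (by omega)
    ext i j
    rw [Matrix.transpose_apply, Matrix.neg_apply, hAF, Matrix.map_apply, Matrix.map_apply,
      hskew i j, map_neg]
  intro i
  have hDF : (AF.submatrix I J).det ≠ 0 := by
    have h1 : (AF.submatrix I J).det = φ ((A.submatrix I J).det) := by
      rw [RingHom.map_det]
      rfl
    rw [h1]
    intro h
    apply hD
    exact (injective_iff_map_eq_zero φ).1 (IsFractionRing.injective _ F) _ h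
  exact row_comb AF I J hDF hr2 i

/-- The two complementary coordinates. -/
lemma compl_two {κ : ℕ} (J : Fin κ → Fin (κ + 2)) (hJ : Function.Injective J) :
    ∃ j₁ j₂ : Fin (κ + 2), j₁ ≠ j₂ ∧ (∀ b, J b ≠ j₁) ∧ (∀ b, J b ≠ j₂) ∧
      ∀ l, l = j₁ ∨ l = j₂ ∨ ∃ b, J b = l := by
  classical
  have h1 : (Finset.univ.image J)ᶜ.card = 2 := by
    rw [Finset.card_compl, Finset.card_image_of_injective _ hJ]
    simp
  obtain ⟨j₁, j₂, hne, hj⟩ := Finset.card_eq_two.1 h1
  refine ⟨j₁, j₂, hne, ?_, ?_, ?_⟩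
  · intro b hb
    have : j₁ ∈ (Finset.univ.image J)ᶜ := by
      rw [hj]
      simp
    rw [Finset.mem_compl, Finset.mem_image] at this
    exact this ⟨b, Finset.mem_univ _, hb⟩
  · intro b hb
    have : j₂ ∈ (Finset.univ.image J)ᶜ := by
      rw [hj]
      simp
    rw [Finset.mem_compl, Finset.mem_image] at this
    exact this ⟨b, Finset.mem_univ _, hb⟩
  · intro l
    by_cases hl : l ∈ (Finset.univ.image J)ᶜ
    · rw [hj, Finset.mem_insert, Finset.mem_singleton] at hl
      rcases hl with h | h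
      · exact Or.inl h
      · exact Or.inr (Or.inl h)
    · rw [Finset.mem_compl, not_not, Finset.mem_image] at hl
      obtain ⟨b, _, hb⟩ := hl
      exact Or.inr (Or.inr ⟨b, hb⟩)

/-- Cramer's kernel vectors. -/
noncomputable def cv {N κ : ℕ} (A : Matrix (Fin N) (Fin N) (MvPolynomial (Fin 4) ℂ))
    (I J : Fin κ → Fin N) (j : Fin N) : Fin N → MvPolynomial (Fin 4) ℂ := fun l =>
  (if l = j then (A.submatrix I J).det else 0)
    - ∑ b, if J b = l then Matrix.cramer (A.submatrix I J) (fun a => A (I a) j) b else 0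

lemma cv_homog {N κ : ℕ} (A : Matrix (Fin N) (Fin N) (MvPolynomial (Fin 4) ℂ))
    (hq : ∀ i j, (A i j).IsHomogeneous 2) (I J : Fin κ → Fin N) (j l : Fin N) :
    (cv A I J j l).IsHomogeneous (2 * κ) := by
  unfold cv
  apply IsHomogeneous.sub
  · split_ifs
    · exact MSTM.det_homog _ fun a b => hq _ _
    · exact isHomogeneous_zero _ _ _
  · apply IsHomogeneous.sum
    intro b _
    split_ifs
    · rw [Matrix.cramer_apply]
      apply MSTM.det_homog
      intro a b'
      rw [Matrix.updateCol_apply]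
      split_ifs
      · exact hq _ _
      · exact hq _ _
    · exact isHomogeneous_zero _ _ _

lemma mul_cv {N κ : ℕ} (A : Matrix (Fin N) (Fin N) (MvPolynomial (Fin 4) ℂ))
    (I J : Fin κ → Fin N) (j i : Fin N) :
    A.mulVec (cv A I J j) i = A i j * (A.submatrix I J).det
      - ∑ b, A i (J b) * Matrix.cramer (A.submatrix I J) (fun a => A (I a) j) b := by
  unfold Matrix.mulVec dotProduct cv
  simp only [mul_sub, Finset.sum_sub_distrib]
  congr 1
  · simp
  · simp only [Finset.mul_sum, mul_ite, mul_zero]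
    rw [Finset.sum_comm]
    apply Finset.sum_congr rfl
    intro b _
    simp

lemma ker_cv {N κ : ℕ} (A : Matrix (Fin N) (Fin N) (MvPolynomial (Fin 4) ℂ))
    (I J : Fin κ → Fin N)
    (hrow : ∀ i, ∃ c : Fin κ → FractionRing (MvPolynomial (Fin 4) ℂ), ∀ l,
        algebraMap _ (FractionRing (MvPolynomial (Fin 4) ℂ)) (A i l)
          = ∑ a, c a * algebraMap _ (FractionRing (MvPolynomial (Fin 4) ℂ)) (A (I a) l))
    (j : Fin N) : A.mulVec (cv A I J j) = 0 := by
  have h1 : ∀ a, A.mulVec (cv A I J j) (I a) = 0 := by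
    intro a
    rw [mul_cv]
    have h2 := congrFun (Matrix.mulVec_cramer (A.submatrix I J) (fun a => A (I a) j)) a
    unfold Matrix.mulVec dotProduct at h2
    simp only [Matrix.submatrix_apply, Pi.smul_apply, smul_eq_mul] at h2
    rw [h2]
    ring
  funext i
  rw [Pi.zero_apply]
  obtain ⟨c, hc⟩ := hrow i
  apply IsFractionRing.injective (MvPolynomial (Fin 4) ℂ)
    (FractionRing (MvPolynomial (Fin 4) ℂ))
  rw [map_zero]
  have h3 : algebraMap _ (FractionRing (MvPolynomial (Fin 4) ℂ)) (A.mulVec (cv A I J j) i)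
      = ∑ a, c a * algebraMap _ (FractionRing (MvPolynomial (Fin 4) ℂ))
        (A.mulVec (cv A I J j) (I a)) := by
    unfold Matrix.mulVec dotProduct
    simp only [map_sum, map_mul, hc, Finset.sum_mul, Finset.mul_sum]
    rw [Finset.sum_comm]
    simp only [mul_assoc]
  rw [h3]
  apply Finset.sum_eq_zero
  intro a _
  rw [h1 a, map_zero, mul_zero]

lemma cv_self {N κ : ℕ} (A : Matrix (Fin N) (Fin N) (MvPolynomial (Fin 4) ℂ))
    (I J : Fin κ → Fin N) (j : Fin N) (hj : ∀ b, J b ≠ j) :
    cv A I J j j = (A.submatrix I J).det := by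
  unfold cv
  rw [if_pos rfl, Finset.sum_eq_zero, sub_zero]
  intro b _
  rw [if_neg (hj b)]

lemma cv_ne {N κ : ℕ} (A : Matrix (Fin N) (Fin N) (MvPolynomial (Fin 4) ℂ))
    (I J : Fin κ → Fin N) (j l : Fin N) (hl : ∀ b, J b ≠ l) (hlj : l ≠ j) :
    cv A I J j l = 0 := by
  unfold cv
  rw [if_neg hlj, Finset.sum_eq_zero, sub_zero]
  intro b _
  rw [if_neg (hl b)]

lemma mem_hk {N a : ℕ} {A : Matrix (Fin N) (Fin N) (MvPolynomial (Fin 4) ℂ)}
    {w : Fin N → MvPolynomial (Fin 4) ℂ} :
    w ∈ hk A a ↔ (∀ i, (w i).IsHomogeneous a) ∧ A.mulVec w = 0 := by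
  unfold hk hv
  rw [Submodule.mem_inf, Submodule.mem_pi, LinearMap.mem_ker]
  simp only [Set.mem_univ, true_imp_iff, mem_homogeneousSubmodule]
  rfl

lemma vanish {κ : ℕ} (A : Matrix (Fin (κ + 2)) (Fin (κ + 2)) (MvPolynomial (Fin 4) ℂ))
    (I J : Fin κ → Fin (κ + 2)) (hD : (A.submatrix I J).det ≠ 0)
    (hJ : Function.Injective J) (j₁ j₂ : Fin (κ + 2))
    (hall : ∀ l, l = j₁ ∨ l = j₂ ∨ ∃ b, J b = l) (w : Fin (κ + 2) → MvPolynomial (Fin 4) ℂ)
    (hw : A.mulVec w = 0) (h1 : w j₁ = 0) (h2 : w j₂ = 0) : w = 0 := by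
  classical
  have h3 : ∀ l, (∀ b, J b ≠ l) → w l = 0 := by
    intro l hl
    rcases hall l with h | h | ⟨b, h⟩
    · rw [h, h1]
    · rw [h, h2]
    · exact absurd h (hl b)
  have h4 : (A.submatrix I J).mulVec (fun b => w (J b)) = 0 := by
    funext a
    have h5 := congrFun hw (I a)
    unfold Matrix.mulVec dotProduct at h5 ⊢
    rw [Pi.zero_apply] at h5 ⊢
    rw [← h5]
    simp only [Matrix.submatrix_apply]
    rw [← Finset.sum_image (f := fun l => A (I a) l * w l) (s := Finset.univ) (g := J)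
      (fun x _ y _ h => hJ h)]
    apply Finset.sum_subset (Finset.subset_univ _)
    intro l _ hl
    rw [h3 l, mul_zero]
    intro b hb
    exact hl (Finset.mem_image.2 ⟨b, Finset.mem_univ _, hb⟩)
  have h6 := Matrix.eq_zero_of_mulVec_eq_zero hD h4
  funext l
  rcases hall l with h | h | ⟨b, h⟩
  · rw [h, h1, Pi.zero_apply]
  · rw [h, h2, Pi.zero_apply]
  · rw [← h]
    exact congrFun h6 b

/-- The projection to two coordinates. -/
noncomputable def pr {N : ℕ} (A : Matrix (Fin N) (Fin N) (MvPolynomial (Fin 4) ℂ)) (a : ℕ)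
    (j₁ j₂ : Fin N) : hk A a →ₗ[ℂ]
      (homogeneousSubmodule (Fin 4) ℂ a × homogeneousSubmodule (Fin 4) ℂ a) where
  toFun w := (⟨w.1 j₁, (mem_hk.1 w.2).1 j₁⟩, ⟨w.1 j₂, (mem_hk.1 w.2).1 j₂⟩)
  map_add' _ _ := rfl
  map_smul' _ _ := rfl

lemma comb_mem {N a c : ℕ} {A : Matrix (Fin N) (Fin N) (MvPolynomial (Fin 4) ℂ)}
    {w₁ w₂ : Fin N → MvPolynomial (Fin 4) ℂ} (h₁ : w₁ ∈ hk A c) (h₂ : w₂ ∈ hk A c)
    {u v : MvPolynomial (Fin 4) ℂ} (hu : u.IsHomogeneous a) (hv : v.IsHomogeneous a) :
    u • w₁ + v • w₂ ∈ hk A (a + c) := by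
  rw [mem_hk]
  refine ⟨fun i => ?_, ?_⟩
  · rw [Pi.add_apply, Pi.smul_apply, Pi.smul_apply, smul_eq_mul, smul_eq_mul]
    exact (hu.mul ((mem_hk.1 h₁).1 i)).add (hv.mul ((mem_hk.1 h₂).1 i))
  · rw [Matrix.mulVec_add, Matrix.mulVec_smul, Matrix.mulVec_smul, (mem_hk.1 h₁).2,
      (mem_hk.1 h₂).2, smul_zero, smul_zero, add_zero]

/-- Combinations of two kernel vectors. -/
noncomputable def cb {N c : ℕ} (A : Matrix (Fin N) (Fin N) (MvPolynomial (Fin 4) ℂ)) (a : ℕ)
    (w₁ w₂ : Fin N → MvPolynomial (Fin 4) ℂ) (h₁ : w₁ ∈ hk A c) (h₂ : w₂ ∈ hk A c) :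
      (homogeneousSubmodule (Fin 4) ℂ a × homogeneousSubmodule (Fin 4) ℂ a) →ₗ[ℂ]
      hk A (a + c) where
  toFun p := ⟨p.1.1 • w₁ + p.2.1 • w₂, comb_mem h₁ h₂ p.1.2 p.2.2⟩
  map_add' p q := by
    apply Subtype.ext
    change (p.1.1 + q.1.1) • w₁ + (p.2.1 + q.2.1) • w₂
      = (p.1.1 • w₁ + p.2.1 • w₂) + (q.1.1 • w₁ + q.2.1 • w₂)
    rw [add_smul, add_smul]
    abel
  map_smul' r p := by
    apply Subtype.ext
    change (r • p.1.1) • w₁ + (r • p.2.1) • w₂ = r • (p.1.1 • w₁ + p.2.1 • w₂)
    rw [smul_add, smul_assoc, smul_assoc]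

lemma choose_eq (a : ℕ) : 3 * (2 * (a + 3).choose 3) = (a + 3) * (a + 2) * (a + 1) := by
  have h := Nat.descFactorial_eq_factorial_mul_choose (a + 3) 3
  have h2 : (a + 3).descFactorial 3 = (a + 3) * (a + 2) * (a + 1) := by
    simp only [Nat.descFactorial_succ, Nat.descFactorial_zero]
    have e1 : a + 3 - 2 = a + 1 := by omega
    have e2 : a + 3 - 1 = a + 2 := by omega
    rw [e1, e2, Nat.sub_zero]
    ring
  rw [h2] at h
  rw [h]
  norm_num [Nat.factorial]
  ring

end GROM

open GROM

theorem specGRO (hSKE : SpecSKE) (hRKM : SpecRKM) : SpecGRO := by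
  classical
  intro N A hev hskew hquad hdet hrk
  obtain ⟨κ, rfl⟩ : ∃ κ, N = κ + 2 := by
    obtain ⟨m, hm⟩ := hev
    rcases Nat.eq_zero_or_pos N with h0 | h0
    · subst h0
      rw [Matrix.det_isEmpty] at hdet
      exact absurd hdet one_ne_zero
    · exact ⟨N - 2, by omega⟩
  obtain ⟨I, J, hD, hrow⟩ := setup hSKE hRKM A hev hskew hdet hrk
  have hJ : Function.Injective J := by
    intro b b' hbb
    by_contra hne
    exact hD (Matrix.det_zero_of_column_eq hne fun a => by
      rw [Matrix.submatrix_apply, Matrix.submatrix_apply, hbb])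
  obtain ⟨j₁, j₂, hne, hj₁, hj₂, hall⟩ := compl_two J hJ
  have hw₁ : cv A I J j₁ ∈ hk A (2 * κ) :=
    mem_hk.2 ⟨cv_homog A hquad I J j₁, ker_cv A I J hrow j₁⟩
  have hw₂ : cv A I J j₂ ∈ hk A (2 * κ) :=
    mem_hk.2 ⟨cv_homog A hquad I J j₂, ker_cv A I J hrow j₂⟩
  have hprinj : ∀ a, Function.Injective (pr A a j₁ j₂) := by
    intro a
    rw [injective_iff_map_eq_zero]
    intro w hw
    apply Subtype.ext
    have e1 : w.1 j₁ = 0 := congrArg (fun q => q.1.1) hw
    have e2 : w.1 j₂ = 0 := congrArg (fun q => q.2.1) hw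
    exact vanish A I J hD hJ j₁ j₂ hall w.1 (mem_hk.1 w.2).2 e1 e2
  have hfin : ∀ a, Module.Finite ℂ (hk A a) := fun a =>
    Module.Finite.of_injective (pr A a j₁ j₂) (hprinj a)
  refine ⟨2 * κ, ?_, ?_⟩
  · intro a
    have h1 := LinearMap.finrank_le_finrank_of_injective (hprinj a)
    rw [Module.finrank_prod, finrank_homog] at h1
    have h2 := choose_eq a
    calc 3 * Module.finrank ℂ (hk A a) ≤ 3 * (2 * (a + 3).choose 3) := by omega
      _ = (a + 3) * (a + 2) * (a + 1) := h2
      _ ≤ (a + 3) * (a + 3) * (a + 3) := by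
        apply Nat.mul_le_mul (Nat.mul_le_mul le_rfl (by omega)) (by omega)
      _ = (a + 3) ^ 3 := by ring
  · intro a
    have hinj : Function.Injective (cb A a _ _ hw₁ hw₂) := by
      rw [injective_iff_map_eq_zero]
      rintro ⟨u, v⟩ huv
      have h0 : u.1 • cv A I J j₁ + v.1 • cv A I J j₂ = 0 := congrArg Subtype.val huv
      have e1 := congrFun h0 j₁
      have e2 := congrFun h0 j₂
      rw [Pi.add_apply, Pi.smul_apply, Pi.smul_apply, cv_self A I J j₁ hj₁,
        cv_ne A I J j₂ j₁ hj₁ hne, smul_zero, add_zero, smul_eq_mul, Pi.zero_apply,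
        mul_eq_zero] at e1
      rw [Pi.add_apply, Pi.smul_apply, Pi.smul_apply, cv_self A I J j₂ hj₂,
        cv_ne A I J j₁ j₂ hj₂ hne.symm, smul_zero, zero_add, smul_eq_mul, Pi.zero_apply,
        mul_eq_zero] at e2
      have e3 : u = 0 := Subtype.ext (e1.resolve_right hD)
      have e4 : v = 0 := Subtype.ext (e2.resolve_right hD)
      rw [e3, e4]
      rfl
    have : Module.Finite ℂ (hk A (a + 2 * κ)) := hfin _
    have h1 := LinearMap.finrank_le_finrank_of_injective hinj
    rw [Module.finrank_prod, finrank_homog] at h1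
    have h2 := choose_eq a
    calc a ^ 3 = a * a * a := by ring
      _ ≤ (a + 3) * (a + 2) * (a + 1) := by
        apply Nat.mul_le_mul (Nat.mul_le_mul (by omega) (by omega)) (by omega)
      _ = 3 * (2 * (a + 3).choose 3) := h2.symm
      _ ≤ 3 * Module.finrank ℂ (hk A (a + 2 * κ)) := by omega

end Pool.Agent.Lib.MPc9b009.B5
end

section
/-!
# MP_c9b009_ag, row B5: HMIN
-/
namespace Pool.Agent.Lib.MPc9b009.B5

open MvPolynomial

attribute [local instance] MvPolynomial.gradedAlgebra

namespace HMINM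

/-- `Hom` is homogeneity for the grading by degree. -/
theorem hom_iff {N : ℕ} (p : Ideal (MvPolynomial (Fin N) ℂ)) :
    Hom p ↔ p.IsHomogeneous (homogeneousSubmodule (Fin N) ℂ) := by
  constructor
  · intro h i g hg
    have h1 := h g hg i
    rw [← decomposition.decompose'_apply] at h1
    exact h1
  · intro h g hg d
    rw [← decomposition.decompose'_apply]
    exact h d hg

end HMINM

theorem specHMIN : SpecHMIN := by
  intro N I hI p hp
  rw [HMINM.hom_iff] at hI ⊢
  have h1 : (p.homogeneousCore (homogeneousSubmodule (Fin N) ℂ)).toIdeal.IsPrime :=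
    Ideal.IsPrime.homogeneousCore hp.1.1
  have h2 : I ≤ (p.homogeneousCore (homogeneousSubmodule (Fin N) ℂ)).toIdeal := by
    have h3 := Ideal.homogeneousCore_mono (homogeneousSubmodule (Fin N) ℂ) hp.1.2
    rw [← hI.toIdeal_homogeneousCore_eq_self]
    exact h3
  have h4 := hp.2 ⟨h1, h2⟩ (Ideal.toIdeal_homogeneousCore_le _ _)
  have h5 : (p.homogeneousCore (homogeneousSubmodule (Fin N) ℂ)).toIdeal = p :=
    le_antisymm (Ideal.toIdeal_homogeneousCore_le _ _) h4
  rw [← h5]
  exact (p.homogeneousCore (homogeneousSubmodule (Fin N) ℂ)).isHomogeneous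

end Pool.Agent.Lib.MPc9b009.B5
end

section
/-!
# MP_c9b009_ag, row B5, module LIFT: unimodular quadratic Poisson lifts
-/
namespace Pool.Agent.Lib.MPc9b009.B5

open MvPolynomial

namespace LIFTM

variable {N : ℕ}

/-- The derivation `∑ a_l ∂_l`. -/
noncomputable def D (a : Fin N → MvPolynomial (Fin N) ℂ) (g : MvPolynomial (Fin N) ℂ) :
    MvPolynomial (Fin N) ℂ := ∑ l, a l * pderiv l g

theorem D_X (a : Fin N → MvPolynomial (Fin N) ℂ) (j : Fin N) : D a (X j) = a j := by
  unfold D
  rw [Finset.sum_eq_single j]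
  · rw [pderiv_X_self, mul_one]
  · intro l _ hl
    rw [pderiv_X_of_ne hl.symm, mul_zero]
  · intro h
    exact absurd (Finset.mem_univ j) h

theorem D_mul (a : Fin N → MvPolynomial (Fin N) ℂ) (g h : MvPolynomial (Fin N) ℂ) :
    D a (g * h) = D a g * h + g * D a h := by
  unfold D
  rw [Finset.sum_mul, Finset.mul_sum, ← Finset.sum_add_distrib]
  refine Finset.sum_congr rfl fun l _ => ?_
  rw [Derivation.leibniz]
  simp only [smul_eq_mul]
  ring

theorem D_add (a : Fin N → MvPolynomial (Fin N) ℂ) (g h : MvPolynomial (Fin N) ℂ) :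
    D a (g + h) = D a g + D a h := by
  unfold D
  rw [← Finset.sum_add_distrib]
  refine Finset.sum_congr rfl fun l _ => ?_
  rw [map_add, mul_add]

theorem D_sub (a : Fin N → MvPolynomial (Fin N) ℂ) (g h : MvPolynomial (Fin N) ℂ) :
    D a (g - h) = D a g - D a h := by
  unfold D
  rw [← Finset.sum_sub_distrib]
  refine Finset.sum_congr rfl fun l _ => ?_
  rw [map_sub, mul_sub]

theorem D_neg (a : Fin N → MvPolynomial (Fin N) ℂ) (g : MvPolynomial (Fin N) ℂ) :
    D a (-g) = - D a g := by
  have := D_sub a 0 g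
  rw [zero_sub] at this
  rw [this]
  have h0 : D a (0 : MvPolynomial (Fin N) ℂ) = 0 := by simp [D]
  rw [h0, zero_sub]

theorem D_comb (a v w : Fin N → MvPolynomial (Fin N) ℂ) (x y g : MvPolynomial (Fin N) ℂ) :
    D (fun l => a l + (x * v l - w l * y)) g = D a g + x * D v g - y * D w g := by
  unfold D
  rw [Finset.mul_sum, Finset.mul_sum, ← Finset.sum_add_distrib, ← Finset.sum_sub_distrib]
  refine Finset.sum_congr rfl fun l _ => ?_
  ring

theorem D_neg_left (a : Fin N → MvPolynomial (Fin N) ℂ) (g : MvPolynomial (Fin N) ℂ) :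
    D (fun l => - a l) g = - D a g := by
  unfold D
  rw [← Finset.sum_neg_distrib]
  refine Finset.sum_congr rfl fun l _ => ?_
  ring

theorem euler {k : ℕ} {p : MvPolynomial (Fin N) ℂ} (hp : p.IsHomogeneous k) :
    D X p = (k : MvPolynomial (Fin N) ℂ) * p := by
  unfold D
  rw [hp.sum_X_mul_pderiv, nsmul_eq_mul]

theorem jac_eq (f : Fin N → Fin N → MvPolynomial (Fin N) ℂ) (i j k : Fin N) :
    jac f i j k = D (f i) (f j k) + D (f j) (f k i) + D (f k) (f i j) := by
  unfold jac D
  rw [← Finset.sum_add_distrib, ← Finset.sum_add_distrib]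

/-- Adding `E ∧ v`. -/
noncomputable def add (f : Fin N → Fin N → MvPolynomial (Fin N) ℂ) (v : Fin N → MvPolynomial (Fin N) ℂ) :
    Fin N → Fin N → MvPolynomial (Fin N) ℂ := fun i j => f i j + (X i * v j - X j * v i)

theorem D_add_left (f : Fin N → Fin N → MvPolynomial (Fin N) ℂ)
    (v : Fin N → MvPolynomial (Fin N) ℂ) (i : Fin N) (g : MvPolynomial (Fin N) ℂ) :
    D (add f v i) g = D (f i) g + X i * D v g - v i * D X g :=
  D_comb (f i) v X (X i) (v i) g

/-- The two-vector `w` with `J(f + E ∧ v) = J(f) + E ∧ w`. -/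
noncomputable def ww (f : Fin N → Fin N → MvPolynomial (Fin N) ℂ)
    (v : Fin N → MvPolynomial (Fin N) ℂ) (j k : Fin N) : MvPolynomial (Fin N) ℂ :=
  D (f k) (v j) - D (f j) (v k) + D v (f j k)

theorem jac_add (b : Biv N) (v : Fin N → MvPolynomial (Fin N) ℂ)
    (hv : ∀ i, (v i).IsHomogeneous 1) (i j k : Fin N) :
    jac (add b.f v) i j k = jac b.f i j k +
      (X i * ww b.f v j k + X j * ww b.f v k i + X k * ww b.f v i j) := by
  rw [jac_eq, jac_eq]
  simp only [D_add_left]
  simp only [add, D_add, D_sub, D_mul, D_X, ww, euler (b.quad _ _), euler (hv _)]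
  have h1 := b.skew i j
  have h2 := b.skew j k
  have h3 := b.skew k i
  simp only [h1, h2, h3, D_neg]
  push_cast
  ring

theorem ww_skew (b : Biv N) (v : Fin N → MvPolynomial (Fin N) ℂ) (j k : Fin N) :
    ww b.f v k j = - ww b.f v j k := by
  unfold ww
  rw [b.skew j k, D_neg]
  ring

theorem jacE_add (b : Biv N) (v : Fin N → MvPolynomial (Fin N) ℂ)
    (hv : ∀ i, (v i).IsHomogeneous 1)
    (hJ : ∀ i j k l, X i * jac b.f j k l - X j * jac b.f i k l + X k * jac b.f i j l
      - X l * jac b.f i j k = 0) (i j k l : Fin N) :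
    X i * jac (add b.f v) j k l - X j * jac (add b.f v) i k l + X k * jac (add b.f v) i j l
      - X l * jac (add b.f v) i j k = 0 := by
  simp only [jac_add b v hv]
  have s1 := ww_skew b v i l
  have s2 := ww_skew b v i k
  have s4 := ww_skew b v j l
  simp only [s1, s2, s4]
  linear_combination hJ i j k l

/-! Divergences. -/

theorem pderiv_pderiv_comm (i j : Fin N) (g : MvPolynomial (Fin N) ℂ) :
    pderiv i (pderiv j g) = pderiv j (pderiv i g) := by
  have h : (⁅(pderiv i : Derivation ℂ (MvPolynomial (Fin N) ℂ) (MvPolynomial (Fin N) ℂ)),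
      (pderiv j : Derivation ℂ (MvPolynomial (Fin N) ℂ) (MvPolynomial (Fin N) ℂ))⁆ :
      Derivation ℂ (MvPolynomial (Fin N) ℂ) (MvPolynomial (Fin N) ℂ)) = 0 := by
    apply derivation_ext
    intro k
    rw [Derivation.commutator_apply]
    simp only [pderiv_X, Pi.single_apply]
    split_ifs <;> simp
  have h2 := congrArg (fun D => D g) h
  simp only [Derivation.commutator_apply, Derivation.coe_zero, Pi.zero_apply] at h2
  exact sub_eq_zero.1 h2

theorem skew_sum (a : Fin N → Fin N → MvPolynomial (Fin N) ℂ) (h : ∀ i j, a j i = - a i j) :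
    ∑ i, ∑ j, a i j = 0 := by
  have h1 : ∑ i, ∑ j, a i j = - ∑ i, ∑ j, a i j := by
    conv_lhs => rw [Finset.sum_comm]
    rw [← Finset.sum_neg_distrib]
    refine Finset.sum_congr rfl fun i _ => ?_
    rw [← Finset.sum_neg_distrib]
    exact Finset.sum_congr rfl fun j _ => h i j
  have h2 : (2 : MvPolynomial (Fin N) ℂ) * ∑ i, ∑ j, a i j = 0 := by
    linear_combination h1
  rcases mul_eq_zero.1 h2 with h3 | h3
  · exact absurd h3 two_ne_zero
  · exact h3

theorem div_jac (g : Biv N) (hdiv : ∀ j, ∑ i, pderiv i (g.f i j) = 0) (k l : Fin N) :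
    ∑ i, pderiv i (jac g.f i k l) = 0 := by
  have hdiv' : ∀ j, ∑ i, pderiv i (g.f j i) = 0 := by
    intro j
    have : ∑ i, pderiv i (g.f j i) = - ∑ i, pderiv i (g.f i j) := by
      rw [← Finset.sum_neg_distrib]
      exact Finset.sum_congr rfl fun i _ => by rw [g.skew i j, map_neg]
    rw [this, hdiv, neg_zero]
  have e : ∀ i, pderiv i (jac g.f i k l) =
      ∑ m, (pderiv i (g.f i m) * pderiv m (g.f k l)) + ∑ m, g.f i m * pderiv i (pderiv m (g.f k l))
      + ∑ m, (pderiv i (g.f k m) * pderiv m (g.f l i)) + ∑ m, g.f k m * pderiv m (pderiv i (g.f l i))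
      + ∑ m, (pderiv i (g.f l m) * pderiv m (g.f i k))
      + ∑ m, g.f l m * pderiv m (pderiv i (g.f i k)) := by
    intro i
    unfold jac
    rw [map_sum]
    simp only [← Finset.sum_add_distrib]
    refine Finset.sum_congr rfl fun m _ => ?_
    simp only [map_add, Derivation.leibniz, smul_eq_mul]
    rw [pderiv_pderiv_comm i m (g.f l i), pderiv_pderiv_comm i m (g.f i k)]
    ring
  simp only [e, Finset.sum_add_distrib]
  have a1 : ∑ i, ∑ m, (pderiv i (g.f i m) * pderiv m (g.f k l)) = 0 := by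
    rw [Finset.sum_comm]
    refine Finset.sum_eq_zero fun m _ => ?_
    rw [← Finset.sum_mul, hdiv, zero_mul]
  have a2 : ∑ i, ∑ m, g.f i m * pderiv i (pderiv m (g.f k l)) = 0 := by
    refine skew_sum _ fun i m => ?_
    rw [g.skew i m, pderiv_pderiv_comm m i]
    ring
  have a3 : ∑ i, ∑ m, g.f k m * pderiv m (pderiv i (g.f l i)) = 0 := by
    rw [Finset.sum_comm]
    refine Finset.sum_eq_zero fun m _ => ?_
    rw [← Finset.mul_sum, ← map_sum, hdiv', map_zero, mul_zero]
  have a4 : ∑ i, ∑ m, g.f l m * pderiv m (pderiv i (g.f i k)) = 0 := by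
    rw [Finset.sum_comm]
    refine Finset.sum_eq_zero fun m _ => ?_
    rw [← Finset.mul_sum, ← map_sum, hdiv, map_zero, mul_zero]
  have a5 : ∑ i, ∑ m, (pderiv i (g.f l m) * pderiv m (g.f i k)) =
      - ∑ i, ∑ m, (pderiv i (g.f k m) * pderiv m (g.f l i)) := by
    rw [Finset.sum_comm, ← Finset.sum_neg_distrib]
    refine Finset.sum_congr rfl fun i _ => ?_
    rw [← Finset.sum_neg_distrib]
    refine Finset.sum_congr rfl fun m _ => ?_
    rw [g.skew k m, map_neg]
    ring
  rw [a1, a2, a3, a4, a5]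
  ring

theorem jac_hom (g : Biv N) (i j k : Fin N) : (jac g.f i j k).IsHomogeneous 3 := by
  unfold jac
  refine IsHomogeneous.sum _ _ _ fun l _ => ?_
  have h : ∀ a b c d : Fin N, (g.f a b * pderiv l (g.f c d)).IsHomogeneous 3 := fun a b c d =>
    (g.quad a b).mul ((g.quad c d).pderiv)
  exact ((h _ _ _ _).add (h _ _ _ _)).add (h _ _ _ _)

theorem sum_pderiv_X_mul (j : Fin N) (T : Fin N → MvPolynomial (Fin N) ℂ) :
    ∑ i, pderiv i (X j * T i) = T j + X j * ∑ i, pderiv i (T i) := by
  have h1 : ∀ i, pderiv i (X j * T i) = pderiv i (X j) * T i + X j * pderiv i (T i) := by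
    intro i
    rw [Derivation.leibniz]
    simp only [smul_eq_mul]
    ring
  simp only [h1, Finset.sum_add_distrib]
  rw [← Finset.mul_sum]
  congr 1
  rw [Finset.sum_eq_single j]
  · rw [pderiv_X_self, one_mul]
  · intro l _ hl
    rw [pderiv_X_of_ne hl.symm, zero_mul]
  · intro h
    exact absurd (Finset.mem_univ j) h

theorem sum_pderiv_X_mul' {d : ℕ} {t : MvPolynomial (Fin N) ℂ} (ht : t.IsHomogeneous d) :
    ∑ i, pderiv i (X i * t) = ((N : ℕ) + (d : ℕ) : MvPolynomial (Fin N) ℂ) * t := by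
  have h1 : ∀ i : Fin N, pderiv i (X i * t) = t + X i * pderiv i t := by
    intro i
    rw [Derivation.leibniz, pderiv_X_self]
    simp only [smul_eq_mul]
    ring
  simp only [h1, Finset.sum_add_distrib]
  rw [ht.sum_X_mul_pderiv, Finset.sum_const, Finset.card_univ, Fintype.card_fin]
  simp only [nsmul_eq_mul]
  ring

theorem jac_zero (g : Biv N) (hdiv : ∀ j, ∑ i, pderiv i (g.f i j) = 0)
    (hJ : ∀ i j k l, X i * jac g.f j k l - X j * jac g.f i k l + X k * jac g.f i j l
      - X l * jac g.f i j k = 0) (j k l : Fin N) : jac g.f j k l = 0 := by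
  have h0 : ∑ i, pderiv i (X i * jac g.f j k l - X j * jac g.f i k l + X k * jac g.f i j l
      - X l * jac g.f i j k) = 0 := Finset.sum_eq_zero fun i _ => by rw [hJ, map_zero]
  simp only [map_sub, map_add, Finset.sum_sub_distrib, Finset.sum_add_distrib] at h0
  rw [sum_pderiv_X_mul' (jac_hom g j k l), sum_pderiv_X_mul j (fun i => jac g.f i k l),
    sum_pderiv_X_mul k (fun i => jac g.f i j l), sum_pderiv_X_mul l (fun i => jac g.f i j k),
    div_jac g hdiv, div_jac g hdiv, div_jac g hdiv] at h0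
  have h1 : jac g.f l j k = jac g.f j k l := by
    rw [jac_eq, jac_eq]; ring
  have h2 : jac g.f k j l = - jac g.f j k l := by
    rw [jac_eq, jac_eq, g.skew j l, g.skew l k, g.skew k j]
    simp only [D_neg]
    ring
  rw [h1, h2] at h0
  have h3 : ((N : ℕ) : MvPolynomial (Fin N) ℂ) * jac g.f j k l = 0 := by
    push_cast at h0
    linear_combination h0
  have hN : ((N : ℕ) : MvPolynomial (Fin N) ℂ) ≠ 0 := by
    have : N ≠ 0 := (Fin.pos j).ne'
    exact_mod_cast this
  rcases mul_eq_zero.1 h3 with h4 | h4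
  · exact absurd h4 hN
  · exact h4

end LIFTM

open LIFTM in
theorem specLIFT : SpecLIFT := by
  intro N τ
  rcases Nat.eq_zero_or_pos N with h0 | h0
  · subst h0
    exact ⟨τ.toBiv, ⟨fun i => i.elim0, fun i => i.elim0, fun i => i.elim0, fun i => i.elim0⟩,
      fun j => j.elim0⟩
  have hN : (N : ℂ) ≠ 0 := Nat.cast_ne_zero.2 h0.ne'
  set d : Fin N → MvPolynomial (Fin N) ℂ := fun j => ∑ i, pderiv i (τ.f i j) with hd
  have hdh : ∀ j, (d j).IsHomogeneous 1 := fun j =>
    IsHomogeneous.sum _ _ _ fun i _ => (τ.quad i j).pderiv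
  set v : Fin N → MvPolynomial (Fin N) ℂ := fun j => C (-1 / (N : ℂ)) * d j with hv
  have hvh : ∀ j, (v j).IsHomogeneous 1 := fun j => by
    have := (isHomogeneous_C (Fin N) (-1 / (N : ℂ))).mul (hdh j)
    rwa [zero_add] at this
  have hdd : ∑ j, pderiv j (d j) = 0 := by
    simp only [hd, map_sum]
    refine skew_sum (fun j i => pderiv j (pderiv i (τ.f i j))) fun i j => ?_
    rw [τ.skew i j, map_neg, map_neg, pderiv_pderiv_comm, neg_neg]
  have hvv : ∑ j, pderiv j (v j) = 0 := by
    simp only [hv, pderiv_C_mul]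
    rw [← Finset.mul_sum, hdd, mul_zero]
  let g : Biv N :=
    { f := add τ.f v
      skew := by
        intro i j
        simp only [add]
        rw [τ.skew i j]
        ring
      quad := by
        intro i j
        have h1 : ∀ a b : Fin N, (X a * v b).IsHomogeneous 2 := fun a b =>
          (isHomogeneous_X ℂ a).mul (hvh b)
        exact (τ.quad i j).add ((h1 i j).sub (h1 j i)) }
  have hdiv : ∀ j, ∑ i, pderiv i (g.f i j) = 0 := by
    intro j
    simp only [g, add, map_add, map_sub, Finset.sum_add_distrib, Finset.sum_sub_distrib]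
    rw [sum_pderiv_X_mul' (hvh j), sum_pderiv_X_mul j v, hvv]
    have h2 : (N : MvPolynomial (Fin N) ℂ) * v j = - d j := by
      simp only [hv]
      rw [← mul_assoc, ← map_natCast (C : ℂ →+* MvPolynomial (Fin N) ℂ) N, ← map_mul]
      rw [mul_div_cancel₀ _ hN, map_neg, map_one]
      ring
    have h3 : ∑ i, pderiv i (τ.f i j) = d j := rfl
    rw [h3]
    push_cast
    linear_combination h2
  have hJ := jacE_add τ.toBiv v hvh τ.jacE
  exact ⟨g, ⟨fun i j k => jac_zero g hdiv hJ i j k, v, hvh, fun i j => rfl⟩, hdiv⟩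

end Pool.Agent.Lib.MPc9b009.B5
end

section
/-!
# MP_c9b009_ag, row B5: MONO
-/
namespace Pool.Agent.Lib.MPc9b009.B5

open MvPolynomial

namespace MONOM

/-- The transcendence degree of a domain drops under a non injective surjection. -/
theorem drop {A B : Type} [CommRing A] [IsDomain A] [Algebra ℂ A] [CommRing B] [IsDomain B]
    [Algebra ℂ B] (f : A →ₐ[ℂ] B) (hf : Function.Surjective f) (a : A) (ha : a ≠ 0)
    (hfa : f a = 0) : Algebra.trdeg ℂ B + 1 ≤ Algebra.trdeg ℂ A := by
  obtain ⟨ι, s, hs⟩ := exists_isTranscendenceBasis' ℂ B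
  choose x hx using fun i => hf (s i)
  have hfx : f ∘ x = s := funext hx
  have hxi : AlgebraicIndependent ℂ x := by
    refine AlgebraicIndependent.of_comp f ?_
    rw [hfx]; exact hs.1
  have hinj : ∀ c ∈ Algebra.adjoin ℂ (Set.range x), f c = 0 → c = 0 := by
    intro c hc h0
    rw [Algebra.adjoin_range_eq_range_aeval] at hc
    obtain ⟨F, rfl⟩ := hc
    have h1 : aeval s F = 0 := by
      rw [← hfx]
      exact (comp_aeval_apply x f F).symm.trans h0
    have h2 : F = 0 := by
      have := algebraicIndependent_iff_injective_aeval.1 hs.1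
      exact this (by rw [h1, map_zero])
    rw [h2]; exact map_zero _
  have htr : Transcendental (Algebra.adjoin ℂ (Set.range x)) a := by
    rw [transcendental_iff]
    intro P hP
    by_contra hne
    obtain ⟨G, hG⟩ := Polynomial.X_pow_dvd_iff.2 fun d hd =>
      Polynomial.coeff_eq_zero_of_lt_natTrailingDegree (p := P) hd
    have hG0 : G.coeff 0 ≠ 0 := by
      intro h0
      have h1 : P.coeff P.natTrailingDegree = 0 := by
        have h2 : P.coeff P.natTrailingDegree
            = (Polynomial.X ^ P.natTrailingDegree * G).coeff P.natTrailingDegree :=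
          congrArg (fun Q => Polynomial.coeff Q P.natTrailingDegree) hG
        rw [h2, mul_comm, Polynomial.coeff_mul_X_pow', if_pos le_rfl, Nat.sub_self, h0]
      exact Polynomial.trailingCoeff_nonzero_iff_nonzero.2 hne h1
    have hGa : Polynomial.aeval a G = 0 := by
      rw [hG] at hP
      rw [map_mul, map_pow, Polynomial.aeval_X] at hP
      rcases mul_eq_zero.1 hP with h | h
      · exact absurd h (pow_ne_zero _ ha)
      · exact h
    have h3 : f (algebraMap (Algebra.adjoin ℂ (Set.range x)) A (G.coeff 0)) = 0 := by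
      have h4 : Polynomial.aeval a G = a * Polynomial.aeval a G.divX
          + algebraMap _ A (G.coeff 0) := by
        conv_lhs => rw [← Polynomial.divX_mul_X_add G]
        rw [map_add, map_mul, Polynomial.aeval_X, Polynomial.aeval_C, mul_comm]
      rw [hGa] at h4
      have h5 := congrArg f h4
      rw [map_zero, map_add, map_mul, hfa, zero_mul, zero_add] at h5
      exact h5.symm
    have h6 := hinj _ (G.coeff 0).2 h3
    exact hG0 (Subtype.ext h6)
  have hopt := (hxi.option_iff_transcendental a).2 htr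
  have h7 := hopt.cardinalMk_le_trdeg
  rw [Cardinal.mk_option, hs.cardinalMk_eq_trdeg] at h7
  exact h7

end MONOM

theorem specMONO : SpecMONO := by
  intro N p q hp hq hlt
  have := hp
  have := hq
  obtain ⟨a, haq, hap⟩ := Set.exists_of_ssubset hlt
  refine MONOM.drop (Ideal.Quotient.factorₐ ℂ hlt.le) (Ideal.Quotient.factor_surjective hlt.le)
    (Ideal.Quotient.mk p a) ?_ ?_
  · rwa [Ne, Ideal.Quotient.eq_zero_iff_mem]
  · show Ideal.Quotient.factor hlt.le (Ideal.Quotient.mk p a) = 0
    rw [Ideal.Quotient.factor_mk, Ideal.Quotient.eq_zero_iff_mem]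
    exact haq

end Pool.Agent.Lib.MPc9b009.B5
end

section
/-!
# MP_c9b009_ag, row B5, module NUM (5e): arithmetic
-/
namespace Pool.Agent.Lib.MPc9b009.B5

open Polynomial

namespace NUMM

lemma lead_nonpos (t u v w : ℚ) (A : ℕ)
    (h : ∀ a : ℕ, A ≤ a → t * (a:ℚ)^3 + u * (a:ℚ)^2 + v * a + w ≤ 0) : t ≤ 0 := by
  by_contra ht
  push Not at ht
  obtain ⟨n, hn⟩ := exists_nat_gt ((|u| + |v| + |w| + 1)/t)
  obtain ⟨a, haA, ha1, han⟩ : ∃ a : ℕ, A ≤ a ∧ 1 ≤ a ∧ n ≤ a :=
    ⟨A + 1 + n, by omega, by omega, by omega⟩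
  have h1 := h a haA
  have hq1 : (1:ℚ) ≤ a := by exact_mod_cast ha1
  have hqn : (n:ℚ) ≤ a := by exact_mod_cast han
  have h2 : |u| + |v| + |w| + 1 < a * t := by
    have h3 : (|u| + |v| + |w| + 1)/t < a := lt_of_lt_of_le hn hqn
    rwa [div_lt_iff₀ ht] at h3
  have hu := neg_abs_le u
  have hv := neg_abs_le v
  have hw := neg_abs_le w
  have hvn := abs_nonneg v
  have hwn := abs_nonneg w
  have ha2 : (0:ℚ) < (a:ℚ)^2 := by positivity
  have e1 : (|u| + |v| + |w| + 1) * (a:ℚ)^2 < (a * t) * (a:ℚ)^2 :=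
    mul_lt_mul_of_pos_right h2 ha2
  have e2 : -|u| * (a:ℚ)^2 ≤ u * (a:ℚ)^2 := mul_le_mul_of_nonneg_right hu ha2.le
  have e3 : -|v| * (a:ℚ) ≤ v * (a:ℚ) := mul_le_mul_of_nonneg_right hv (by linarith)
  have e4 : |v| * (a:ℚ) ≤ |v| * (a:ℚ)^2 :=
    mul_le_mul_of_nonneg_left (by nlinarith) hvn
  have e5 : |w| * 1 ≤ |w| * (a:ℚ)^2 :=
    mul_le_mul_of_nonneg_left (by nlinarith) hwn
  nlinarith

lemma periodic_const (R : ℚ[X]) (m a₀ : ℕ) (hm : 1 ≤ m)
    (h : ∀ a : ℕ, a₀ ≤ a → R.eval ((a + m : ℕ) : ℚ) = R.eval (a : ℚ)) :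
    R = C (R.eval (a₀ : ℚ)) := by
  apply Polynomial.eq_of_infinite_eval_eq
  have hj : ∀ j : ℕ, R.eval ((a₀ + j * m : ℕ) : ℚ) = R.eval (a₀ : ℚ) := by
    intro j
    induction j with
    | zero => simp
    | succ j ih =>
      rw [← ih, ← h (a₀ + j * m) (by omega)]
      congr 2
      ring
  apply Set.Infinite.mono (s := Set.range fun j : ℕ => ((a₀ + j * m : ℕ) : ℚ))
  · rintro _ ⟨j, rfl⟩
    show R.eval _ = (C (R.eval (a₀ : ℚ))).eval _
    rw [eval_C]
    exact hj j
  · apply Set.infinite_range_of_injective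
    intro i j hij
    have h1 : a₀ + i * m = a₀ + j * m := Nat.cast_injective (R := ℚ) hij
    have h2 : i * m = j * m := by omega
    exact Nat.eq_of_mul_eq_mul_right (by omega) h2

end NUMM

open NUMM

theorem specNUM : SpecNUM := by
  intro N th c a₀ k P h6 hP hrec hup hlo
  set m : ℕ := 2 + th with hm
  have hm0 : (m : ℚ) ≠ 0 := by
    have : m ≠ 0 := by omega
    exact_mod_cast this
  have hmpos : (0 : ℚ) < m := by
    have : 0 < m := by omega
    exact_mod_cast this
  set α : ℚ := 9 - 3 * m / 2 with hα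
  set β : ℚ := 27 - 9 * m + m ^ 2 / 2 with hβ
  set lam : ℚ := N / m with hlam
  have hlm : lam * m = N := by
    rw [hlam]
    field_simp
  -- the periodic polynomial
  set R : ℚ[X] := P - C (lam / 3) * (X ^ 3 + C α * X ^ 2 + C β * X) with hR
  have hper : ∀ a : ℕ, a₀ ≤ a → R.eval ((a + m : ℕ) : ℚ) = R.eval (a : ℚ) := by
    intro a ha
    have h1 : P.eval ((a + m : ℕ) : ℚ) = P.eval (a : ℚ) + N * ((a : ℚ) + 3) ^ 2 := by
      rw [← hP a ha, ← hP (a + m) (by omega), show a + m = a + 2 + th by omega, hrec a ha]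
      push_cast
      ring
    simp only [hR, eval_sub, eval_mul, eval_C, eval_add, eval_pow, eval_X]
    rw [h1, ← hlm, hα, hβ]
    push_cast
    ring
  have hconst := periodic_const R m a₀ (by omega) hper
  set γ : ℚ := R.eval (a₀ : ℚ) with hγ
  -- explicit formula
  have hk : ∀ a : ℕ, a₀ ≤ a → 3 * (k a : ℚ)
      = lam * ((a : ℚ) ^ 3 + α * (a : ℚ) ^ 2 + β * a) + 3 * γ := by
    intro a ha
    have h1 : R.eval (a : ℚ) = γ := by
      rw [hconst, eval_C]
    rw [hP a ha]
    simp only [hR, eval_sub, eval_mul, eval_C, eval_add, eval_pow, eval_X] at h1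
    linarith
  -- leading coefficient
  have hle : lam - 1 ≤ 0 := by
    apply lead_nonpos (lam - 1) (lam * α - 9) (lam * β - 27) (3 * γ - 27) a₀
    intro a ha
    have h1 : 3 * (k a : ℚ) ≤ ((a : ℚ) + 3) ^ 3 := by exact_mod_cast hup a
    rw [hk a ha] at h1
    nlinarith
  have hge : 1 - lam ≤ 0 := by
    apply lead_nonpos (1 - lam) (-3 * c - lam * α) (3 * c ^ 2 - lam * β) (- c ^ 3 - 3 * γ)
      (a₀ + c)
    intro a ha
    have h1 : ((a - c : ℕ) : ℚ) ^ 3 ≤ 3 * (k a : ℚ) := by
      have := hlo (a - c)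
      rw [show a - c + c = a by omega] at this
      exact_mod_cast this
    rw [hk a (by omega), Nat.cast_sub (by omega)] at h1
    nlinarith
  have hlam1 : lam = 1 := by linarith
  -- `m = N`
  have hmN : m = N := by
    rw [hlam1, one_mul] at hlm
    exact_mod_cast hlm
  obtain ⟨n, hn⟩ := h6
  have hm6 : (m : ℚ) = 6 * n := by
    rw [hmN, hn]
    push_cast
    ring
  have e0 := hk a₀ le_rfl
  have e1 := hk (a₀ + 1) (by omega)
  rw [hlam1, hα, hβ, hm6] at e0 e1
  push_cast at e1
  have e2 : (3 : ℚ) * ((k (a₀ + 1) : ℚ) - k a₀)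
      = 3 * ((a₀:ℚ)^2 + a₀ + (3 - 3 * n) * (2 * a₀ + 1) + 9 - 18 * n + 6 * n ^ 2) + 1 := by
    linear_combination e1 - e0
  have e3 : (3 : ℤ) * ((k (a₀ + 1) : ℤ) - k a₀)
      = 3 * ((a₀:ℤ)^2 + a₀ + (3 - 3 * n) * (2 * a₀ + 1) + 9 - 18 * n + 6 * n ^ 2) + 1 := by
    exact_mod_cast e2
  generalize ((k (a₀ + 1) : ℤ) - k a₀) = u at e3
  generalize ((a₀:ℤ)^2 + a₀ + (3 - 3 * n) * (2 * a₀ + 1) + 9 - 18 * n + 6 * n ^ 2) = v at e3
  omega

end Pool.Agent.Lib.MPc9b009.B5
end

section
/-!
# MP_c9b009_ag, row B5, module PRN (Proposition N)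
-/
namespace Pool.Agent.Lib.MPc9b009.B5

open MvPolynomial

/-- PRN. -/
theorem prn_holds (hHS : SpecHS) (hCNT : SpecCNT) (hGRO : SpecGRO) (hNUM : SpecNUM) : SpecPRN := by
  intro N A h6 hsk hq hdet
  by_contra hcon
  push Not at hcon
  have hrk : ∀ y : Fin 4 → ℂ, y ≠ 0 →
      N ≤ (Matrix.of fun i j => eval y (A i j)).rank + 2 := by
    intro y hy
    have := hcon y hy
    omega
  have hev : Even N := by
    obtain ⟨m, hm⟩ := h6
    exact ⟨3 * m, by omega⟩
  obtain ⟨th, a₁, h1⟩ := hCNT N A hev hsk hq hdet hrk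
  obtain ⟨c, h2, h3⟩ := hGRO N A hev hsk hq hdet hrk
  obtain ⟨P, a₂, h4⟩ := hHS 4 N 2 A hq
  exact hNUM N th c (max a₁ a₂) (fun a => Module.finrank ℂ (hk A a)) P h6
    (fun a ha => h4 a (le_trans (le_max_right _ _) ha))
    (fun a ha => h1 a (le_trans (le_max_left _ _) ha)) h2 h3

end Pool.Agent.Lib.MPc9b009.B5
end

section
/-!
# RKM: minors and rank over a field
-/
namespace Pool.Agent.Lib.MPc9b009.B5

namespace RKMM

open Matrix

variable {F : Type} [Field F]

/-- A matrix of rank at least `k` has `k` linearly independent rows. -/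
theorem exists_rows {a b k : ℕ} (A : Matrix (Fin a) (Fin b) F) (hk : k ≤ A.rank) :
    ∃ I : Fin k → Fin a, LinearIndependent F (fun s => A (I s)) := by
  rw [rank_eq_finrank_span_row] at hk
  obtain ⟨f, hf, -, hli⟩ := Submodule.exists_fun_fin_finrank_span_eq F (Set.range A.row)
  choose J hJ using hf
  refine ⟨fun s => J (Fin.castLE hk s), ?_⟩
  have h1 := hli.comp (Fin.castLE hk) (Fin.castLE_injective hk)
  have h2 : (fun s => A (J (Fin.castLE hk s))) = f ∘ Fin.castLE hk := by
    funext s
    exact hJ _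
  rw [h2]
  exact h1

/-- A matrix of rank at least `k` has a nonzero minor of size `k`. -/
theorem exists_minor {a b k : ℕ} (A : Matrix (Fin a) (Fin b) F) (hk : k ≤ A.rank) :
    ∃ (I : Fin k → Fin a) (J : Fin k → Fin b), (Matrix.of fun s t => A (I s) (J t)).det ≠ 0 := by
  obtain ⟨I, hI⟩ := exists_rows A hk
  have hB : LinearIndependent F (A.submatrix I id).row := hI
  have hr : ((A.submatrix I id)ᵀ).rank = k := by
    rw [rank_transpose, hB.rank_matrix, Fintype.card_fin]
  obtain ⟨J, hJ⟩ := exists_rows ((A.submatrix I id)ᵀ) hr.ge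
  refine ⟨I, J, ?_⟩
  have h1 : LinearIndependent F (((A.submatrix I id)ᵀ).submatrix J id).row := hJ
  rw [linearIndependent_rows_iff_isUnit, isUnit_iff_isUnit_det, isUnit_iff_ne_zero] at h1
  have h2 : (Matrix.of fun s t => A (I s) (J t)) = (((A.submatrix I id)ᵀ).submatrix J id)ᵀ := by
    ext s t
    rfl
  rw [h2, det_transpose]
  exact h1

end RKMM

open RKMM in
/-- RKM. -/
theorem specRKM : SpecRKM := by
  intro F _ a b k A
  constructor
  · intro h
    by_contra hk
    obtain ⟨I, J, hIJ⟩ := exists_minor A (k := k + 1) (by omega)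
    exact hIJ (h I J)
  · intro h I J
    by_contra hd
    have h1 : IsUnit (Matrix.of fun s t => A (I s) (J t)) := by
      rw [Matrix.isUnit_iff_isUnit_det, isUnit_iff_ne_zero]
      exact hd
    have h2 := Matrix.rank_of_isUnit _ h1
    have h3 : (Matrix.of fun s t => A (I s) (J t)).rank ≤ A.rank := A.rank_submatrix_le I J
    rw [Fintype.card_fin] at h2
    omega

end Pool.Agent.Lib.MPc9b009.B5
end

section
/-!
# MP_c9b009_ag, module RKT: the rank of the bivector field at a zero of the minors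
-/
set_option autoImplicit false

namespace Pool.Agent.Lib.MPc9b009.B5

open MvPolynomial

namespace RKTM

open Module

theorem dot_apply {N : ℕ} (x ξ : Fin N → ℂ) : dot x ξ = ∑ i, x i * ξ i := by
  unfold dot
  rw [LinearMap.sum_apply]
  rfl

/-- rank-nullity for a restricted map -/
theorem rn {V W : Type*} [AddCommGroup V] [Module ℂ V] [AddCommGroup W] [Module ℂ W]
    [FiniteDimensional ℂ V] (f : V →ₗ[ℂ] W) (K : Submodule ℂ V) :
    finrank ℂ (Submodule.map f K) + finrank ℂ (LinearMap.ker f ⊓ K : Submodule ℂ V) =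
      finrank ℂ K := by
  have h := LinearMap.finrank_range_add_finrank_ker (f.domRestrict K)
  rw [LinearMap.range_domRestrict] at h
  have h2 : finrank ℂ (LinearMap.ker (f.domRestrict K)) =
      finrank ℂ (LinearMap.ker f ⊓ K : Submodule ℂ V) := by
    have e : Submodule.map K.subtype (LinearMap.ker (f.domRestrict K)) = LinearMap.ker f ⊓ K := by
      ext z
      constructor
      · rintro ⟨y, hy, rfl⟩
        exact ⟨hy, y.2⟩
      · rintro ⟨h1, h2⟩
        exact ⟨⟨z, h2⟩, h1, rfl⟩
    rw [← e]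
    exact (LinearEquiv.finrank_eq (Submodule.equivMapOfInjective _ K.injective_subtype _))
  rw [← h2]
  exact h

theorem map_eq {N : ℕ} (f : Fin N → Fin N → MvPolynomial (Fin N) ℂ) (g : Biv N) (x : Fin N → ℂ)
    (h : IsLift f g) :
    Submodule.map ((Submodule.span ℂ {x}).mkQ ∘ₗ (mat f x).mulVecLin) (LinearMap.ker (dot x)) =
    Submodule.map ((Submodule.span ℂ {x}).mkQ ∘ₗ (mat g.f x).mulVecLin) (LinearMap.ker (dot x)) := by
  obtain ⟨v, -, hv⟩ := h.2
  have key : ∀ ξ ∈ LinearMap.ker (dot x),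
      ((Submodule.span ℂ {x}).mkQ ∘ₗ (mat f x).mulVecLin) ξ =
      ((Submodule.span ℂ {x}).mkQ ∘ₗ (mat g.f x).mulVecLin) ξ := by
    intro ξ hξ
    rw [LinearMap.mem_ker, dot_apply] at hξ
    rw [LinearMap.comp_apply, LinearMap.comp_apply, ← sub_eq_zero, ← map_sub,
      Submodule.mkQ_apply, Submodule.Quotient.mk_eq_zero, Submodule.mem_span_singleton]
    refine ⟨-(∑ j, eval x (v j) * ξ j), ?_⟩
    funext i
    simp only [Pi.smul_apply, Pi.sub_apply, Matrix.mulVecLin_apply, Matrix.mulVec, dotProduct,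
      mat, Matrix.of_apply, smul_eq_mul]
    rw [← Finset.sum_sub_distrib]
    have h1 : ∀ j, eval x (f i j) * ξ j - eval x (g.f i j) * ξ j =
        eval x (v i) * (x j * ξ j) - x i * (eval x (v j) * ξ j) := by
      intro j
      rw [hv i j]
      simp only [map_add, map_sub, map_mul, eval_X]
      ring
    rw [Finset.sum_congr rfl fun j _ => h1 j, Finset.sum_sub_distrib, ← Finset.mul_sum,
      ← Finset.mul_sum, hξ]
    ring
  ext z
  constructor
  · rintro ⟨ξ, hξ, rfl⟩
    exact ⟨ξ, hξ, (key ξ hξ).symm⟩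
  · rintro ⟨ξ, hξ, rfl⟩
    exact ⟨ξ, hξ, key ξ hξ⟩

end RKTM

open Module RKTM in
theorem specRKT (hSKE : SpecSKE) (hRKM : SpecRKM) : SpecRKT := by
  intro N s f g x hs hl hx hm hxm
  set G : Matrix (Fin N) (Fin N) ℂ := mat g.f x with hG
  have hskew : G.transpose = - G := by
    ext i j
    rw [Matrix.transpose_apply, Matrix.neg_apply, hG]
    simp only [mat, Matrix.of_apply]
    rw [g.skew i j, map_neg]
  have hskew' : ∀ i j, G i j = - G j i := by
    intro i j
    have := congrFun (congrFun hskew j) i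
    simpa using this
  -- `G ξ · η = - ξ · G η`
  have hadj : ∀ ξ η : Fin N → ℂ, ∑ i, (G.mulVec ξ) i * η i = - ∑ i, ξ i * (G.mulVec η) i := by
    intro ξ η
    simp only [Matrix.mulVec, dotProduct, Finset.sum_mul, Finset.mul_sum]
    rw [Finset.sum_comm, ← Finset.sum_neg_distrib]
    refine Finset.sum_congr rfl fun i _ => ?_
    rw [← Finset.sum_neg_distrib]
    refine Finset.sum_congr rfl fun j _ => ?_
    rw [hskew' j i]
    ring
  have hrank : G.rank ≤ s + 2 := by
    rw [← hRKM ℂ _ N N (s + 2) G]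
    intro I J
    have h := hm I J
    unfold mnr at h
    rw [RingHom.map_det] at h
    exact h
  have hGr : finrank ℂ (LinearMap.range G.mulVecLin) = G.rank := rfl
  have hrn := LinearMap.finrank_range_add_finrank_ker G.mulVecLin
  rw [hGr, finrank_fin_fun] at hrn
  unfold rk
  rw [map_eq f g x hl, Submodule.map_comp, ← hG]
  set K := LinearMap.ker (dot x) with hK
  by_cases hxG : x ∈ LinearMap.range G.mulVecLin
  · obtain ⟨η, hη⟩ := hxG
    rw [Matrix.mulVecLin_apply] at hη
    have hηK : η ∈ K := by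
      rw [hK, LinearMap.mem_ker, dot_apply, ← hη]
      have h := hadj η η
      have h2 : ∑ i, η i * (G.mulVec η) i = ∑ i, (G.mulVec η) i * η i :=
        Finset.sum_congr rfl fun i _ => mul_comm _ _
      rw [h2] at h
      have h3 : (2 : ℂ) * ∑ i, (G.mulVec η) i * η i = 0 := by linear_combination h
      simpa using h3
    have hker : LinearMap.ker G.mulVecLin ≤ K := by
      intro ζ hζ
      rw [LinearMap.mem_ker, Matrix.mulVecLin_apply] at hζ
      rw [hK, LinearMap.mem_ker, dot_apply, ← hη, hadj, hζ]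
      simp
    have hKlt : finrank ℂ K < N := by
      have h1 : K ≠ ⊤ := by
        intro htop
        obtain ⟨i, hi⟩ : ∃ i, x i ≠ 0 := by
          by_contra hcon
          push Not at hcon
          exact hx (funext hcon)
        have h2 : Pi.single i (1 : ℂ) ∈ K := by rw [htop]; exact Submodule.mem_top
        rw [hK, LinearMap.mem_ker, dot_apply, Finset.sum_eq_single i] at h2
        · simp at h2
          exact hi h2
        · intro j _ hj
          rw [Pi.single_eq_of_ne hj, mul_zero]
        · intro h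
          exact absurd (Finset.mem_univ i) h
      have h2 := Submodule.finrank_lt h1
      rwa [finrank_fin_fun] at h2
    have h1 := rn G.mulVecLin K
    rw [inf_eq_left.2 hker] at h1
    have h2 := rn (Submodule.span ℂ {x}).mkQ (Submodule.map G.mulVecLin K)
    have h3 : 1 ≤ finrank ℂ (LinearMap.ker (Submodule.span ℂ {x}).mkQ ⊓
        Submodule.map G.mulVecLin K : Submodule ℂ (Fin N → ℂ)) := by
      rw [Nat.one_le_iff_ne_zero]
      intro h0
      rw [Submodule.finrank_eq_zero] at h0
      have hmem : x ∈ (LinearMap.ker (Submodule.span ℂ {x}).mkQ ⊓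
          Submodule.map G.mulVecLin K : Submodule ℂ (Fin N → ℂ)) := by
        refine ⟨?_, η, hηK, hη⟩
        rw [Submodule.ker_mkQ]
        exact Submodule.mem_span_singleton_self x
      rw [h0, Submodule.mem_bot] at hmem
      exact hx hmem
    omega
  · have hle : finrank ℂ (Submodule.map (Submodule.span ℂ {x}).mkQ
        (Submodule.map G.mulVecLin K)) ≤ G.rank := by
      refine (Submodule.finrank_map_le _ _).trans ?_
      exact Submodule.finrank_mono LinearMap.map_le_range
    refine hle.trans ?_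
    obtain ⟨k, hk⟩ := hs
    have hk2 : s = 2 * k := by omega
    by_contra hcon
    push Not at hcon
    -- the rank is `s + 2`
    have h1 : ¬ G.rank ≤ s + 1 := by
      intro h
      have := hSKE ℂ _ inferInstance N k G hskew (by omega)
      omega
    rw [← hRKM ℂ _ N N (s + 1) G] at h1
    push Not at h1
    obtain ⟨I, J, hIJ⟩ := h1
    -- the columns `J`
    have hcol : LinearIndependent ℂ (fun t : Fin (s + 2) => (fun i => G i (J t))) := by
      have hrow : LinearIndependent ℂ (Matrix.of fun a b => G (I a) (J b)).transpose := by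
        refine Matrix.linearIndependent_rows_of_det_ne_zero ?_
        rw [Matrix.det_transpose]
        exact hIJ
      rw [Fintype.linearIndependent_iff] at hrow ⊢
      intro c hc
      refine hrow c ?_
      funext a
      have h := congrFun hc (I a)
      simp only [Finset.sum_apply, Pi.smul_apply, Pi.zero_apply] at h ⊢
      exact h
    have hspan : Submodule.span ℂ (Set.range fun t : Fin (s + 2) => (fun i => G i (J t))) =
        LinearMap.range G.mulVecLin := by
      refine Submodule.eq_of_le_of_finrank_le ?_ ?_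
      · rw [Submodule.span_le]
        rintro _ ⟨t, rfl⟩
        refine ⟨Pi.single (J t) 1, ?_⟩
        rw [Matrix.mulVecLin_apply, Matrix.mulVec_single_one]
        rfl
      · rw [finrank_span_eq_card hcol, Fintype.card_fin]
        exact hrank
    have hcons : LinearIndependent ℂ (Fin.cons x (fun t : Fin (s + 2) => (fun i => G i (J t))) :
        Fin (s + 3) → (Fin N → ℂ)) := by
      rw [linearIndependent_finCons]
      refine ⟨hcol, ?_⟩
      rw [hspan]
      exact hxG
    set M : Matrix (Fin N) (Fin (s + 3)) ℂ := Matrix.of fun i b =>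
      (Fin.cons x (fun t : Fin (s + 2) => (fun i => G i (J t))) : Fin (s + 3) → (Fin N → ℂ)) b i
      with hM
    have hMr : M.rank = s + 3 := by
      have h2 : M.rank = M.transpose.rank := (Matrix.rank_transpose M).symm
      rw [h2]
      have h3 : LinearIndependent ℂ M.transpose := hcons
      exact h3.rank_matrix.trans (Fintype.card_fin _)
    have h4 : M.rank ≤ s + 2 := by
      rw [← hRKM ℂ _ N (s + 3) (s + 2) M]
      intro I' J'
      by_cases hJ : Function.Injective J'
      · have hb : Function.Bijective J' := Finite.injective_iff_bijective.1 hJ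
        set σ : Equiv.Perm (Fin (s + 3)) := Equiv.ofBijective J' hb with hσ
        have h5 : (Matrix.of fun a b => M (I' a) (J' b)) =
            (Matrix.of fun a b => M (I' a) b).submatrix id σ := by
          ext a b
          rfl
        have h6 : (Matrix.of fun a b => M (I' a) b).det = 0 := by
          have h := hxm I' J
          unfold xmnr at h
          rw [RingHom.map_det] at h
          rw [← h]
          congr 1
          ext a b
          rw [RingHom.mapMatrix_apply, Matrix.map_apply]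
          simp only [hM, Matrix.of_apply]
          refine Fin.cases ?_ (fun b' => ?_) b
          · simp only [Fin.cons_zero, eval_X]
          · simp only [Fin.cons_succ]
            rfl
        rw [h5, Matrix.det_permute', h6, mul_zero]
      · unfold Function.Injective at hJ
        push Not at hJ
        obtain ⟨b, b', hbb, hne⟩ := hJ
        refine Matrix.det_zero_of_column_eq hne ?_
        intro a
        rw [Matrix.of_apply, Matrix.of_apply, hbb]
    omega

end Pool.Agent.Lib.MPc9b009.B5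
end

section
/-!
# MP_c9b009_ag, row B5: SEL
-/
namespace Pool.Agent.Lib.MPc9b009.B5

open MvPolynomial

attribute [local instance] MvPolynomial.gradedAlgebra

namespace SELM

/-- The linear map `c ↦ ∑ c_k g_k`. -/
noncomputable def lin {N : ℕ} {ι : Type} [Fintype ι] (g : ι → MvPolynomial (Fin N) ℂ) :
    (ι → ℂ) →ₗ[ℂ] MvPolynomial (Fin N) ℂ where
  toFun c := ∑ k, C (c k) * g k
  map_add' a b := by
    simp [add_mul, Finset.sum_add_distrib]
  map_smul' r a := by
    simp [Finset.mul_sum, mul_assoc, smul_eq_C_mul]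

theorem step (hMONO : SpecMONO) (N M n : ℕ) (I : Fin n → Ideal (MvPolynomial (Fin N) ℂ))
    (t : Fin n → ℕ) (ι : Type) [Fintype ι] (g : ι → MvPolynomial (Fin N) ℂ)
    (hHMIN : SpecHMIN) (hI : ∀ i, Hom (I i))
    (h1 : ∀ i, ∀ q : Ideal (MvPolynomial (Fin N) ℂ), q.IsPrime → Hom q → I i ≤ q →
      Algebra.trdeg ℂ (MvPolynomial (Fin N) ℂ ⧸ q) ≤ ((M + 1 + t i : ℕ) : Cardinal))
    (h2 : ∀ i, ∀ q : Ideal (MvPolynomial (Fin N) ℂ), q.IsPrime → Hom q → I i ≤ q →
      (∀ k, g k ∈ q) →
      Algebra.trdeg ℂ (MvPolynomial (Fin N) ℂ ⧸ q) ≤ ((t i : ℕ) : Cardinal)) :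
    ∃ c : ι → ℂ, ∀ i, ∀ q : Ideal (MvPolynomial (Fin N) ℂ), q.IsPrime → Hom q → I i ≤ q →
      ∑ k, C (c k) * g k ∈ q →
      Algebra.trdeg ℂ (MvPolynomial (Fin N) ℂ ⧸ q) ≤ ((M + t i : ℕ) : Cardinal) := by
  classical
  let B : Set (Ideal (MvPolynomial (Fin N) ℂ)) :=
    {P | (∃ i, P ∈ (I i).minimalPrimes) ∧ ∃ k, g k ∉ P}
  have hBfin : B.Finite := by
    have h3 : (⋃ i, (I i).minimalPrimes).Finite :=
      Set.finite_iUnion fun i => Ideal.finite_minimalPrimes_of_isNoetherianRing _ (I i)
    refine h3.subset ?_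
    rintro P ⟨⟨i, hi⟩, -⟩
    exact Set.mem_iUnion.2 ⟨i, hi⟩
  have : Finite B := hBfin
  have hc : ∃ c : ι → ℂ, ∀ P ∈ B, ∑ k, C (c k) * g k ∉ P := by
    by_contra hcon
    push Not at hcon
    have hcov : ⋃ P : B, (((P : Ideal (MvPolynomial (Fin N) ℂ)).restrictScalars ℂ).comap
        (lin g) : Set (ι → ℂ)) = Set.univ := by
      refine Set.eq_univ_of_forall fun c => ?_
      obtain ⟨P, hP, hm⟩ := hcon c
      exact Set.mem_iUnion.2 ⟨⟨P, hP⟩, hm⟩
    obtain ⟨P, hP⟩ := Subspace.exists_eq_top_of_iUnion_eq_univ hcov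
    obtain ⟨-, k, hk⟩ := P.2
    have h4 : (Pi.single k 1 : ι → ℂ) ∈
        ((P : Ideal (MvPolynomial (Fin N) ℂ)).restrictScalars ℂ).comap (lin g) := by
      rw [hP]; trivial
    have h5 : lin g (Pi.single k 1 : ι → ℂ) ∈ (P : Ideal (MvPolynomial (Fin N) ℂ)) := h4
    have h6 : lin g (Pi.single k 1 : ι → ℂ) = g k := by
      show ∑ l, C ((Pi.single k 1 : ι → ℂ) l) * g l = g k
      rw [Finset.sum_eq_single k]
      · simp
      · intro l _ hl
        simp [hl]
      · simp
    rw [h6] at h5
    exact hk h5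
  obtain ⟨c, hc⟩ := hc
  refine ⟨c, fun i q hq hH hIq hmem => ?_⟩
  obtain ⟨P, hP, hPq⟩ := Ideal.exists_minimalPrimes_le hIq
  have hPH : Hom P := hHMIN N (I i) (hI i) P hP
  rcases eq_or_lt_of_le hPq with h | h
  · subst h
    by_cases hall : ∀ k, g k ∈ P
    · exact (h2 i P hq hH hIq hall).trans (by exact_mod_cast Nat.le_add_left _ _)
    · push Not at hall
      exact absurd hmem (hc P ⟨⟨i, hP⟩, hall⟩)
  · have h7 := hMONO N P q hP.1.1 hq h
    have h8 := h7.trans (h1 i P hP.1.1 hPH hP.1.2)
    have h9 : Algebra.trdeg ℂ (MvPolynomial (Fin N) ℂ ⧸ q) < Cardinal.aleph0 :=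
      lt_of_le_of_lt (self_le_add_right _ _) (lt_of_le_of_lt h8 (Cardinal.natCast_lt_aleph0))
    obtain ⟨m, hm⟩ := Cardinal.lt_aleph0.1 h9
    rw [hm] at h8 ⊢
    have h10 : m + 1 ≤ M + 1 + t i := by exact_mod_cast h8
    exact_mod_cast (by omega : m ≤ M + t i)

theorem hom_sup {N : ℕ} {I : Ideal (MvPolynomial (Fin N) ℂ)} (hI : Hom I)
    {f : MvPolynomial (Fin N) ℂ} {d : ℕ} (hf : f.IsHomogeneous d) : Hom (I ⊔ Ideal.span {f}) := by
  rw [HMINM.hom_iff] at hI ⊢
  refine hI.sup (Ideal.homogeneous_span _ _ ?_)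
  intro x hx
  rw [Set.mem_singleton_iff] at hx
  subst hx
  exact ⟨d, hf⟩

theorem hom_lin {N : ℕ} {ι : Type} [Fintype ι] {g : ι → MvPolynomial (Fin N) ℂ} {d : ℕ}
    (hg : ∀ k, (g k).IsHomogeneous d) (c : ι → ℂ) : (∑ k, C (c k) * g k).IsHomogeneous d := by
  refine IsHomogeneous.sum _ _ _ fun k _ => ?_
  have := (isHomogeneous_C (Fin N) (c k)).mul (hg k)
  rwa [zero_add] at this

end SELM

theorem specSEL (hMONO : SpecMONO) (hHMIN : SpecHMIN) : SpecSEL := by
  intro N M n I t ι hι d g hd hg hI h1 h2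
  induction M generalizing I with
  | zero =>
    refine ⟨Fin.elim0, fun i q hq hH hIq _ => ?_⟩
    simpa using h1 i q hq hH hIq
  | succ M ih =>
    obtain ⟨c0, hc0⟩ := SELM.step hMONO N M n I t ι g hHMIN hI h1 h2
    have hI' : ∀ i, Hom (I i ⊔ Ideal.span {∑ k, C (c0 k) * g k}) := fun i =>
      SELM.hom_sup (hI i) (SELM.hom_lin hg c0)
    have hle : ∀ i (q : Ideal (MvPolynomial (Fin N) ℂ)),
        I i ⊔ Ideal.span {∑ k, C (c0 k) * g k} ≤ q ↔ I i ≤ q ∧ ∑ k, C (c0 k) * g k ∈ q := by
      intro i q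
      rw [sup_le_iff, Ideal.span_singleton_le_iff_mem]
    obtain ⟨c', hc'⟩ := ih (fun i => I i ⊔ Ideal.span {∑ k, C (c0 k) * g k}) hI'
      (fun i q hq hH hIq => hc0 i q hq hH ((hle i q).1 hIq).1 ((hle i q).1 hIq).2)
      (fun i q hq hH hIq hk => h2 i q hq hH ((hle i q).1 hIq).1 hk)
    refine ⟨Fin.cons c0 c', fun i q hq hH hIq hm => ?_⟩
    refine hc' i q hq hH ((hle i q).2 ⟨hIq, ?_⟩) fun j => ?_
    · have := hm 0
      simpa using this
    · have := hm j.succ
      simpa using this

end Pool.Agent.Lib.MPc9b009.B5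
end

section
/-!
# SKE: the rank of a skew-symmetric matrix is even
-/
namespace Pool.Agent.Lib.MPc9b009.B5

namespace SKEM

open Matrix

variable {F : Type} [Field F]

/-- A skew matrix has a nonzero principal minor whose size is its rank. -/
theorem exists_principal {N : ℕ} (A : Matrix (Fin N) (Fin N) F) (hA : A.transpose = - A) :
    ∃ I : Fin A.rank → Fin N, (A.submatrix I I).det ≠ 0 := by
  have hr := A.rank_eq_finrank_span_row
  have hex := Submodule.exists_fun_fin_finrank_span_eq F (Set.range A.row)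
  rw [← hr] at hex
  obtain ⟨f, hf, hsp, hli⟩ := hex
  choose I hI using hf
  have hfI : f = fun s => A.row (I s) := by
    funext s
    exact (hI s).symm
  have hB : LinearIndependent F (A.submatrix I id).row := by
    have : (A.submatrix I id).row = f := by
      rw [hfI]
      rfl
    rw [this]
    exact hli
  have hP : ∀ i, ∃ c : Fin A.rank → F, ∑ s, c s • f s = A.row i := by
    intro i
    have h1 : A.row i ∈ Submodule.span F (Set.range f) := by
      rw [hsp]
      exact Submodule.subset_span ⟨i, rfl⟩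
    exact (Submodule.mem_span_range_iff_exists_fun F).1 h1
  choose P hP using hP
  have hAP : ∀ i j, A i j = ∑ t, P i t * A (I t) j := by
    intro i j
    have h1 := congrFun (hP i) j
    rw [Finset.sum_apply] at h1
    have h2 : A.row i j = A i j := rfl
    rw [h2] at h1
    rw [← h1]
    refine Finset.sum_congr rfl fun s _ => ?_
    rw [hfI]
    rfl
  have hsk : ∀ i j, A i j = - A j i := fun i j => by
    have h1 := congrFun (congrFun hA j) i
    rw [transpose_apply, neg_apply] at h1
    exact h1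
  have hB2 : A.submatrix I id = A.submatrix I I * (Matrix.of P)ᵀ := by
    ext s j
    have h1 : A (I s) j = - ∑ t, P j t * A (I t) (I s) := by
      rw [← hAP]
      exact hsk _ _
    rw [Matrix.mul_apply]
    change A (I s) j = ∑ t, A (I s) (I t) * P j t
    rw [h1, ← Finset.sum_neg_distrib]
    refine Finset.sum_congr rfl fun t _ => ?_
    rw [hsk (I t) (I s)]
    ring
  have hrk : A.rank ≤ (A.submatrix I I).rank := by
    have h1 : (A.submatrix I id).rank = A.rank := by
      rw [hB.rank_matrix, Fintype.card_fin]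
    have h2 := rank_mul_le_left (A.submatrix I I) (Matrix.of P)ᵀ
    rw [← hB2, h1] at h2
    exact h2
  have hli2 : LinearIndependent F (A.submatrix I I).row := by
    rw [linearIndependent_iff_card_le_finrank_span, Fintype.card_fin]
    rw [rank_eq_finrank_span_row (A.submatrix I I)] at hrk
    exact hrk
  rw [linearIndependent_rows_iff_isUnit, isUnit_iff_isUnit_det, isUnit_iff_ne_zero] at hli2
  exact ⟨I, hli2⟩

end SKEM

open SKEM in
/-- SKE. -/
theorem specSKE : SpecSKE := by
  intro F _ _ N k A hA hk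
  obtain ⟨I, hI⟩ := exists_principal A hA
  by_contra hlt
  have hodd : Odd A.rank := ⟨k, by omega⟩
  apply hI
  have h1 : (A.submatrix I I).transpose = - A.submatrix I I := by
    rw [Matrix.transpose_submatrix, hA]
    rfl
  have h2 := Matrix.det_transpose (A.submatrix I I)
  rw [h1, Matrix.det_neg, Fintype.card_fin, hodd.neg_one_pow, neg_one_mul] at h2
  exact self_eq_neg.mp h2.symm

end Pool.Agent.Lib.MPc9b009.B5
end

section
/-!
# MP_c9b009_ag, module SOP: homogeneous systems of parameters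
-/
namespace Pool.Agent.Lib.MPc9b009.B5

open MvPolynomial

attribute [local instance] MvPolynomial.gradedAlgebra

namespace SOPM

theorem decompose_eq {N : ℕ} (g : MvPolynomial (Fin N) ℂ) (d : ℕ) :
    (DirectSum.decompose (homogeneousSubmodule (Fin N) ℂ) g d : MvPolynomial (Fin N) ℂ) =
      homogeneousComponent d g := by
  rw [← decomposition.decompose'_apply]
  rfl

theorem hom_iff {N : ℕ} (p : Ideal (MvPolynomial (Fin N) ℂ)) :
    Hom p ↔ Ideal.IsHomogeneous (homogeneousSubmodule (Fin N) ℂ) p := by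
  constructor
  · intro h d g hg
    rw [decompose_eq]
    exact h g hg d
  · intro h g hg d
    rw [← decompose_eq]
    exact h d hg

theorem hom_sup_span {N : ℕ} {p : Ideal (MvPolynomial (Fin N) ℂ)} (hp : Hom p)
    (s : Set (MvPolynomial (Fin N) ℂ)) (d : ℕ) (hs : ∀ z ∈ s, z.IsHomogeneous d) :
    Hom (p ⊔ Ideal.span s) := by
  rw [hom_iff] at hp ⊢
  refine Ideal.IsHomogeneous.sup hp (Ideal.homogeneous_span _ _ ?_)
  intro z hz
  exact ⟨d, (mem_homogeneousSubmodule d z).2 (hs z hz)⟩

theorem trdeg_mono {N : ℕ} {p q : Ideal (MvPolynomial (Fin N) ℂ)} (h : p ≤ q) :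
    Algebra.trdeg ℂ (MvPolynomial (Fin N) ℂ ⧸ q) ≤
      Algebra.trdeg ℂ (MvPolynomial (Fin N) ℂ ⧸ p) :=
  trdeg_le_of_surjective (Ideal.Quotient.factorₐ ℂ h) (Ideal.Quotient.factor_surjective h)

/-- a prime which contains all variables has transcendence degree zero -/
theorem trdeg_of_X {N : ℕ} {q : Ideal (MvPolynomial (Fin N) ℂ)} (hq : q.IsPrime)
    (hX : ∀ k : Fin N, X k ∈ q) : Algebra.trdeg ℂ (MvPolynomial (Fin N) ℂ ⧸ q) ≤ 0 := by
  have hsurj : Function.Surjective (Algebra.ofId ℂ (MvPolynomial (Fin N) ℂ ⧸ q)) := by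
    intro y
    obtain ⟨g, rfl⟩ := Ideal.Quotient.mk_surjective y
    refine ⟨coeff 0 g, ?_⟩
    have h1 : ∀ g : MvPolynomial (Fin N) ℂ, g - C (coeff 0 g) ∈ q := by
      intro g
      induction g using MvPolynomial.induction_on with
      | C a => simp
      | add a b ha hb =>
        rw [coeff_add, C_add]
        have := q.add_mem ha hb
        convert this using 1
        ring
      | mul_X a i _ =>
        have h2 : coeff 0 (a * X i) = 0 := by
          classical
          rw [coeff_mul_X']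
          simp
        rw [h2, C_0, sub_zero]
        exact q.mul_mem_left _ (hX i)
    have h3 := h1 g
    rw [← Ideal.Quotient.eq] at h3
    rw [h3]
    rfl
  have h := trdeg_le_of_surjective _ hsurj
  rw [show Algebra.trdeg ℂ ℂ = 0 from trdeg_eq_zero] at h
  exact h

end SOPM

open SOPM in
theorem specSOP (hSEL : SpecSEL) (hFINI : SpecFINI) : SpecSOP := by
  intro N M m p hp hph htr ι _ d g hd hg hbd
  -- the first selection
  obtain ⟨c, hc⟩ := hSEL N M 1 (fun _ => p) (fun _ => m) ι inferInstance d g hd hg (fun _ => hph)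
    (fun _ q _ _ hpq => (trdeg_mono hpq).trans htr.le) (fun _ q hq hqh hpq hk => hbd q hq hqh hpq hk)
  -- the second selection
  have hgc : ∀ j, (∑ k, C (c j k) * g k).IsHomogeneous d := by
    intro j
    apply IsHomogeneous.sum
    intro k _
    have := (isHomogeneous_C (Fin N) (c j k)).mul (hg k)
    rwa [zero_add] at this
  set I' : Ideal (MvPolynomial (Fin N) ℂ) :=
    p ⊔ Ideal.span (Set.range fun j => ∑ k, C (c j k) * g k) with hI'
  have hI'h : Hom I' := by
    refine hom_sup_span hph _ d ?_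
    rintro _ ⟨j, rfl⟩
    exact hgc j
  have hI'p : p ≤ I' := le_sup_left
  have hI'c : ∀ j, ∑ k, C (c j k) * g k ∈ I' := fun j =>
    (le_sup_right : _ ≤ I') (Ideal.subset_span ⟨j, rfl⟩)
  obtain ⟨l, hl⟩ := hSEL N m 1 (fun _ => I') (fun _ => 0) (Fin N) inferInstance 1 X le_rfl
    (fun k => isHomogeneous_X ℂ k) (fun _ => hI'h)
    (fun _ q hq hqh hpq => by
      rw [add_zero]
      exact hc 0 q hq hqh (hI'p.trans hpq) (fun j => hpq (hI'c j)))
    (fun _ q hq _ _ hk => by
      have := trdeg_of_X hq hk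
      simpa using this)
  set y : Fin M ⊕ Fin m → MvPolynomial (Fin N) ℂ :=
    Sum.elim (fun j => ∑ k, C (c j k) * g k) (fun j => ∑ k, C (l j k) * X k) with hy
  have hyq : (Sum.elim (fun j => Ideal.Quotient.mk p (∑ k, C (c j k) * g k))
      (fun j => Ideal.Quotient.mk p (∑ k, C (l j k) * X k)) :
        Fin M ⊕ Fin m → MvPolynomial (Fin N) ℂ ⧸ p) = fun b => Ideal.Quotient.mk p (y b) := by
    funext b
    rcases b with b | b <;> rfl
  refine ⟨c, l, ?_⟩
  rw [hyq]
  have hint : ∀ z : MvPolynomial (Fin N) ℂ ⧸ p,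
      IsIntegral (Algebra.adjoin ℂ (Set.range fun b => Ideal.Quotient.mk p (y b))) z := by
    refine hFINI N p hp hph (Fin M ⊕ Fin m) inferInstance y
      (Sum.elim (fun _ => d) (fun _ => 1)) ?_ ?_ ?_
    · rintro (b | b)
      · exact hd
      · exact le_rfl
    · rintro (b | b)
      · exact hgc b
      · show (∑ k, C (l b k) * X k : MvPolynomial (Fin N) ℂ).IsHomogeneous 1
        apply IsHomogeneous.sum
        intro k _
        have := (isHomogeneous_C (Fin N) (l b k)).mul (isHomogeneous_X ℂ k)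
        rwa [zero_add] at this
    · intro q hq hqh hpq hyb
      have h1 : I' ≤ q := by
        refine sup_le hpq (Ideal.span_le.2 ?_)
        rintro _ ⟨j, rfl⟩
        exact hyb (Sum.inl j)
      have := hl 0 q hq hqh h1 (fun j => hyb (Sum.inr j))
      simpa using this
  refine ⟨?_, hint⟩
  have : IsDomain (MvPolynomial (Fin N) ℂ ⧸ p) := Ideal.Quotient.isDomain p
  have : Algebra.IsAlgebraic
      (Algebra.adjoin ℂ (Set.range fun b => Ideal.Quotient.mk p (y b)))
      (MvPolynomial (Fin N) ℂ ⧸ p) :=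
    ⟨fun z => (hint z).isAlgebraic⟩
  have hle : Cardinal.mk (Fin M ⊕ Fin m) ≤ Algebra.trdeg ℂ (MvPolynomial (Fin N) ℂ ⧸ p) := by
    rw [htr, Cardinal.mk_sum, Cardinal.mk_fin, Cardinal.mk_fin]
    simp
  exact (Algebra.IsAlgebraic.isTranscendenceBasis_of_le_trdeg_of_finite ℂ
    (fun b => Ideal.Quotient.mk p (y b)) hle).1

end Pool.Agent.Lib.MPc9b009.B5
end

section
/-!
# MP_c9b009_ag, row B5, module THA: Theorem A
-/
set_option autoImplicit false

namespace Pool.Agent.Lib.MPc9b009.B5.THAM

open MvPolynomial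

theorem hom_bot {N : ℕ} : Hom (⊥ : Ideal (MvPolynomial (Fin N) ℂ)) := by
  intro g hg d
  rw [Ideal.mem_bot] at hg ⊢
  rw [hg, map_zero]

theorem stab_bot {N r : ℕ} (π : Fin N → Fin r → MvPolynomial (Fin N) ℂ) : Stab π ⊥ := by
  intro g hg j
  rw [Ideal.mem_bot] at hg ⊢
  rw [hg]
  simp

theorem trdeg_bot {N k : ℕ} (h : k ≤ N) : ((k : ℕ) : Cardinal) ≤
    Algebra.trdeg ℂ (MvPolynomial (Fin N) ℂ ⧸ (⊥ : Ideal (MvPolynomial (Fin N) ℂ))) := by
  have h1 : ((N : ℕ) : Cardinal) ≤ Algebra.trdeg ℂ (MvPolynomial (Fin N) ℂ) := by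
    have := (algebraicIndependent_X (Fin N) ℂ).cardinalMk_le_trdeg
    rwa [Cardinal.mk_fin] at this
  have h2 : Algebra.trdeg ℂ (MvPolynomial (Fin N) ℂ) ≤
      Algebra.trdeg ℂ (MvPolynomial (Fin N) ℂ ⧸ (⊥ : Ideal (MvPolynomial (Fin N) ℂ))) := by
    refine trdeg_le_of_injective (Ideal.Quotient.mkₐ ℂ ⊥) ?_
    intro a b hab
    have h3 : a - b ∈ (⊥ : Ideal (MvPolynomial (Fin N) ℂ)) := Ideal.Quotient.eq.1 hab
    rw [Ideal.mem_bot] at h3
    exact sub_eq_zero.1 h3
  exact ((Nat.cast_le.2 h).trans h1).trans h2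

/-- too large minors vanish. -/
theorem mnr_big {N r k : ℕ} (hk : N < k) (π : Fin N → Fin r → MvPolynomial (Fin N) ℂ)
    (I : Fin k → Fin N) (J : Fin k → Fin r) : mnr π I J = 0 := by
  have hni : ¬ Function.Injective I := by
    intro hi
    have := Fintype.card_le_of_injective I hi
    rw [Fintype.card_fin, Fintype.card_fin] at this
    omega
  rw [Function.not_injective_iff] at hni
  obtain ⟨a, b, hab, hne⟩ := hni
  exact Matrix.det_zero_of_row_eq hne (by
    funext c
    show π (I a) (J c) = π (I b) (J c)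
    rw [hab])

/-- a singular matrix has rank `< N`. -/
theorem rank_lt {F : Type} [Field F] {N : ℕ} (A : Matrix (Fin N) (Fin N) F) (h : A.det = 0) :
    A.rank < N := by
  obtain ⟨v, hv, hv0⟩ := Matrix.exists_mulVec_eq_zero_iff.2 h
  have h1 := A.mulVecLin.finrank_range_add_finrank_ker
  rw [Module.finrank_fin_fun] at h1
  have h2 : 0 < Module.finrank F (LinearMap.ker A.mulVecLin) := by
    rw [Module.finrank_pos_iff_exists_ne_zero]
    exact ⟨⟨v, hv0⟩, fun h3 => hv (congrArg Subtype.val h3)⟩
  show Module.finrank F (LinearMap.range A.mulVecLin) < N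
  omega

/-- the minors of size `N - 1` of a singular skew-symmetric matrix, `N` even, vanish. -/
theorem mnr_skew (hSKE : SpecSKE) (hRKM : SpecRKM) {m : ℕ} (g : Biv (2 * m + 2))
    (hdet : (Matrix.of g.f).det = 0) (I J : Fin (2 * m + 1) → Fin (2 * m + 2)) :
    mnr g.f I J = 0 := by
  have hc : CharZero (FractionRing (MvPolynomial (Fin (2 * m + 2)) ℂ)) :=
    charZero_of_injective_algebraMap
      (FaithfulSMul.algebraMap_injective ℂ (FractionRing (MvPolynomial (Fin (2 * m + 2)) ℂ)))
  set F := FractionRing (MvPolynomial (Fin (2 * m + 2)) ℂ) with hF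
  set ι := algebraMap (MvPolynomial (Fin (2 * m + 2)) ℂ) F with hι
  have hinj : Function.Injective ι := IsFractionRing.injective _ _
  set A : Matrix (Fin (2 * m + 2)) (Fin (2 * m + 2)) F := ι.mapMatrix (Matrix.of g.f) with hA
  have hAdet : A.det = 0 := by rw [hA, ← RingHom.map_det, hdet, map_zero]
  have h1 : A.rank ≤ 2 * m := by
    refine hSKE F inferInstance hc (2 * m + 2) m A ?_ ?_
    · ext i j
      show ι (g.f j i) = - ι (g.f i j)
      rw [g.skew i j, map_neg]
    · have := rank_lt A hAdet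
      omega
  have h2 := (hRKM F inferInstance (2 * m + 2) (2 * m + 2) (2 * m) A).2 h1 I J
  apply hinj
  rw [map_zero, mnr, RingHom.map_det]
  exact h2

end Pool.Agent.Lib.MPc9b009.B5.THAM

namespace Pool.Agent.Lib.MPc9b009.B5

open MvPolynomial

/-- **THA**: Theorem A. -/
theorem specTHA (hCRIT : SpecCRIT) (hLIFT : SpecLIFT) (hDET0 : SpecDET0) (hMST : SpecMST)
    (hDMIN : SpecDMIN) (hHMIN : SpecHMIN) (hCUT : SpecCUT) (hSKE : SpecSKE) (hRKM : SpecRKM) :
    SpecTHA := by
  intro N s τ h6 hs h1 h2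
  obtain ⟨g, hg, hdiv⟩ := hLIFT N τ
  have hdet : (Matrix.of g.f).det = 0 := hDET0 N g (by omega) hg.1 hdiv
  have hcases : N = s + 2 ∨ N = s + 4 ∨ N = s + 6 := by
    obtain ⟨a, ha⟩ := h6
    obtain ⟨b, hb⟩ := hs
    omega
  rcases hcases with rfl | rfl | rfl
  · refine hCRIT (s + 2) s τ.f g ⊥ hs hg Ideal.isPrime_bot THAM.hom_bot
      (THAM.stab_bot g.f) (fun I J => ?_) (THAM.trdeg_bot le_rfl)
    rw [THAM.mnr_big (by omega) g.f I J]
    exact Ideal.zero_mem _
  · refine hCRIT (s + 4) s τ.f g ⊥ hs hg Ideal.isPrime_bot THAM.hom_bot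
      (THAM.stab_bot g.f) (fun I J => ?_) (THAM.trdeg_bot (by omega))
    obtain ⟨b, hb⟩ := hs
    obtain ⟨m, rfl⟩ : ∃ m, s = 2 * m := ⟨b, by omega⟩
    rw [THAM.mnr_skew hSKE hRKM (m := m + 1) g hdet I J]
    exact Ideal.zero_mem _
  · obtain ⟨p, hp, hD⟩ := hCUT (s + 6) g h6 (by omega) hdet
    obtain ⟨hst, hho⟩ := hMST (s + 6) (s + 6 - 3) g hg.1
    refine hCRIT (s + 6) s τ.f g p hs hg hp.1.1 (hHMIN _ _ hho p hp)
      (hDMIN _ _ g.f _ hst p hp) (fun I J => ?_) (le_trans ?_ hD)
    · exact hp.1.2 (Ideal.subset_span ⟨I, J, rfl⟩)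
    · exact Nat.cast_le.2 (by omega)

end Pool.Agent.Lib.MPc9b009.B5
end

section
/-!
# MP_c9b009_ag, row B5, module THB
-/
set_option autoImplicit false

namespace Pool.Agent.Lib.MPc9b009.B5

open MvPolynomial

namespace THBM

theorem eval_mnr {N k : ℕ} (f : Fin N → Fin N → MvPolynomial (Fin N) ℂ) (x : Fin N → ℂ)
    (I J : Fin k → Fin N) :
    eval x (mnr f I J) = (Matrix.of fun a b => mat f x (I a) (J b)).det := by
  rw [mnr, RingHom.map_det]
  rfl

end THBM

theorem specTHB (hCRIT : SpecCRIT) (hMST : SpecMST) (hDMIN : SpecDMIN) (hHMIN : SpecHMIN)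
    (hDIM : SpecDIM) (hSKE : SpecSKE) (hRKM : SpecRKM) : SpecTHB := by
  intro N s f g hs hfg h
  rcases h with ⟨x, hx⟩ | ⟨p, hp, hhom, hst, h1, h2⟩
  · obtain ⟨hIst, hIhom⟩ := hMST N (s + 3) g hfg.1
    have hI : Ideal.span {z | ∃ I J : Fin (s + 3) → Fin N, z = mnr g.f I J} ≤
        RingHom.ker (eval x) := by
      rw [Ideal.span_le]
      rintro _ ⟨I, J, rfl⟩
      rw [SetLike.mem_coe, RingHom.mem_ker, THBM.eval_mnr]
      exact (hRKM ℂ inferInstance N N (s + 2) (mat g.f x)).2 hx.le I J
    have hkp : (RingHom.ker (eval x)).IsPrime := RingHom.ker_isPrime _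
    obtain ⟨p, hp, hpx⟩ := Ideal.exists_minimalPrimes_le hI
    have hmem : ∀ I J : Fin (s + 3) → Fin N, mnr g.f I J ∈ p := fun I J =>
      hp.1.2 (Ideal.subset_span ⟨I, J, rfl⟩)
    have hst : Stab g.f p := hDMIN N N g.f _ hIst p hp
    have hex : ∃ I J : Fin (s + 2) → Fin N, mnr g.f I J ∉ p := by
      by_contra hcon
      push Not at hcon
      have h3 : (mat g.f x).rank ≤ s + 1 := by
        refine (hRKM ℂ inferInstance N N (s + 1) (mat g.f x)).1 (fun I J => ?_)
        have h4 := hpx (hcon I J)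
        rw [RingHom.mem_ker, THBM.eval_mnr] at h4
        exact h4
      omega
    exact hCRIT N s f g p hs hfg hp.1.1 (hHMIN N _ hIhom p hp) hst hmem
      (hDIM N N (s + 2) g.f p hp.1.1 hst hex)
  · refine hCRIT N s f g p hs hfg hp hhom hst ?_ h1
    by_contra hcon
    push Not at hcon
    have hex : ∃ I J : Fin (s + 4) → Fin N, mnr g.f I J ∉ p := by
      by_contra hcon2
      push Not at hcon2
      have := hp
      let K := FractionRing (MvPolynomial (Fin N) ℂ ⧸ p)
      let φ : MvPolynomial (Fin N) ℂ →+* K :=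
        (algebraMap (MvPolynomial (Fin N) ℂ ⧸ p) K).comp (Ideal.Quotient.mk p)
      have hφ : ∀ z, φ z = 0 ↔ z ∈ p := by
        intro z
        rw [← Ideal.Quotient.eq_zero_iff_mem]
        exact (IsFractionRing.injective (MvPolynomial (Fin N) ℂ ⧸ p) K).eq_iff'
          (map_zero _)
      have hφm : ∀ (k : ℕ) (I J : Fin k → Fin N), φ (mnr g.f I J) =
          (Matrix.of fun a b => (Matrix.of fun i j => φ (g.f i j)) (I a) (J b)).det := by
        intro k I J
        rw [mnr, RingHom.map_det]
        rfl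
      have : Algebra ℂ K := inferInstance
      have hchar : CharZero K := charZero_of_injective_algebraMap (algebraMap ℂ K).injective
      have h3 : (Matrix.of fun i j => φ (g.f i j)).rank ≤ s + 3 := by
        refine (hRKM K inferInstance N N (s + 3) _).1 (fun I J => ?_)
        rw [← hφm, hφ]
        exact hcon2 I J
      have h4 : (Matrix.of fun i j => φ (g.f i j)).rank ≤ s + 2 := by
        obtain ⟨m, hm⟩ := hs
        have h5 := hSKE K inferInstance hchar N (m + 1) (Matrix.of fun i j => φ (g.f i j)) (by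
          ext i j
          rw [Matrix.transpose_apply, Matrix.of_apply, Matrix.neg_apply, Matrix.of_apply, g.skew,
            map_neg]) (by omega)
        omega
      obtain ⟨I, J, hIJ⟩ := hcon
      refine hIJ ((hφ _).1 ?_)
      rw [hφm]
      exact (hRKM K inferInstance N N (s + 2) _).2 h4 I J
    have h6 := (hDIM N N (s + 4) g.f p hp hst hex).trans h2
    have h7 : s + 4 ≤ s + 3 := by exact_mod_cast h6
    omega

end Pool.Agent.Lib.MPc9b009.B5
end

section
/-!
# MP_c9b009_ag, module THE: the rank two kernel and the skew matrix `Θ`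
-/
set_option autoImplicit false

namespace Pool.Agent.Lib.MPc9b009.B5

open MvPolynomial

namespace THEM

open Module

section hom

variable {σ : Type*}

theorem comp_mul {s : ℕ} {P : MvPolynomial σ ℂ} (hP : P.IsHomogeneous s)
    (q : MvPolynomial σ ℂ) (n : ℕ) :
    homogeneousComponent (s + n) (P * q) = P * homogeneousComponent n q := by
  have h : P * q = ∑ i ∈ Finset.range (q.totalDegree + 1), P * homogeneousComponent i q := by
    rw [← Finset.mul_sum, sum_homogeneousComponent]
  conv_lhs => rw [h]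
  rw [map_sum]
  have h2 : ∀ i, homogeneousComponent (s + n) (P * homogeneousComponent i q) =
      if i = n then P * homogeneousComponent n q else 0 := by
    intro i
    have h3 : (P * homogeneousComponent i q).IsHomogeneous (s + i) :=
      hP.mul (homogeneousComponent_isHomogeneous i q)
    rw [homogeneousComponent_of_mem h3]
    by_cases hi : i = n
    · subst hi
      rw [if_pos rfl, if_pos rfl]
    · rw [if_neg hi, if_neg (by omega)]
  simp only [h2]
  rw [Finset.sum_ite_eq' (Finset.range (q.totalDegree + 1)) n]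
  split_ifs with h4
  · rfl
  · rw [homogeneousComponent_eq_zero n q (by rw [Finset.mem_range] at h4; omega), mul_zero]

theorem eq_sum {q : MvPolynomial σ ℂ} {M : ℕ} (hM : q.totalDegree < M) :
    q = ∑ d ∈ Finset.range M, homogeneousComponent d q := by
  conv_lhs => rw [← sum_homogeneousComponent q]
  refine Finset.sum_subset ?_ ?_
  · intro d hd
    rw [Finset.mem_range] at hd ⊢
    omega
  · intro d _ hd
    rw [Finset.mem_range] at hd
    exact homogeneousComponent_eq_zero d q (by omega)

theorem hom_of_comp {q : MvPolynomial σ ℂ} {e : ℕ}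
    (h1 : ∀ n, n ≠ e → homogeneousComponent n q = 0) : q.IsHomogeneous e := by
  have h2 : q = homogeneousComponent e q := by
    conv_lhs => rw [eq_sum (q := q) (M := q.totalDegree + e + 1) (by omega)]
    rw [Finset.sum_eq_single e (fun n _ hn => h1 n hn)]
    intro h
    exact absurd (Finset.mem_range.2 (by omega)) h
  rw [h2]
  exact homogeneousComponent_isHomogeneous e q

theorem homog_of_mul {s e : ℕ} {P q : MvPolynomial σ ℂ} (hP : P.IsHomogeneous s)
    (hP0 : P ≠ 0) (h : (P * q).IsHomogeneous (s + e)) : q.IsHomogeneous e := by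
  refine hom_of_comp fun n hn => ?_
  have h2 := comp_mul hP q n
  rw [homogeneousComponent_of_mem h, if_neg (by omega)] at h2
  rcases mul_eq_zero.1 h2.symm with h3 | h3
  · exact absurd h3 hP0
  · exact h3

/-- `P ↦ ∑ X ^ d P_d` -/
noncomputable def Phi : MvPolynomial σ ℂ →ₐ[ℂ] Polynomial (MvPolynomial σ ℂ) :=
  aeval fun j => Polynomial.X * Polynomial.C (X j)

theorem Phi_monomial (d : σ →₀ ℕ) (r : ℂ) :
    Phi (monomial d r) = Polynomial.X ^ d.degree * Polynomial.C (monomial d r) := by
  unfold Phi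
  rw [aeval_monomial]
  have h1 : (algebraMap ℂ (Polynomial (MvPolynomial σ ℂ))) r = Polynomial.C (C r) := rfl
  rw [h1, Finsupp.prod]
  simp_rw [mul_pow]
  rw [Finset.prod_mul_distrib, Finset.prod_pow_eq_pow_sum, monomial_eq, Finsupp.prod,
    map_mul, map_prod]
  simp_rw [map_pow]
  have h2 : ∑ i ∈ d.support, d i = d.degree := rfl
  rw [h2]
  ring

theorem Phi_hom {n : ℕ} {P : MvPolynomial σ ℂ} (h : P.IsHomogeneous n) :
    Phi P = Polynomial.X ^ n * Polynomial.C P := by
  conv_lhs => rw [P.as_sum]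
  conv_rhs => rw [P.as_sum]
  rw [map_sum, map_sum, Finset.mul_sum]
  refine Finset.sum_congr rfl fun d hd => ?_
  rw [Phi_monomial]
  have h1 : d.degree = n := by
    have := h (mem_support_iff.1 hd)
    rw [Finsupp.degree_eq_weight_one]
    exact this
  rw [h1]

theorem Phi_coeff (P : MvPolynomial σ ℂ) (n : ℕ) : (Phi P).coeff n = homogeneousComponent n P := by
  have h1 : Phi P = ∑ d ∈ Finset.range (P.totalDegree + n + 1),
      Polynomial.X ^ d * Polynomial.C (homogeneousComponent d P) := by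
    conv_lhs => rw [eq_sum (q := P) (M := P.totalDegree + n + 1) (by omega)]
    rw [map_sum]
    exact Finset.sum_congr rfl fun d _ => Phi_hom (homogeneousComponent_isHomogeneous d P)
  rw [h1, Polynomial.finsetSum_coeff, Finset.sum_eq_single n]
  · rw [mul_comm, Polynomial.coeff_C_mul, Polynomial.coeff_X_pow, if_pos rfl, mul_one]
  · intro d _ hd
    rw [mul_comm, Polynomial.coeff_C_mul, Polynomial.coeff_X_pow, if_neg (Ne.symm hd), mul_zero]
  · intro h
    exact absurd (Finset.mem_range.2 (by omega)) h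

/-- factors of homogeneous polynomials are homogeneous -/
theorem factor {m : ℕ} {P q : MvPolynomial σ ℂ} (h : (P * q).IsHomogeneous m) (h0 : P * q ≠ 0) :
    ∃ d e, d + e = m ∧ P.IsHomogeneous d ∧ q.IsHomogeneous e := by
  have hP0 : P ≠ 0 := left_ne_zero_of_mul h0
  have hq0 : q ≠ 0 := right_ne_zero_of_mul h0
  have hne : ∀ r : MvPolynomial σ ℂ, r ≠ 0 → Phi r ≠ 0 := by
    intro r hr h1
    apply hr
    rw [eq_sum (q := r) (M := r.totalDegree + 1) (by omega)]
    refine Finset.sum_eq_zero fun d _ => ?_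
    rw [← Phi_coeff, h1, Polynomial.coeff_zero]
  have h1 := Phi_hom h
  rw [map_mul] at h1
  have h2 : (Phi P * Phi q).natDegree = m := by
    rw [h1, mul_comm, Polynomial.natDegree_C_mul_X_pow m _ h0]
  have h3 : (Phi P * Phi q).natTrailingDegree = m := by
    refine le_antisymm ?_ ?_
    · have := Polynomial.natTrailingDegree_le_natDegree (Phi P * Phi q)
      omega
    rw [h1]
    refine Polynomial.le_natTrailingDegree ?_ ?_
    · rw [← h1]
      exact mul_ne_zero (hne P hP0) (hne q hq0)
    · intro i hi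
      rw [mul_comm, Polynomial.coeff_C_mul, Polynomial.coeff_X_pow, if_neg (by omega), mul_zero]
  rw [Polynomial.natDegree_mul (hne P hP0) (hne q hq0)] at h2
  rw [Polynomial.natTrailingDegree_mul (hne P hP0) (hne q hq0)] at h3
  have h4 := Polynomial.natTrailingDegree_le_natDegree (Phi P)
  have h5 := Polynomial.natTrailingDegree_le_natDegree (Phi q)
  have hom : ∀ r : MvPolynomial σ ℂ, (Phi r).natTrailingDegree = (Phi r).natDegree →
      r.IsHomogeneous (Phi r).natDegree := by
    intro r hr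
    refine hom_of_comp fun n hn => ?_
    rw [← Phi_coeff]
    rcases lt_or_gt_of_ne hn with h6 | h6
    · exact Polynomial.coeff_eq_zero_of_lt_natTrailingDegree (hr ▸ h6)
    · exact Polynomial.coeff_eq_zero_of_natDegree_lt h6
  exact ⟨_, _, h2, hom P (by omega), hom q (by omega)⟩

end hom

variable {N : ℕ}

abbrev S4 := MvPolynomial (Fin 4) ℂ

/-- two independent kernel vectors over the fraction field, with a nonzero minor -/
theorem two_vec (hSKE : SpecSKE) (A : Matrix (Fin N) (Fin N) S4) (hN : Even N)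
    (hsk : ∀ i j, A j i = - A i j) (hdet : A.det = 0) :
    ∃ k k' : Fin N → S4, A.mulVec k = 0 ∧ A.mulVec k' = 0 ∧
      ∃ i j, k i * k' j - k j * k' i ≠ 0 := by
  classical
  set K := FractionRing S4 with hK
  set B : Matrix (Fin N) (Fin N) K := A.map (algebraMap S4 K) with hB
  have hBsk : B.transpose = - B := by
    ext i j
    rw [Matrix.transpose_apply, Matrix.neg_apply, hB, Matrix.map_apply, Matrix.map_apply,
      hsk i j, map_neg]
  have hBdet : B.det = 0 := by
    have h := RingHom.map_det (algebraMap S4 K) A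
    rw [RingHom.mapMatrix_apply] at h
    rw [hB, ← h, hdet, map_zero]
  have hrn := LinearMap.finrank_range_add_finrank_ker B.mulVecLin
  have hr0 : finrank K (LinearMap.range B.mulVecLin) = B.rank := rfl
  rw [hr0, finrank_fin_fun] at hrn
  obtain ⟨v, hv0, hv⟩ := Matrix.exists_mulVec_eq_zero_iff.2 hBdet
  have hpos : 1 ≤ finrank K (LinearMap.ker B.mulVecLin) := by
    rw [Nat.one_le_iff_ne_zero]
    intro h
    rw [Submodule.finrank_eq_zero] at h
    have : v ∈ LinearMap.ker B.mulVecLin := hv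
    rw [h, Submodule.mem_bot] at this
    exact hv0 this
  obtain ⟨c, hc⟩ := hN
  have hker : 1 < finrank K (LinearMap.ker B.mulVecLin) := by
    have h1 := hSKE K inferInstance inferInstance N (c - 1) B hBsk (by omega)
    omega
  have hx0 : (⟨v, hv⟩ : LinearMap.ker B.mulVecLin) ≠ 0 := by
    intro h
    exact hv0 (congrArg Subtype.val h)
  obtain ⟨y, hy⟩ := exists_linearIndependent_pair_of_one_lt_finrank hker hx0
  rw [LinearIndependent.pair_iff] at hy
  set u : Fin N → K := v with hu
  set u' : Fin N → K := y.1 with hu'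
  have hBu' : B.mulVec u' = 0 := y.2
  obtain ⟨i, hi⟩ : ∃ i, u i ≠ 0 := by
    by_contra hcon
    push Not at hcon
    exact hv0 (funext hcon)
  obtain ⟨j, hj⟩ : ∃ j, u i * u' j - u j * u' i ≠ 0 := by
    by_contra hcon
    push Not at hcon
    have h1 := hy (- u' i) (u i) (by
      apply Subtype.ext
      funext j
      have h2 := hcon j
      show - u' i * u j + u i * u' j = 0
      linear_combination h2)
    exact hi h1.2
  obtain ⟨b, hb⟩ := IsLocalization.exist_integer_multiples_of_finite (nonZeroDivisors S4) u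
  obtain ⟨b', hb'⟩ := IsLocalization.exist_integer_multiples_of_finite (nonZeroDivisors S4) u'
  choose k hk using hb
  choose k' hk' using hb'
  have hinj : Function.Injective (algebraMap S4 K) := IsFractionRing.injective S4 K
  have hk2 : ∀ l, algebraMap S4 K (k l) = algebraMap S4 K b * u l := by
    intro l
    rw [hk l, Algebra.smul_def]
  have hk2' : ∀ l, algebraMap S4 K (k' l) = algebraMap S4 K b' * u' l := by
    intro l
    rw [hk' l, Algebra.smul_def]
  have hzero : ∀ (w : Fin N → K) (z : Fin N → S4) (a : S4), B.mulVec w = 0 →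
      (∀ l, algebraMap S4 K (z l) = algebraMap S4 K a * w l) → A.mulVec z = 0 := by
    intro w z a hw hz
    funext l
    apply hinj
    have h1 := congrFun hw l
    simp only [Matrix.mulVec, dotProduct, Pi.zero_apply, hB, Matrix.map_apply] at h1 ⊢
    rw [map_sum, map_zero]
    simp_rw [map_mul, hz]
    have h2 : ∑ x, algebraMap S4 K (A l x) * (algebraMap S4 K a * w x) =
        algebraMap S4 K a * ∑ x, algebraMap S4 K (A l x) * w x := by
      rw [Finset.mul_sum]
      exact Finset.sum_congr rfl fun x _ => by ring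
    rw [h2, h1, mul_zero]
  refine ⟨k, k', hzero u k b hv hk2, hzero u' k' b' hBu' hk2', i, j, ?_⟩
  intro h
  have h1 := congrArg (algebraMap S4 K) h
  rw [map_sub, map_mul, map_mul, map_zero, hk2, hk2, hk2', hk2'] at h1
  have h2 : algebraMap S4 K b * algebraMap S4 K b' * (u i * u' j - u j * u' i) = 0 := by
    linear_combination h1
  have hb0 : algebraMap S4 K b ≠ 0 := by
    rw [Ne, map_eq_zero_iff _ hinj]
    exact nonZeroDivisors.coe_ne_zero b
  have hb0' : algebraMap S4 K b' ≠ 0 := by
    rw [Ne, map_eq_zero_iff _ hinj]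
    exact nonZeroDivisors.coe_ne_zero b'
  exact (mul_ne_zero (mul_ne_zero hb0 hb0') hj) h2

/-- components of kernel vectors are kernel vectors -/
theorem comp_ker {A : Matrix (Fin N) (Fin N) S4} (hA : ∀ i j, (A i j).IsHomogeneous 2)
    {w : Fin N → S4} (hw : A.mulVec w = 0) (d : ℕ) :
    A.mulVec (fun i => homogeneousComponent d (w i)) = 0 := by
  funext l
  have h1 := congrArg (homogeneousComponent (2 + d)) (congrFun hw l)
  simp only [Matrix.mulVec, dotProduct, Pi.zero_apply, map_zero] at h1 ⊢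
  rw [map_sum] at h1
  rw [← h1]
  exact Finset.sum_congr rfl fun x _ => (comp_mul (hA l x) _ _).symm

end THEM

open THEM in
theorem specTHE (hSKE : SpecSKE) : SpecTHE := by
  classical
  intro N A hN hsk hq hdet _
  obtain ⟨k, k', hk, hk', i0, j0, hij⟩ := two_vec hSKE A hN hsk hdet
  -- homogeneous kernel vectors
  obtain ⟨d, e, hde⟩ : ∃ d e, homogeneousComponent d (k i0) * homogeneousComponent e (k' j0) -
      homogeneousComponent d (k j0) * homogeneousComponent e (k' i0) ≠ 0 := by
    by_contra hcon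
    push Not at hcon
    apply hij
    set M := (k i0).totalDegree + (k j0).totalDegree + (k' i0).totalDegree +
      (k' j0).totalDegree + 1 with hM
    rw [eq_sum (q := k i0) (M := M) (by omega), eq_sum (q := k' j0) (M := M) (by omega),
      eq_sum (q := k j0) (M := M) (by omega), eq_sum (q := k' i0) (M := M) (by omega),
      Finset.sum_mul_sum, Finset.sum_mul_sum, ← Finset.sum_sub_distrib]
    refine Finset.sum_eq_zero fun d _ => ?_
    rw [← Finset.sum_sub_distrib]
    exact Finset.sum_eq_zero fun e _ => hcon d e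
  set x : Fin N → S4 := fun i => homogeneousComponent d (k i) with hx
  set y : Fin N → S4 := fun i => homogeneousComponent e (k' i) with hy
  have hAx : A.mulVec x = 0 := comp_ker hq hk d
  have hAy : A.mulVec y = 0 := comp_ker hq hk' e
  have hxh : ∀ i, (x i).IsHomogeneous d := fun i => homogeneousComponent_isHomogeneous d _
  have hyh : ∀ i, (y i).IsHomogeneous e := fun i => homogeneousComponent_isHomogeneous e _
  let _ : NormalizedGCDMonoid S4 := Classical.choice (inferInstance)
  obtain ⟨G, hG, hG1⟩ := Finset.extract_gcd (s := (Finset.univ : Finset (Fin N × Fin N)))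
    (fun z => x z.1 * y z.2 - x z.2 * y z.1) ⟨(i0, j0), Finset.mem_univ _⟩
  set g := (Finset.univ : Finset (Fin N × Fin N)).gcd
    (fun z => x z.1 * y z.2 - x z.2 * y z.1) with hg
  have hGe : ∀ i j, x i * y j - x j * y i = g * G (i, j) := fun i j => hG (i, j) (Finset.mem_univ _)
  have hth : ∀ i j, (x i * y j - x j * y i).IsHomogeneous (d + e) := fun i j =>
    ((hxh i).mul (hyh j)).sub ((hxh j).mul (hyh i))
  have h0 : g * G (i0, j0) ≠ 0 := by
    rw [← hGe]
    exact hde
  have hg0 : g ≠ 0 := left_ne_zero_of_mul h0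
  obtain ⟨m, th, hmth, hgm, -⟩ := factor (P := g) (q := G (i0, j0)) (m := d + e)
    (by rw [← hGe]; exact hth i0 j0) h0
  refine ⟨th, Matrix.of fun i j => G (i, j), ?_, ?_, ?_, ?_, ?_, ?_⟩
  · intro i j
    rw [Matrix.of_apply, Matrix.of_apply]
    apply mul_left_cancel₀ hg0
    rw [← hGe, mul_neg, ← hGe]
    ring
  · intro i j
    rw [Matrix.of_apply]
    refine homog_of_mul hgm hg0 ?_
    rw [← hGe, hmth]
    exact hth i j
  · ext1 i j
    rw [Matrix.mul_apply, Matrix.zero_apply]
    apply mul_left_cancel₀ hg0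
    rw [Finset.mul_sum, mul_zero]
    have h1 : ∀ l, g * (A i l * (Matrix.of fun i j => G (i, j)) l j) =
        A i l * x l * y j - A i l * y l * x j := by
      intro l
      rw [Matrix.of_apply]
      have := hGe l j
      linear_combination (-(A i l)) * this
    rw [Finset.sum_congr rfl fun l _ => h1 l, Finset.sum_sub_distrib, ← Finset.sum_mul,
      ← Finset.sum_mul]
    have h2 : ∑ l, A i l * x l = 0 := congrFun hAx i
    have h3 : ∑ l, A i l * y l = 0 := congrFun hAy i
    rw [h2, h3, zero_mul, zero_mul, sub_zero]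
  · intro h
    have h1 := congrFun (congrFun h i0) j0
    rw [Matrix.of_apply, Matrix.zero_apply] at h1
    exact h0 (by rw [h1, mul_zero])
  · intro z hz
    have h1 : z ∣ (Finset.univ : Finset (Fin N × Fin N)).gcd G :=
      Finset.dvd_gcd fun b _ => hz b.1 b.2
    rw [hG1] at h1
    exact isUnit_of_dvd_one h1
  · intro i j k l
    simp only [Matrix.of_apply]
    apply mul_left_cancel₀ hg0
    apply mul_left_cancel₀ hg0
    have e1 := hGe i j
    have e2 := hGe k l
    have e3 := hGe i k
    have e4 := hGe j l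
    have e5 := hGe i l
    have e6 := hGe j k
    have h1 : g * (g * (G (i, j) * G (k, l) - G (i, k) * G (j, l) + G (i, l) * G (j, k))) =
        (g * G (i, j)) * (g * G (k, l)) - (g * G (i, k)) * (g * G (j, l)) +
          (g * G (i, l)) * (g * G (j, k)) := by ring
    rw [h1, ← e1, ← e2, ← e3, ← e4, ← e5, ← e6]
    ring

end Pool.Agent.Lib.MPc9b009.B5
end

section
/-!
# MP_c9b009_ag, row B5, module TRA: Lemma T from the statement at prime elements
-/
namespace Pool.Agent.Lib.MPc9b009.B5

open MvPolynomial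

theorem specTRA (hTRH : SpecTRH) : SpecTRA := by
  intro σ i1 i2 L i3 i4 i5 i6 i7 i8 i9 dd a x hdd ha hx
  set T := Algebra.trace (FractionRing (MvPolynomial σ ℂ)) L
    (a * (Matrix.of fun c b => dd b (x c)).det) with hT
  have key : ∀ h : MvPolynomial σ ℂ, Prime h → ∃ r s : MvPolynomial σ ℂ, ¬ h ∣ s ∧
      T * algebraMap _ _ s = algebraMap _ _ r := fun h hh =>
    hTRH σ i1 i2 L i3 i4 i5 i6 i7 i8 i9 dd a x h hdd ha hx hh
  set n := IsFractionRing.num (MvPolynomial σ ℂ) T with hn
  set d : MvPolynomial σ ℂ := (IsFractionRing.den (MvPolynomial σ ℂ) T : MvPolynomial σ ℂ) with hd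
  have hrel := IsFractionRing.num_den_reduced (MvPolynomial σ ℂ) T
  have hd0 : d ≠ 0 := nonZeroDivisors.ne_zero (IsFractionRing.den (MvPolynomial σ ℂ) T).2
  have hTn : T * algebraMap _ (FractionRing (MvPolynomial σ ℂ)) d = algebraMap _ _ n := by
    have h1 := IsFractionRing.mk'_num_den' (MvPolynomial σ ℂ) T
    have h2 : algebraMap _ (FractionRing (MvPolynomial σ ℂ)) d ≠ 0 := by
      rw [Ne, FaithfulSMul.algebraMap_eq_zero_iff]
      exact hd0
    rw [eq_comm, ← div_eq_iff h2]
    exact h1
  have hu : IsUnit d := by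
    by_contra hnu
    obtain ⟨h, hh, hdvd⟩ := WfDvdMonoid.exists_irreducible_factor hnu hd0
    have hp : Prime h := UniqueFactorizationMonoid.irreducible_iff_prime.1 hh
    obtain ⟨r, s, hs, hrs⟩ := key h hp
    have h3 : n * s = r * d := by
      apply IsFractionRing.injective (MvPolynomial σ ℂ) (FractionRing (MvPolynomial σ ℂ))
      rw [map_mul, map_mul, ← hTn, ← hrs]
      ring
    have h4 : h ∣ n * s := by
      rw [h3]
      exact dvd_mul_of_dvd_right hdvd _
    rcases hp.dvd_or_dvd h4 with h5 | h5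
    · exact hp.not_unit (hrel h5 hdvd)
    · exact hs h5
  obtain ⟨u, hu⟩ := hu
  refine ⟨n * (↑u⁻¹ : MvPolynomial σ ℂ), ?_⟩
  rw [map_mul, ← hTn, mul_assoc, ← map_mul, ← hu, Units.mul_inv, map_one, mul_one]

end Pool.Agent.Lib.MPc9b009.B5
end

section
/-!
# MP_c9b009_ag, row B5, module TRH, part 1: valuations over a discrete valuation ring
-/
set_option autoImplicit false

namespace Pool.Agent.Lib.MPc9b009.B5

namespace TRHM

open IsDedekindDomain

section Res

open Polynomial

variable {L : Type} [Field L] {Γ : Type} [LinearOrderedCommGroupWithZero Γ] (v : Valuation L Γ)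

theorem nat_le (hn : ∀ n : ℕ, n ≠ 0 → v (n : L) = 1) (n : ℕ) : v (n : L) ≤ 1 := by
  rcases eq_or_ne n 0 with rfl | h
  · simp
  · exact (hn n h).le

theorem eval_le (p : L[X]) (u : L) (hu : v u ≤ 1) (hp : ∀ n, v (p.coeff n) ≤ 1) : v (p.eval u) ≤ 1 := by
  rw [eval_eq_sum_range]
  apply Valuation.map_sum_le
  intro i _
  rw [map_mul, map_pow]
  exact mul_le_one' (hp i) (pow_le_one' hu i)

/-- a polynomial with a root at `u` in the residue field, with nonzero derivative -/
theorem res (K : Subfield L) (hn : ∀ n : ℕ, n ≠ 0 → v (n : L) = 1) (u : L) (hu : v u ≤ 1) (f : L[X])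
    (hf0 : f ≠ 0) (hfK : ∀ n, f.coeff n ∈ K) (hfu : f.eval u = 0) :
    ∃ g : L[X], (∀ n, g.coeff n ∈ K ∧ v (g.coeff n) ≤ 1) ∧ v (g.eval u) < 1 ∧
      v (g.derivative.eval u) = 1 := by
  classical
  obtain ⟨i0, hi0, hmax⟩ := Finset.exists_max_image f.support (fun i => v (f.coeff i))
    (nonempty_support_iff.mpr hf0)
  have hc : f.coeff i0 ≠ 0 := mem_support_iff.mp hi0
  have hvc : v (f.coeff i0) ≠ 0 := (Valuation.ne_zero_iff _).mpr hc
  obtain ⟨f1, hf1⟩ : ∃ f1 : L[X], f1 = C (f.coeff i0)⁻¹ * f := ⟨_, rfl⟩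
  have hco : ∀ n, f1.coeff n = (f.coeff i0)⁻¹ * f.coeff n := fun n => by rw [hf1, coeff_C_mul]
  have h1K : ∀ n, f1.coeff n ∈ K := fun n => by
    rw [hco]; exact K.mul_mem (K.inv_mem (hfK _)) (hfK _)
  have h1v : ∀ n, v (f1.coeff n) ≤ 1 := fun n => by
    rw [hco, map_mul, map_inv₀]
    by_cases h : n ∈ f.support
    · have := hmax n h
      calc (v (f.coeff i0))⁻¹ * v (f.coeff n) ≤ (v (f.coeff i0))⁻¹ * v (f.coeff i0) :=
            mul_le_mul_right this _
        _ = 1 := inv_mul_cancel₀ hvc
    · rw [notMem_support_iff.mp h, map_zero, mul_zero]; exact zero_le_one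
  have h10 : f1.coeff i0 = 1 := by rw [hco, inv_mul_cancel₀ hc]
  have h1u : f1.eval u = 0 := by rw [hf1, eval_mul, hfu, mul_zero]
  obtain ⟨S, hS⟩ : ∃ S : Finset ℕ, S = f1.support.filter (fun i => v (f1.coeff i) = 1) := ⟨_, rfl⟩
  have hSne : S.Nonempty := ⟨i0, by
    rw [hS, Finset.mem_filter, mem_support_iff, h10, map_one]
    exact ⟨one_ne_zero, rfl⟩⟩
  obtain ⟨m, hm⟩ : ∃ m, m = S.max' hSne := ⟨_, rfl⟩
  have hmS : m ∈ S := by rw [hm]; exact Finset.max'_mem _ _
  have hm1 : v (f1.coeff m) = 1 := by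
    rw [hS, Finset.mem_filter] at hmS
    exact hmS.2
  have hmgt : ∀ i, m < i → v (f1.coeff i) < 1 := by
    intro i hi
    apply lt_of_le_of_ne (h1v i)
    intro h
    have : i ∈ S := by
      rw [hS, Finset.mem_filter, mem_support_iff]
      refine ⟨fun h0 => ?_, h⟩
      rw [h0, map_zero] at h
      exact zero_ne_one h
    have := Finset.le_max' S i this
    rw [← hm] at this
    omega
  have hGc : ∀ j n, (derivative^[j] f1).coeff n ∈ K ∧ v ((derivative^[j] f1).coeff n) ≤ 1 := by
    intro j n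
    rw [coeff_iterate_derivative, nsmul_eq_mul]
    refine ⟨K.mul_mem (natCast_mem K _) (h1K _), ?_⟩
    rw [map_mul]
    exact mul_le_one' (nat_le v hn _) (h1v _)
  have hPm : v ((derivative^[m] f1).eval u) = 1 := by
    rw [eval_eq_sum_range, Finset.sum_range_succ']
    have e1 : v ((derivative^[m] f1).coeff 0 * u ^ 0) = 1 := by
      rw [coeff_iterate_derivative, nsmul_eq_mul, zero_add, Nat.descFactorial_self, pow_zero, mul_one,
        map_mul, hm1, mul_one]
      exact hn _ (Nat.factorial_ne_zero m)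
    rw [Valuation.map_add_eq_of_lt_right, e1]
    rw [e1]
    apply Valuation.map_sum_lt _ one_ne_zero
    intro i _
    rw [map_mul, map_pow, coeff_iterate_derivative, nsmul_eq_mul, map_mul]
    have e2 := hmgt (i + 1 + m) (by omega)
    calc v (((i + 1 + m).descFactorial m : ℕ) : L) * v (f1.coeff (i + 1 + m)) * v u ^ (i + 1)
        ≤ 1 * v (f1.coeff (i + 1 + m)) * 1 := by
          apply mul_le_mul' (mul_le_mul' (nat_le v hn _) le_rfl) (pow_le_one' hu _)
      _ < 1 := by rw [one_mul, mul_one]; exact e2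
  have hex : ∃ j, v ((derivative^[j] f1).eval u) = 1 := ⟨m, hPm⟩
  have hj := Nat.find_spec hex
  have hj0 : Nat.find hex ≠ 0 := by
    intro h
    rw [h, Function.iterate_zero, id, h1u, map_zero] at hj
    exact zero_ne_one hj
  obtain ⟨i, hi⟩ := Nat.exists_eq_succ_of_ne_zero hj0
  have hni := Nat.find_min hex (m := i) (by omega)
  refine ⟨derivative^[i] f1, hGc i, ?_, ?_⟩
  · exact lt_of_le_of_ne (eval_le v _ u hu fun n => (hGc i n).2) hni
  · rw [hi, Function.iterate_succ_apply'] at hj
    exact hj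

end Res

section DVR

variable {A F L V : Type} [CommRing A] [IsDomain A] [IsDiscreteValuationRing A] [Field F] [Algebra A F]
  [IsFractionRing A F] [Field L] [Algebra A L] [Algebra F L] [IsScalarTower A F L]
  [FiniteDimensional F L] [CommRing V] [IsDedekindDomain V] [Algebra A V] [Algebra V L]
  [IsScalarTower A V L] [IsFractionRing V L]

theorem A_le (P : HeightOneSpectrum V) (a : A) : P.valuation L (algebraMap A L a) ≤ 1 := by
  rw [IsScalarTower.algebraMap_apply A V L]
  exact P.valuation_le_one _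

theorem A_unit (P : HeightOneSpectrum V) (a : A) (ha : IsUnit a) :
    P.valuation L (algebraMap A L a) = 1 := by
  obtain ⟨b, hb⟩ := ha.exists_right_inv
  apply le_antisymm (A_le P a)
  have h1 : P.valuation L (algebraMap A L a) * P.valuation L (algebraMap A L b) = 1 := by
    rw [← map_mul, ← map_mul, hb, map_one, map_one]
  calc (1 : WithZero (Multiplicative ℤ)) = _ := h1.symm
    _ ≤ P.valuation L (algebraMap A L a) * 1 := mul_le_mul_right (A_le P b) _
    _ = _ := mul_one _

theorem h_lt [Algebra.IsIntegral A V] [FaithfulSMul A V] (P : HeightOneSpectrum V) (h : A)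
    (hh : IsLocalRing.maximalIdeal A = Ideal.span {h}) :
    P.valuation L (algebraMap A L h) < 1 := by
  rw [IsScalarTower.algebraMap_apply A V L, HeightOneSpectrum.valuation_lt_one_iff_mem]
  have hne : P.asIdeal.comap (algebraMap A V) ≠ ⊥ := by
    intro h0
    exact P.ne_bot (Ideal.eq_bot_of_comap_eq_bot (R := A) h0)
  have hp : (P.asIdeal.comap (algebraMap A V)).IsPrime := Ideal.comap_isPrime _ _
  have hm : (P.asIdeal.comap (algebraMap A V)).IsMaximal :=
    Ring.DimensionLEOne.maximalOfPrime hne hp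
  have he := IsLocalRing.eq_maximalIdeal hm
  have : h ∈ P.asIdeal.comap (algebraMap A V) := by
    rw [he, hh]
    exact Ideal.mem_span_singleton_self h
  exact this

/-- `v(D a) ≤ v(a)` on `A` -/
theorem log_A (P : HeightOneSpectrum V) (h : A)
    (hh : IsLocalRing.maximalIdeal A = Ideal.span {h}) (D : Derivation ℤ L L)
    (hDA : ∀ a : A, ∃ b, D (algebraMap A L a) = algebraMap A L b)
    (hDh : ∃ b, D (algebraMap A L h) = algebraMap A L (h * b)) (a : A) :
    P.valuation L (D (algebraMap A L a)) ≤ P.valuation L (algebraMap A L a) := by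
  rcases eq_or_ne a 0 with rfl | ha
  · simp
  have hirr : Irreducible h := (IsDiscreteValuationRing.irreducible_iff_uniformizer h).mpr hh
  obtain ⟨n, w, hw⟩ := IsDiscreteValuationRing.eq_unit_mul_pow_irreducible ha hirr
  have hpow : ∀ n : ℕ, ∃ b, D (algebraMap A L (h ^ n)) = algebraMap A L (h ^ n * b) := by
    intro n
    induction n with
    | zero => exact ⟨0, by simp⟩
    | succ n ih =>
      obtain ⟨b, hb⟩ := ih
      obtain ⟨b', hb'⟩ := hDh
      refine ⟨b + b', ?_⟩
      rw [pow_succ, map_mul, Derivation.leibniz, hb, hb', smul_eq_mul, smul_eq_mul]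
      simp only [map_mul, map_add]
      ring
  obtain ⟨b, hb⟩ := hpow n
  obtain ⟨c, hc⟩ := hDA (w : A)
  have e1 : D (algebraMap A L a) = algebraMap A L (h ^ n) * algebraMap A L (w * b + c) := by
    rw [hw, map_mul, Derivation.leibniz, hb, hc, smul_eq_mul, smul_eq_mul]
    simp only [map_mul, map_add]
    ring
  rw [e1, hw, map_mul, map_mul, map_mul, A_unit P (w : A) w.isUnit, one_mul]
  calc _ ≤ P.valuation L (algebraMap A L (h ^ n)) * 1 := mul_le_mul_right (A_le P _) _
    _ = _ := mul_one _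

/-- `v(D r) ≤ v(r)` on `F` -/
theorem log_F (P : HeightOneSpectrum V) (h : A)
    (hh : IsLocalRing.maximalIdeal A = Ideal.span {h}) (D : Derivation ℤ L L)
    (hDA : ∀ a : A, ∃ b, D (algebraMap A L a) = algebraMap A L b)
    (hDh : ∃ b, D (algebraMap A L h) = algebraMap A L (h * b)) (r : L)
    (hr : r ∈ (algebraMap F L).fieldRange) :
    P.valuation L (D r) ≤ P.valuation L r := by
  obtain ⟨r, rfl⟩ := hr
  obtain ⟨a, b, hb, rfl⟩ := IsFractionRing.div_surjective (A := A) r
  have hb0 : algebraMap A L b ≠ 0 := by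
    rw [IsScalarTower.algebraMap_apply A F L]
    intro h0
    rw [map_eq_zero] at h0
    exact nonZeroDivisors.ne_zero hb ((IsFractionRing.to_map_eq_zero_iff).mp h0)
  rw [map_div₀, ← IsScalarTower.algebraMap_apply, ← IsScalarTower.algebraMap_apply,
    Derivation.leibniz_div]
  have h1 := log_A P h hh D hDA hDh a
  have h2 := log_A P h hh D hDA hDh b
  obtain ⟨x, hx⟩ : ∃ x, x = algebraMap A L a := ⟨_, rfl⟩
  obtain ⟨y, hy⟩ : ∃ y, y = algebraMap A L b := ⟨_, rfl⟩
  rw [← hx] at h1 ⊢
  rw [← hy] at h2 hb0 ⊢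
  have hvy : P.valuation L y ≠ 0 := (Valuation.ne_zero_iff _).mpr hb0
  rw [smul_eq_mul, map_mul, map_pow, map_inv₀, map_div₀, smul_eq_mul, smul_eq_mul]
  have h3 : P.valuation L (y * D x - x * D y) ≤ P.valuation L y * P.valuation L x := by
    apply Valuation.map_sub_le
    · rw [map_mul]; exact mul_le_mul_right h1 _
    · rw [map_mul, mul_comm (P.valuation L y)]; exact mul_le_mul_right h2 _
  calc (P.valuation L y)⁻¹ ^ 2 * P.valuation L (y * D x - x * D y)
      ≤ (P.valuation L y)⁻¹ ^ 2 * (P.valuation L y * P.valuation L x) := mul_le_mul_right h3 _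
    _ = P.valuation L x / P.valuation L y := by
        rw [div_eq_mul_inv, pow_two]
        calc _ = (P.valuation L y)⁻¹ * ((P.valuation L y)⁻¹ * P.valuation L y) * P.valuation L x := by
              simp only [mul_assoc]
          _ = _ := by rw [inv_mul_cancel₀ hvy, mul_one, mul_comm]

/-- elements of `F` with `v ≤ 1` are in `A` -/
theorem mem_A [Algebra.IsIntegral A V] [FaithfulSMul A V] (P : HeightOneSpectrum V) (h : A)
    (hh : IsLocalRing.maximalIdeal A = Ideal.span {h}) (r : F)
    (hr : P.valuation L (algebraMap F L r) ≤ 1) : ∃ a : A, algebraMap A F a = r := by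
  rcases eq_or_ne r 0 with rfl | hr0
  · exact ⟨0, map_zero _⟩
  rcases ValuationRing.isInteger_or_isInteger A r with ⟨a, ha⟩ | ⟨a, ha⟩
  · exact ⟨a, ha⟩
  · by_cases hu : IsUnit a
    · obtain ⟨b, hb⟩ := hu.exists_right_inv
      refine ⟨b, ?_⟩
      have h1 : algebraMap A F a * algebraMap A F b = 1 := by rw [← map_mul, hb, map_one]
      rw [ha] at h1
      exact ((inv_mul_eq_one₀ hr0).mp h1).symm
    · exfalso
      have hm : a ∈ IsLocalRing.maximalIdeal A := hu
      rw [hh, Ideal.mem_span_singleton] at hm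
      obtain ⟨b, rfl⟩ := hm
      have h2 : P.valuation L (algebraMap A L (h * b)) < 1 := by
        rw [map_mul, map_mul]
        calc _ ≤ P.valuation L (algebraMap A L h) * 1 := mul_le_mul_right (A_le P b) _
          _ = P.valuation L (algebraMap A L h) := mul_one _
          _ < 1 := h_lt P h hh
      rw [IsScalarTower.algebraMap_apply A F L, ha, map_inv₀, map_inv₀] at h2
      have hv0 : P.valuation L (algebraMap F L r) ≠ 0 := by
        rw [Valuation.ne_zero_iff]
        simpa using hr0
      have h3 : (1 : WithZero (Multiplicative ℤ)) < P.valuation L (algebraMap F L r) := by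
        rw [inv_lt_one₀ (zero_lt_iff.mpr hv0)] at h2
        exact h2
      exact absurd hr (not_le.mpr h3)

/-- the bound: `D` loses at most a constant -/
theorem bound [Module.Finite A V] (P : HeightOneSpectrum V) (hn : ∀ n : ℤ, P.valuation L (n : L) ≤ 1)
    (D : Derivation ℤ L L) (hDA : ∀ a : A, ∃ b, D (algebraMap A L a) = algebraMap A L b) :
    ∃ c : WithZero (Multiplicative ℤ), c ≠ 0 ∧ ∀ x, P.valuation L (D x) ≤ c * P.valuation L x := by
  classical
  -- step 1: on `V`
  obtain ⟨C, hC1, hC⟩ : ∃ C : WithZero (Multiplicative ℤ), 1 ≤ C ∧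
      ∀ z : V, P.valuation L (D (algebraMap V L z)) ≤ C := by
    obtain ⟨S, hS⟩ := Module.Finite.fg_top (R := A) (M := V)
    obtain ⟨C, hC1, hC⟩ : ∃ C : WithZero (Multiplicative ℤ), 1 ≤ C ∧
        ∀ z ∈ S, P.valuation L (D (algebraMap V L z)) ≤ C := by
      clear hS
      induction S using Finset.induction_on with
      | empty => exact ⟨1, le_rfl, by simp⟩
      | insert z S _ ih =>
        obtain ⟨C, h1, h2⟩ := ih
        refine ⟨max C (P.valuation L (D (algebraMap V L z))), le_max_of_le_left h1, ?_⟩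
        intro w hw
        rcases Finset.mem_insert.mp hw with rfl | hw
        · exact le_max_right _ _
        · exact (h2 w hw).trans (le_max_left _ _)
    refine ⟨C, hC1, fun z => ?_⟩
    have hz : z ∈ Submodule.span A (S : Set V) := by rw [hS]; exact Submodule.mem_top
    induction hz using Submodule.span_induction with
    | mem x hx => exact hC x hx
    | zero => simp
    | add x y _ _ hx hy =>
      rw [map_add, map_add]
      exact Valuation.map_add_le _ hx hy
    | smul a x _ hx =>
      rw [Algebra.smul_def, map_mul, ← IsScalarTower.algebraMap_apply, Derivation.leibniz]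
      apply Valuation.map_add_le
      · rw [smul_eq_mul, map_mul]
        calc _ ≤ 1 * C := mul_le_mul' (A_le P a) hx
          _ = C := one_mul _
      · obtain ⟨b, hb⟩ := hDA a
        rw [smul_eq_mul, hb, map_mul]
        calc _ ≤ (1 : WithZero (Multiplicative ℤ)) * 1 := mul_le_mul' (P.valuation_le_one _) (A_le P b)
          _ ≤ C := by rw [one_mul]; exact hC1
  -- step 2: on the valuation ring
  have hV : ∀ x, P.valuation L x ≤ 1 → P.valuation L (D x) ≤ C := by
    intro x hx
    obtain ⟨n, d, hnd⟩ := P.exists_primeCompl_mul_eq_of_integer (K := L) x hx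
    have hd : P.valuation L (algebraMap V L d) = 1 := by
      rw [HeightOneSpectrum.valuation_eq_one_iff_notMem]
      exact d.2
    have h1 : D x * algebraMap V L d = D (algebraMap V L n) - x * D (algebraMap V L d) := by
      rw [← hnd, Derivation.leibniz, smul_eq_mul, smul_eq_mul]
      ring
    have h2 : P.valuation L (D x) = P.valuation L (D x * algebraMap V L d) := by
      rw [map_mul, hd, mul_one]
    rw [h2, h1]
    apply Valuation.map_sub_le _ (hC n)
    rw [map_mul]
    calc _ ≤ 1 * C := mul_le_mul' hx (hC _)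
      _ = C := one_mul _
  -- step 3
  obtain ⟨t, ht⟩ := P.valuation_exists_uniformizer L
  have hvt : P.valuation L t ≠ 0 := by rw [ht]; exact WithZero.exp_ne_zero
  have ht0 : t ≠ 0 := (Valuation.ne_zero_iff _).mp hvt
  have ht1 : P.valuation L t ≤ 1 := by
    rw [ht, ← WithZero.exp_zero, WithZero.exp_le_exp]; norm_num
  have hCt : C ≤ C * (P.valuation L t)⁻¹ := by
    have : (1 : WithZero (Multiplicative ℤ)) ≤ (P.valuation L t)⁻¹ := by
      rw [one_le_inv₀ (zero_lt_iff.mpr hvt)]; exact ht1
    calc C = C * 1 := (mul_one _).symm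
      _ ≤ _ := mul_le_mul_right this _
  refine ⟨C * (P.valuation L t)⁻¹, mul_ne_zero (by
    intro h; rw [h] at hC1; exact absurd hC1 (by simp)) (inv_ne_zero hvt), fun x => ?_⟩
  rcases eq_or_ne x 0 with rfl | hx0
  · simp
  have hvx : P.valuation L x ≠ 0 := (Valuation.ne_zero_iff _).mpr hx0
  obtain ⟨n, hn'⟩ : ∃ n : ℤ, P.valuation L x = P.valuation L (t ^ n) := by
    refine ⟨-(WithZero.log (P.valuation L x)), ?_⟩
    rw [map_zpow₀, ht, ← WithZero.exp_zsmul]
    simp [WithZero.exp_log hvx]
  obtain ⟨u, hu⟩ : ∃ u, u = x * (t ^ n)⁻¹ := ⟨_, rfl⟩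
  have htn : t ^ n ≠ 0 := zpow_ne_zero _ ht0
  have hxu : x = t ^ n * u := by rw [hu]; field_simp
  have hvu : P.valuation L u = 1 := by
    rw [hu, map_mul, hn', map_inv₀]
    exact mul_inv_cancel₀ (by rw [← hn']; exact hvx)
  conv_lhs => rw [hxu, Derivation.leibniz, smul_eq_mul, smul_eq_mul, Derivation.leibniz_zpow]
  apply Valuation.map_add_le
  · rw [map_mul, ← hn', mul_comm]
    exact mul_le_mul_left (le_trans (hV u hvu.le) hCt) _
  · rw [map_mul, hvu, one_mul, zsmul_eq_mul, smul_eq_mul, zpow_sub_one₀ ht0, map_mul, map_mul, map_mul,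
      ← hn', map_inv₀]
    calc P.valuation L (n : L) * (P.valuation L x * (P.valuation L t)⁻¹ * P.valuation L (D t))
        ≤ 1 * (P.valuation L x * (P.valuation L t)⁻¹ * C) :=
          mul_le_mul' (hn n) (mul_le_mul_right (hV t ht1) _)
      _ = _ := by
        rw [one_mul, mul_comm (P.valuation L x), mul_assoc, mul_comm (P.valuation L x), ← mul_assoc,
          mul_comm _ C]

variable (F) in
include F in
/-- log derivations -/
theorem log (hTRV : SpecTRV) [Algebra.IsIntegral A V] [FaithfulSMul A V] [Module.Finite A V]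
    (P : HeightOneSpectrum V) (h : A) (hh : IsLocalRing.maximalIdeal A = Ideal.span {h})
    (hQ : ∀ n : ℕ, n ≠ 0 → IsUnit (n : A)) (D : Derivation ℤ L L)
    (hDA : ∀ a : A, ∃ b, D (algebraMap A L a) = algebraMap A L b)
    (hDh : ∃ b, D (algebraMap A L h) = algebraMap A L (h * b)) :
    (∀ x, P.valuation L (D x) ≤ P.valuation L x) ∧
    ((∀ a : A, ∃ b, D (algebraMap A L a) = algebraMap A L (h * b)) →
      ∀ x, P.valuation L x ≤ 1 → P.valuation L (D x) < 1) := by
  have hn : ∀ n : ℕ, n ≠ 0 → P.valuation L (n : L) = 1 := by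
    intro n hn
    have := A_unit (L := L) P (n : A) (hQ n hn)
    rwa [map_natCast] at this
  have hnz : ∀ n : ℤ, P.valuation L (n : L) ≤ 1 := by
    intro n
    have := A_le (L := L) P (n : A)
    rwa [map_intCast] at this
  obtain ⟨c, hc0, hc⟩ := bound (A := A) P hnz D hDA
  obtain ⟨t, ht⟩ := P.valuation_exists_uniformizer L
  have hh0 : h ≠ 0 := by
    rintro rfl
    rw [Ideal.span_singleton_eq_bot.mpr rfl] at hh
    exact IsDiscreteValuationRing.not_a_field A hh
  have hhL : algebraMap A L h ≠ 0 := by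
    rw [IsScalarTower.algebraMap_apply A F L]
    intro h0
    rw [map_eq_zero] at h0
    exact hh0 ((IsFractionRing.to_map_eq_zero_iff).mp h0)
  have hK : ∀ a : A, algebraMap A L a ∈ (algebraMap F L).fieldRange := fun a => by
    rw [IsScalarTower.algebraMap_apply A F L]
    exact ⟨_, rfl⟩
  have key := hTRV L inferInstance (P.valuation L) (algebraMap F L).fieldRange D t (algebraMap A L h) c
    hn ht (fun r hr => log_F (A := A) (F := F) P h hh D hDA hDh r hr) (fun u hu => by
      have hint : IsIntegral F u := Algebra.IsIntegral.isIntegral u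
      refine res (P.valuation L) (algebraMap F L).fieldRange hn u hu.le
        ((minpoly F u).map (algebraMap F L)) ?_ ?_ ?_
      · rw [Polynomial.map_ne_zero_iff (algebraMap F L).injective]
        exact minpoly.ne_zero hint
      · intro n
        rw [Polynomial.coeff_map]
        exact ⟨_, rfl⟩
      · rw [Polynomial.eval_map_algebraMap, minpoly.aeval])
    (hK h) hhL (h_lt P h hh) hc0 hc
  refine ⟨key.1, fun hD => key.2 ?_⟩
  rintro r ⟨r, rfl⟩ hr
  obtain ⟨a, rfl⟩ := mem_A (A := A) P h hh r hr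
  rw [← IsScalarTower.algebraMap_apply]
  obtain ⟨b, hb⟩ := hD a
  rw [hb, map_mul, map_mul]
  calc _ ≤ P.valuation L (algebraMap A L h) * 1 := mul_le_mul_right (A_le P b) _
    _ = P.valuation L (algebraMap A L h) := mul_one _
    _ < 1 := h_lt P h hh

/-- the trace of an element of the Jacobson radical -/
theorem trc [CharZero F] [FaithfulSMul A V] [Module.Finite A V] [IsIntegralClosure V A L]
    (h : A) (hh : IsLocalRing.maximalIdeal A = Ideal.span {h}) (y : L)
    (hy : ∀ P : HeightOneSpectrum V, P.valuation L y < 1) :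
    ∃ a : A, Algebra.trace F L y = algebraMap A F (h * a) := by
  have hh0 : h ≠ 0 := by
    rintro rfl
    rw [Ideal.span_singleton_eq_bot.mpr rfl] at hh
    exact IsDiscreteValuationRing.not_a_field A hh
  have hhV : algebraMap A V h ≠ 0 := by
    intro h0
    exact hh0 (FaithfulSMul.algebraMap_injective A V (by rw [h0, map_zero]))
  obtain ⟨z, rfl⟩ := HeightOneSpectrum.mem_integers_of_valuation_le_one L y (fun P => (hy P).le)
  have hrad : z ∈ (Ideal.span {algebraMap A V h}).radical := by
    rw [Ideal.radical_eq_sInf, Submodule.mem_sInf]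
    rintro J ⟨hJ1, hJ2⟩
    have hJh : algebraMap A V h ∈ J := hJ1 (Ideal.mem_span_singleton_self _)
    have hJ0 : J ≠ ⊥ := by
      rintro rfl
      exact hhV (Ideal.mem_bot.mp hJh)
    have := hy ⟨J, hJ2, hJ0⟩
    rw [HeightOneSpectrum.valuation_lt_one_iff_mem] at this
    exact this
  obtain ⟨m, hm⟩ := hrad
  have hnil : IsNilpotent (Ideal.Quotient.mk
      (Ideal.map (algebraMap A V) (IsLocalRing.maximalIdeal A)) z) := by
    refine ⟨m, ?_⟩
    rw [← map_pow, Ideal.Quotient.eq_zero_iff_mem, hh, Ideal.map_span, Set.image_singleton]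
    exact hm
  have : Module.IsTorsionFree A V := inferInstance
  have hfree : Module.Free A V := inferInstance
  have h1 := Algebra.trace_quotient_mk (R := A) (S := V) z
  have h2 : Algebra.trace (A ⧸ IsLocalRing.maximalIdeal A)
      (V ⧸ Ideal.map (algebraMap A V) (IsLocalRing.maximalIdeal A))
      (Ideal.Quotient.mk (Ideal.map (algebraMap A V) (IsLocalRing.maximalIdeal A)) z) = 0 := by
    have h3 := hnil.map (Algebra.lmul (A ⧸ IsLocalRing.maximalIdeal A)
      (V ⧸ Ideal.map (algebraMap A V) (IsLocalRing.maximalIdeal A)))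
    have h4 := LinearMap.isNilpotent_trace_of_isNilpotent h3
    exact h4.eq_zero
  rw [h2] at h1
  have h5 : Algebra.trace A V z ∈ IsLocalRing.maximalIdeal A :=
    Ideal.Quotient.eq_zero_iff_mem.mp h1.symm
  rw [hh, Ideal.mem_span_singleton] at h5
  obtain ⟨a, ha⟩ := h5
  refine ⟨a, ?_⟩
  have : IsLocalization (Algebra.algebraMapSubmonoid V (nonZeroDivisors A)) L :=
    IsIntegralClosure.isLocalization A F L V
  rw [Algebra.trace_localization A (nonZeroDivisors A) z, ha]

end DVR

end TRHM

end Pool.Agent.Lib.MPc9b009.B5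
end

section
/-!
# MP_c9b009_ag, row B5, module TRH: the trace of a Jacobian is integral at a prime element
-/
set_option autoImplicit false

namespace Pool.Agent.Lib.MPc9b009.B5

namespace TRHM

open MvPolynomial IsDedekindDomain

section Poly

variable {σ : Type}

theorem exb0 (h : MvPolynomial σ ℂ) (hh : Prime h) : ∃ b, ¬ h ∣ pderiv b h := by
  classical
  by_contra hcon
  push Not at hcon
  have hh0 : h ≠ 0 := hh.ne_zero
  have htot : h.totalDegree ≠ 0 := by
    intro h0
    rw [totalDegree_eq_zero_iff_eq_C] at h0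
    have hc : coeff 0 h ≠ 0 := by
      intro hc
      rw [hc, map_zero] at h0
      exact hh0 h0
    apply hh.not_isUnit
    rw [h0]
    exact (isUnit_iff_ne_zero.mpr hc).map C
  obtain ⟨m, hm, hmd⟩ : ∃ m ∈ h.support, (m.sum fun _ e => e) ≠ 0 := by
    by_contra hc
    push Not at hc
    apply htot
    unfold totalDegree
    exact le_antisymm (Finset.sup_le fun m hm => (hc m hm).le) (Nat.zero_le _)
  obtain ⟨i, hi⟩ : ∃ i, m i ≠ 0 := by
    by_contra hc
    push Not at hc
    apply hmd
    have : m = 0 := Finsupp.ext hc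
    rw [this, Finsupp.sum_zero_index]
  have hmi : m = (m - Finsupp.single i 1) + Finsupp.single i 1 := by
    ext j
    rw [Finsupp.add_apply, Finsupp.tsub_apply]
    by_cases hj : i = j
    · subst hj
      rw [Finsupp.single_eq_same]
      omega
    · rw [Finsupp.single_eq_of_ne (Ne.symm hj)]
      omega
  have hpd : pderiv i h ≠ 0 := by
    intro h0
    have h1 := coeff_pderiv (i := i) h (m - Finsupp.single i 1)
    rw [h0, coeff_zero, ← hmi] at h1
    have h2 : coeff m h ≠ 0 := mem_support_iff.mp hm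
    have h3 : ∀ k : ℕ, (k : ℂ) + 1 ≠ 0 := fun k => Nat.cast_add_one_ne_zero _
    rcases mul_eq_zero.mp h1.symm with h4 | h4
    · exact h2 h4
    · exact h3 _ h4
  obtain ⟨q, hq⟩ := hcon i
  have hq0 : q ≠ 0 := by
    rintro rfl
    rw [mul_zero] at hq
    exact hpd hq
  have h1 : (pderiv i h).totalDegree = h.totalDegree + q.totalDegree := by
    rw [hq]
    exact totalDegree_mul_of_isDomain hh0 hq0
  have h2 : (pderiv i h).totalDegree ≤ h.totalDegree - 1 := by
    unfold totalDegree
    apply Finset.sup_le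
    intro m' hm'
    rw [mem_support_iff, coeff_pderiv] at hm'
    have h3 : coeff (m' + Finsupp.single i 1) h ≠ 0 := by
      intro h0
      rw [h0] at hm'
      simp at hm'
    have h4 := Finset.le_sup (f := fun s : σ →₀ ℕ => s.sum fun _ e => e) (mem_support_iff.mpr h3)
    have h5 : ((m' + Finsupp.single i 1).sum fun _ e => e) = (m'.sum fun _ e => e) + 1 := by
      rw [Finsupp.sum_add_index' (fun _ => rfl) (fun _ _ _ => rfl), Finsupp.sum_single_index rfl]
    rw [h5] at h4
    omega
  omega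

/-- the localization at a prime element is a discrete valuation ring -/
theorem dvr [Finite σ] (h : MvPolynomial σ ℂ) (hh : Prime h) [(Ideal.span {h}).IsPrime] (A : Type)
    [CommRing A] [IsDomain A] [Algebra (MvPolynomial σ ℂ) A] [FaithfulSMul (MvPolynomial σ ℂ) A]
    [IsLocalization.AtPrime A (Ideal.span {h})] :
    ∃ _ : IsDiscreteValuationRing A,
      IsLocalRing.maximalIdeal A = Ideal.span {algebraMap (MvPolynomial σ ℂ) A h} := by
  have hloc : IsLocalRing A := IsLocalization.AtPrime.isLocalRing A (Ideal.span {h})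
  have hnoe : IsNoetherianRing A :=
    IsLocalization.isNoetherianRing (Ideal.span {h}).primeCompl A inferInstance
  have hmax : IsLocalRing.maximalIdeal A = Ideal.span {algebraMap (MvPolynomial σ ℂ) A h} := by
    rw [← IsLocalization.AtPrime.map_eq_maximalIdeal (Ideal.span {h}) A, Ideal.map_span,
      Set.image_singleton]
  have hne : algebraMap (MvPolynomial σ ℂ) A h ≠ 0 := by
    intro h0
    exact hh.ne_zero (FaithfulSMul.algebraMap_injective (MvPolynomial σ ℂ) A (by rw [h0, map_zero]))
  have hfield : ¬ IsField A := by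
    rw [IsLocalRing.isField_iff_maximalIdeal_eq, hmax, Ideal.span_singleton_eq_bot]
    exact hne
  have hd : IsDiscreteValuationRing A :=
    ((IsDiscreteValuationRing.TFAE A hfield).out 4 0).mp
      (⟨⟨_, hmax⟩⟩ : (IsLocalRing.maximalIdeal A).IsPrincipal)
  exact ⟨hd, hmax⟩

end Poly

section Main

variable {σ : Type} [Fintype σ] [DecidableEq σ] {L : Type} [Field L] [Algebra (MvPolynomial σ ℂ) L]
  [Algebra ℂ L] [IsScalarTower ℂ (MvPolynomial σ ℂ) L]

omit [Fintype σ] in
theorem dd_poly (dd : σ → Derivation ℂ L L)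
    (hdd : ∀ b c, dd b (algebraMap (MvPolynomial σ ℂ) L (X c)) = if b = c then 1 else 0) (b : σ)
    (p : MvPolynomial σ ℂ) :
    dd b (algebraMap (MvPolynomial σ ℂ) L p) = algebraMap (MvPolynomial σ ℂ) L (pderiv b p) := by
  induction p using MvPolynomial.induction_on with
  | C a =>
    rw [pderiv_C, map_zero, ← algebraMap_eq, ← IsScalarTower.algebraMap_apply, Derivation.map_algebraMap]
  | add p q hp hq => rw [map_add, map_add, hp, hq, map_add, map_add]
  | mul_X p i hp =>
    rw [map_mul, Derivation.leibniz, hp, hdd, pderiv_mul, pderiv_X, map_add, map_mul, map_mul,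
      smul_eq_mul, smul_eq_mul]
    by_cases hbi : b = i
    · subst hbi
      simp
      ring
    · rw [if_neg hbi, Pi.single_eq_of_ne (fun h => hbi h.symm)]
      simp
      ring

variable {A F V : Type} [CommRing A] [IsDomain A] [Algebra (MvPolynomial σ ℂ) A] [Algebra A L]
  [IsScalarTower (MvPolynomial σ ℂ) A L]

omit [Fintype σ] [DecidableEq σ] [Algebra ℂ L] [IsScalarTower ℂ (MvPolynomial σ ℂ) L] [IsDomain A] in
/-- derivations which map `R` to an ideal `J` of `A` map `A` to `J` -/
theorem D_A (S : Submonoid (MvPolynomial σ ℂ)) [IsLocalization S A] (J : Ideal A)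
    (D : Derivation ℤ L L)
    (hD : ∀ p, ∃ b ∈ J, D (algebraMap (MvPolynomial σ ℂ) L p) = algebraMap A L b) (a : A) :
    ∃ b ∈ J, D (algebraMap A L a) = algebraMap A L b := by
  obtain ⟨⟨p, s⟩, hps⟩ := IsLocalization.surj S a
  simp only at hps
  obtain ⟨bp, hbp, hbp'⟩ := hD p
  obtain ⟨bs, hbs, hbs'⟩ := hD s
  have hs : IsUnit (algebraMap (MvPolynomial σ ℂ) A s) := IsLocalization.map_units A s
  obtain ⟨t, ht⟩ := hs.exists_right_inv
  refine ⟨(bp - a * bs) * t, J.mul_mem_right t (J.sub_mem hbp (J.mul_mem_left a hbs)), ?_⟩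
  have h1 : algebraMap A L a * algebraMap (MvPolynomial σ ℂ) L s = algebraMap (MvPolynomial σ ℂ) L p := by
    rw [IsScalarTower.algebraMap_apply (MvPolynomial σ ℂ) A L,
      IsScalarTower.algebraMap_apply (MvPolynomial σ ℂ) A L, ← map_mul, hps]
  have h2 := congrArg D h1
  rw [Derivation.leibniz, hbp', hbs', smul_eq_mul, smul_eq_mul] at h2
  have h3 : algebraMap (MvPolynomial σ ℂ) L s * algebraMap A L t = 1 := by
    rw [IsScalarTower.algebraMap_apply (MvPolynomial σ ℂ) A L, ← map_mul, ht, map_one]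
  rw [map_mul, map_sub, map_mul, ← h2]
  calc D (algebraMap A L a) = D (algebraMap A L a) * (algebraMap (MvPolynomial σ ℂ) L s * algebraMap A L t) := by
        rw [h3, mul_one]
    _ = _ := by ring

end Main

section Fin

variable {σ : Type} [Fintype σ] [DecidableEq σ] {L F A V : Type} [Field L]
  [Algebra (MvPolynomial σ ℂ) L] [Algebra ℂ L] [IsScalarTower ℂ (MvPolynomial σ ℂ) L]
  [Field F] [Algebra (MvPolynomial σ ℂ) F] [Algebra F L] [IsScalarTower (MvPolynomial σ ℂ) F L]
  [FiniteDimensional F L] [CharZero F] [CommRing A] [IsDomain A] [IsDiscreteValuationRing A]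
  [Algebra (MvPolynomial σ ℂ) A] [Algebra A F] [IsScalarTower (MvPolynomial σ ℂ) A F]
  [IsFractionRing A F] [Algebra A L] [IsScalarTower A F L] [IsScalarTower (MvPolynomial σ ℂ) A L]
  [CommRing V] [IsDedekindDomain V] [Algebra A V] [Algebra V L] [IsScalarTower A V L]
  [IsFractionRing V L] [IsIntegralClosure V A L] [Module.Finite A V] [Algebra.IsIntegral A V]
  [FaithfulSMul A V]

theorem det_lt {Γ : Type} [LinearOrderedCommGroupWithZero Γ] (v : Valuation L Γ)
    (hnz : ∀ n : ℤ, v (n : L) ≤ 1) (N : Matrix σ σ L) (b0 : σ) (hN : ∀ b c, v (N b c) ≤ 1)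
    (hN0 : ∀ c, v (N b0 c) < 1) : v N.det < 1 := by
  rw [Matrix.det_apply']
  apply Valuation.map_sum_lt _ one_ne_zero
  intro τ _
  rw [map_mul, map_prod, ← Finset.mul_prod_erase Finset.univ _ (Finset.mem_univ (τ⁻¹ b0))]
  have h1 : v (N (τ (τ⁻¹ b0)) (τ⁻¹ b0)) < 1 := by
    have h0 : τ (τ⁻¹ b0) = b0 := by simp
    rw [h0]
    exact hN0 _
  have h2 : ∏ i ∈ Finset.univ.erase (τ⁻¹ b0), v (N (τ i) i) ≤ 1 := Finset.prod_le_one' fun i _ => hN _ _
  have h3 : v (((Equiv.Perm.sign τ : ℤˣ) : ℤ) : L) ≤ 1 := hnz _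
  calc v (((Equiv.Perm.sign τ : ℤˣ) : ℤ) : L) * (v (N (τ (τ⁻¹ b0)) (τ⁻¹ b0)) *
        ∏ i ∈ Finset.univ.erase (τ⁻¹ b0), v (N (τ i) i))
      ≤ 1 * (v (N (τ (τ⁻¹ b0)) (τ⁻¹ b0)) * 1) := mul_le_mul' h3 (mul_le_mul_right h2 _)
    _ < 1 := by rw [one_mul, mul_one]; exact h1

variable (V) in
include V in
theorem main (hTRV : SpecTRV) (S : Submonoid (MvPolynomial σ ℂ)) [IsLocalization S A]
    (h : MvPolynomial σ ℂ)
    (hh : IsLocalRing.maximalIdeal A = Ideal.span {algebraMap (MvPolynomial σ ℂ) A h})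
    (b0 : σ) (hb0 : IsUnit (algebraMap (MvPolynomial σ ℂ) A (pderiv b0 h)))
    (dd : σ → Derivation ℂ L L)
    (hdd : ∀ b c, dd b (algebraMap (MvPolynomial σ ℂ) L (X c)) = if b = c then 1 else 0)
    (a : L) (ha : IsIntegral (MvPolynomial σ ℂ) a) (x : σ → L)
    (hx : ∀ c, IsIntegral (MvPolynomial σ ℂ) (x c)) :
    ∃ α : A, Algebra.trace F L (a * (Matrix.of fun c b => dd b (x c)).det) = algebraMap A F α := by
  have hQ : ∀ n : ℕ, n ≠ 0 → IsUnit (n : A) := by
    intro n hn
    have h1 : IsUnit (n : ℂ) := isUnit_iff_ne_zero.mpr (Nat.cast_ne_zero.mpr hn)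
    have h2 := h1.map ((algebraMap (MvPolynomial σ ℂ) A).comp (algebraMap ℂ (MvPolynomial σ ℂ)))
    rwa [map_natCast] at h2
  have hh0 : algebraMap (MvPolynomial σ ℂ) A h ≠ 0 := by
    intro h0
    rw [h0, Ideal.span_singleton_eq_bot.mpr rfl] at hh
    exact IsDiscreteValuationRing.not_a_field A hh
  have hF0 : algebraMap (MvPolynomial σ ℂ) F h ≠ 0 := by
    rw [IsScalarTower.algebraMap_apply (MvPolynomial σ ℂ) A F]
    intro h0
    exact hh0 ((IsFractionRing.to_map_eq_zero_iff).mp h0)
  have tow : ∀ p, algebraMap (MvPolynomial σ ℂ) L p = algebraMap A L (algebraMap (MvPolynomial σ ℂ) A p) :=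
    fun p => IsScalarTower.algebraMap_apply _ _ _ _
  obtain ⟨u, hu⟩ := hb0.exists_right_inv
  have huL : algebraMap (MvPolynomial σ ℂ) L (pderiv b0 h) * algebraMap A L u = 1 := by
    rw [tow, ← map_mul, hu, map_one]
  have hdp := dd_poly dd hdd
  -- the derivations
  obtain ⟨Dh, hDh⟩ : ∃ Dh : Derivation ℂ L L,
      Dh = (algebraMap (MvPolynomial σ ℂ) L h * algebraMap A L u) • dd b0 := ⟨_, rfl⟩
  obtain ⟨Db, hDb⟩ : ∃ Db : σ → Derivation ℂ L L, Db = fun b =>
      dd b - (algebraMap (MvPolynomial σ ℂ) L (pderiv b h) * algebraMap A L u) • dd b0 := ⟨_, rfl⟩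
  have hDhx : ∀ z, Dh z = algebraMap (MvPolynomial σ ℂ) L h * algebraMap A L u * dd b0 z := by
    intro z; rw [hDh]; rfl
  have hDbx : ∀ b z, Db b z = dd b z -
      algebraMap (MvPolynomial σ ℂ) L (pderiv b h) * algebraMap A L u * dd b0 z := by
    intro b z; rw [hDb]; rfl
  have hJh : ∀ z : A, ∃ w, Dh (algebraMap A L z) =
      algebraMap A L (algebraMap (MvPolynomial σ ℂ) A h * w) := by
    intro z
    obtain ⟨w, hw, hw'⟩ := D_A S (Ideal.span {algebraMap (MvPolynomial σ ℂ) A h}) (Dh.restrictScalars ℤ)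
      (fun p => ⟨algebraMap (MvPolynomial σ ℂ) A h * (u * algebraMap (MvPolynomial σ ℂ) A (pderiv b0 p)),
        Ideal.mul_mem_right _ _ (Ideal.mem_span_singleton_self _), by
          change Dh _ = _
          rw [hDhx, hdp, map_mul, map_mul, ← tow, ← tow, mul_assoc]⟩) z
    obtain ⟨w', rfl⟩ := Ideal.mem_span_singleton.mp hw
    exact ⟨w', hw'⟩
  have hJb : ∀ b, ∀ z : A, ∃ w, Db b (algebraMap A L z) = algebraMap A L w := by
    intro b z
    obtain ⟨w, hw, hw'⟩ := D_A S (⊤ : Ideal A) ((Db b).restrictScalars ℤ)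
      (fun p => ⟨algebraMap (MvPolynomial σ ℂ) A (pderiv b p) -
        algebraMap (MvPolynomial σ ℂ) A (pderiv b h) * u * algebraMap (MvPolynomial σ ℂ) A (pderiv b0 p),
        Submodule.mem_top, by
          change Db b _ = _
          rw [hDbx, hdp, hdp, map_sub, map_mul, map_mul, ← tow, ← tow, ← tow]⟩) z
    exact ⟨w, hw'⟩
  have hbh : ∀ b, Db b (algebraMap (MvPolynomial σ ℂ) L h) = 0 := by
    intro b
    rw [hDbx, hdp, hdp, mul_assoc, mul_comm (algebraMap A L u), huL, mul_one, sub_self]
  have logh : ∀ P : HeightOneSpectrum V, (∀ z, P.valuation L (Dh z) ≤ P.valuation L z) ∧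
      ∀ z, P.valuation L z ≤ 1 → P.valuation L (Dh z) < 1 := by
    intro P
    have := log F hTRV P (algebraMap (MvPolynomial σ ℂ) A h) hh hQ (Dh.restrictScalars ℤ)
      (fun z => by obtain ⟨w, hw⟩ := hJh z; exact ⟨_, hw⟩) (hJh _)
    exact ⟨this.1, this.2 hJh⟩
  have logb : ∀ P : HeightOneSpectrum V, ∀ b z, P.valuation L (Db b z) ≤ P.valuation L z := by
    intro P b
    exact (log F hTRV P (algebraMap (MvPolynomial σ ℂ) A h) hh hQ ((Db b).restrictScalars ℤ)
      (hJb b) ⟨0, by
        change Db b _ = _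
        rw [← tow, hbh, mul_zero, map_zero]⟩).1
  have hintV : ∀ (P : HeightOneSpectrum V) (z : L), IsIntegral (MvPolynomial σ ℂ) z →
      P.valuation L z ≤ 1 := by
    intro P z hz
    have h1 : IsIntegral A z := hz.tower_top
    obtain ⟨w, rfl⟩ := (IsIntegralClosure.isIntegral_iff (A := V)).mp h1
    exact P.valuation_le_one w
  -- the matrices
  obtain ⟨N2, hN2⟩ : ∃ N2 : Matrix σ σ L,
      N2 = Matrix.of fun b c => if b = b0 then Dh (x c) else Db b (x c) := ⟨_, rfl⟩
  have hv : ∀ P : HeightOneSpectrum V, P.valuation L (a * N2.det) < 1 := by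
    intro P
    have hnz : ∀ n : ℤ, P.valuation L (n : L) ≤ 1 := by
      intro n
      have := A_le (L := L) P (n : A)
      rwa [map_intCast] at this
    have h1 : P.valuation L N2.det < 1 := by
      apply det_lt _ hnz N2 b0
      · intro b c
        rw [hN2, Matrix.of_apply]
        split_ifs
        · exact ((logh P).1 _).trans (hintV P _ (hx c))
        · exact (logb P b _).trans (hintV P _ (hx c))
      · intro c
        rw [hN2, Matrix.of_apply, if_pos rfl]
        exact (logh P).2 _ (hintV P _ (hx c))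
    rw [map_mul]
    calc _ ≤ 1 * P.valuation L N2.det := mul_le_mul' (hintV P a ha) le_rfl
      _ < 1 := by rw [one_mul]; exact h1
  obtain ⟨α, hα⟩ := trc (A := A) (F := F) _ hh _ hv
  refine ⟨algebraMap (MvPolynomial σ ℂ) A (pderiv b0 h) * α, ?_⟩
  -- the determinant
  have hdet : (Matrix.of fun c b => dd b (x c)).det =
      algebraMap F L (algebraMap (MvPolynomial σ ℂ) F (pderiv b0 h) / algebraMap (MvPolynomial σ ℂ) F h) *
        N2.det := by
    have e1 : (Matrix.of fun c b => dd b (x c)).det = (Matrix.of fun b c => dd b (x c)).det := by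
      rw [← Matrix.det_transpose]; rfl
    obtain ⟨N1, hN1⟩ : ∃ N1 : Matrix σ σ L,
        N1 = Matrix.of fun b c => if b = b0 then dd b0 (x c) else Db b (x c) := ⟨_, rfl⟩
    have e2 : (Matrix.of fun b c => dd b (x c)).det = N1.det := by
      apply Matrix.det_eq_of_forall_row_eq_smul_add_const
        (fun b => if b = b0 then 0 else
          algebraMap (MvPolynomial σ ℂ) L (pderiv b h) * algebraMap A L u) b0 (by simp)
      intro b c
      rw [hN1]
      simp only [Matrix.of_apply, if_true]
      by_cases hb : b = b0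
      · subst hb
        simp
      · rw [if_neg hb, if_neg hb, hDbx]
        ring
    have e3 : N1 = Matrix.updateRow N2 b0
        ((algebraMap F L (algebraMap (MvPolynomial σ ℂ) F (pderiv b0 h) /
          algebraMap (MvPolynomial σ ℂ) F h)) • N2 b0) := by
      ext b c
      by_cases hb : b = b0
      · subst hb
        rw [Matrix.updateRow_self, Pi.smul_apply, smul_eq_mul, hN1, hN2]
        simp only [Matrix.of_apply, if_true]
        rw [hDhx, map_div₀, ← IsScalarTower.algebraMap_apply, ← IsScalarTower.algebraMap_apply]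
        have hL0 : algebraMap (MvPolynomial σ ℂ) L h ≠ 0 := by
          rw [IsScalarTower.algebraMap_apply (MvPolynomial σ ℂ) F L]
          intro h0
          rw [map_eq_zero] at h0
          exact hF0 h0
        field_simp
        calc dd b (x c) = (algebraMap (MvPolynomial σ ℂ) L (pderiv b h) * algebraMap A L u) * dd b (x c) := by
              rw [huL, one_mul]
          _ = _ := by ring
      · rw [Matrix.updateRow_ne hb, hN1, hN2]
        simp only [Matrix.of_apply, if_neg hb]
    rw [e1, e2, e3, Matrix.det_updateRow_smul, Matrix.updateRow_eq_self]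
  have e4 : a * (Matrix.of fun c b => dd b (x c)).det =
      (algebraMap (MvPolynomial σ ℂ) F (pderiv b0 h) / algebraMap (MvPolynomial σ ℂ) F h) •
        (a * N2.det) := by
    rw [hdet, Algebra.smul_def]
    ring
  rw [e4, map_smul, hα, smul_eq_mul, map_mul, map_mul, ← IsScalarTower.algebraMap_apply,
    ← IsScalarTower.algebraMap_apply]
  field_simp

end Fin

end TRHM

/-- TRH -/
theorem specTRH (hTRV : SpecTRV) : SpecTRH := by
  intro σ _ _ L _ _ _ _ _ _ _ dd a x h hdd ha hx hh
  have hp : (Ideal.span {h}).IsPrime := (Ideal.span_singleton_prime hh.ne_zero).mpr hh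
  obtain ⟨b0, hb0⟩ := TRHM.exb0 h hh
  let S : Submonoid (MvPolynomial σ ℂ) := (Ideal.span {h}).primeCompl
  have hS : S ≤ nonZeroDivisors (MvPolynomial σ ℂ) := Ideal.primeCompl_le_nonZeroDivisors _
  let A : Subalgebra (MvPolynomial σ ℂ) (FractionRing (MvPolynomial σ ℂ)) :=
    Localization.subalgebra.ofField (FractionRing (MvPolynomial σ ℂ)) S hS
  have hA : IsLocalization S ↥A := Localization.subalgebra.isLocalization_ofField _ S hS
  have hAp : IsLocalization.AtPrime ↥A (Ideal.span {h}) := hA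
  have hfA : FaithfulSMul (MvPolynomial σ ℂ) ↥A := by
    rw [faithfulSMul_iff_algebraMap_injective]
    exact IsLocalization.injective ↥A hS
  obtain ⟨hdvr, hmax⟩ := TRHM.dvr h hh ↥A
  have hb1 : IsUnit (algebraMap (MvPolynomial σ ℂ) ↥A (MvPolynomial.pderiv b0 h)) := by
    apply IsLocalization.map_units ↥A (⟨MvPolynomial.pderiv b0 h, ?_⟩ : S)
    intro hmem
    exact hb0 (Ideal.mem_span_singleton.mp hmem)
  have hchar : CharZero (FractionRing (MvPolynomial σ ℂ)) :=
    charZero_of_injective_algebraMap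
      (R := MvPolynomial σ ℂ) (IsFractionRing.injective _ _)
  have t1 : IsScalarTower ↥A (FractionRing (MvPolynomial σ ℂ)) L := inferInstance
  have t2 : IsScalarTower (MvPolynomial σ ℂ) ↥A L := by
    apply IsScalarTower.of_algebraMap_eq
    intro p
    rw [IsScalarTower.algebraMap_apply (MvPolynomial σ ℂ) (FractionRing (MvPolynomial σ ℂ)) L]
    rfl
  have hV1 : IsDedekindDomain ↥(integralClosure ↥A L) :=
    integralClosure.isDedekindDomain ↥A (FractionRing (MvPolynomial σ ℂ)) L
  have hV2 : IsFractionRing ↥(integralClosure ↥A L) L :=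
    integralClosure.isFractionRing_of_finite_extension (FractionRing (MvPolynomial σ ℂ)) L
  have hV3 : Module.Finite ↥A ↥(integralClosure ↥A L) :=
    IsIntegralClosure.finite ↥A (FractionRing (MvPolynomial σ ℂ)) L ↥(integralClosure ↥A L)
  have hAL : Function.Injective (algebraMap ↥A L) := by
    rw [IsScalarTower.algebraMap_eq ↥A (FractionRing (MvPolynomial σ ℂ)) L]
    exact (algebraMap (FractionRing (MvPolynomial σ ℂ)) L).injective.comp
      (IsFractionRing.injective ↥A (FractionRing (MvPolynomial σ ℂ)))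
  have hV4 : FaithfulSMul ↥A ↥(integralClosure ↥A L) := by
    rw [faithfulSMul_iff_algebraMap_injective]
    intro u w huw
    apply hAL
    exact congrArg Subtype.val huw
  obtain ⟨α, hα⟩ := TRHM.main (F := FractionRing (MvPolynomial σ ℂ)) (A := ↥A)
    ↥(integralClosure ↥A L) hTRV S h hmax b0 hb1 dd hdd a ha x hx
  obtain ⟨⟨r, s⟩, hrs⟩ := IsLocalization.surj S α
  refine ⟨r, s, ?_, ?_⟩
  · intro hd
    exact s.2 (Ideal.mem_span_singleton.mpr hd)
  · rw [hα]
    simp only at hrs
    rw [IsScalarTower.algebraMap_apply (MvPolynomial σ ℂ) ↥A (FractionRing (MvPolynomial σ ℂ)),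
      IsScalarTower.algebraMap_apply (MvPolynomial σ ℂ) ↥A (FractionRing (MvPolynomial σ ℂ)),
      ← map_mul, hrs]

end Pool.Agent.Lib.MPc9b009.B5
end
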