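import Pool.Agent.Lib.MP_c9b009_ag.B5.Spec
import Pool.Agent.Lib.MP_c9b009_ag.B5.Statement
import Pool.Agent.Lib.MP_c9b009_ag.B5.FINI
import Pool.Agent.Lib.MP_c9b009_ag.B5.TRH

section
/-!
# MP_c9b009_ag, row B5, module TRV: logarithmic derivations of valued fields
-/
namespace Pool.Agent.Lib.MPc9b009.B5.TRVM

open Polynomial

variable {L : Type} [Field L] {v : Valuation L (WithZero (Multiplicative ℤ))}

theorem exp_pos (n : ℤ) : (0 : WithZero (Multiplicative ℤ)) < WithZero.exp n :=
  WithZero.exp_pos

/-- the sum with the derivatives of the coefficients -/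
noncomputable def gD (D : Derivation ℤ L L) (g : L[X]) (u : L) : L :=
  ∑ n ∈ Finset.range (g.natDegree + 1), D (g.coeff n) * u ^ n

theorem deriv_eval (D : Derivation ℤ L L) (g : L[X]) (u : L) :
    D (g.eval u) = gD D g u + g.derivative.eval u * D u := by
  rw [eval_eq_sum_range, map_sum, derivative_eval, sum_over_range' _ _ (g.natDegree + 1)
    (Nat.lt_succ_self _), gD, Finset.sum_mul, ← Finset.sum_add_distrib]
  · refine Finset.sum_congr rfl fun n _ => ?_
    rw [Derivation.leibniz, Derivation.leibniz_pow]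
    simp only [smul_eq_mul, nsmul_eq_mul]
    ring
  · intro n
    simp

/-- the coefficient part is small -/
theorem gD_le {D : Derivation ℤ L L} {g : L[X]} {u : L} (hu : v u = 1)
    {γ : WithZero (Multiplicative ℤ)} (h : ∀ n, v (D (g.coeff n)) ≤ γ) : v (gD D g u) ≤ γ := by
  refine v.map_sum_le fun n _ => ?_
  rw [map_mul, map_pow, hu, one_pow, mul_one]
  exact h n

theorem gD_lt {D : Derivation ℤ L L} {g : L[X]} {u : L} (hu : v u = 1)
    (h : ∀ n, v (D (g.coeff n)) < 1) : v (gD D g u) < 1 := by
  refine v.map_sum_lt one_ne_zero fun n _ => ?_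
  rw [map_mul, map_pow, hu, one_pow, mul_one]
  exact h n

theorem int_le (hn : ∀ n : ℕ, n ≠ 0 → v (n : L) = 1) (m : ℤ) : v (m : L) ≤ 1 := by
  rcases Int.natAbs_eq m with h | h
  · rcases eq_or_ne m.natAbs 0 with h0 | h0
    · rw [h, h0]
      simp
    · rw [h, Int.cast_natCast, hn _ h0]
  · rcases eq_or_ne m.natAbs 0 with h0 | h0
    · rw [h, h0]
      simp
    · rw [h, Int.cast_neg, Valuation.map_neg, Int.cast_natCast, hn _ h0]

theorem exp_of {x : L} (hx : x ≠ 0) : ∃ m : ℤ, v x = WithZero.exp m := by
  have h : v x ≠ 0 := (v.ne_zero_iff).2 hx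
  exact ⟨WithZero.log (v x), (WithZero.exp_log h).symm⟩

end Pool.Agent.Lib.MPc9b009.B5.TRVM

namespace Pool.Agent.Lib.MPc9b009.B5

open Polynomial TRVM

theorem specTRV : SpecTRV := by
  intro L _ v K D t h c hn ht hK hg hhK hh0 hh1 hc hcD
  have ht0 : t ≠ 0 := by
    intro h0
    rw [h0, map_zero] at ht
    exact (WithZero.exp_ne_zero (a := (-1 : ℤ))) ht.symm
  -- `x = t ^ (-m) * u`, `v u = 1`
  have hdec : ∀ (x : L) (m : ℤ), v x = WithZero.exp m → v (x * t ^ m) = 1 := by
    intro x m hm
    rw [map_mul, map_zpow₀, hm, ht, ← WithZero.exp_zsmul, ← WithZero.exp_add]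
    simp
  -- one step
  have hstep : ∀ n : ℕ, (∀ x, v (D x) ≤ WithZero.exp ((n : ℤ) + 1) * v x) →
      ∀ x, v (D x) ≤ WithZero.exp (n : ℤ) * v x := by
    intro n hB
    have h1n : (1 : WithZero (Multiplicative ℤ)) ≤ WithZero.exp (n : ℤ) := by
      rw [← WithZero.exp_zero]
      exact WithZero.exp_le_exp.2 (by positivity)
    have hunit : ∀ u, v u = 1 → v (D u) ≤ WithZero.exp (n : ℤ) := by
      intro u hu
      obtain ⟨g, hgc, hg1, hg2⟩ := hg u hu
      have e := deriv_eval D g u
      have e2 : g.derivative.eval u * D u = D (g.eval u) - gD D g u := by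
        rw [e]
        ring
      have h3 : v (D u) = v (D (g.eval u) - gD D g u) := by
        rw [← e2, map_mul, hg2, one_mul]
      rw [h3]
      refine (v.map_sub _ _).trans (max_le ?_ ?_)
      · refine (hB _).trans ?_
        rcases eq_or_ne (g.eval u) 0 with h0 | h0
        · rw [h0, map_zero, mul_zero]
          exact zero_le
        · obtain ⟨m, hm⟩ := exp_of (v := v) h0
          rw [hm] at hg1 ⊢
          rw [← WithZero.exp_zero, WithZero.exp_lt_exp] at hg1
          rw [← WithZero.exp_add, WithZero.exp_le_exp]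
          omega
      · refine (gD_le hu fun j => ?_).trans h1n
        exact (hK _ (hgc j).1).trans (hgc j).2
    have hunif : v (D t) ≤ WithZero.exp ((n : ℤ) - 1) := by
      obtain ⟨m, hm⟩ := exp_of (v := v) hh0
      have hm0 : m < 0 := by
        rw [hm, ← WithZero.exp_zero, WithZero.exp_lt_exp] at hh1
        exact hh1
      obtain ⟨u, hu⟩ : ∃ u, u = h * t ^ m := ⟨_, rfl⟩
      have hu1 : v u = 1 := by rw [hu]; exact hdec h m hm
      have hhu : h = u * t ^ (-m) := by
        rw [hu, mul_assoc, ← zpow_add₀ ht0]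
        simp
      have e : D h = u * ((-m : ℤ) * t ^ (-m - 1) * D t) + t ^ (-m) * D u := by
        conv_lhs => rw [hhu]
        rw [Derivation.leibniz, Derivation.leibniz_zpow]
        simp only [smul_eq_mul, zsmul_eq_mul]
        ring
      have e2 : u * ((-m : ℤ) * t ^ (-m - 1) * D t) = D h - t ^ (-m) * D u := by
        rw [e]
        ring
      have hvm : v ((-m : ℤ) : L) = 1 := by
        obtain ⟨k, hk⟩ := Int.eq_ofNat_of_zero_le (show 0 ≤ -m by omega)
        rw [hk, Int.cast_natCast]
        exact hn k (by omega)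
      have h4 : v (u * ((-m : ℤ) * t ^ (-m - 1) * D t)) = WithZero.exp (m + 1) * v (D t) := by
        rw [map_mul, map_mul, map_mul, hu1, hvm, map_zpow₀, ht, ← WithZero.exp_zsmul, one_mul,
          one_mul]
        congr 2
        simp
        ring
      have h5 : v (D h - t ^ (-m) * D u) ≤ WithZero.exp ((n : ℤ) + m) := by
        refine (v.map_sub _ _).trans (max_le ?_ ?_)
        · refine (hK h hhK).trans ?_
          rw [hm, WithZero.exp_le_exp]
          omega
        · rw [map_mul, map_zpow₀, ht, ← WithZero.exp_zsmul]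
          refine (mul_le_mul_right (hunit u hu1) _).trans ?_
          rw [← WithZero.exp_add, WithZero.exp_le_exp]
          simp
          omega
      rw [← e2, h4] at h5
      rcases eq_or_ne (D t) 0 with h0 | h0
      · rw [h0, map_zero]
        exact zero_le
      · obtain ⟨r, hr⟩ := exp_of (v := v) h0
        rw [hr, ← WithZero.exp_add, WithZero.exp_le_exp] at h5
        rw [hr, WithZero.exp_le_exp]
        omega
    intro x
    rcases eq_or_ne x 0 with h0 | h0
    · rw [h0, map_zero, map_zero, mul_zero]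
    obtain ⟨m, hm⟩ := exp_of (v := v) h0
    obtain ⟨u, hu⟩ : ∃ u, u = x * t ^ m := ⟨_, rfl⟩
    have hu1 : v u = 1 := by rw [hu]; exact hdec x m hm
    have hxu : x = u * t ^ (-m) := by
      rw [hu, mul_assoc, ← zpow_add₀ ht0]
      simp
    have e : D x = u * ((-m : ℤ) * t ^ (-m - 1) * D t) + t ^ (-m) * D u := by
      conv_lhs => rw [hxu]
      rw [Derivation.leibniz, Derivation.leibniz_zpow]
      simp only [smul_eq_mul, zsmul_eq_mul]
      ring
    rw [e, hm, ← WithZero.exp_add]
    refine (v.map_add _ _).trans (max_le ?_ ?_)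
    · rw [map_mul, map_mul, map_mul, hu1, one_mul, map_zpow₀, ht, ← WithZero.exp_zsmul]
      calc v ((-m : ℤ) : L) * WithZero.exp ((-m - 1) • (-1 : ℤ)) * v (D t)
          ≤ 1 * WithZero.exp ((-m - 1) • (-1 : ℤ)) * WithZero.exp ((n : ℤ) - 1) := by
            gcongr
            exact int_le hn (-m)
        _ ≤ WithZero.exp ((n : ℤ) + m) := by
            rw [one_mul, ← WithZero.exp_add, WithZero.exp_le_exp]
            simp
            omega
    · rw [map_mul, map_zpow₀, ht, ← WithZero.exp_zsmul]
      calc WithZero.exp ((-m) • (-1 : ℤ)) * v (D u)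
          ≤ WithZero.exp ((-m) • (-1 : ℤ)) * WithZero.exp (n : ℤ) := by
            gcongr
            exact hunit u hu1
        _ ≤ WithZero.exp ((n : ℤ) + m) := by
            rw [← WithZero.exp_add, WithZero.exp_le_exp]
            simp
            omega
  have hall : ∀ n : ℕ, (∀ x, v (D x) ≤ WithZero.exp (n : ℤ) * v x) → ∀ x, v (D x) ≤ v x := by
    intro n
    induction n with
    | zero =>
      intro hB x
      have := hB x
      simpa using this
    | succ n ih =>
      intro hB
      refine ih (hstep n fun x => ?_)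
      have := hB x
      push_cast at this
      exact this
  have hfirst : ∀ x, v (D x) ≤ v x := by
    refine hall (WithZero.log c).toNat fun x => (hcD x).trans ?_
    gcongr
    rw [← WithZero.exp_log hc, WithZero.exp_le_exp, WithZero.log_exp]
    exact Int.self_le_toNat _
  refine ⟨hfirst, fun hK1 x hx => ?_⟩
  rcases hx.lt_or_eq with h1 | h1
  · exact (hfirst x).trans_lt h1
  · obtain ⟨g, hgc, hg1, hg2⟩ := hg x h1
    have e2 : g.derivative.eval x * D x = D (g.eval x) - gD D g x := by
      rw [deriv_eval D g x]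
      ring
    have h3 : v (D x) = v (D (g.eval x) - gD D g x) := by
      rw [← e2, map_mul, hg2, one_mul]
    rw [h3]
    refine (v.map_sub _ _).trans_lt (max_lt ((hfirst _).trans_lt hg1) ?_)
    exact gD_lt h1 fun j => hK1 _ (hgc j).1 (hgc j).2

end Pool.Agent.Lib.MPc9b009.B5
end

section
/-!
# MP_c9b009_ag, row B5 (Bondal's conjecture for `ℙ⁵`): assembly
-/
namespace Pool.Agent.Lib.MPc9b009.B5

/-- Everything together: the final statement is true. -/
theorem holds : Final := by
  have hSEL : SpecSEL := specSEL specMONO specHMIN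
  have hSOP : SpecSOP := specSOP hSEL specFINI
  have hTRA : SpecTRA := specTRA (specTRH specTRV)
  have hBST : SpecBST := specBST hSOP hTRA specDEX specCRA
  have hRKT : SpecRKT := specRKT specSKE specRKM
  have hCRIT : SpecCRIT := specCRIT hBST hRKT specBIG
  have hGRO : SpecGRO := specGRO specSKE specRKM
  have hCNT : SpecCNT := specCNT (specTHE specSKE) specEXA
  have hPRN : SpecPRN := prn_holds specHS hCNT hGRO specNUM
  have hCUT : SpecCUT := specCUT hSEL hPRN specSKE specRKM
  have hTHA : SpecTHA := specTHA hCRIT specLIFT specDET0 specMST specDMIN specHMIN hCUT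
    specSKE specRKM
  exact final hTHA (specTHB hCRIT specMST specDMIN specHMIN specDIM specSKE specRKM)

end Pool.Agent.Lib.MPc9b009.B5
end
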