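import Mathlib

/-!
# MP_c9b009_ag: Poisson structures on projective space, definitions

A holomorphic bivector field on `ℙ^{N-1}` is given by a skew-symmetric matrix `f` of quadratic forms
in the `N` homogeneous coordinates; `f` and `f + E ∧ v` (`E` the Euler field, `v` a linear vector
field) give the same bivector field.
-/

namespace Pool.Agent.Lib.MPc9b009.B5

open MvPolynomial

/-- The Jacobiator of the bivector `f`. -/
noncomputable def jac {N : ℕ} (f : Fin N → Fin N → MvPolynomial (Fin N) ℂ) (i j k : Fin N) :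
    MvPolynomial (Fin N) ℂ :=
  ∑ l, (f i l * pderiv l (f j k) + f j l * pderiv l (f k i) + f k l * pderiv l (f i j))

/-- Skew-symmetric matrices of quadratic forms. -/
structure Biv (N : ℕ) where
  /-- the entries -/
  f : Fin N → Fin N → MvPolynomial (Fin N) ℂ
  skew : ∀ i j, f j i = - f i j
  quad : ∀ i j, (f i j).IsHomogeneous 2

/-- A Poisson structure on `ℙ^{N-1}`: a skew-symmetric matrix `f` of quadratic forms whose
Jacobiator is zero modulo the Euler field, `[f, f] ∧ E = 0`. -/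
structure Pois (N : ℕ) extends Biv N where
  jacE : ∀ i j k l, X i * jac f j k l - X j * jac f i k l + X k * jac f i j l
    - X l * jac f i j k = 0

/-- The matrix of values at a vector. -/
noncomputable def mat {N : ℕ} (f : Fin N → Fin N → MvPolynomial (Fin N) ℂ) (x : Fin N → ℂ) :
    Matrix (Fin N) (Fin N) ℂ :=
  Matrix.of fun i j => eval x (f i j)

/-- The linear form `ξ ↦ ∑ ξ_i x_i`. -/
noncomputable def dot {N : ℕ} (x : Fin N → ℂ) : (Fin N → ℂ) →ₗ[ℂ] ℂ :=
  ∑ i, x i • LinearMap.proj i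

/-- The rank of the bivector field at the point `[x]`: the rank of the map
`ξ ↦ f(x) ξ mod x` on the space `{ξ : ξ(x) = 0}` (the cotangent space of the projective space)
to `ℂ^N / ℂ x` (the tangent space). -/
noncomputable def rk {N : ℕ} (f : Fin N → Fin N → MvPolynomial (Fin N) ℂ) (x : Fin N → ℂ) : ℕ :=
  Module.finrank ℂ (Submodule.map
    ((Submodule.span ℂ {x}).mkQ ∘ₗ (mat f x).mulVecLin) (LinearMap.ker (dot x)))

/-- The vanishing ideal of `X_{≤ s} = {[x] : rank ≤ s}`. -/
def van {N : ℕ} (f : Fin N → Fin N → MvPolynomial (Fin N) ℂ) (s : ℕ) :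
    Ideal (MvPolynomial (Fin N) ℂ) where
  carrier := {g | ∀ x : Fin N → ℂ, x ≠ 0 → rk f x ≤ s → eval x g = 0}
  add_mem' := by
    intro a b ha hb x hx hr
    rw [map_add, ha x hx hr, hb x hx hr, add_zero]
  zero_mem' := by
    intro x _ _
    exact map_zero _
  smul_mem' := by
    intro c g hg x hx hr
    rw [smul_eq_mul, map_mul, hg x hx hr, mul_zero]

/-- `X_{≤ s}` has an irreducible component of dimension `≥ s + 1`: a minimal prime `P` of the
vanishing ideal with transcendence degree (`= 1 + dim` of the component) at least `s + 2`. -/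
def Big {N : ℕ} (f : Fin N → Fin N → MvPolynomial (Fin N) ℂ) (s : ℕ) : Prop :=
  ∃ P ∈ (van f s).minimalPrimes,
    ((s + 2 : ℕ) : Cardinal) ≤ Algebra.trdeg ℂ (MvPolynomial (Fin N) ℂ ⧸ P)

/-- `g` is a quadratic Poisson lift of the bivector field `f`: a quadratic Poisson structure on
`ℂ^N` with `g = f + E ∧ v`, `v` linear. -/
def IsLift {N : ℕ} (f : Fin N → Fin N → MvPolynomial (Fin N) ℂ) (g : Biv N) : Prop :=
  (∀ i j k, jac g.f i j k = 0) ∧ ∃ v : Fin N → MvPolynomial (Fin N) ℂ,
    (∀ i, (v i).IsHomogeneous 1) ∧ ∀ i j, g.f i j = f i j + (X i * v j - X j * v i)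

/-- Homogeneous ideals. -/
def Hom {N : ℕ} (p : Ideal (MvPolynomial (Fin N) ℂ)) : Prop :=
  ∀ g ∈ p, ∀ d, homogeneousComponent d g ∈ p

/-- The ideal `p` is stable under the vector fields given by the columns of `π`. -/
def Stab {N r : ℕ} (π : Fin N → Fin r → MvPolynomial (Fin N) ℂ)
    (p : Ideal (MvPolynomial (Fin N) ℂ)) : Prop :=
  ∀ g ∈ p, ∀ j, ∑ i, π i j * pderiv i g ∈ p

/-- Minors. -/
noncomputable def mnr {N r k : ℕ} (π : Fin N → Fin r → MvPolynomial (Fin N) ℂ)
    (I : Fin k → Fin N) (J : Fin k → Fin r) : MvPolynomial (Fin N) ℂ :=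
  (Matrix.of fun a b => π (I a) (J b)).det

/-- Minors of `[x | π]` containing the column `x`. -/
noncomputable def xmnr {N r ρ : ℕ} (π : Fin N → Fin r → MvPolynomial (Fin N) ℂ)
    (I : Fin (ρ + 1) → Fin N) (J : Fin ρ → Fin r) : MvPolynomial (Fin N) ℂ :=
  (Matrix.of fun (a : Fin (ρ + 1)) (b : Fin (ρ + 1)) =>
    (Fin.cons (X (I a)) (fun b' => π (I a) (J b')) : Fin (ρ + 1) → MvPolynomial (Fin N) ℂ) b).det

/-- The homogeneous vectors of degree `a`. -/
noncomputable def hv (v N a : ℕ) : Submodule ℂ (Fin N → MvPolynomial (Fin v) ℂ) :=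
  Submodule.pi Set.univ fun _ => homogeneousSubmodule (Fin v) ℂ a

/-- The homogeneous vectors of degree `a` in the kernel of `A`. -/
noncomputable def hk {v N : ℕ} (A : Matrix (Fin N) (Fin N) (MvPolynomial (Fin v) ℂ)) (a : ℕ) :
    Submodule ℂ (Fin N → MvPolynomial (Fin v) ℂ) :=
  hv v N a ⊓ LinearMap.ker (A.mulVecLin.restrictScalars ℂ)

end Pool.Agent.Lib.MPc9b009.B5
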