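import Pool.Agent.Lib.MP_c9b009_ag.B5.Defs

/-!
# MP_c9b009_ag, row B5 (Bondal's conjecture for `ℙ⁵`): statements of the modules

Paper: `/team-store/MP_c9b009_bondal.md` (section numbers refer to it).
-/

namespace Pool.Agent.Lib.MPc9b009.B5

open MvPolynomial

/-! ### Dimension theory with transcendence degrees -/

/-- MONO: the transcendence degree drops strictly along inclusions of primes. -/
def SpecMONO : Prop := ∀ (N : ℕ) (p q : Ideal (MvPolynomial (Fin N) ℂ)), p.IsPrime → q.IsPrime →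
  p < q → Algebra.trdeg ℂ (MvPolynomial (Fin N) ℂ ⧸ q) + 1
    ≤ Algebra.trdeg ℂ (MvPolynomial (Fin N) ℂ ⧸ p)

/-- HMIN: minimal primes of homogeneous ideals are homogeneous. -/
def SpecHMIN : Prop := ∀ (N : ℕ) (I : Ideal (MvPolynomial (Fin N) ℂ)), Hom I →
  ∀ p ∈ I.minimalPrimes, Hom p

/-- SEL (1a): generic selection. `g` a finite family of forms of one degree `d ≥ 1`, finitely many
homogeneous ideals `I i` with bounds: all homogeneous primes over `I i` have transcendence degree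
`≤ M + t i`, those which contain all `g k` have transcendence degree `≤ t i`. Then `M` linear
combinations of the `g k` reduce the transcendence degrees to `≤ t i` for all `i`. -/
def SpecSEL : Prop := ∀ (N M n : ℕ) (I : Fin n → Ideal (MvPolynomial (Fin N) ℂ)) (t : Fin n → ℕ)
  (ι : Type) (_ : Fintype ι) (d : ℕ) (g : ι → MvPolynomial (Fin N) ℂ),
  1 ≤ d → (∀ k, (g k).IsHomogeneous d) → (∀ i, Hom (I i)) →
  (∀ i, ∀ q : Ideal (MvPolynomial (Fin N) ℂ), q.IsPrime → Hom q → I i ≤ q →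
    Algebra.trdeg ℂ (MvPolynomial (Fin N) ℂ ⧸ q) ≤ ((M + t i : ℕ) : Cardinal)) →
  (∀ i, ∀ q : Ideal (MvPolynomial (Fin N) ℂ), q.IsPrime → Hom q → I i ≤ q → (∀ k, g k ∈ q) →
    Algebra.trdeg ℂ (MvPolynomial (Fin N) ℂ ⧸ q) ≤ ((t i : ℕ) : Cardinal)) →
  ∃ c : Fin M → ι → ℂ, ∀ i, ∀ q : Ideal (MvPolynomial (Fin N) ℂ), q.IsPrime → Hom q → I i ≤ q →
    (∀ j, ∑ k, C (c j k) * g k ∈ q) →
    Algebra.trdeg ℂ (MvPolynomial (Fin N) ℂ ⧸ q) ≤ ((t i : ℕ) : Cardinal)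

/-- FINI (1a): if `p` is a homogeneous prime and `y` a finite family of homogeneous elements of
positive degrees such that all homogeneous primes over `p + (y)` have transcendence degree 0, then
`S/p` is integral over `ℂ[y]`. -/
def SpecFINI : Prop := ∀ (N : ℕ) (p : Ideal (MvPolynomial (Fin N) ℂ)), p.IsPrime → Hom p →
  ∀ (σ : Type) (_ : Fintype σ) (y : σ → MvPolynomial (Fin N) ℂ) (d : σ → ℕ),
  (∀ b, 1 ≤ d b) → (∀ b, (y b).IsHomogeneous (d b)) →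
  (∀ q : Ideal (MvPolynomial (Fin N) ℂ), q.IsPrime → Hom q → p ≤ q → (∀ b, y b ∈ q) →
    Algebra.trdeg ℂ (MvPolynomial (Fin N) ℂ ⧸ q) ≤ 0) →
  ∀ z : MvPolynomial (Fin N) ℂ ⧸ p,
    IsIntegral (Algebra.adjoin ℂ (Set.range fun b => Ideal.Quotient.mk p (y b))) z

/-- SOP (1a). -/
def SpecSOP : Prop := ∀ (N M m : ℕ) (p : Ideal (MvPolynomial (Fin N) ℂ)), p.IsPrime → Hom p →
  Algebra.trdeg ℂ (MvPolynomial (Fin N) ℂ ⧸ p) = ((M + m : ℕ) : Cardinal) →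
  ∀ (ι : Type) (_ : Fintype ι) (d : ℕ) (g : ι → MvPolynomial (Fin N) ℂ),
  1 ≤ d → (∀ k, (g k).IsHomogeneous d) →
  (∀ q : Ideal (MvPolynomial (Fin N) ℂ), q.IsPrime → Hom q → p ≤ q → (∀ k, g k ∈ q) →
    Algebra.trdeg ℂ (MvPolynomial (Fin N) ℂ ⧸ q) ≤ ((m : ℕ) : Cardinal)) →
  ∃ (c : Fin M → ι → ℂ) (l : Fin m → Fin N → ℂ),
    AlgebraicIndependent ℂ (Sum.elim (fun j => Ideal.Quotient.mk p (∑ k, C (c j k) * g k))
      (fun j => Ideal.Quotient.mk p (∑ k, C (l j k) * X k)) :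
        Fin M ⊕ Fin m → MvPolynomial (Fin N) ℂ ⧸ p) ∧
    ∀ z : MvPolynomial (Fin N) ℂ ⧸ p, IsIntegral (Algebra.adjoin ℂ (Set.range
      (Sum.elim (fun j => Ideal.Quotient.mk p (∑ k, C (c j k) * g k))
      (fun j => Ideal.Quotient.mk p (∑ k, C (l j k) * X k)) :
        Fin M ⊕ Fin m → MvPolynomial (Fin N) ℂ ⧸ p))) z

/-! ### Traces of Jacobians (Lemma T, section 2) -/

/-- TRV: log derivations of valued fields. -/
def SpecTRV : Prop := ∀ (L : Type) (_ : Field L) (v : Valuation L (WithZero (Multiplicative ℤ)))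
  (K : Subfield L) (D : Derivation ℤ L L) (t h : L) (c : WithZero (Multiplicative ℤ)),
  (∀ n : ℕ, n ≠ 0 → v (n : L) = 1) →
  v t = WithZero.exp (-1 : ℤ) →
  (∀ r ∈ K, v (D r) ≤ v r) →
  (∀ u, v u = 1 → ∃ g : Polynomial L, (∀ n, g.coeff n ∈ K ∧ v (g.coeff n) ≤ 1) ∧
    v (g.eval u) < 1 ∧ v (g.derivative.eval u) = 1) →
  h ∈ K → h ≠ 0 → v h < 1 →
  c ≠ 0 → (∀ x, v (D x) ≤ c * v x) →
  (∀ x, v (D x) ≤ v x) ∧
    ((∀ r ∈ K, v r ≤ 1 → v (D r) < 1) → ∀ x, v x ≤ 1 → v (D x) < 1)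

/-- DEX: the derivations `∂/∂X_b` extend to finite extensions of the rational function field, and
every derivation is a combination of them. -/
def SpecDEX : Prop := ∀ (σ : Type) (_ : Fintype σ) (_ : DecidableEq σ) (L : Type) (_ : Field L)
  (_ : Algebra (MvPolynomial σ ℂ) L) (_ : Algebra (FractionRing (MvPolynomial σ ℂ)) L)
  (_ : IsScalarTower (MvPolynomial σ ℂ) (FractionRing (MvPolynomial σ ℂ)) L)
  (_ : Algebra ℂ L) (_ : IsScalarTower ℂ (MvPolynomial σ ℂ) L)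
  (_ : FiniteDimensional (FractionRing (MvPolynomial σ ℂ)) L),
  ∃ dd : σ → Derivation ℂ L L,
    (∀ b c, dd b (algebraMap (MvPolynomial σ ℂ) L (X c)) = if b = c then 1 else 0) ∧
    ∀ D : Derivation ℂ L L, ∀ x : L, D x = ∑ b, D (algebraMap (MvPolynomial σ ℂ) L (X b)) * dd b x

/-- TRH: the trace of a Jacobian is integral at a prime element `h`. -/
def SpecTRH : Prop := ∀ (σ : Type) (_ : Fintype σ) (_ : DecidableEq σ) (L : Type) (_ : Field L)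
  (_ : Algebra (MvPolynomial σ ℂ) L) (_ : Algebra (FractionRing (MvPolynomial σ ℂ)) L)
  (_ : IsScalarTower (MvPolynomial σ ℂ) (FractionRing (MvPolynomial σ ℂ)) L)
  (_ : Algebra ℂ L) (_ : IsScalarTower ℂ (MvPolynomial σ ℂ) L)
  (_ : FiniteDimensional (FractionRing (MvPolynomial σ ℂ)) L)
  (dd : σ → Derivation ℂ L L) (a : L) (x : σ → L) (h : MvPolynomial σ ℂ),
  (∀ b c, dd b (algebraMap (MvPolynomial σ ℂ) L (X c)) = if b = c then 1 else 0) →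
  IsIntegral (MvPolynomial σ ℂ) a → (∀ c, IsIntegral (MvPolynomial σ ℂ) (x c)) → Prime h →
  ∃ r s : MvPolynomial σ ℂ, ¬ h ∣ s ∧
    Algebra.trace (FractionRing (MvPolynomial σ ℂ)) L (a * (Matrix.of fun c b => dd b (x c)).det)
      * algebraMap _ _ s = algebraMap _ _ r

/-- TRA: Lemma T. -/
def SpecTRA : Prop := ∀ (σ : Type) (_ : Fintype σ) (_ : DecidableEq σ) (L : Type) (_ : Field L)
  (_ : Algebra (MvPolynomial σ ℂ) L) (_ : Algebra (FractionRing (MvPolynomial σ ℂ)) L)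
  (_ : IsScalarTower (MvPolynomial σ ℂ) (FractionRing (MvPolynomial σ ℂ)) L)
  (_ : Algebra ℂ L) (_ : IsScalarTower ℂ (MvPolynomial σ ℂ) L)
  (_ : FiniteDimensional (FractionRing (MvPolynomial σ ℂ)) L)
  (dd : σ → Derivation ℂ L L) (a : L) (x : σ → L),
  (∀ b c, dd b (algebraMap (MvPolynomial σ ℂ) L (X c)) = if b = c then 1 else 0) →
  IsIntegral (MvPolynomial σ ℂ) a → (∀ c, IsIntegral (MvPolynomial σ ℂ) (x c)) →
  ∃ r : MvPolynomial σ ℂ,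
    Algebra.trace (FractionRing (MvPolynomial σ ℂ)) L (a * (Matrix.of fun c b => dd b (x c)).det)
      = algebraMap _ _ r

/-! ### The determinant identity (1e) -/

/-- CRA (1e): `P` an `A`-submodule of `L^σ`, `σ = Fin M ⊕ Fin m`, `J` the `A`-submodule of `L`
spanned by the determinants with all rows in `P`. -/
def SpecCRA : Prop := ∀ (A L : Type) (_ : CommRing A) (_ : Field L) (_ : Algebra A L) (M m : ℕ)
  (P : Submodule A (Fin M ⊕ Fin m → L)) (E : (Fin M ⊕ Fin m → L) →ₗ[L] L)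
  (q : Fin M → A) (l : Fin m → A) (U V : Fin M → (Fin M ⊕ Fin m → L))
  (W : Fin m → (Fin M ⊕ Fin m → L)),
  (∀ i, algebraMap A L (q i) ≠ 0) →
  (∀ i, U i ∈ P) → (∀ i, V i ∈ P) → (∀ j, W j ∈ P) →
  (∀ i, E (U i) = algebraMap A L (q i)) → (∀ i, E (V i) = algebraMap A L (q i)) →
  (∀ j, E (W j) = algebraMap A L (l j)) →
  (Matrix.of (Sum.elim V W)).det = 0 →
  ∃ (u : Fin M → L) (w : Fin m → L),
    (∀ i, u i ∈ Submodule.span A {z : L | ∃ R : Fin M ⊕ Fin m → (Fin M ⊕ Fin m → L),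
      (∀ s, R s ∈ P) ∧ z = (Matrix.of R).det}) ∧
    (∀ j, w j ∈ Submodule.span A {z : L | ∃ R : Fin M ⊕ Fin m → (Fin M ⊕ Fin m → L),
      (∀ s, R s ∈ P) ∧ z = (Matrix.of R).det}) ∧
    (∏ i, algebraMap A L (q i)) * (Matrix.of (Sum.elim U W)).det
      = ∑ i, algebraMap A L (q i) ^ 2 * u i + ∑ j, algebraMap A L (l j) * w j

/-! ### Theorem B* (section 1) -/

/-- BST: Theorem B*. -/
def SpecBST : Prop := ∀ (N r ρ e : ℕ) (π : Fin N → Fin r → MvPolynomial (Fin N) ℂ)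
  (p : Ideal (MvPolynomial (Fin N) ℂ)), p.IsPrime → Hom p →
  (∀ i j, (π i j).IsHomogeneous e) → Stab π p →
  (∀ (I : Fin (ρ + 1) → Fin N) (J : Fin (ρ + 1) → Fin r), mnr π I J ∈ p) → 1 ≤ ρ →
  ((ρ : ℕ) : Cardinal) ≤ Algebra.trdeg ℂ (MvPolynomial (Fin N) ℂ ⧸ p) →
  ∃ q : Ideal (MvPolynomial (Fin N) ℂ), q.IsPrime ∧ Hom q ∧ p ≤ q ∧
    (∀ (I : Fin (ρ + 1) → Fin N) (J : Fin ρ → Fin r), xmnr π I J ∈ q) ∧
    ((ρ : ℕ) : Cardinal) ≤ Algebra.trdeg ℂ (MvPolynomial (Fin N) ℂ ⧸ q)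

/-! ### Poisson part (section 3) -/

/-- LIFT (3a): every Poisson structure has a unimodular quadratic Poisson lift. -/
def SpecLIFT : Prop := ∀ (N : ℕ) (τ : Pois N), ∃ g : Biv N, IsLift τ.f g ∧
  ∀ j, ∑ i, pderiv i (g.f i j) = 0

/-- DET0 (3b). -/
def SpecDET0 : Prop := ∀ (N : ℕ) (g : Biv N), 1 ≤ N → (∀ i j k, jac g.f i j k = 0) →
  (∀ j, ∑ i, pderiv i (g.f i j) = 0) → (Matrix.of g.f).det = 0

/-- MST (3c): the ideal of `k`-minors is stable and homogeneous. -/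
def SpecMST : Prop := ∀ (N k : ℕ) (g : Biv N), (∀ i j l, jac g.f i j l = 0) →
  Stab g.f (Ideal.span {z | ∃ I J : Fin k → Fin N, z = mnr g.f I J}) ∧
  Hom (Ideal.span {z | ∃ I J : Fin k → Fin N, z = mnr g.f I J})

/-- DMIN (3c): minimal primes of a stable ideal are stable. -/
def SpecDMIN : Prop := ∀ (N r : ℕ) (π : Fin N → Fin r → MvPolynomial (Fin N) ℂ)
  (I : Ideal (MvPolynomial (Fin N) ℂ)), Stab π I → ∀ p ∈ I.minimalPrimes, Stab π p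

/-- DIM (3d). -/
def SpecDIM : Prop := ∀ (N r k : ℕ) (π : Fin N → Fin r → MvPolynomial (Fin N) ℂ)
  (p : Ideal (MvPolynomial (Fin N) ℂ)), p.IsPrime → Stab π p →
  (∃ (I : Fin k → Fin N) (J : Fin k → Fin r), mnr π I J ∉ p) →
  ((k : ℕ) : Cardinal) ≤ Algebra.trdeg ℂ (MvPolynomial (Fin N) ℂ ⧸ p)

/-- SKE: the rank of a skew-symmetric matrix is even. -/
def SpecSKE : Prop := ∀ (F : Type) (_ : Field F) (_ : CharZero F) (N k : ℕ)
  (A : Matrix (Fin N) (Fin N) F), A.transpose = - A → A.rank ≤ 2 * k + 1 → A.rank ≤ 2 * k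

/-- RKM: minors and rank over a field. -/
def SpecRKM : Prop := ∀ (F : Type) (_ : Field F) (a b k : ℕ) (A : Matrix (Fin a) (Fin b) F),
  (∀ (I : Fin (k + 1) → Fin a) (J : Fin (k + 1) → Fin b),
    (Matrix.of fun s t => A (I s) (J t)).det = 0) ↔ A.rank ≤ k

/-- RKT (3e): at a point `x ≠ 0` where all `(ρ+1)`-minors of `g` and of `[x | g]` vanish,
`ρ = s + 2` even, the rank of the bivector is `≤ s`. -/
def SpecRKT : Prop := ∀ (N s : ℕ) (f : Fin N → Fin N → MvPolynomial (Fin N) ℂ) (g : Biv N)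
  (x : Fin N → ℂ), Even s → IsLift f g → x ≠ 0 →
  (∀ I J : Fin (s + 3) → Fin N, eval x (mnr g.f I J) = 0) →
  (∀ (I : Fin (s + 3) → Fin N) (J : Fin (s + 2) → Fin N), eval x (xmnr g.f I J) = 0) →
  rk f x ≤ s

/-- BIG (3e): a homogeneous prime of transcendence degree `≥ s + 2` whose zeros have rank `≤ s`
gives `Big`. -/
def SpecBIG : Prop := ∀ (N s : ℕ) (f : Fin N → Fin N → MvPolynomial (Fin N) ℂ)
  (q : Ideal (MvPolynomial (Fin N) ℂ)), q.IsPrime → Hom q →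
  (∀ x : Fin N → ℂ, x ≠ 0 → (∀ g ∈ q, eval x g = 0) → rk f x ≤ s) →
  ((s + 2 : ℕ) : Cardinal) ≤ Algebra.trdeg ℂ (MvPolynomial (Fin N) ℂ ⧸ q) → Big f s

/-- CRIT: from a stable prime with rank `≤ s+2` and dimension `≥ s+2` to `Big`. -/
def SpecCRIT : Prop := ∀ (N s : ℕ) (f : Fin N → Fin N → MvPolynomial (Fin N) ℂ) (g : Biv N)
  (p : Ideal (MvPolynomial (Fin N) ℂ)), Even s → IsLift f g → p.IsPrime → Hom p → Stab g.f p →
  (∀ I J : Fin (s + 3) → Fin N, mnr g.f I J ∈ p) →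
  ((s + 2 : ℕ) : Cardinal) ≤ Algebra.trdeg ℂ (MvPolynomial (Fin N) ℂ ⧸ p) → Big f s

/-- THB: Theorem B. -/
def SpecTHB : Prop := ∀ (N s : ℕ) (f : Fin N → Fin N → MvPolynomial (Fin N) ℂ) (g : Biv N),
  Even s → IsLift f g →
  ((∃ x : Fin N → ℂ, (mat g.f x).rank = s + 2) ∨
    (∃ p : Ideal (MvPolynomial (Fin N) ℂ), p.IsPrime ∧ Hom p ∧ Stab g.f p ∧
      ((s + 2 : ℕ) : Cardinal) ≤ Algebra.trdeg ℂ (MvPolynomial (Fin N) ℂ ⧸ p) ∧
      Algebra.trdeg ℂ (MvPolynomial (Fin N) ℂ ⧸ p) ≤ ((s + 3 : ℕ) : Cardinal))) → Big f s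

/-! ### Numerical part (section 5) -/

/-- HS (5d): the Hilbert function of the kernel of a matrix of forms is eventually polynomial. -/
def SpecHS : Prop := ∀ (v N e : ℕ) (A : Matrix (Fin N) (Fin N) (MvPolynomial (Fin v) ℂ)),
  (∀ i j, (A i j).IsHomogeneous e) → ∃ (P : Polynomial ℚ) (a₀ : ℕ), ∀ a, a₀ ≤ a →
    (Module.finrank ℂ (hk A a) : ℚ) = P.eval (a : ℚ)

/-- THE (5a): the rank two kernel is generated up to finite length by a skew matrix `Θ`. -/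
def SpecTHE : Prop := ∀ (N : ℕ) (A : Matrix (Fin N) (Fin N) (MvPolynomial (Fin 4) ℂ)),
  Even N → (∀ i j, A j i = - A i j) → (∀ i j, (A i j).IsHomogeneous 2) → A.det = 0 →
  (∀ y : Fin 4 → ℂ, y ≠ 0 → N ≤ (Matrix.of fun i j => eval y (A i j)).rank + 2) →
  ∃ (th : ℕ) (T : Matrix (Fin N) (Fin N) (MvPolynomial (Fin 4) ℂ)),
    (∀ i j, T j i = - T i j) ∧ (∀ i j, (T i j).IsHomogeneous th) ∧ A * T = 0 ∧ T ≠ 0 ∧
    (∀ z, (∀ i j, z ∣ T i j) → IsUnit z) ∧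
    (∀ i j k l, T i j * T k l - T i k * T j l + T i l * T j k = 0)

/-- EXA (5b), (5c): exactness in large degrees. -/
def SpecEXA : Prop := ∀ (N th : ℕ) (A T : Matrix (Fin N) (Fin N) (MvPolynomial (Fin 4) ℂ)),
  Even N → (∀ i j, A j i = - A i j) → (∀ i j, (A i j).IsHomogeneous 2) → A.det = 0 →
  (∀ y : Fin 4 → ℂ, y ≠ 0 → N ≤ (Matrix.of fun i j => eval y (A i j)).rank + 2) →
  (∀ i j, T j i = - T i j) → (∀ i j, (T i j).IsHomogeneous th) → A * T = 0 → T ≠ 0 →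
  (∀ z, (∀ i j, z ∣ T i j) → IsUnit z) →
  (∀ i j k l, T i j * T k l - T i k * T j l + T i l * T j k = 0) →
  ∃ a₀ : ℕ, ∀ a, a₀ ≤ a →
    (∀ w ∈ hk A (a + 2 + th), ∃ z ∈ hv 4 N (a + 2), T.mulVec z = w) ∧
    (∀ w ∈ hk T (a + 2), ∃ z ∈ hv 4 N a, A.mulVec z = w)

/-- CNT (5c): the recursion for the Hilbert function. -/
def SpecCNT : Prop := ∀ (N : ℕ) (A : Matrix (Fin N) (Fin N) (MvPolynomial (Fin 4) ℂ)),
  Even N → (∀ i j, A j i = - A i j) → (∀ i j, (A i j).IsHomogeneous 2) → A.det = 0 →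
  (∀ y : Fin 4 → ℂ, y ≠ 0 → N ≤ (Matrix.of fun i j => eval y (A i j)).rank + 2) →
  ∃ th a₀ : ℕ, ∀ a, a₀ ≤ a → Module.finrank ℂ (hk A (a + 2 + th))
    = Module.finrank ℂ (hk A a) + N * (a + 3) ^ 2

/-- GRO (5e): growth of the Hilbert function of a kernel of rank two. -/
def SpecGRO : Prop := ∀ (N : ℕ) (A : Matrix (Fin N) (Fin N) (MvPolynomial (Fin 4) ℂ)),
  Even N → (∀ i j, A j i = - A i j) → (∀ i j, (A i j).IsHomogeneous 2) → A.det = 0 →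
  (∀ y : Fin 4 → ℂ, y ≠ 0 → N ≤ (Matrix.of fun i j => eval y (A i j)).rank + 2) →
  ∃ c : ℕ, (∀ a, 3 * Module.finrank ℂ (hk A a) ≤ (a + 3) ^ 3) ∧
    (∀ a, a ^ 3 ≤ 3 * Module.finrank ℂ (hk A (a + c)))

/-- NUM (5e): arithmetic. -/
def SpecNUM : Prop := ∀ (N th c a₀ : ℕ) (k : ℕ → ℕ) (P : Polynomial ℚ), 6 ∣ N →
  (∀ a, a₀ ≤ a → (k a : ℚ) = P.eval (a : ℚ)) →
  (∀ a, a₀ ≤ a → k (a + 2 + th) = k a + N * (a + 3) ^ 2) →
  (∀ a, 3 * k a ≤ (a + 3) ^ 3) → (∀ a, a ^ 3 ≤ 3 * k (a + c)) → False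

/-- PRN (Proposition N). -/
def SpecPRN : Prop := ∀ (N : ℕ) (A : Matrix (Fin N) (Fin N) (MvPolynomial (Fin 4) ℂ)), 6 ∣ N →
  (∀ i j, A j i = - A i j) → (∀ i j, (A i j).IsHomogeneous 2) → A.det = 0 →
  ∃ y : Fin 4 → ℂ, y ≠ 0 ∧ (Matrix.of fun i j => eval y (A i j)).rank + 3 ≤ N

/-- CUT (Proposition C). -/
def SpecCUT : Prop := ∀ (N : ℕ) (g : Biv N), 6 ∣ N → 0 < N → (Matrix.of g.f).det = 0 →
  ∃ p ∈ (Ideal.span {z | ∃ I J : Fin (N - 3) → Fin N, z = mnr g.f I J}).minimalPrimes,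
    ((N - 3 : ℕ) : Cardinal) ≤ Algebra.trdeg ℂ (MvPolynomial (Fin N) ℂ ⧸ p)

/-- THA: Theorem A. -/
def SpecTHA : Prop := ∀ (N s : ℕ) (τ : Pois N), 6 ∣ N → Even s → N ≤ s + 6 → s + 1 < N →
  Big τ.f s

end Pool.Agent.Lib.MPc9b009.B5
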